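import Pool.Agent.H43.HX.Lev

/-!
# [H43 HX FR6] All frequencies

PROOF. As `SI.freq` (`SI.freq_abs`), with `lev` in place of the middle estimate and `T1 = X^(5/6-ε)`: `b t = ‖bp χ e t‖^2`, `T2 = ℓ^A0`,
`M = ℓ^(-A-1)`, `P = 3C (3ℓ)^Bm` (`SI.mvp`; `T1 <= 2^S`), `K = (3ℓ)^12 * 4 ℓ^(2A0-2A1)`, `A1 = 2A0 + A + 20`; `δ T1 >= X^ε`, so
`2P/(δT1)^2 <= ℓ^(-A-1)`.
-/

namespace Pool.Agent.H43.HX

open Finset MeasureTheory

theorem fr6 (B A ε : ℝ) (hB : 0 < B) (hA : 0 < A) (hε : 0 < ε) (hε1 : ε ≤ 1 / 12) :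
    ∃ A1 X0 : ℝ, 0 < A1 ∧ 10 ≤ X0 ∧ ∀ X : ℝ, X0 ≤ X →
    ∀ (q : ℕ) [NeZero q], (q : ℝ) ≤ (Real.log X) ^ B → ∀ (χ : DirichletCharacter ℂ q) (δ : ℝ),
    X ^ (-(5 : ℝ) / 6 + 2 * ε) ≤ δ → δ ≤ (Real.log X) ^ (-A1) →
    ∀ e : Fin 6 → ℕ, X ≤ 2 ^ (∑ i, e i) → (2 : ℝ) ^ (∑ i, e i) ≤ 2 ^ 9 * X →
    (∀ i, (2 : ℝ) ^ (e i) ≤ X ^ ((5 : ℝ) / 12)) →
    ∫ t : ℝ, ‖SI.bp χ e t‖ ^ 2 * SI.mul δ ((Real.log X) ^ (-A1)) t ≤ (Real.log X) ^ (-A) := by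
  obtain ⟨C, hC, Bm, hmvp⟩ := SI.mvp
  obtain ⟨A0, X01, hA0pos, hX01, hlev⟩ := lev B (A + 1) ε hB (by linarith) hε hε1
  set A1 := 2 * A0 + A + 20 with hA1
  -- conditions on X
  have ev1 : ∀ᶠ X : ℝ in Filter.atTop, (8 * 4 * 3 ^ 12 : ℝ) ≤ Real.log X :=
    Real.tendsto_log_atTop.eventually_ge_atTop _
  have ev3 : ∀ᶠ X : ℝ in Filter.atTop,
      24 * C * 3 ^ Bm * (Real.log X) ^ (A + Bm) ≤ X ^ (2 * ε) := by
    have h := (isLittleO_log_rpow_rpow_atTop (A + Bm) (s := 2 * ε) (by linarith)).bound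
      (c := 1 / (24 * C * 3 ^ Bm)) (by positivity)
    filter_upwards [h, Filter.eventually_ge_atTop (1 : ℝ)] with X hX hX1
    rw [Real.norm_eq_abs, Real.norm_eq_abs,
      abs_of_nonneg (Real.rpow_nonneg (by linarith : 0 ≤ X) _)] at hX
    have h1 := le_trans (le_abs_self _) hX
    calc 24 * C * 3 ^ Bm * (Real.log X) ^ (A + Bm)
        ≤ 24 * C * 3 ^ Bm * (1 / (24 * C * 3 ^ Bm) * X ^ (2 * ε)) := by gcongr
      _ = X ^ (2 * ε) := by field_simp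
  obtain ⟨X1, hX1⟩ := Filter.eventually_atTop.1 (ev1.and ev3)
  refine ⟨A1, max X1 X01, by positivity, le_trans hX01 (le_max_right _ _), ?_⟩
  intro X hX q _ hq χ δ hδ1 hδ2 e he1 he2 he3
  obtain ⟨c1, c3⟩ := hX1 X (le_trans (le_max_left _ _) hX)
  have hXX01 : X01 ≤ X := le_trans (le_max_right _ _) hX
  have hX10 : 10 ≤ X := le_trans hX01 hXX01
  have hXpos : 0 < X := by linarith
  have hXone : 1 ≤ X := by linarith
  set ℓ := Real.log X with hℓ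
  have hℓbig : 8 * 4 * 3 ^ 12 ≤ ℓ := c1
  have hℓ100 : 100 ≤ ℓ := by
    refine le_trans ?_ hℓbig
    norm_num
  have hℓpos : 0 < ℓ := by linarith
  have hℓone : 1 ≤ ℓ := by linarith
  have hl2a : (0.6931471803 : ℝ) < Real.log 2 := Real.log_two_gt_d9
  have hl2b : Real.log 2 < 0.6931471808 := Real.log_two_lt_d9
  set S := ∑ i, e i with hS
  -- the size of S
  have hSlog : (S : ℝ) * Real.log 2 ≤ 9 * Real.log 2 + ℓ := by
    have h1 := Real.log_le_log (by positivity) he2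
    rw [Real.log_pow, Real.log_mul (by norm_num) hXpos.ne', Real.log_pow] at h1
    push_cast at h1
    linarith
  have hS3 : 1 + (S : ℝ) ≤ 3 * ℓ := by
    have h1 : (S : ℝ) * 0.6931471803 ≤ (S : ℝ) * Real.log 2 :=
      mul_le_mul_of_nonneg_left hl2a.le (Nat.cast_nonneg _)
    linarith
  have hS0 : (0 : ℝ) ≤ S := Nat.cast_nonneg _
  -- δ
  have hδpos : 0 < δ := lt_of_lt_of_le (Real.rpow_pos_of_pos hXpos _) hδ1
  set δ1 := ℓ ^ (-A1) with hδ1def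
  have hδ1pos : 0 < δ1 := Real.rpow_pos_of_pos hℓpos _
  set T1 := X ^ ((5 : ℝ) / 6 - ε) with hT1
  have hT1one : 1 ≤ T1 := Real.one_le_rpow hXone (by linarith)
  have hT1X : T1 ≤ X := by
    calc T1 ≤ X ^ (1 : ℝ) := Real.rpow_le_rpow_of_exponent_le hXone (by linarith)
      _ = X := Real.rpow_one X
  set T2 := ℓ ^ A0 with hT2
  have hT2one : 1 ≤ T2 := Real.one_le_rpow hℓone hA0pos.le
  -- the trivial bound
  have hbp : ∀ t, ‖SI.bp χ e t‖ ≤ (3 * ℓ) ^ 6 := by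
    intro t
    unfold SI.bp
    rw [norm_prod]
    calc ∏ i, ‖SI.pol (SI.cf χ i) (e i) t‖ ≤ ∏ _i : Fin 6, (3 * ℓ) := by
          apply Finset.prod_le_prod (fun i _ => norm_nonneg _)
          intro i _
          refine le_trans (SI.pw_triv χ i (e i) t) (le_trans ?_ hS3)
          have : e i ≤ S := Finset.single_le_sum (fun j _ => Nat.zero_le _) (Finset.mem_univ i)
          have : (e i : ℝ) ≤ S := by exact_mod_cast this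
          linarith
      _ = (3 * ℓ) ^ 6 := by simp
  have hbsq : ∀ t, ‖SI.bp χ e t‖ ^ 2 ≤ (3 * ℓ) ^ 12 := by
    intro t
    calc ‖SI.bp χ e t‖ ^ 2 ≤ ((3 * ℓ) ^ 6) ^ 2 := pow_le_pow_left₀ (norm_nonneg _) (hbp t) 2
      _ = (3 * ℓ) ^ 12 := by ring
  have hbcont : Continuous (fun t => ‖SI.bp χ e t‖ ^ 2) := by
    apply Continuous.pow
    apply Continuous.norm
    unfold SI.bp
    exact continuous_finsetProd _ (fun i _ => SI.pol_cont _ _)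
  -- the middle part
  have hMid : ∫ t in {t : ℝ | T2 ≤ |t| ∧ |t| ≤ T1}, ‖SI.bp χ e t‖ ^ 2 ≤ ℓ ^ (-(A + 1)) :=
    hlev X hXX01 q hq χ e he1 he2 he3
  -- the high part
  have hHigh : ∀ k : ℕ, ∫ t in (-(2 ^ (k + 1) * T1))..(2 ^ (k + 1) * T1), ‖SI.bp χ e t‖ ^ 2 ≤
      (3 * (C * (3 * ℓ) ^ Bm)) * 2 ^ k := by
    intro k
    have hT : 1 ≤ 2 ^ (k + 1) * T1 := by
      have : (1 : ℝ) ≤ 2 ^ (k + 1) := one_le_pow₀ (by norm_num)
      calc (1 : ℝ) = 1 * 1 := by ring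
        _ ≤ 2 ^ (k + 1) * T1 := by gcongr
    have h1 := hmvp q χ e Finset.univ (2 ^ (k + 1) * T1) hT
    have h2 : 2 ^ (k + 1) * T1 / 2 ^ S ≤ 2 ^ (k + 1) := by
      rw [div_le_iff₀ (by positivity)]
      have : T1 ≤ 2 ^ S := le_trans hT1X he1
      gcongr
    have h3 : (1 : ℝ) ≤ 2 ^ k := one_le_pow₀ (by norm_num)
    have h4 : 2 ^ (k + 1) * T1 / 2 ^ S + 1 ≤ 3 * 2 ^ k := by
      calc 2 ^ (k + 1) * T1 / 2 ^ S + 1 ≤ 2 ^ (k + 1) + 1 := by linarith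
        _ = 2 * 2 ^ k + 1 := by rw [pow_succ]; ring
        _ ≤ 3 * 2 ^ k := by linarith
    have h5 : (1 + (S : ℝ)) ^ Bm ≤ (3 * ℓ) ^ Bm := pow_le_pow_left₀ (by linarith) hS3 Bm
    refine le_trans h1 ?_
    calc C * (1 + (S : ℝ)) ^ Bm * (2 ^ (k + 1) * T1 / 2 ^ S + 1)
        ≤ C * (3 * ℓ) ^ Bm * (3 * 2 ^ k) := by gcongr
      _ = (3 * (C * (3 * ℓ) ^ Bm)) * 2 ^ k := by ring
  -- the low part
  have hLow : ∀ t, |t| ≤ T2 → ‖SI.bp χ e t‖ ^ 2 * SI.mul δ δ1 t ≤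
      (3 * ℓ) ^ 12 * (δ1 * (2 * T2)) ^ 2 := by
    intro t ht
    have h1 : SI.mul δ δ1 t ≤ (δ1 * (2 * T2)) ^ 2 := by
      refine le_trans (SI.mul_le_low δ δ1 t) ?_
      have h2 : 0 ≤ δ1 * (1 + |t|) := by positivity
      apply pow_le_pow_left₀ h2
      gcongr
      linarith
    exact mul_le_mul (hbsq t) h1 (SI.mul_nonneg' t) (by positivity)
  have hall := SI.freq_abs (fun t => ‖SI.bp χ e t‖ ^ 2) hbcont (fun t => sq_nonneg _) _ hbsq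
    δ δ1 T1 T2 (ℓ ^ (-(A + 1))) (3 * (C * (3 * ℓ) ^ Bm)) ((3 * ℓ) ^ 12 * (δ1 * (2 * T2)) ^ 2)
    hδpos hT1one (by linarith) hMid (by positivity) hHigh hLow
  refine le_trans hall ?_
  -- final estimates
  have hAA : ℓ ^ (-(A + 1)) ≤ ℓ ^ (-A) / 4 := by
    have e1 : ℓ ^ (-(A + 1)) = ℓ ^ (-A) / ℓ := by
      rw [show -(A + 1) = -A - 1 by ring, Real.rpow_sub hℓpos, Real.rpow_one]
    rw [e1]
    have : 0 ≤ ℓ ^ (-A) := Real.rpow_nonneg hℓpos.le _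
    apply div_le_div_of_nonneg_left this (by norm_num) (by linarith)
  have hLL : 2 * T2 * ((3 * ℓ) ^ 12 * (δ1 * (2 * T2)) ^ 2) ≤ ℓ ^ (-A) / 4 := by
    have e1 : 2 * T2 * ((3 * ℓ) ^ 12 * (δ1 * (2 * T2)) ^ 2) =
        (8 * 3 ^ 12) * (ℓ ^ (12 : ℕ) * T2 ^ (3 : ℕ) * δ1 ^ (2 : ℕ)) := by ring
    have e2 : ℓ ^ (12 : ℕ) * T2 ^ (3 : ℕ) * δ1 ^ (2 : ℕ) = ℓ ^ (12 + A0 * 3 + (-A1) * 2) := by
      rw [hT2, hδ1def, ← Real.rpow_natCast ℓ 12, ← Real.rpow_natCast (ℓ ^ A0) 3,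
        ← Real.rpow_natCast (ℓ ^ (-A1)) 2, ← Real.rpow_mul hℓpos.le, ← Real.rpow_mul hℓpos.le,
        ← Real.rpow_add hℓpos, ← Real.rpow_add hℓpos]
      norm_num
    have e3 : ℓ ^ (12 + A0 * 3 + (-A1) * 2) ≤ ℓ ^ (-A - 1) := by
      apply Real.rpow_le_rpow_of_exponent_le hℓone
      rw [hA1]
      linarith
    rw [e1, e2]
    calc (8 * 3 ^ 12) * ℓ ^ (12 + A0 * 3 + (-A1) * 2) ≤ (8 * 3 ^ 12) * ℓ ^ (-A - 1) := by
          gcongr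
      _ = (8 * 3 ^ 12) * (ℓ ^ (-A) / ℓ) := by rw [Real.rpow_sub hℓpos, Real.rpow_one]
      _ = ((8 * 4 * 3 ^ 12) / ℓ) * (ℓ ^ (-A) / 4) := by field_simp
      _ ≤ 1 * (ℓ ^ (-A) / 4) := by
          have h1 : 0 ≤ ℓ ^ (-A) := Real.rpow_nonneg hℓpos.le _
          apply mul_le_mul_of_nonneg_right _ (by positivity)
          rw [div_le_one hℓpos]
          exact hℓbig
      _ = ℓ ^ (-A) / 4 := one_mul _
  have hHH : 2 * (3 * (C * (3 * ℓ) ^ Bm)) / (δ * T1) ^ 2 ≤ ℓ ^ (-A) / 4 := by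
    have e1 : X ^ ε ≤ δ * T1 := by
      calc X ^ ε = X ^ (-(5 : ℝ) / 6 + 2 * ε) * X ^ ((5 : ℝ) / 6 - ε) := by
            rw [← Real.rpow_add hXpos]; congr 1; ring
        _ ≤ δ * T1 := by gcongr
    have e2 : X ^ (2 * ε) ≤ (δ * T1) ^ 2 := by
      calc X ^ (2 * ε) = (X ^ ε) ^ 2 := by
            rw [← Real.rpow_natCast, ← Real.rpow_mul hXpos.le]; congr 1; push_cast; ring
        _ ≤ (δ * T1) ^ 2 := pow_le_pow_left₀ (Real.rpow_nonneg hXpos.le _) e1 2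
    have e3 : 24 * C * 3 ^ Bm * (ℓ ^ A * ℓ ^ Bm) ≤ (δ * T1) ^ 2 := by
      refine le_trans ?_ (le_trans c3 e2)
      rw [Real.rpow_add hℓpos, Real.rpow_natCast]
    have hℓA : 0 < ℓ ^ A := Real.rpow_pos_of_pos hℓpos _
    have e4 : ℓ ^ (-A) / 4 = 1 / (4 * ℓ ^ A) := by
      rw [Real.rpow_neg hℓpos.le]; field_simp
    rw [e4, div_le_div_iff₀ (by positivity) (by positivity), one_mul]
    refine le_trans (le_of_eq ?_) e3
    rw [mul_pow]; ring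
  have hpos : 0 ≤ ℓ ^ (-A) := Real.rpow_nonneg hℓpos.le _
  linarith

end Pool.Agent.H43.HX
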