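import Pool.Agent.H43.SI.Si
import Pool.Agent.H43.HX.Fr6

/-!
# [H43 HX BX] Multiplicative windows of one box

PROOF. As in the proof of `SI.si` for one box. `fr6` with `(B, A+1, ε)` gives `A1`. If no `n ∈ (X, 6X]` has `bf χ e n ≠ 0` then both sums are
`0` on the range of integration (`SI.si_range`: `y < log n <= y + δ` gives `X < n <= 6X`). Otherwise by `SI.bf_supp` `X <= 2^S <= 64*6X <= 2^9 X`;
replace `Nm` by `2^S` (`SI.Sd_cut`), `SI.par` with `f = bf χ e`, `SI.bf_poly`, `fr6`: `<= C X^2 ℓ^(-A-1) <= X^2 ℓ^(-A)`.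
-/

namespace Pool.Agent.H43.HX

open Finset

theorem bx (B A ε : ℝ) (hB : 0 < B) (hA : 0 < A) (hε : 0 < ε) (hε1 : ε ≤ 1 / 12) :
    ∃ A1 X0 : ℝ, 0 < A1 ∧ 10 ≤ X0 ∧ ∀ X : ℝ, X0 ≤ X →
    ∀ (q : ℕ) [NeZero q], (q : ℝ) ≤ (Real.log X) ^ B → ∀ (χ : DirichletCharacter ℂ q) (δ : ℝ),
    X ^ (-(5 : ℝ) / 6 + 2 * ε) ≤ δ → δ ≤ (Real.log X) ^ (-A1) →
    ∀ e : Fin 6 → ℕ, (∀ i, (2 : ℝ) ^ (e i) ≤ X ^ ((5 : ℝ) / 12)) → ∀ Nm : ℕ, 6 * X ≤ Nm →
    ∫ y in (Real.log X)..(Real.log (2 * X)),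
      ‖SI.Sd (fun n => SI.bf χ e n) Nm δ y / δ -
        SI.Sd (fun n => SI.bf χ e n) Nm ((Real.log X) ^ (-A1)) y /
          ((Real.log X) ^ (-A1) : ℝ)‖ ^ 2 ≤ X ^ 2 * (Real.log X) ^ (-A) := by
  obtain ⟨C, hC, hpar⟩ := SI.par
  obtain ⟨A1, X1, hA1, hX1, hfr⟩ := fr6 B (A + 1) ε hB (by linarith) hε hε1
  refine ⟨A1, max X1 (Real.exp (max 1 C)), hA1, le_trans hX1 (le_max_left _ _), ?_⟩
  intro X hX q _ hq χ δ hδ1 hδ2 e he Nm hNm
  have hXX1 : X1 ≤ X := le_trans (le_max_left _ _) hX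
  have hX10 : 10 ≤ X := le_trans hX1 hXX1
  have hXpos : 0 < X := by linarith
  obtain ⟨ℓ, hℓ⟩ : ∃ ℓ, ℓ = Real.log X := ⟨_, rfl⟩
  rw [← hℓ] at hδ2 hq ⊢
  have hℓL : max 1 C ≤ ℓ := by
    rw [hℓ]
    exact (Real.le_log_iff_exp_le hXpos).2 (le_trans (le_max_right _ _) hX)
  have hℓ1 : 1 ≤ ℓ := le_trans (le_max_left _ _) hℓL
  have hℓC : C ≤ ℓ := le_trans (le_max_right _ _) hℓL
  have hℓpos : 0 < ℓ := by linarith
  obtain ⟨δ1, hδ1def⟩ : ∃ δ1, δ1 = ℓ ^ (-A1) := ⟨_, rfl⟩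
  rw [← hδ1def] at hδ2 ⊢
  have hδ11 : δ1 ≤ 1 := by
    rw [hδ1def]
    exact Real.rpow_le_one_of_one_le_of_nonpos (by linarith) (by linarith)
  have hδpos : 0 < δ := lt_of_lt_of_le (Real.rpow_pos_of_pos hXpos _) hδ1
  have hlog2 : ℓ ≤ Real.log (2 * X) := by
    rw [hℓ]
    exact Real.log_le_log hXpos (by linarith)
  have hcut : ∀ y : ℝ, ℓ ≤ y → y ≤ Real.log (2 * X) → ∀ d : ℝ, d ≤ 1 →
      SI.Sd (fun n => SI.bf χ e n) Nm d y =
        SI.Sd (fun n => SI.bf χ e n) (2 ^ (∑ i, e i)) d y := by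
    intro y hy1 hy2 d hd
    apply SI.Sd_cut
    intro n hn _ h3 h4
    have hr := SI.si_range (by linarith) (by rw [← hℓ]; exact hy1) hy2 hd n hn h3
    refine ⟨?_, (SI.bf_supp χ e n h4).2.1⟩
    have : (n : ℝ) ≤ Nm := le_trans hr.2 hNm
    exact_mod_cast this
  have hcongr : ∫ y in ℓ..(Real.log (2 * X)),
      ‖SI.Sd (fun n => SI.bf χ e n) Nm δ y / δ -
        SI.Sd (fun n => SI.bf χ e n) Nm δ1 y / (δ1 : ℝ)‖ ^ 2 =
      ∫ y in ℓ..(Real.log (2 * X)),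
        ‖SI.Sd (fun n => SI.bf χ e n) (2 ^ (∑ i, e i)) δ y / δ -
          SI.Sd (fun n => SI.bf χ e n) (2 ^ (∑ i, e i)) δ1 y / (δ1 : ℝ)‖ ^ 2 := by
    apply intervalIntegral.integral_congr
    intro y hy
    rw [Set.uIcc_of_le hlog2] at hy
    simp only
    rw [hcut y hy.1 hy.2 δ (by linarith), hcut y hy.1 hy.2 δ1 hδ11]
  rw [hcongr]
  by_cases hgood : X ≤ 2 ^ (∑ i, e i) ∧ (2 : ℝ) ^ (∑ i, e i) ≤ 2 ^ 9 * X
  · obtain ⟨hg1, hg2⟩ := hgood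
    have hp := (hpar (fun n => SI.bf χ e n) (2 ^ (∑ i, e i)) X δ δ1 (by linarith) hδpos hδ2
      hδ11).2
    have hf := hfr X hXX1 q (by rw [← hℓ]; exact hq) χ δ hδ1
      (by rw [← hℓ, ← hδ1def]; exact hδ2) e hg1 hg2 he
    rw [← hℓ, ← hδ1def] at hf
    have e1 : (fun t : ℝ => ‖∑ n ∈ Icc 1 (2 ^ (∑ i, e i)), SI.bf χ e n *
        (n : ℂ) ^ (-(1 + (t : ℂ) * Complex.I))‖ ^ 2 * SI.mul δ δ1 t) =
        fun t : ℝ => ‖SI.bp χ e t‖ ^ 2 * SI.mul δ δ1 t := by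
      funext t
      rw [SI.bf_poly]
    rw [e1, ← hℓ] at hp
    refine le_trans hp ?_
    calc C * X ^ 2 * ∫ t : ℝ, ‖SI.bp χ e t‖ ^ 2 * SI.mul δ δ1 t
        ≤ ℓ * X ^ 2 * ℓ ^ (-(A + 1)) := by
          refine mul_le_mul (mul_le_mul_of_nonneg_right hℓC (by positivity)) hf ?_ (by positivity)
          refine MeasureTheory.integral_nonneg fun t => mul_nonneg (by positivity) ?_
          unfold SI.mul
          positivity
      _ = X ^ 2 * (ℓ ^ (1 : ℝ) * ℓ ^ (-(A + 1))) := by rw [Real.rpow_one]; ring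
      _ = X ^ 2 * ℓ ^ (-A) := by
          rw [← Real.rpow_add hℓpos]
          congr 2
          ring
  · have hzero : ∀ y ∈ Set.uIcc ℓ (Real.log (2 * X)),
        ‖SI.Sd (fun n => SI.bf χ e n) (2 ^ (∑ i, e i)) δ y / δ -
          SI.Sd (fun n => SI.bf χ e n) (2 ^ (∑ i, e i)) δ1 y / (δ1 : ℝ)‖ ^ 2 = 0 := by
      intro y hy
      rw [Set.uIcc_of_le hlog2] at hy
      have hSd0 : ∀ d : ℝ, d ≤ 1 →
          SI.Sd (fun n => SI.bf χ e n) (2 ^ (∑ i, e i)) d y = 0 := by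
        intro d hd
        unfold SI.Sd
        apply Finset.sum_eq_zero
        intro n hn
        rw [mem_filter, mem_Icc] at hn
        by_contra h0
        have hr := SI.si_range (by linarith) (by rw [← hℓ]; exact hy.1) hy.2 hd n hn.1.1 hn.2
        have hs := SI.bf_supp χ e n h0
        apply hgood
        constructor
        · have : (n : ℝ) ≤ 2 ^ (∑ i, e i) := by exact_mod_cast hs.2.1
          linarith
        · have : (2 : ℝ) ^ (∑ i, e i) ≤ 64 * n := by exact_mod_cast hs.2.2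
          linarith
      rw [hSd0 δ (by linarith), hSd0 δ1 hδ11]
      simp
    rw [intervalIntegral.integral_congr hzero]
    simp only [intervalIntegral.integral_zero]
    positivity

end Pool.Agent.H43.HX
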