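import Pool.Agent.H43.SI.Hb
import Pool.Agent.H26.LDP.Defs

/-!
# Primes in almost all intervals of length `X^(1/6+ε)` (H43/HX): definitions and plan

Uniform in `q <= (log X)^B`, error `(log X)^(-A)`. Heath-Brown's identity with `K = 3` (`SI/Hb.lean`).

* `Kr`, `Hm6`, `Hux`: kernel by Kusmin-Landau, Halasz-Montgomery on measurable sets, Huxley's subdivision.
* `Pow`, `Lvp`: powers of one factor; `Cor`, `Lev`, `Fr6`, `Bx`: boxes with all factors `<= X^(5/12)`.
* `Sv`, `Bxa`: from multiplicative to additive windows.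
* `Fou`, `Prs`, `Cou`, `Sch`, `Psp`, `Ti`, `Tib`: type I sums (boxes with a smooth factor `> X^(5/12)`): finite
  Fourier expansion, spacing of fractions, Schur's test.
* `Hbx`, `Win`: all boxes, residue classes.
-/

namespace Pool.Agent.H43.HX

open Finset

/-- sum of `f` over the window `(x, x+H]` -/
noncomputable def wn (f : ℕ → ℂ) (H x : ℕ) : ℂ := ∑ n ∈ Ioc x (x + H), f n

/-- sum of `f` over the integers `n <= Nm` of the window `(x, x+H]`, `x` real -/
noncomputable def wr (f : ℕ → ℂ) (Nm H : ℕ) (x : ℝ) : ℂ :=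
  ∑ n ∈ (Icc 1 Nm).filter (fun n : ℕ => x < n ∧ (n : ℝ) ≤ x + H), f n

/-- difference of the normalised short and long windows -/
noncomputable def dw (f : ℕ → ℂ) (H H1 x : ℕ) : ℂ := wn f H x / H - wn f H1 x / H1

/-- `Σ_{h<=H} e(h α)` -/
noncomputable def FH (H : ℕ) (α : ℝ) : ℂ := ∑ h ∈ Icc 1 H, H26.LDP.e ((h : ℝ) * α)

/-- `Σ_{b<q} χ(b) e(-kb/q)` -/
noncomputable def tau {q : ℕ} (χ : DirichletCharacter ℂ q) (k : ℕ) : ℂ :=
  ∑ b ∈ range q, χ b * H26.LDP.e (-((k : ℝ) * b / q))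

end Pool.Agent.H43.HX
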