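import Pool.Agent.H43.SI.Si
import Pool.Agent.H43.HX.Defs

/-!
# [H43 HX SV] From multiplicative to additive windows

PROOF. Blocks `[x_k, x_{k+1}]`, `x_k = X(1+k/m)`, `0 <= k < m`, `δ_k = log(1+H/x_k) ∈ [H/(4X), H/X]` (`log(1+z) >= z/2`, `0 <= z <= 1`). For `x` in
the block `k`: `x e^(δ_k) = x + H x/x_k`, `1 <= x/x_k <= 1 + 1/m`, so `Sd f Nm δ_k (log x) = wr f Nm H x + Σ_{x+H < n <= x+Hx/x_k} f n`, and
`‖wr/H - Sd f δ1 (log x)/(xδ1)‖ <= (1/H) Σ_{x+H<n<=x+H+H/m} ‖f n‖ + |1/H - 1/(xδ_k)| ‖Sd f δ_k (log x)‖ + (1/x) ‖Sd f δ_k (log x)/δ_k - Sd f δ1 (log x)/δ1‖`.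
First: Cauchy-Schwarz, at most `H/m + 1` terms, each `n` lies in the window for a set of `x` of measure `<= H/m`: its integrated square is
`<= (1/H^2)(H/m+1)^2 F`, `F = Σ_{n<=Nm} ‖f n‖^2`. Second: `xδ_k = H (x/x_k) (log(1+z)/z)`, `z = H/x_k`, `1 - z <= log(1+z)/z <= 1`, so
`|1/H - 1/(xδ_k)| <= (4/H)(1/m + H/X)`; `Sd f δ_k (log x)` is a sum of at most `2H+1` terms: integrated square `<= (2H+1)^2 F <= 9H^2 F`. Third:
`dx = x dy`, `x = e^y`: `∫_block (1/x^2) ‖..‖^2 dx = ∫ (1/x) ‖..‖^2 dy <= (1/X) Z`; sum over `k < m`: `m Z/X`. Total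
`<= 3 ((1/m+1/H)^2 F + 16*9 (1/m+H/X)^2 F + mZ/X) <= 500 ((1/m+1/H+H/X)^2 F + mZ/X)`.
(`SI.Sd` with `y = log x`: the condition `log x < log n` is `x < n`. The integrands are bounded measurable functions.)
-/

namespace Pool.Agent.H43.HX

open Finset MeasureTheory

/-- sum of the squares over a window -/
private noncomputable def svW (f : ℕ → ℂ) (Nm : ℕ) (u v x : ℝ) : ℝ :=
  ∑ n ∈ Icc 1 Nm, if x + u < n ∧ (n : ℝ) ≤ x + v then ‖f n‖ ^ 2 else 0

private lemma sv_set_meas (t u v : ℝ) : MeasurableSet {x : ℝ | x + u < t ∧ t ≤ x + v} := by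
  apply MeasurableSet.inter
  · exact measurableSet_lt (measurable_id.add_const u) measurable_const
  · exact measurableSet_le measurable_const (measurable_id.add_const v)

private lemma svW_meas (f : ℕ → ℂ) (Nm : ℕ) (u v : ℝ) : Measurable (svW f Nm u v) := by
  unfold svW
  apply Finset.measurable_sum
  intro n _
  exact Measurable.ite (sv_set_meas n u v) measurable_const measurable_const

private lemma svW_nonneg (f : ℕ → ℂ) (Nm : ℕ) (u v x : ℝ) : 0 ≤ svW f Nm u v x := by
  unfold svW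
  apply sum_nonneg
  intro n _
  split_ifs <;> positivity

private lemma svW_le (f : ℕ → ℂ) (Nm : ℕ) (u v x : ℝ) :
    svW f Nm u v x ≤ ∑ n ∈ Icc 1 Nm, ‖f n‖ ^ 2 := by
  unfold svW
  apply sum_le_sum
  intro n _
  split_ifs
  · exact le_rfl
  · positivity

private lemma sv_ii (g : ℝ → ℝ) (hg : Measurable g) (a b C : ℝ)
    (hC : ∀ x ∈ Set.uIoc a b, |g x| ≤ C) : IntervalIntegrable g volume a b := by
  rw [intervalIntegrable_iff]
  refine Measure.integrableOn_of_bounded (M := C) ?_ hg.aestronglyMeasurable ?_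
  · simp [Set.uIoc]
  · rw [ae_restrict_iff' measurableSet_uIoc]
    refine Filter.Eventually.of_forall ?_
    intro x hx
    rw [Real.norm_eq_abs]
    exact hC x hx

private lemma svW_ii (f : ℕ → ℂ) (Nm : ℕ) (u v a b : ℝ) :
    IntervalIntegrable (svW f Nm u v) volume a b := by
  apply sv_ii _ (svW_meas f Nm u v) a b (∑ n ∈ Icc 1 Nm, ‖f n‖ ^ 2)
  intro x _
  rw [abs_of_nonneg (svW_nonneg _ _ _ _ _)]
  exact svW_le _ _ _ _ _

private lemma sv_ind (c t u v a b : ℝ) (hc : 0 ≤ c) (huv : u ≤ v) (hab : a ≤ b) :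
    ∫ x in a..b, (if x + u < t ∧ t ≤ x + v then c else 0) ≤ (v - u) * c := by
  have h1 : (fun x : ℝ => if x + u < t ∧ t ≤ x + v then c else 0) =
      Set.indicator (Set.Ico (t - v) (t - u)) (fun _ => c) := by
    funext x
    by_cases h : x ∈ Set.Ico (t - v) (t - u)
    · rw [Set.indicator_of_mem h, if_pos ⟨by linarith [h.2], by linarith [h.1]⟩]
    · rw [Set.indicator_of_notMem h, if_neg]
      rintro ⟨h1, h2⟩
      exact h ⟨by linarith, by linarith⟩
  rw [h1, intervalIntegral.integral_of_le hab]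
  have hint : Integrable (Set.indicator (Set.Ico (t - v) (t - u)) (fun _ : ℝ => c)) := by
    rw [integrable_indicator_iff measurableSet_Ico]
    exact integrableOn_const (by simp)
  refine (setIntegral_le_integral hint (Filter.Eventually.of_forall ?_)).trans ?_
  · intro x
    exact Set.indicator_nonneg (fun _ _ => hc) x
  · rw [integral_indicator_const c measurableSet_Ico, Real.volume_real_Ico_of_le (by linarith),
      smul_eq_mul]
    apply le_of_eq
    ring

private lemma svW_int (f : ℕ → ℂ) (Nm : ℕ) (u v a b : ℝ) (huv : u ≤ v) (hab : a ≤ b) :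
    ∫ x in a..b, svW f Nm u v x ≤ (v - u) * ∑ n ∈ Icc 1 Nm, ‖f n‖ ^ 2 := by
  unfold svW
  rw [intervalIntegral.integral_finsetSum, mul_sum]
  · apply sum_le_sum
    intro n _
    exact sv_ind _ _ u v a b (by positivity) huv hab
  · intro n _
    apply sv_ii _ (Measurable.ite (sv_set_meas n u v) measurable_const measurable_const) a b
      (‖f n‖ ^ 2)
    intro x _
    rw [abs_of_nonneg (by split_ifs <;> positivity)]
    split_ifs
    · exact le_rfl
    · positivity

/-- Cauchy-Schwarz for a part of a window -/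
private lemma sv_cs (f : ℕ → ℂ) (Nm : ℕ) (u v x : ℝ) (hx : 0 ≤ x + u) (huv : u ≤ v)
    (s : Finset ℕ) (hs : ∀ n ∈ s, n ∈ Icc 1 Nm ∧ x + u < n ∧ (n : ℝ) ≤ x + v) :
    ‖∑ n ∈ s, f n‖ ^ 2 ≤ (v - u + 1) * svW f Nm u v x := by
  have hcard : (s.card : ℝ) ≤ v - u + 1 := by
    have hsub : s ⊆ Ioc ⌊x + u⌋₊ ⌊x + v⌋₊ := by
      intro n hn
      obtain ⟨_, h1, h2⟩ := hs n hn
      rw [mem_Ioc]
      exact ⟨(Nat.floor_lt hx).2 h1, Nat.le_floor h2⟩
    have h1 := card_le_card hsub
    rw [Nat.card_Ioc] at h1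
    have h3 : ⌊x + u⌋₊ ≤ ⌊x + v⌋₊ := Nat.floor_le_floor (by linarith)
    have h2 : (s.card : ℝ) ≤ ((⌊x + v⌋₊ - ⌊x + u⌋₊ : ℕ) : ℝ) := by exact_mod_cast h1
    rw [Nat.cast_sub h3] at h2
    have h4 := Nat.floor_le (show 0 ≤ x + v by linarith)
    have h5 := Nat.lt_floor_add_one (x + u)
    linarith
  have h1 : ‖∑ n ∈ s, f n‖ ^ 2 ≤ (s.card : ℝ) * ∑ n ∈ s, ‖f n‖ ^ 2 := by
    refine (pow_le_pow_left₀ (norm_nonneg _) (norm_sum_le _ _) 2).trans ?_
    exact sq_sum_le_card_mul_sum_sq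
  have h2 : ∑ n ∈ s, ‖f n‖ ^ 2 ≤ svW f Nm u v x := by
    unfold svW
    rw [← sum_filter]
    apply sum_le_sum_of_subset_of_nonneg
    · intro n hn
      rw [mem_filter]
      exact ⟨(hs n hn).1, (hs n hn).2⟩
    · intro _ _ _
      positivity
  refine h1.trans (mul_le_mul hcard h2 ?_ (by linarith))
  exact sum_nonneg fun _ _ => by positivity

private lemma sv_Sd_eq (f : ℕ → ℂ) (Nm : ℕ) (x z : ℝ) (hx : 0 < x) (hz : 0 ≤ z) :
    SI.Sd f Nm (Real.log (1 + z)) (Real.log x) =
      ∑ n ∈ (Icc 1 Nm).filter (fun n : ℕ => x < n ∧ (n : ℝ) ≤ x * (1 + z)), f n := by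
  unfold SI.Sd
  apply sum_congr _ (fun _ _ => rfl)
  apply filter_congr
  intro n hn
  rw [mem_Icc] at hn
  have hn0 : (0 : ℝ) < n := by exact_mod_cast hn.1
  rw [Real.log_lt_log_iff hx hn0, ← Real.log_mul (by positivity) (by positivity),
    Real.log_le_log_iff hn0 (by positivity)]

private lemma sv_diff (f : ℕ → ℂ) (Nm H : ℕ) (x z : ℝ) (hH : (H : ℝ) ≤ x * z) :
    (∑ n ∈ (Icc 1 Nm).filter (fun n : ℕ => x < n ∧ (n : ℝ) ≤ x * (1 + z)), f n) - wr f Nm H x =
      ∑ n ∈ (Icc 1 Nm).filter (fun n : ℕ => x + H < n ∧ (n : ℝ) ≤ x * (1 + z)), f n := by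
  unfold wr
  rw [sub_eq_iff_eq_add, ← sum_union]
  · apply sum_congr _ (fun _ _ => rfl)
    ext n
    simp only [mem_union, mem_filter]
    constructor
    · rintro ⟨h1, h2, h3⟩
      by_cases h : (n : ℝ) ≤ x + H
      · exact Or.inr ⟨h1, h2, h⟩
      · exact Or.inl ⟨h1, not_le.1 h, h3⟩
    · rintro (⟨h1, h2, h3⟩ | ⟨h1, h2, h3⟩)
      · refine ⟨h1, ?_, h3⟩
        have : (0 : ℝ) ≤ H := Nat.cast_nonneg _
        linarith
      · refine ⟨h1, h2, h3.trans ?_⟩
        linarith
  · rw [disjoint_left]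
    intro n h1 h2
    rw [mem_filter] at h1 h2
    linarith [h1.2.1, h2.2.2]

private lemma sv_log {z : ℝ} (h0 : 0 < z) (h1 : z ≤ 1) :
    z / 2 ≤ Real.log (1 + z) ∧ z - z ^ 2 ≤ Real.log (1 + z) ∧ Real.log (1 + z) ≤ z := by
  have h2 := Real.one_sub_inv_le_log_of_pos (show 0 < 1 + z by linarith)
  have h3 : 1 - (1 + z)⁻¹ = z / (1 + z) := by field_simp; ring
  rw [h3] at h2
  refine ⟨?_, ?_, ?_⟩
  · refine le_trans ?_ h2
    exact div_le_div_of_nonneg_left h0.le (by linarith) (by linarith)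
  · refine le_trans ?_ h2
    rw [le_div_iff₀ (by linarith)]
    nlinarith [pow_pos h0 3]
  · have := Real.log_le_sub_one_of_pos (show 0 < 1 + z by linarith)
    linarith

/-- the coefficient of the second term -/
private lemma sv_coef (H x xk X : ℝ) (m : ℕ) (hX : 0 < X) (hH : 0 < H) (hHX : H ≤ X)
    (hxk : X ≤ xk) (h1 : xk ≤ x) (h2 : x ≤ xk + X / m) (hm : 1 ≤ m) :
    |1 / H - 1 / (x * Real.log (1 + H / xk))| ≤ 4 / H * (1 / m + H / X) := by
  have hxk0 : 0 < xk := by linarith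
  have hx0 : 0 < x := by linarith
  have hm0 : (0 : ℝ) < m := by exact_mod_cast hm
  have hz0 : 0 < H / xk := by positivity
  have hzX : H / xk ≤ H / X := div_le_div_of_nonneg_left hH.le hX hxk
  have hHX1 : H / X ≤ 1 := (div_le_one hX).2 hHX
  have hz1 : H / xk ≤ 1 := hzX.trans hHX1
  obtain ⟨l1, l2, l3⟩ := sv_log hz0 hz1
  set z := H / xk with hz
  set d := Real.log (1 + z) with hd
  have hd0 : 0 < d := by linarith
  have hHz : H = xk * z := by rw [hz]; field_simp
  -- `x d` compared with `H`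
  have hxd : H / 2 ≤ x * d := by
    rw [hHz]
    nlinarith
  have hxd0 : 0 < x * d := by positivity
  have hup : x * d - H ≤ H * (1 / m) := by
    have e1 : x * d ≤ x * z := by gcongr
    have e2 : x * z ≤ (xk + X / m) * z := by gcongr
    have e3 : X / m * z ≤ xk / m * z := by gcongr
    have e4 : H * (1 / m) = xk / m * z := by rw [hHz]; ring
    rw [e4]
    nlinarith
  have hlo : H - x * d ≤ H * (H / X) := by
    have e1 : xk * (z - z ^ 2) ≤ x * d := by
      have : 0 ≤ z - z ^ 2 := by nlinarith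
      calc xk * (z - z ^ 2) ≤ x * (z - z ^ 2) := by gcongr
        _ ≤ x * d := by gcongr
    have e2 : xk * z ^ 2 = H * z := by rw [hHz]; ring
    have e3 : H * z ≤ H * (H / X) := by gcongr
    nlinarith
  have hs : |x * d - H| ≤ H * (1 / m + H / X) := by
    have p1 : 0 ≤ H * (1 / (m : ℝ)) := by positivity
    have p2 : 0 ≤ H * (H / X) := by positivity
    rw [abs_le]
    constructor <;> nlinarith
  have he : 1 / H - 1 / (x * d) = (x * d - H) / (H * (x * d)) := by
    field_simp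
  rw [he, abs_div, abs_of_pos (show 0 < H * (x * d) by positivity), div_le_iff₀ (by positivity)]
  refine hs.trans ?_
  have e5 : 0 ≤ 1 / (m : ℝ) + H / X := by positivity
  have e6 : 4 / H * (1 / m + H / X) * (H * (x * d)) = (1 / m + H / X) * (4 * (x * d)) := by
    field_simp
  rw [e6, mul_comm H]
  apply mul_le_mul_of_nonneg_left _ e5
  linarith

private lemma sv_three (a b c : ℂ) : ‖a + b + c‖ ^ 2 ≤ 3 * (‖a‖ ^ 2 + ‖b‖ ^ 2 + ‖c‖ ^ 2) := by
  have h := norm_add₃_le (a := a) (b := b) (c := c)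
  have h1 : ‖a + b + c‖ ^ 2 ≤ (‖a‖ + ‖b‖ + ‖c‖) ^ 2 := pow_le_pow_left₀ (norm_nonneg _) h 2
  nlinarith [sq_nonneg (‖a‖ - ‖b‖), sq_nonneg (‖a‖ - ‖c‖), sq_nonneg (‖b‖ - ‖c‖)]

/-- the pointwise estimate in a block -/
private lemma sv_point (f : ℕ → ℂ) (Nm m H : ℕ) (X δ1 xk x : ℝ) (hX : 10 ≤ X) (hH : 1 ≤ H)
    (hHX : (H : ℝ) ≤ X) (hδ : 0 < δ1) (hm : 1 ≤ m)
    (hxk : X ≤ xk) (h1 : xk ≤ x) (h2 : x ≤ xk + X / m) :
    ‖wr f Nm H x / H - SI.Sd f Nm δ1 (Real.log x) / (x * δ1)‖ ^ 2 ≤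
      3 * ((1 / H ^ 2 * (H / m + 1)) * svW f Nm H (H + H / m) x +
        (48 / H * (1 / m + H / X) ^ 2) * svW f Nm 0 (2 * H) x +
        1 / X * (1 / x * ‖SI.SiD f Nm (Real.log (1 + H / xk)) δ1 (Real.log x)‖ ^ 2)) := by
  have hX0 : 0 < X := by linarith
  have hxk0 : 0 < xk := by linarith
  have hx0 : 0 < x := by linarith
  have hm0 : (0 : ℝ) < m := by exact_mod_cast hm
  have hm1 : (1 : ℝ) ≤ m := by exact_mod_cast hm
  have hH1 : (1 : ℝ) ≤ H := by exact_mod_cast hH
  have hH0 : (0 : ℝ) < H := by linarith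
  set z : ℝ := H / xk with hz
  have hz0 : 0 < z := by positivity
  have hz1 : z ≤ 1 := by
    rw [hz, div_le_one hxk0]
    linarith
  obtain ⟨l1, l2, l3⟩ := sv_log hz0 hz1
  set d := Real.log (1 + z) with hd
  have hd0 : 0 < d := by linarith
  have hHxz : (H : ℝ) ≤ x * z := by
    rw [hz, mul_div_assoc', le_div_iff₀ hxk0]
    nlinarith
  have hxz : x * z ≤ H + H / m := by
    have e1 : x * z ≤ (xk + X / m) * z := by gcongr
    have e2 : X / m * z ≤ xk / m * z := by gcongr
    have e3 : xk * z = H := by rw [hz]; field_simp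
    have e4 : xk / m * z = H / m := by rw [← e3]; ring
    nlinarith
  have hHm : (H : ℝ) / m ≤ H := div_le_self hH0.le hm1
  set Sx : ℂ := ∑ n ∈ (Icc 1 Nm).filter (fun n : ℕ => x < n ∧ (n : ℝ) ≤ x * (1 + z)), f n with hSx
  have hSd : SI.Sd f Nm d (Real.log x) = Sx := sv_Sd_eq f Nm x z hx0 hz0.le
  set R : ℂ := ∑ n ∈ (Icc 1 Nm).filter (fun n : ℕ => x + H < n ∧ (n : ℝ) ≤ x * (1 + z)), f n
    with hR
  have hwr : Sx - wr f Nm H x = R := sv_diff f Nm H x z hHxz
  have hdC : (d : ℂ) ≠ 0 := by exact_mod_cast hd0.ne'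
  have hxC : (x : ℂ) ≠ 0 := by exact_mod_cast hx0.ne'
  have hHC : (H : ℂ) ≠ 0 := by exact_mod_cast hH0.ne'
  have hδC : (δ1 : ℂ) ≠ 0 := by exact_mod_cast hδ.ne'
  have key : wr f Nm H x / H - SI.Sd f Nm δ1 (Real.log x) / (x * δ1) =
      (-R / H) + ((1 / (H : ℂ) - 1 / (x * d)) * Sx) +
        (1 / (x : ℂ) * SI.SiD f Nm d δ1 (Real.log x)) := by
    unfold SI.SiD
    rw [hSd]
    have hw : wr f Nm H x = Sx - R := by rw [← hwr]; ring
    rw [hw]
    field_simp
    ring
  rw [key]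
  refine (sv_three _ _ _).trans ?_
  apply mul_le_mul_of_nonneg_left _ (by norm_num)
  have t1 : ‖-R / (H : ℂ)‖ ^ 2 ≤ (1 / H ^ 2 * (H / m + 1)) * svW f Nm H (H + H / m) x := by
    rw [norm_div, norm_neg, Complex.norm_natCast, div_pow]
    have := sv_cs f Nm H (H + H / m) x (by linarith) (by linarith [div_pos hH0 hm0])
      ((Icc 1 Nm).filter (fun n : ℕ => x + H < n ∧ (n : ℝ) ≤ x * (1 + z))) (by
        intro n hn
        rw [mem_filter] at hn
        refine ⟨hn.1, hn.2.1, hn.2.2.trans ?_⟩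
        linarith)
    rw [← hR] at this
    calc ‖R‖ ^ 2 / (H : ℝ) ^ 2 = 1 / H ^ 2 * ‖R‖ ^ 2 := by ring
      _ ≤ 1 / H ^ 2 * ((H + H / m - H + 1) * svW f Nm H (H + H / m) x) := by gcongr
      _ = _ := by ring
  have t2 : ‖(1 / (H : ℂ) - 1 / (x * d)) * Sx‖ ^ 2 ≤
      (48 / H * (1 / m + H / X) ^ 2) * svW f Nm 0 (2 * H) x := by
    rw [norm_mul, mul_pow]
    have e1 : ‖(1 / (H : ℂ) - 1 / (x * d))‖ ≤ 4 / H * (1 / m + H / X) := by
      have e2 : (1 / (H : ℂ) - 1 / (x * d)) = ((1 / (H : ℝ) - 1 / (x * d) : ℝ) : ℂ) := by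
        push_cast
        ring
      rw [e2, Complex.norm_real, Real.norm_eq_abs]
      exact sv_coef H x xk X m hX0 hH0 hHX hxk h1 h2 hm
    have e3 := sv_cs f Nm 0 (2 * H) x (by linarith) (by linarith)
      ((Icc 1 Nm).filter (fun n : ℕ => x < n ∧ (n : ℝ) ≤ x * (1 + z))) (by
        intro n hn
        rw [mem_filter] at hn
        refine ⟨hn.1, by linarith [hn.2.1], hn.2.2.trans ?_⟩
        linarith)
    rw [← hSx] at e3
    have hW := svW_nonneg f Nm 0 (2 * H) x
    calc ‖(1 / (H : ℂ) - 1 / (x * d))‖ ^ 2 * ‖Sx‖ ^ 2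
        ≤ (4 / H * (1 / m + H / X)) ^ 2 * ((2 * H - 0 + 1) * svW f Nm 0 (2 * H) x) := by
          gcongr
      _ ≤ (4 / H * (1 / m + H / X)) ^ 2 * ((3 * H) * svW f Nm 0 (2 * H) x) := by
          gcongr
          linarith
      _ = _ := by
          field_simp
          ring
  have t3 : ‖1 / (x : ℂ) * SI.SiD f Nm d δ1 (Real.log x)‖ ^ 2 ≤
      1 / X * (1 / x * ‖SI.SiD f Nm d δ1 (Real.log x)‖ ^ 2) := by
    rw [norm_mul, mul_pow, norm_div, norm_one, Complex.norm_real, Real.norm_eq_abs,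
      abs_of_pos hx0, ← mul_assoc]
    apply mul_le_mul_of_nonneg_right _ (by positivity)
    rw [sq]
    apply mul_le_mul_of_nonneg_right _ (by positivity)
    exact one_div_le_one_div_of_le hX0 (by linarith)
  exact add_le_add (add_le_add t1 t2) t3

/-- change of variables -/
private lemma sv_cov (G : ℝ → ℝ) (a b : ℝ) (ha : 0 < a) (hab : a ≤ b) :
    ∫ x in a..b, 1 / x * G (Real.log x) = ∫ y in (Real.log a)..(Real.log b), G y := by
  have hl : Real.log a ≤ Real.log b := Real.log_le_log ha hab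
  rw [intervalIntegral.integral_of_le hab, intervalIntegral.integral_of_le hl]
  have him : Real.log '' (Set.Ioc a b) = Set.Ioc (Real.log a) (Real.log b) := by
    ext y
    constructor
    · rintro ⟨x, hx, rfl⟩
      exact ⟨Real.log_lt_log ha hx.1, Real.log_le_log (ha.trans hx.1) hx.2⟩
    · intro hy
      refine ⟨Real.exp y, ⟨?_, ?_⟩, Real.log_exp y⟩
      · rw [← Real.log_lt_iff_lt_exp ha]
        exact hy.1
      · rw [← Real.le_log_iff_exp_le (lt_of_lt_of_le ha hab)]
        exact hy.2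
  rw [← him, integral_image_eq_integral_abs_deriv_smul (f' := fun x => x⁻¹) measurableSet_Ioc]
  · apply setIntegral_congr_fun measurableSet_Ioc
    intro x hx
    have hx0 : 0 < x := ha.trans hx.1
    change 1 / x * G (Real.log x) = |x⁻¹| • G (Real.log x)
    rw [abs_of_pos (inv_pos.2 hx0), smul_eq_mul, one_div]
  · intro x hx
    exact (Real.hasDerivAt_log (ha.trans hx.1).ne').hasDerivWithinAt
  · intro x hx y hy hxy
    exact Real.log_injOn_pos (ha.trans hx.1) (ha.trans hy.1) hxy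

theorem sv (f : ℕ → ℂ) (Nm m H : ℕ) (X δ1 Z : ℝ) (hX : 10 ≤ X) (hNm : 6 * X ≤ Nm) (hH : 1 ≤ H)
    (hHX : (H : ℝ) ≤ X) (hδ : 0 < δ1) (hδ1 : δ1 ≤ 1) (hm : 1 ≤ m)
    (hZ : ∀ δ : ℝ, H / (4 * X) ≤ δ → δ ≤ H / X →
      ∫ y in (Real.log X)..(Real.log (2 * X)), ‖SI.Sd f Nm δ y / δ - SI.Sd f Nm δ1 y / δ1‖ ^ 2 ≤
        Z) :
    ∫ x in X..(2 * X), ‖wr f Nm H x / H - SI.Sd f Nm δ1 (Real.log x) / (x * δ1)‖ ^ 2 ≤
      500 * ((1 / m + 1 / H + H / X) ^ 2 * ∑ n ∈ Icc 1 Nm, ‖f n‖ ^ 2 + m * Z / X) := by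
  have hX0 : 0 < X := by linarith
  have hm0 : (0 : ℝ) < m := by exact_mod_cast hm
  have hm1 : (1 : ℝ) ≤ m := by exact_mod_cast hm
  have hH1 : (1 : ℝ) ≤ H := by exact_mod_cast hH
  have hH0 : (0 : ℝ) < H := by linarith
  have hHX0 : (0 : ℝ) < H / X := by positivity
  have hZ0 : 0 ≤ Z := by
    refine le_trans ?_ (hZ (H / X) (by gcongr; linarith) le_rfl)
    apply intervalIntegral.integral_nonneg (Real.log_le_log hX0 (by linarith))
    intro y _
    positivity
  set F : ℝ := ∑ n ∈ Icc 1 Nm, ‖f n‖ ^ 2 with hF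
  have hF0 : 0 ≤ F := sum_nonneg fun _ _ => by positivity
  set D : ℝ → ℝ := fun x => ‖wr f Nm H x / H - SI.Sd f Nm δ1 (Real.log x) / (x * δ1)‖ ^ 2 with hD
  set B : ℝ := ∑ n ∈ Icc 1 Nm, ‖f n‖ with hB
  have hB0 : 0 ≤ B := sum_nonneg fun _ _ => norm_nonneg _
  have hwm : Measurable (wr f Nm H) := by
    have : wr f Nm H = fun x : ℝ => ∑ n ∈ Icc 1 Nm,
        if x < n ∧ (n : ℝ) ≤ x + H then f n else 0 := by
      funext x
      unfold wr
      rw [sum_filter]
    rw [this]
    apply Finset.measurable_sum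
    intro n _
    apply Measurable.ite _ measurable_const measurable_const
    apply MeasurableSet.inter
    · exact measurableSet_lt measurable_id measurable_const
    · exact measurableSet_le measurable_const (measurable_id.add_const _)
  have hwb : ∀ x, ‖wr f Nm H x‖ ≤ B := by
    intro x
    unfold wr
    refine le_trans (norm_sum_le _ _) ?_
    exact Finset.sum_le_sum_of_subset_of_nonneg (Finset.filter_subset _ _)
      (fun _ _ _ => norm_nonneg _)
  have hDm : Measurable D := by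
    have h1 : Measurable fun x : ℝ => SI.Sd f Nm δ1 (Real.log x) :=
      (SI.Sd_measurable f Nm δ1).comp Real.measurable_log
    have h2 : Measurable fun x : ℝ => ((x : ℂ) * (δ1 : ℂ)) :=
      Complex.measurable_ofReal.mul_const _
    exact ((hwm.div_const _).sub (h1.div h2)).norm.pow_const 2
  have hDb : ∀ a b : ℝ, X ≤ a → a ≤ b → IntervalIntegrable D volume a b := by
    intro a b ha hab
    apply sv_ii D hDm a b ((B / H + B / (X * δ1)) ^ 2)
    intro x hx
    rw [Set.uIoc_of_le hab] at hx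
    have hx0 : X ≤ x := by linarith [hx.1]
    have hD0 : 0 ≤ D x := by
      rw [hD]
      positivity
    rw [abs_of_nonneg hD0]
    apply pow_le_pow_left₀ (norm_nonneg _)
    refine (norm_sub_le _ _).trans (add_le_add ?_ ?_)
    · rw [norm_div, Complex.norm_natCast]
      exact div_le_div_of_nonneg_right (hwb x) hH0.le
    · rw [norm_div, norm_mul, Complex.norm_real, Complex.norm_real, Real.norm_eq_abs,
        Real.norm_eq_abs, abs_of_pos (show 0 < x by linarith), abs_of_pos hδ]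
      exact div_le_div₀ hB0 (SI.Sd_bound _ _ _ _) (by positivity) (by gcongr)
  let a : ℕ → ℝ := fun k => X * (1 + k / m)
  have ha0 : a 0 = X := by simp [a]
  have ham : a m = 2 * X := by
    simp only [a]
    field_simp
    ring
  have haX : ∀ k, X ≤ a k := by
    intro k
    simp only [a]
    have : (0 : ℝ) ≤ k / m := by positivity
    nlinarith
  have hsucc : ∀ k, a (k + 1) = a k + X / m := by
    intro k
    simp only [a]
    push_cast
    field_simp
    ring
  have hle : ∀ k, a k ≤ a (k + 1) := by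
    intro k
    rw [hsucc]
    have : 0 < X / m := by positivity
    linarith
  have hamono : ∀ k, k < m → a (k + 1) ≤ 2 * X := by
    intro k hk
    simp only [a]
    have : ((k + 1 : ℕ) : ℝ) / m ≤ 1 := by
      rw [div_le_one hm0]
      exact_mod_cast hk
    nlinarith
  set A1 : ℝ := 1 / H ^ 2 * (H / m + 1) with hA1
  set A2 : ℝ := 48 / H * (1 / m + H / X) ^ 2 with hA2
  have hA1p : 0 ≤ A1 := by positivity
  have hA2p : 0 ≤ A2 := by positivity
  -- one block
  have hblock : ∀ k, k < m → ∫ x in (a k)..(a (k + 1)), D x ≤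
      3 * (A1 * (∫ x in (a k)..(a (k + 1)), svW f Nm H (H + H / m) x) +
        A2 * (∫ x in (a k)..(a (k + 1)), svW f Nm 0 (2 * H) x) + Z / X) := by
    intro k hk
    have hak0 : 0 < a k := by linarith [haX k]
    set d : ℝ := Real.log (1 + H / a k) with hd
    have hz0 : 0 < H / a k := by positivity
    have hzX : H / a k ≤ H / X := div_le_div_of_nonneg_left hH0.le hX0 (haX k)
    have hHX1 : H / X ≤ 1 := (div_le_one hX0).2 hHX
    obtain ⟨l1, l2, l3⟩ := sv_log hz0 (hzX.trans hHX1)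
    have hd1 : H / (4 * X) ≤ d := by
      have e1 : (H : ℝ) / (2 * X) ≤ H / a k := by
        apply div_le_div_of_nonneg_left hH0.le hak0
        exact (hle k).trans (hamono k hk)
      have e2 : (H : ℝ) / (4 * X) = (H / (2 * X)) / 2 := by field_simp; norm_num
      rw [e2]
      linarith
    have hd2 : d ≤ H / X := l3.trans hzX
    have hd0 : 0 < d := lt_of_lt_of_le (by positivity) hd1
    let G : ℝ → ℝ := fun y => ‖SI.SiD f Nm d δ1 y‖ ^ 2
    have hG0 : ∀ y, 0 ≤ G y := fun y => by positivity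
    have hGm : Measurable G := by
      unfold G SI.SiD
      exact (((SI.Sd_measurable f Nm d).div_const _).sub
        ((SI.Sd_measurable f Nm δ1).div_const _)).norm.pow_const 2
    have hGb : ∀ y, G y ≤ (B / d + B / δ1) ^ 2 := by
      intro y
      apply pow_le_pow_left₀ (norm_nonneg _)
      unfold SI.SiD
      refine (norm_sub_le _ _).trans ?_
      rw [norm_div, norm_div, Complex.norm_real, Complex.norm_real, Real.norm_eq_abs,
        Real.norm_eq_abs, abs_of_pos hd0, abs_of_pos hδ]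
      exact add_le_add (div_le_div_of_nonneg_right (SI.Sd_bound _ _ _ _) hd0.le)
        (div_le_div_of_nonneg_right (SI.Sd_bound _ _ _ _) hδ.le)
    have hGi : IntervalIntegrable (fun x : ℝ => 1 / x * G (Real.log x)) volume (a k)
        (a (k + 1)) := by
      apply sv_ii _ _ (a k) (a (k + 1)) (1 / X * (B / d + B / δ1) ^ 2)
      · intro x hx
        rw [Set.uIoc_of_le (hle k)] at hx
        have hxX : X < x := lt_of_le_of_lt (haX k) hx.1
        have hx0 : 0 < x := by linarith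
        rw [abs_of_nonneg (mul_nonneg (by positivity) (hG0 _))]
        apply mul_le_mul _ (hGb _) (hG0 _) (by positivity)
        exact one_div_le_one_div_of_le hX0 hxX.le
      · exact (measurable_const.div measurable_id).mul (hGm.comp Real.measurable_log)
    have hZk : ∫ x in (a k)..(a (k + 1)), 1 / x * G (Real.log x) ≤ Z := by
      rw [sv_cov G _ _ hak0 (hle k)]
      refine le_trans ?_ (hZ d hd1 hd2)
      have hGii := SI.SiD_intervalIntegrable f Nm d δ1 (Real.log X) (Real.log (2 * X))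
      exact intervalIntegral.integral_mono_interval (μ := volume) (f := G)
        (Real.log_le_log hX0 (haX k)) (Real.log_le_log hak0 (hle k))
        (Real.log_le_log (by linarith [haX (k + 1)]) (hamono k hk))
        (Filter.Eventually.of_forall hG0) hGii
    have hmono : ∫ x in (a k)..(a (k + 1)), D x ≤ ∫ x in (a k)..(a (k + 1)),
        3 * (A1 * svW f Nm H (H + H / m) x + A2 * svW f Nm 0 (2 * H) x +
          1 / X * (1 / x * G (Real.log x))) := by
      apply intervalIntegral.integral_mono_on (hle k) (hDb _ _ (haX k) (hle k))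
      · exact ((((svW_ii f Nm _ _ _ _).const_mul _).add ((svW_ii f Nm _ _ _ _).const_mul _)).add
          (hGi.const_mul _)).const_mul _
      · intro x hx
        exact sv_point f Nm m H X δ1 (a k) x hX hH hHX hδ hm (haX k) hx.1
          (by rw [← hsucc]; exact hx.2)
    refine hmono.trans ?_
    rw [intervalIntegral.integral_const_mul, intervalIntegral.integral_add
      (((svW_ii f Nm _ _ _ _).const_mul _).add ((svW_ii f Nm _ _ _ _).const_mul _))
      (hGi.const_mul _), intervalIntegral.integral_add ((svW_ii f Nm _ _ _ _).const_mul _)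
      ((svW_ii f Nm _ _ _ _).const_mul _), intervalIntegral.integral_const_mul,
      intervalIntegral.integral_const_mul, intervalIntegral.integral_const_mul]
    have h5 : 1 / X * ∫ x in (a k)..(a (k + 1)), 1 / x * G (Real.log x) ≤ Z / X := by
      calc _ ≤ 1 / X * Z := by gcongr
        _ = Z / X := by ring
    linarith
  have hsum : ∑ k ∈ range m, ∫ x in (a k)..(a (k + 1)), D x = ∫ x in X..(2 * X), D x := by
    rw [intervalIntegral.sum_integral_adjacent_intervals
      (fun k _ => hDb _ _ (haX k) (hle k)), ha0, ham]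
  have hsum1 : ∑ k ∈ range m, ∫ x in (a k)..(a (k + 1)), svW f Nm H (H + H / m) x ≤
      H / m * F := by
    rw [intervalIntegral.sum_integral_adjacent_intervals
      (fun k _ => svW_ii f Nm _ _ _ _), ha0, ham]
    refine (svW_int f Nm _ _ _ _ (by linarith [div_pos hH0 hm0]) (by linarith)).trans ?_
    apply le_of_eq
    ring
  have hsum2 : ∑ k ∈ range m, ∫ x in (a k)..(a (k + 1)), svW f Nm 0 (2 * H) x ≤
      2 * H * F := by
    rw [intervalIntegral.sum_integral_adjacent_intervals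
      (fun k _ => svW_ii f Nm _ _ _ _), ha0, ham]
    refine (svW_int f Nm _ _ _ _ (by linarith) (by linarith)).trans ?_
    apply le_of_eq
    ring
  have htot : ∫ x in X..(2 * X), D x ≤
      3 * (A1 * (H / m * F) + A2 * (2 * H * F) + m * (Z / X)) := by
    rw [← hsum]
    refine (sum_le_sum fun k hk => hblock k (mem_range.1 hk)).trans ?_
    rw [← mul_sum, sum_add_distrib, sum_add_distrib, ← mul_sum, ← mul_sum, sum_const, card_range,
      nsmul_eq_mul]
    gcongr
  refine htot.trans ?_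
  have hm' : (0 : ℝ) ≤ 1 / m := by positivity
  have hH' : (0 : ℝ) ≤ 1 / H := by positivity
  have f1 : A1 * (H / m * F) ≤ (1 / m + 1 / H + H / X) ^ 2 * F := by
    have e1 : A1 * (H / m * F) = ((1 / m + 1 / H) * (1 / m)) * F := by
      rw [hA1]
      field_simp
    rw [e1]
    apply mul_le_mul_of_nonneg_right _ hF0
    rw [sq]
    apply mul_le_mul _ _ hm' (by positivity)
    · linarith
    · linarith
  have f2 : A2 * (2 * H * F) ≤ 96 * ((1 / m + 1 / H + H / X) ^ 2 * F) := by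
    have e1 : A2 * (2 * H * F) = 96 * ((1 / m + H / X) ^ 2 * F) := by
      rw [hA2]
      field_simp
      ring
    rw [e1]
    gcongr
    linarith
  have f3 : 0 ≤ (1 / m + 1 / H + H / X) ^ 2 * F := by positivity
  have f4 : 0 ≤ m * Z / X := by positivity
  have f5 : m * (Z / X) = m * Z / X := by ring
  rw [f5]
  linarith

end Pool.Agent.H43.HX
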