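import Pool.Agent.H43.HX.Bx
import Pool.Agent.H43.HX.Sv

/-!
# [H43 HX BXA] Additive windows of a box with all factors `<= X^(5/12)`

PROOF. `ℓ = log X`, `Nm = ⌈6X⌉₊`, `f = bf χ e`. `F = Σ_{n<=Nm} ‖f n‖^2 <= X ℓ^C2` for an absolute `C2`: `bf χ e = ∏_{i∈univ} af ..`,
`‖bf χ e n‖ <= (1+S)^6 τ_6(n)` (`SI.mvp_bound`), `SI.div_sq`; if `bf χ e n ≠ 0` for some `n <= Nm` then `2^S <= 64 Nm` (`SI.bf_supp`), `S <= 3ℓ`.
`bx` with `(B, A', ε)`, `A' = 2A + 2C2 + 20`, gives `A1'`; `K0 = A1' + A + C2 + 10`. Let `K >= K0`, `H1 = ⌊X ℓ^(-K)⌋`. For a length `L ∈ {H, H1}`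
(`X^(1/6+3ε) <= L <= X ℓ^(-K)`) the numbers `δ ∈ [L/(4X), L/X]` are admissible in `bx` (`L/(4X) >= X^(-5/6+2ε)`, `L/X <= ℓ^(-K) <= ℓ^(-A1')`), so
`sv` with `δ1 = ℓ^(-A1')`, `m = ⌈ℓ^(A/2 + C2/2 + 2)⌉₊`, `Z = X^2 ℓ^(-A')`: the integral is `<= 500 ((1/m + 1/L + L/X)^2 X ℓ^C2 + m X ℓ^(-A'))`
`<= X ℓ^(-A-1)/16` for `X` large. Subtract the two: `∫_X^{2X} ‖wr f Nm H x/H - wr f Nm H1 x/H1‖^2 dx <= X ℓ^(-A-1)/4`. For a natural number `n`, `x ∈ [n, n+1)`: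
`wr f Nm H x = wn f H n` (`n + H <= 6X`). So the sum over the `n ∈ Ioc ⌊X⌋ ⌊2X⌋` with `[n,n+1) ⊆ [X,2X]` is bounded by the integral; the only other
`n` is `⌊2X⌋`: `‖wn f L n/L‖^2 <= F/L <= X ℓ^C2/X^(1/6)`.
-/

namespace Pool.Agent.H43.HX

open Finset MeasureTheory

private theorem wr_meas (f : ℕ → ℂ) (Nm H : ℕ) : Measurable (wr f Nm H) := by
  have h : wr f Nm H = fun x : ℝ => ∑ n ∈ Icc 1 Nm,
      if x < n ∧ (n : ℝ) ≤ x + H then f n else 0 := by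
    funext x
    unfold wr
    rw [Finset.sum_filter]
  rw [h]
  apply Finset.measurable_sum
  intro n _
  apply Measurable.ite _ measurable_const measurable_const
  apply MeasurableSet.inter
  · exact measurableSet_lt measurable_id measurable_const
  · exact measurableSet_le measurable_const (measurable_id.add_const _)

private theorem wr_bound (f : ℕ → ℂ) (Nm H : ℕ) (x : ℝ) :
    ‖wr f Nm H x‖ ≤ ∑ n ∈ Icc 1 Nm, ‖f n‖ := by
  unfold wr
  refine le_trans (norm_sum_le _ _) ?_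
  exact Finset.sum_le_sum_of_subset_of_nonneg (Finset.filter_subset _ _)
    (fun _ _ _ => norm_nonneg _)

private theorem sq_ii (u : ℝ → ℂ) (hu : Measurable u) (B a c : ℝ) (hac : a ≤ c)
    (hB : ∀ x, a ≤ x → ‖u x‖ ≤ B) : IntervalIntegrable (fun x => ‖u x‖ ^ 2) volume a c := by
  rw [intervalIntegrable_iff_integrableOn_Ioc_of_le hac]
  refine Measure.integrableOn_of_bounded (M := B ^ 2) (by simp)
    (hu.norm.pow_const 2).aestronglyMeasurable ?_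
  rw [ae_restrict_iff' measurableSet_Ioc]
  refine Filter.Eventually.of_forall fun x hx => ?_
  rw [Real.norm_eq_abs, abs_of_nonneg (sq_nonneg _)]
  exact pow_le_pow_left₀ (norm_nonneg _) (hB x hx.1.le) 2

private theorem wr_nat (f : ℕ → ℂ) (Nm L n : ℕ) (hn : n + L ≤ Nm) (x : ℝ) (h1 : (n : ℝ) ≤ x)
    (h2 : x < n + 1) : wr f Nm L x = wn f L n := by
  unfold wr wn
  congr 1
  ext m
  rw [mem_filter, mem_Icc, mem_Ioc]
  constructor
  · rintro ⟨⟨_, _⟩, h3, h4⟩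
    have h5 : (n : ℝ) < m := by linarith
    have h6 : (m : ℝ) < ((n + L + 1 : ℕ) : ℝ) := by push_cast; linarith
    have h7 : m < n + L + 1 := by exact_mod_cast h6
    exact ⟨by exact_mod_cast h5, by omega⟩
  · rintro ⟨h3, h4⟩
    have h5 : (n : ℝ) + 1 ≤ m := by exact_mod_cast h3
    have h6 : (m : ℝ) ≤ n + L := by exact_mod_cast h4
    exact ⟨⟨by omega, by omega⟩, by linarith, by linarith⟩

/-- Cauchy-Schwarz for a window -/
private theorem wn_cs (f : ℕ → ℂ) (Nm L n : ℕ) (hn : n + L ≤ Nm) (hL : 1 ≤ L) :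
    ‖wn f L n / L‖ ^ 2 ≤ (∑ m ∈ Icc 1 Nm, ‖f m‖ ^ 2) / L := by
  have hL0 : (0 : ℝ) < L := by exact_mod_cast hL
  rw [norm_div, Complex.norm_natCast, div_pow, div_le_div_iff₀ (by positivity) hL0]
  have h1 : ‖wn f L n‖ ^ 2 ≤ L * ∑ m ∈ Icc 1 Nm, ‖f m‖ ^ 2 := by
    have h2 : ‖wn f L n‖ ≤ ∑ m ∈ Ioc n (n + L), ‖f m‖ := norm_sum_le _ _
    have h3 : (∑ m ∈ Ioc n (n + L), ‖f m‖) ^ 2 ≤
        ((Ioc n (n + L)).card : ℝ) * ∑ m ∈ Ioc n (n + L), ‖f m‖ ^ 2 :=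
      sq_sum_le_card_mul_sum_sq
    rw [Nat.card_Ioc, Nat.add_sub_cancel_left] at h3
    have h4 : ∑ m ∈ Ioc n (n + L), ‖f m‖ ^ 2 ≤ ∑ m ∈ Icc 1 Nm, ‖f m‖ ^ 2 := by
      apply Finset.sum_le_sum_of_subset_of_nonneg
      · intro m hm
        rw [mem_Ioc] at hm
        rw [mem_Icc]
        omega
      · intro _ _ _
        positivity
    calc ‖wn f L n‖ ^ 2 ≤ (∑ m ∈ Ioc n (n + L), ‖f m‖) ^ 2 :=
          pow_le_pow_left₀ (norm_nonneg _) h2 2
      _ ≤ L * ∑ m ∈ Ioc n (n + L), ‖f m‖ ^ 2 := h3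
      _ ≤ _ := mul_le_mul_of_nonneg_left h4 hL0.le
  calc ‖wn f L n‖ ^ 2 * L ≤ (L * ∑ m ∈ Icc 1 Nm, ‖f m‖ ^ 2) * L :=
        mul_le_mul_of_nonneg_right h1 hL0.le
    _ = _ := by ring

/-- from the integral to the sum -/
private theorem int_sum (f : ℕ → ℂ) (Nm H H1 : ℕ) (X V : ℝ) (hX : 10 ≤ X) (hNm : 6 * X ≤ Nm)
    (hH1X : (H1 : ℝ) ≤ X) (hH : 1 ≤ H) (hHH : H ≤ H1)
    (hV : ∫ x in X..(2 * X), ‖wr f Nm H x / H - wr f Nm H1 x / H1‖ ^ 2 ≤ V) :
    ∑ n ∈ Ioc ⌊X⌋₊ ⌊2 * X⌋₊, ‖dw f H H1 n‖ ^ 2 ≤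
      V + 4 * (∑ n ∈ Icc 1 Nm, ‖f n‖ ^ 2) / H := by
  have hX0 : 0 < X := by linarith
  have hH0 : (0 : ℝ) < H := by exact_mod_cast hH
  have hH10 : (0 : ℝ) < H1 := by exact_mod_cast (by omega : 0 < H1)
  set G : ℝ → ℂ := fun x => wr f Nm H x / H - wr f Nm H1 x / H1 with hG
  have hGm : Measurable G := ((wr_meas f Nm H).div_const _).sub ((wr_meas f Nm H1).div_const _)
  have hGb : ∀ x, ‖G x‖ ≤ (∑ n ∈ Icc 1 Nm, ‖f n‖) / H + (∑ n ∈ Icc 1 Nm, ‖f n‖) / H1 := by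
    intro x
    refine (norm_sub_le _ _).trans ?_
    rw [norm_div, norm_div, Complex.norm_natCast, Complex.norm_natCast]
    exact add_le_add (div_le_div_of_nonneg_right (wr_bound _ _ _ _) hH0.le)
      (div_le_div_of_nonneg_right (wr_bound _ _ _ _) hH10.le)
  have hii : ∀ a c : ℝ, a ≤ c → IntervalIntegrable (fun x => ‖G x‖ ^ 2) volume a c :=
    fun a c hac => sq_ii G hGm _ a c hac fun x _ => hGb x
  set a := ⌊X⌋₊ with ha
  set b := ⌊2 * X⌋₊ with hb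
  have hb1 : (b : ℝ) ≤ 2 * X := Nat.floor_le (by linarith)
  have hb2 : 2 * X < b + 1 := Nat.lt_floor_add_one _
  have ha1 : (a : ℝ) ≤ X := Nat.floor_le hX0.le
  have ha2 : X < a + 1 := Nat.lt_floor_add_one _
  have hab : a + 1 < b := by
    have : (a : ℝ) + 1 < b := by linarith
    exact_mod_cast this
  have hNb : b + H1 ≤ Nm := by
    have : (b : ℝ) + H1 ≤ Nm := by linarith
    exact_mod_cast this
  obtain ⟨b', hb'⟩ : ∃ b', b = b' + 1 := ⟨b - 1, by omega⟩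
  have hsplit : ∑ n ∈ Ioc a b, ‖dw f H H1 n‖ ^ 2 =
      ∑ n ∈ Ico (a + 1) b, ‖dw f H H1 n‖ ^ 2 + ‖dw f H H1 b‖ ^ 2 := by
    rw [hb', Finset.sum_Ioc_succ_top (by omega)]
    have h0 : Ioc a b' = Ico (a + 1) (b' + 1) := by
      ext n
      rw [mem_Ioc, mem_Ico]
      omega
    rw [h0]
  rw [hsplit]
  apply add_le_add
  · have h1 : ∀ n ∈ Ico (a + 1) b, ‖dw f H H1 n‖ ^ 2 =
        ∫ x in (n : ℝ)..((n + 1 : ℕ) : ℝ), ‖G x‖ ^ 2 := by
      intro n hn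
      rw [mem_Ico] at hn
      rw [intervalIntegral.integral_of_le (by exact_mod_cast Nat.le_succ n),
        integral_Ioc_eq_integral_Ioo]
      have h2 : ∀ x ∈ Set.Ioo (n : ℝ) ((n + 1 : ℕ) : ℝ), ‖G x‖ ^ 2 =
          (fun _ : ℝ => ‖dw f H H1 n‖ ^ 2) x := by
        intro x hx
        have h3 : x < n + 1 := by
          have := hx.2
          push_cast at this
          exact this
        simp only [hG, dw]
        rw [wr_nat f Nm H n (by omega) x hx.1.le h3, wr_nat f Nm H1 n (by omega) x hx.1.le h3]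
      rw [setIntegral_congr_fun measurableSet_Ioo h2]
      simp
    rw [Finset.sum_congr rfl h1]
    have h4 := intervalIntegral.sum_integral_adjacent_intervals_Ico (μ := volume)
      (f := fun x => ‖G x‖ ^ 2) (a := fun k : ℕ => (k : ℝ)) (m := a + 1) (n := b) hab.le
      (fun k _ => hii _ _ (by exact_mod_cast Nat.le_succ k))
    rw [h4]
    refine le_trans ?_ hV
    apply intervalIntegral.integral_mono_interval (μ := volume) (f := fun x => ‖G x‖ ^ 2)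
    · push_cast
      linarith
    · exact_mod_cast hab.le
    · exact hb1
    · exact Filter.Eventually.of_forall fun x => sq_nonneg _
    · exact hii _ _ (by linarith)
  · have h1 : ‖dw f H H1 b‖ ^ 2 ≤ 2 * (‖wn f H b / H‖ ^ 2 + ‖wn f H1 b / H1‖ ^ 2) := by
      unfold dw
      have h2 := norm_sub_le (wn f H b / H) (wn f H1 b / H1)
      have h3 := pow_le_pow_left₀ (norm_nonneg _) h2 2
      nlinarith [sq_nonneg (‖wn f H b / (H : ℂ)‖ - ‖wn f H1 b / (H1 : ℂ)‖)]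
    have h2 := wn_cs f Nm H b (by omega) hH
    have h3 := wn_cs f Nm H1 b hNb (by omega)
    have hF : 0 ≤ ∑ m ∈ Icc 1 Nm, ‖f m‖ ^ 2 := Finset.sum_nonneg fun _ _ => by positivity
    have h4 : (∑ m ∈ Icc 1 Nm, ‖f m‖ ^ 2) / H1 ≤ (∑ m ∈ Icc 1 Nm, ‖f m‖ ^ 2) / H :=
      div_le_div_of_nonneg_left hF hH0 (by exact_mod_cast hHH)
    rw [mul_div_assoc]
    linarith

/-- the mean square of the coefficients -/
private theorem Fbd {q : ℕ} (χ : DirichletCharacter ℂ q) (e : Fin 6 → ℕ) (X : ℝ)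
    (hX : Real.exp ((2 : ℝ) ^ 40) ≤ X) :
    ∑ n ∈ Icc 1 ⌈6 * X⌉₊, ‖SI.bf χ e n‖ ^ 2 ≤ X * (Real.log X) ^ (50 : ℝ) := by
  have hX0 : 0 < X := lt_of_lt_of_le (Real.exp_pos _) hX
  set l := Real.log X with hl
  have hl1 : (2 : ℝ) ^ 40 ≤ l := (Real.le_log_iff_exp_le hX0).2 hX
  have hX1 : 1000 ≤ X := by
    have := Real.add_one_le_exp ((2 : ℝ) ^ 40)
    linarith
  have hl0 : 0 < l := by linarith
  have hlX : Real.exp l = X := Real.exp_log hX0
  set Nm := ⌈6 * X⌉₊ with hNm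
  have hN1 : 6 * X ≤ Nm := Nat.le_ceil _
  have hN2 : (Nm : ℝ) ≤ 7 * X := by
    have := (Nat.ceil_lt_add_one (show 0 ≤ 6 * X by positivity)).le
    linarith
  have hNm1 : 1 ≤ Nm := by
    have : (0 : ℝ) < Nm := by linarith
    exact_mod_cast this
  set S : ℕ := ∑ i, e i with hS
  have hterm : ∀ n ∈ Icc 1 Nm, ‖SI.bf χ e n‖ ^ 2 ≤ (4 * l) ^ 12 *
      ((((ArithmeticFunction.zeta : ArithmeticFunction ℕ) ^ 6) n : ℕ) : ℝ) ^ 2 := by
    intro n hn
    rw [mem_Icc] at hn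
    by_cases h0 : SI.bf χ e n = 0
    · rw [h0, norm_zero, zero_pow (by norm_num)]
      positivity
    · obtain ⟨h1, h2, h3⟩ := SI.bf_supp χ e n h0
      have h4 : ((2 : ℝ)) ^ S ≤ X ^ 2 := by
        have h5 : ((2 : ℝ)) ^ S ≤ 64 * n := by exact_mod_cast h3
        have h6 : (n : ℝ) ≤ Nm := by exact_mod_cast hn.2
        nlinarith
      have h7 : (S : ℝ) ≤ 3 * l := by
        have h8 := Real.log_le_log (by positivity) h4
        rw [Real.log_pow, Real.log_pow, ← hl] at h8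
        have h9 := Real.log_two_gt_d9
        have h10 : (0 : ℝ) ≤ S := Nat.cast_nonneg S
        push_cast at h8
        nlinarith
      have h11 := SI.mvp_bound χ e Finset.univ n
      have h12 : (Finset.univ : Finset (Fin 6)).card = 6 := by simp
      rw [h12, Fin.prod_univ_six] at h11
      have h13 : ‖SI.bf χ e n‖ ≤ (1 + (S : ℝ)) ^ 6 *
          ((((ArithmeticFunction.zeta : ArithmeticFunction ℕ) ^ 6) n : ℕ) : ℝ) := h11
      have h14 : (1 + (S : ℝ)) ^ 6 ≤ (4 * l) ^ 6 := by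
        apply pow_le_pow_left₀ (by positivity)
        linarith
      calc ‖SI.bf χ e n‖ ^ 2 ≤ ((4 * l) ^ 6 *
            ((((ArithmeticFunction.zeta : ArithmeticFunction ℕ) ^ 6) n : ℕ) : ℝ)) ^ 2 := by
            apply pow_le_pow_left₀ (norm_nonneg _)
            exact h13.trans (mul_le_mul_of_nonneg_right h14 (Nat.cast_nonneg _))
        _ = _ := by ring
  refine (Finset.sum_le_sum hterm).trans ?_
  rw [← Finset.mul_sum]
  have h1 := SI.div_sq 6 Nm hNm1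
  have h2 : 1 + Real.log Nm ≤ 2 * l := by
    have h3 := Real.log_le_log (by exact_mod_cast hNm1) hN2
    rw [Real.log_mul (by norm_num) hX0.ne', ← hl] at h3
    have h4 : Real.log 7 ≤ 7 - 1 := Real.log_le_sub_one_of_pos (by norm_num)
    linarith
  have h3 : 0 ≤ 1 + Real.log Nm := by
    have := Real.log_nonneg (show (1 : ℝ) ≤ Nm by exact_mod_cast hNm1)
    linarith
  have h4 : (1 + Real.log Nm) ^ (6 ^ 2) ≤ (2 * l) ^ (6 ^ 2) := pow_le_pow_left₀ h3 h2 _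
  have h5 : l ^ (50 : ℝ) = l ^ (48 : ℕ) * l ^ 2 := by
    rw [← pow_add, ← Real.rpow_natCast]
    norm_num
  have h6 : (4 : ℝ) ^ 12 * 7 * 2 ^ 36 ≤ l ^ 2 := by nlinarith
  calc (4 * l) ^ 12 * ∑ n ∈ Icc 1 Nm,
        ((((ArithmeticFunction.zeta : ArithmeticFunction ℕ) ^ 6) n : ℕ) : ℝ) ^ 2
      ≤ (4 * l) ^ 12 * (Nm * (1 + Real.log Nm) ^ (6 ^ 2)) :=
        mul_le_mul_of_nonneg_left h1 (by positivity)
    _ ≤ (4 * l) ^ 12 * (7 * X * (2 * l) ^ (6 ^ 2)) := by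
        apply mul_le_mul_of_nonneg_left _ (by positivity)
        exact mul_le_mul hN2 h4 (pow_nonneg h3 _) (by positivity)
    _ = X * (l ^ 48 * ((4 : ℝ) ^ 12 * 7 * 2 ^ 36)) := by ring
    _ ≤ X * (l ^ 48 * l ^ 2) := by gcongr
    _ = X * l ^ (50 : ℝ) := by rw [h5]

/-- the integral for one length -/
private theorem one_len (f : ℕ → ℂ) (Nm L : ℕ) (X δ1 l M A A' : ℝ) (hl : l = Real.log X)
    (hl1 : (2 : ℝ) ^ 40 ≤ l) (hX : 10 ≤ X) (hNm : 6 * X ≤ Nm) (hL : 1 ≤ L) (hLX : (L : ℝ) ≤ X)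
    (hδ : 0 < δ1) (hδ1 : δ1 ≤ 1) (hM : M = A / 2 + 27) (hA : 0 < A) (hA' : A' = M + A + 2)
    (hF : ∑ n ∈ Icc 1 Nm, ‖f n‖ ^ 2 ≤ X * l ^ (50 : ℝ)) (hL1 : 1 / (L : ℝ) ≤ l ^ (-M))
    (hL2 : L / X ≤ l ^ (-M))
    (hZ : ∀ δ : ℝ, L / (4 * X) ≤ δ → δ ≤ L / X →
      ∫ y in (Real.log X)..(Real.log (2 * X)), ‖SI.Sd f Nm δ y / δ - SI.Sd f Nm δ1 y / δ1‖ ^ 2 ≤
        X ^ 2 * l ^ (-A')) :
    ∫ x in X..(2 * X), ‖wr f Nm L x / L - SI.Sd f Nm δ1 (Real.log x) / (x * δ1)‖ ^ 2 ≤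
      X * l ^ (-A) / 16 := by
  have hX0 : 0 < X := by linarith
  have hl0 : 0 < l := by linarith
  have hM0 : 0 < M := by rw [hM]; positivity
  have hlM : 1 ≤ l ^ M := Real.one_le_rpow (by linarith) hM0.le
  set m := ⌈l ^ M⌉₊ with hm
  have hm1 : l ^ M ≤ m := Nat.le_ceil _
  have hm2 : (m : ℝ) ≤ 2 * l ^ M := by
    have := (Nat.ceil_lt_add_one (show 0 ≤ l ^ M by positivity)).le
    linarith
  have hm0 : 1 ≤ m := by
    have : (0 : ℝ) < m := by linarith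
    exact_mod_cast this
  have h1 := sv f Nm m L X δ1 (X ^ 2 * l ^ (-A')) hX hNm hL hLX hδ hδ1 hm0 hZ
  refine h1.trans ?_
  have hlMp : 0 < l ^ (-M) := by positivity
  have h2 : 1 / (m : ℝ) ≤ l ^ (-M) := by
    rw [Real.rpow_neg hl0.le, ← one_div]
    exact one_div_le_one_div_of_le (by positivity) hm1
  have h3 : (1 / (m : ℝ) + 1 / L + L / X) ^ 2 ≤ 9 * (l ^ (-M)) ^ 2 := by
    have h4 : 0 ≤ 1 / (m : ℝ) + 1 / L + L / X := by positivity
    have h5 := pow_le_pow_left₀ h4 (show 1 / (m : ℝ) + 1 / L + L / X ≤ 3 * l ^ (-M) by linarith) 2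
    calc _ ≤ (3 * l ^ (-M)) ^ 2 := h5
      _ = _ := by ring
  have hF0 : 0 ≤ ∑ n ∈ Icc 1 Nm, ‖f n‖ ^ 2 := Finset.sum_nonneg fun _ _ => by positivity
  have h4 : (1 / (m : ℝ) + 1 / L + L / X) ^ 2 * ∑ n ∈ Icc 1 Nm, ‖f n‖ ^ 2 ≤
      9 * X * l ^ (-A - 2) := by
    calc _ ≤ 9 * (l ^ (-M)) ^ 2 * (X * l ^ (50 : ℝ)) :=
          mul_le_mul h3 hF hF0 (by positivity)
      _ = 9 * X * ((l ^ (-M)) ^ 2 * l ^ (50 : ℝ)) := by ring
      _ = 9 * X * l ^ (-A - 4) := by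
          rw [← Real.rpow_natCast, ← Real.rpow_mul hl0.le, ← Real.rpow_add hl0]
          congr 2
          push_cast
          rw [hM]
          ring
      _ ≤ 9 * X * l ^ (-A - 2) := by
          gcongr
          · linarith
          · linarith
  have h5 : (m : ℝ) * (X ^ 2 * l ^ (-A')) / X ≤ 2 * X * l ^ (-A - 2) := by
    calc (m : ℝ) * (X ^ 2 * l ^ (-A')) / X = m * X * l ^ (-A') := by field_simp
      _ ≤ 2 * l ^ M * X * l ^ (-A') := by gcongr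
      _ = 2 * X * (l ^ M * l ^ (-A')) := by ring
      _ = 2 * X * l ^ (-A - 2) := by
          rw [← Real.rpow_add hl0]
          congr 2
          rw [hA']
          ring
  have h6 : l ^ (-A) = l ^ (-A - 2) * l ^ 2 := by
    rw [← Real.rpow_natCast, ← Real.rpow_add hl0]
    congr 1
    push_cast
    ring
  have h7 : (88000 : ℝ) ≤ l ^ 2 := by nlinarith
  have h8 : 0 < X * l ^ (-A - 2) := by positivity
  calc 500 * ((1 / (m : ℝ) + 1 / L + L / X) ^ 2 * ∑ n ∈ Icc 1 Nm, ‖f n‖ ^ 2 +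
        m * (X ^ 2 * l ^ (-A')) / X) ≤ 500 * (9 * X * l ^ (-A - 2) + 2 * X * l ^ (-A - 2)) := by
        linarith
    _ = 88000 * (X * l ^ (-A - 2)) / 16 := by ring
    _ ≤ l ^ 2 * (X * l ^ (-A - 2)) / 16 := by
        have := mul_le_mul_of_nonneg_right h7 h8.le
        linarith
    _ = X * l ^ (-A) / 16 := by rw [h6]; ring

/-- the difference of two lengths -/
private theorem two_len (f : ℕ → ℂ) (Nm H H1 : ℕ) (X δ1 V : ℝ) (hX : 10 ≤ X) (hH : 1 ≤ H)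
    (hH1 : 1 ≤ H1) (hδ : 0 < δ1)
    (h1 : ∫ x in X..(2 * X), ‖wr f Nm H x / H - SI.Sd f Nm δ1 (Real.log x) / (x * δ1)‖ ^ 2 ≤ V)
    (h2 : ∫ x in X..(2 * X), ‖wr f Nm H1 x / H1 - SI.Sd f Nm δ1 (Real.log x) / (x * δ1)‖ ^ 2 ≤
      V) :
    ∫ x in X..(2 * X), ‖wr f Nm H x / H - wr f Nm H1 x / H1‖ ^ 2 ≤ 4 * V := by
  have hX0 : 0 < X := by linarith
  set Fs := ∑ n ∈ Icc 1 Nm, ‖f n‖ with hFs
  have hFs0 : 0 ≤ Fs := Finset.sum_nonneg fun _ _ => norm_nonneg _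
  have hSm : Measurable (fun x : ℝ => SI.Sd f Nm δ1 (Real.log x) / ((x : ℂ) * δ1)) :=
    ((SI.Sd_measurable f Nm δ1).comp Real.measurable_log).div
      (Complex.measurable_ofReal.mul_const _)
  have hSb : ∀ x : ℝ, X ≤ x → ‖SI.Sd f Nm δ1 (Real.log x) / ((x : ℂ) * δ1)‖ ≤
      Fs / (X * δ1) := by
    intro x hx
    have hx0 : 0 < x := by linarith
    rw [norm_div, norm_mul, Complex.norm_real, Complex.norm_real, Real.norm_of_nonneg hx0.le,
      Real.norm_of_nonneg hδ.le]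
    exact div_le_div₀ hFs0 (SI.Sd_bound _ _ _ _) (by positivity)
      (mul_le_mul_of_nonneg_right hx hδ.le)
  have hint : ∀ L : ℕ, 1 ≤ L → IntervalIntegrable (fun x =>
      ‖wr f Nm L x / L - SI.Sd f Nm δ1 (Real.log x) / (x * δ1)‖ ^ 2) volume X (2 * X) := by
    intro L hL
    have hL0 : (0 : ℝ) < L := by exact_mod_cast hL
    apply sq_ii (fun x => wr f Nm L x / L - SI.Sd f Nm δ1 (Real.log x) / (x * δ1))
      (((wr_meas f Nm L).div_const _).sub hSm) (Fs / L + Fs / (X * δ1)) _ _ (by linarith)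
    intro x hx
    refine (norm_sub_le _ _).trans (add_le_add ?_ (hSb x hx))
    rw [norm_div, Complex.norm_natCast]
    exact div_le_div_of_nonneg_right (wr_bound _ _ _ _) hL0.le
  have hint2 : IntervalIntegrable (fun x =>
      ‖wr f Nm H x / H - wr f Nm H1 x / H1‖ ^ 2) volume X (2 * X) := by
    have hH0 : (0 : ℝ) < H := by exact_mod_cast hH
    have hH10 : (0 : ℝ) < H1 := by exact_mod_cast hH1
    apply sq_ii (fun x => wr f Nm H x / H - wr f Nm H1 x / H1)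
      (((wr_meas f Nm H).div_const _).sub ((wr_meas f Nm H1).div_const _)) (Fs / H + Fs / H1) _ _
      (by linarith)
    intro x _
    refine (norm_sub_le _ _).trans ?_
    rw [norm_div, norm_div, Complex.norm_natCast, Complex.norm_natCast]
    exact add_le_add (div_le_div_of_nonneg_right (wr_bound _ _ _ _) hH0.le)
      (div_le_div_of_nonneg_right (wr_bound _ _ _ _) hH10.le)
  have h3 : ∫ x in X..(2 * X), ‖wr f Nm H x / H - wr f Nm H1 x / H1‖ ^ 2 ≤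
      ∫ x in X..(2 * X), (2 * ‖wr f Nm H x / H - SI.Sd f Nm δ1 (Real.log x) / (x * δ1)‖ ^ 2 +
        2 * ‖wr f Nm H1 x / H1 - SI.Sd f Nm δ1 (Real.log x) / (x * δ1)‖ ^ 2) := by
    apply intervalIntegral.integral_mono_on (by linarith) hint2
      (((hint H hH).const_mul 2).add ((hint H1 hH1).const_mul 2))
    intro x _
    set a := wr f Nm H x / H - SI.Sd f Nm δ1 (Real.log x) / (x * δ1)
    set b := wr f Nm H1 x / H1 - SI.Sd f Nm δ1 (Real.log x) / (x * δ1)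
    have h4 : wr f Nm H x / H - wr f Nm H1 x / H1 = a - b := by
      simp only [a, b]
      ring
    rw [h4]
    have h5 := norm_sub_le a b
    have h6 := pow_le_pow_left₀ (norm_nonneg _) h5 2
    nlinarith [sq_nonneg (‖a‖ - ‖b‖)]
  rw [intervalIntegral.integral_add ((hint H hH).const_mul 2) ((hint H1 hH1).const_mul 2),
    intervalIntegral.integral_const_mul, intervalIntegral.integral_const_mul] at h3
  linarith

theorem bxa (B A ε : ℝ) (hB : 0 < B) (hA : 0 < A) (hε : 0 < ε) (hε1 : ε ≤ 1 / 12) :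
    ∃ K0 : ℝ, 0 < K0 ∧ ∀ K : ℝ, K0 ≤ K → ∃ X0 : ℝ, 10 ≤ X0 ∧ ∀ X : ℝ, X0 ≤ X →
    ∀ (q : ℕ) [NeZero q], (q : ℝ) ≤ (Real.log X) ^ B → ∀ (χ : DirichletCharacter ℂ q)
    (e : Fin 6 → ℕ), (∀ i, (2 : ℝ) ^ (e i) ≤ X ^ ((5 : ℝ) / 12)) → ∀ H : ℕ,
    X ^ ((1 : ℝ) / 6 + 3 * ε) ≤ H → (H : ℝ) ≤ X * (Real.log X) ^ (-K) →
    ∑ x ∈ Ioc ⌊X⌋₊ ⌊2 * X⌋₊,
      ‖dw (fun n => SI.bf χ e n) H ⌊X * (Real.log X) ^ (-K)⌋₊ x‖ ^ 2 ≤
      X * (Real.log X) ^ (-A) := by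
  obtain ⟨A1, X1, hA1, hX1, hbx⟩ := bx B (A / 2 + 27 + A + 2) ε hB (by positivity) hε hε1
  refine ⟨A1 + (A / 2 + 27), by positivity, ?_⟩
  intro K hK
  have hK0 : 0 < K := by linarith
  obtain ⟨X2, hX2⟩ := Filter.eventually_atTop.1
    ((isLittleO_log_rpow_rpow_atTop (50 + A) (show (0 : ℝ) < 1 / 6 by norm_num)).bound
      (show (0 : ℝ) < 1 / 8 by norm_num))
  obtain ⟨X3, hX3⟩ := Filter.eventually_atTop.1
    ((isLittleO_log_rpow_rpow_atTop (A / 2 + 27) (show (0 : ℝ) < 1 / 6 by norm_num)).bound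
      (show (0 : ℝ) < 1 by norm_num))
  obtain ⟨X4, hX4⟩ := Filter.eventually_atTop.1
    ((isLittleO_log_rpow_rpow_atTop 1 hε).bound (show (0 : ℝ) < 1 by norm_num))
  refine ⟨max X1 (max X2 (max X3 (max X4 (Real.exp ((2 : ℝ) ^ 40))))),
    hX1.trans (le_max_left _ _), ?_⟩
  intro X hX q _ hq χ e he H hH1 hH2
  have hXX1 : X1 ≤ X := (le_max_left _ _).trans hX
  have hXX2 : X2 ≤ X := ((le_max_left _ _).trans (le_max_right _ _)).trans hX
  have hXX3 : X3 ≤ X := (((le_max_left _ _).trans (le_max_right _ _)).trans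
    (le_max_right _ _)).trans hX
  have hXX4 : X4 ≤ X := ((((le_max_left _ _).trans (le_max_right _ _)).trans
    (le_max_right _ _)).trans (le_max_right _ _)).trans hX
  have hXe : Real.exp ((2 : ℝ) ^ 40) ≤ X := ((((le_max_right _ _).trans (le_max_right _ _)).trans
    (le_max_right _ _)).trans (le_max_right _ _)).trans hX
  have hX10 : 10 ≤ X := hX1.trans hXX1
  have hX0 : 0 < X := by linarith
  have hX1' : 1 ≤ X := by linarith
  set l := Real.log X with hl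
  have hl1 : (2 : ℝ) ^ 40 ≤ l := (Real.le_log_iff_exp_le hX0).2 hXe
  have hl0 : 0 < l := by linarith
  have hl1' : 1 ≤ l := by linarith
  have c2 : l ^ (50 + A) ≤ 1 / 8 * X ^ ((1 : ℝ) / 6) := by
    have := hX2 X hXX2
    rwa [Real.norm_of_nonneg (by positivity), Real.norm_of_nonneg (by positivity)] at this
  have c3 : l ^ (A / 2 + 27) ≤ X ^ ((1 : ℝ) / 6) := by
    have := hX3 X hXX3
    rwa [Real.norm_of_nonneg (by positivity), Real.norm_of_nonneg (by positivity),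
      one_mul] at this
  have c4 : l ≤ X ^ ε := by
    have := hX4 X hXX4
    rwa [Real.norm_of_nonneg (by positivity), Real.norm_of_nonneg (by positivity),
      one_mul, Real.rpow_one] at this
  set Nm := ⌈6 * X⌉₊ with hNm
  have hNm1 : 6 * X ≤ Nm := Nat.le_ceil _
  have hF := Fbd χ e X hXe
  rw [← hNm, ← hl] at hF
  have hlK1 : l ^ (-K) ≤ 1 := by
    rw [Real.rpow_neg hl0.le]
    exact inv_le_one_of_one_le₀ (Real.one_le_rpow hl1' hK0.le)
  have hXK : X * l ^ (-K) ≤ X := mul_le_of_le_one_right hX0.le hlK1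
  set H1 := ⌊X * l ^ (-K)⌋₊ with hH1d
  have hHH : H ≤ H1 := Nat.le_floor hH2
  have hH1K : (H1 : ℝ) ≤ X * l ^ (-K) := Nat.floor_le (by positivity)
  have hH16 : X ^ ((1 : ℝ) / 6) ≤ H :=
    (Real.rpow_le_rpow_of_exponent_le hX1' (by linarith)).trans hH1
  have hH0 : 1 ≤ H := by
    have : (0 : ℝ) < H := lt_of_lt_of_le (by positivity) hH16
    exact_mod_cast this
  have hH0' : (0 : ℝ) < H := by exact_mod_cast hH0
  -- one length
  have key : ∀ L : ℕ, H ≤ L → (L : ℝ) ≤ X * l ^ (-K) →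
      ∫ x in X..(2 * X), ‖wr (fun n => SI.bf χ e n) Nm L x / L -
        SI.Sd (fun n => SI.bf χ e n) Nm (l ^ (-A1)) (Real.log x) /
          (x * ((l ^ (-A1) : ℝ) : ℂ))‖ ^ 2 ≤ X * l ^ (-A) / 16 := by
    intro L hHL hLK
    have hL0 : (0 : ℝ) < L := lt_of_lt_of_le hH0' (by exact_mod_cast hHL)
    have hLH : (H : ℝ) ≤ L := by exact_mod_cast hHL
    refine one_len (fun n => SI.bf χ e n) Nm L X (l ^ (-A1)) l (A / 2 + 27) A
      (A / 2 + 27 + A + 2) hl hl1 hX10 hNm1 (by omega) (hLK.trans hXK) (by positivity) ?_ rfl hA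
      rfl hF ?_ ?_ ?_
    · rw [Real.rpow_neg hl0.le]
      exact inv_le_one_of_one_le₀ (Real.one_le_rpow hl1' hA1.le)
    · rw [Real.rpow_neg hl0.le, ← one_div]
      exact one_div_le_one_div_of_le (by positivity) (c3.trans (hH16.trans hLH))
    · rw [div_le_iff₀ hX0, mul_comm]
      refine hLK.trans (mul_le_mul_of_nonneg_left ?_ hX0.le)
      exact Real.rpow_le_rpow_of_exponent_le hl1' (by linarith)
    · intro δ hδ1 hδ2
      refine hbx X hXX1 q hq χ δ ?_ ?_ e he Nm hNm1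
      · refine le_trans ?_ hδ1
        rw [le_div_iff₀ (by positivity)]
        refine le_trans ?_ (hH1.trans hLH)
        have e1 : X ^ ((1 : ℝ) / 6 + 3 * ε) = X ^ (-(5 : ℝ) / 6 + 2 * ε) * X * X ^ ε := by
          rw [mul_assoc, ← Real.rpow_one_add' hX0.le (by positivity), ← Real.rpow_add hX0]
          congr 1
          ring
        rw [e1]
        have e2 : 4 ≤ X ^ ε := by linarith
        calc X ^ (-(5 : ℝ) / 6 + 2 * ε) * (4 * X) = X ^ (-(5 : ℝ) / 6 + 2 * ε) * X * 4 := by ring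
          _ ≤ _ := by gcongr
      · refine hδ2.trans ?_
        rw [div_le_iff₀ hX0, mul_comm]
        refine hLK.trans (mul_le_mul_of_nonneg_left ?_ hX0.le)
        exact Real.rpow_le_rpow_of_exponent_le hl1' (by linarith)
  have hV := two_len (fun n => SI.bf χ e n) Nm H H1 X (l ^ (-A1)) _ hX10 hH0 (by omega)
    (by positivity) (key H le_rfl hH2) (key H1 hHH hH1K)
  have hfin := int_sum (fun n => SI.bf χ e n) Nm H H1 X _ hX10 hNm1 (hH1K.trans hXK) hH0 hHH hV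
  refine hfin.trans ?_
  have h1 : 4 * (∑ n ∈ Icc 1 Nm, ‖SI.bf χ e n‖ ^ 2) / H ≤ X * l ^ (-A) / 2 := by
    rw [div_le_iff₀ hH0']
    have h2 : 4 * (X * l ^ (50 : ℝ)) ≤ X * l ^ (-A) / 2 * X ^ ((1 : ℝ) / 6) := by
      have h3 : l ^ (50 : ℝ) = l ^ (-A) * l ^ (50 + A) := by
        rw [← Real.rpow_add hl0]
        congr 1
        ring
      rw [h3]
      have h4 : 0 < X * l ^ (-A) := by positivity
      nlinarith [mul_le_mul_of_nonneg_left c2 h4.le]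
    calc 4 * ∑ n ∈ Icc 1 Nm, ‖SI.bf χ e n‖ ^ 2 ≤ 4 * (X * l ^ (50 : ℝ)) := by linarith
      _ ≤ X * l ^ (-A) / 2 * X ^ ((1 : ℝ) / 6) := h2
      _ ≤ _ := mul_le_mul_of_nonneg_left hH16 (by positivity)
  have h5 : 0 < X * l ^ (-A) := by positivity
  linarith

end Pool.Agent.H43.HX
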