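import Mathlib

/-!
# [H43 HX CMB] The choice of the power (exponents)

`0 < ε <= 1/12`, `η = ε/8`, `η0 = ε/200`.
(1) For `η0 <= α <= 5/12` there is a natural number `1 <= g <= 1/η0` with `2/3 - 2η <= g α <= 1 - η`.
PROOF. If `α <= 1/3 - η`: `g = ⌊(1-η)/α⌋`, `gα > 1 - η - α >= 2/3`, `g <= 1/η0`. If `α > 1/3 - η`: `g = 2`,
`2α ∈ (2/3 - 2η, 5/6]`, `5/6 <= 1 - η`.
(2) For `2/3 - 2η <= y <= 1 - η`, `u >= 1/4`: `5/6 - ε + y(2u-1) - 2u(1-6η0) <= -ε/2`.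
PROOF. `1/4 <= u <= 1/2`: `y(2u-1) <= (2/3-2η)(2u-1)`, the sum is `1/6 - ε + 2η - u(2/3 + 4η - 12η0) <= 1/6 - ε + 2η - 1/6`.
`u > 1/2`: `y(2u-1) <= (1-η)(2u-1)`, the sum is `-1/6 - ε + η - 2u(η - 6η0) <= -ε/2`.
(3) For `2/3 - 2η <= y`, `0 <= u <= 1/4`: `5/6 - ε + y(6u-2) - 2u(1-6η0) <= -ε/2`.
PROOF. `6u - 2 < 0`: `y(6u-2) <= (2/3-2η)(6u-2)`, the sum is `-1/2 - ε + 4η + u(2 - 12η + 12η0) <= -ε + 4η` (`u <= 1/4`).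
-/

namespace Pool.Agent.H43.HX

theorem cmb_g (ε α : ℝ) (hε : 0 < ε) (hε1 : ε ≤ 1 / 12) (h1 : ε / 200 ≤ α) (h2 : α ≤ 5 / 12) :
    ∃ g : ℕ, 1 ≤ g ∧ (g : ℝ) ≤ 200 / ε ∧ 2 / 3 - 2 * (ε / 8) ≤ g * α ∧ g * α ≤ 1 - ε / 8 := by
  have hα : 0 < α := by linarith
  rcases le_or_gt α (1 / 3 - ε / 8) with h | h
  · refine ⟨⌊(1 - ε / 8) / α⌋₊, ?_, ?_, ?_, ?_⟩
    · rw [Nat.one_le_floor_iff, le_div_iff₀ hα]
      linarith
    · refine (Nat.floor_le (div_nonneg (by linarith) hα.le)).trans ?_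
      rw [div_le_div_iff₀ hα hε]
      nlinarith
    · have h3 := Nat.lt_floor_add_one ((1 - ε / 8) / α)
      rw [div_lt_iff₀ hα] at h3
      nlinarith
    · have h3 := Nat.floor_le (div_nonneg (by linarith : (0 : ℝ) ≤ 1 - ε / 8) hα.le)
      rw [le_div_iff₀ hα] at h3
      exact h3
  · refine ⟨2, by norm_num, ?_, ?_, ?_⟩
    · rw [le_div_iff₀ hε]
      push_cast
      linarith
    · push_cast
      linarith
    · push_cast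
      linarith

theorem cmb_mv (ε y u : ℝ) (hε : 0 < ε) (hε1 : ε ≤ 1 / 12) (h1 : 2 / 3 - 2 * (ε / 8) ≤ y)
    (h2 : y ≤ 1 - ε / 8) (hu : 1 / 4 ≤ u) :
    5 / 6 - ε + y * (2 * u - 1) - 2 * u * (1 - 6 * (ε / 200)) ≤ -ε / 2 := by
  rcases le_or_gt u (1 / 2) with h | h
  · have h3 : 0 ≤ (y - (2 / 3 - 2 * (ε / 8))) * (1 - 2 * u) :=
      mul_nonneg (by linarith) (by linarith)
    have h4 : 0 ≤ (u - 1 / 4) * (2 / 3 + 4 * (ε / 8) - 12 * (ε / 200)) :=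
      mul_nonneg (by linarith) (by linarith)
    nlinarith
  · have h3 : 0 ≤ ((1 - ε / 8) - y) * (2 * u - 1) :=
      mul_nonneg (by linarith) (by linarith)
    have h4 : 0 ≤ (u - 1 / 2) * ((ε / 8) - 6 * (ε / 200)) :=
      mul_nonneg (by linarith) (by linarith)
    nlinarith

theorem cmb_hx (ε y u : ℝ) (hε : 0 < ε) (hε1 : ε ≤ 1 / 12) (h1 : 2 / 3 - 2 * (ε / 8) ≤ y)
    (hu0 : 0 ≤ u) (hu : u ≤ 1 / 4) :
    5 / 6 - ε + y * (6 * u - 2) - 2 * u * (1 - 6 * (ε / 200)) ≤ -ε / 2 := by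
  have h3 : 0 ≤ (y - (2 / 3 - 2 * (ε / 8))) * (2 - 6 * u) :=
    mul_nonneg (by linarith) (by linarith)
  have h4 : 0 ≤ (1 / 4 - u) * (2 - 12 * (ε / 8) + 12 * (ε / 200)) :=
    mul_nonneg (by linarith) (by linarith)
  nlinarith

end Pool.Agent.H43.HX
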