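import Pool.Agent.H43.HX.Hm6

/-!
# [H43 HX HUX] Huxley's large value theorem for measurable sets

PROOF. `G = Σ ‖a n‖^2`, `F(t)` the polynomial, `|E|` the measure, `L = 1 + log N + log T`, `C0 >= 1` from `hm6`. If `E` is empty the claim is
trivial; otherwise `V^2 <= NG` (Cauchy-Schwarz), `G > 0`. `R = V^2/(2 C0 G L)`.
`R < 1`: `|E| <= 2T` and `V^6 <= (2C0GL)^3`, so `|E| V^6 <= 16 C0^3 L^3 T G^3`.
`R >= 1`: `T0 = R^2`, `T0 <= N^2` (as `V^2 <= NG`). For an interval `I = [t0-T0, t0+T0]`: by `hm6`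
`V^2 |E∩I| <= C0 (N (1+log T0) + |E∩I| R (1+log N)) G <= C0 N G (1 + log T0) + |E∩I| V^2/2`, so `|E∩I| <= 2C0NG(1+log T0)/V^2 <= 4C0NGL/V^2`.
`[-T,T]` is covered by at most `T/T0 + 1` such intervals: `|E| <= (T/T0 + 1) 4C0NGL/V^2`, and
`|E| V^6 <= 4C0 L NG V^4 + 16 C0^3 L^3 T N G^3`.
-/

namespace Pool.Agent.H43.HX

open Finset MeasureTheory

theorem hux_cs (N : ℕ) (a : ℕ → ℂ) (t : ℝ) :
    ‖∑ n ∈ Icc 1 N, a n * (n : ℂ) ^ (-((t : ℂ) * Complex.I))‖ ^ 2 ≤
      N * ∑ n ∈ Icc 1 N, ‖a n‖ ^ 2 := by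
  have h1 : ‖∑ n ∈ Icc 1 N, a n * (n : ℂ) ^ (-((t : ℂ) * Complex.I))‖ ≤
      ∑ n ∈ Icc 1 N, ‖a n‖ := by
    refine (norm_sum_le _ _).trans (Finset.sum_le_sum fun n hn => ?_)
    have hn1 : 0 < n := (Finset.mem_Icc.mp hn).1
    rw [norm_mul, Complex.norm_natCast_cpow_of_pos hn1]
    simp
  have h2 := sq_sum_le_card_mul_sum_sq (s := Icc 1 N) (f := fun n => ‖a n‖)
  rw [Nat.card_Icc, Nat.add_sub_cancel] at h2
  exact (pow_le_pow_left₀ (norm_nonneg _) h1 2).trans h2

theorem hux_cont (N : ℕ) (a : ℕ → ℂ) :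
    Continuous fun t : ℝ => ‖∑ n ∈ Icc 1 N, a n * (n : ℂ) ^ (-((t : ℂ) * Complex.I))‖ ^ 2 := by
  apply Continuous.pow
  apply Continuous.norm
  apply continuous_finsetSum
  intro n hn
  have hn1 : (n : ℂ) ≠ 0 := by
    have : 0 < n := (Finset.mem_Icc.mp hn).1
    exact_mod_cast this.ne'
  apply Continuous.mul continuous_const
  apply Continuous.const_cpow _ (Or.inl hn1)
  fun_prop

/-- the measure of the part in one interval -/
theorem hux_loc {C0 : ℝ} (hC0 : 1 ≤ C0) {N : ℕ} (hN : 1 ≤ N) {T V L G : ℝ} (_hT : 1 ≤ T)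
    (hV : 0 < V) {a : ℕ → ℂ} {E : Set ℝ} (hE : MeasurableSet E) (t0 : ℝ)
    (_hG : G = ∑ n ∈ Icc 1 N, ‖a n‖ ^ 2) (hG0 : 0 < G) (hNG : V ^ 2 ≤ N * G)
    (hL : 1 + Real.log N ≤ L)
    (hR : 1 ≤ V ^ 2 / (2 * C0 * G * L))
    (hTR : T = (V ^ 2 / (2 * C0 * G * L)) ^ 2)
    (hVE : ∀ t ∈ E, V ≤ ‖∑ n ∈ Icc 1 N, a n * (n : ℂ) ^ (-((t : ℂ) * Complex.I))‖)
    (hm : ∀ E' : Set ℝ, MeasurableSet E' → E' ⊆ Set.Icc (t0 - T) (t0 + T) →
      ∫ t in E', ‖∑ n ∈ Icc 1 N, a n * (n : ℂ) ^ (-((t : ℂ) * Complex.I))‖ ^ 2 ≤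
      C0 * (N * (1 + Real.log T) + (volume E').toReal * Real.sqrt T * (1 + Real.log N)) * G) :
    (volume (E ∩ Set.Icc (t0 - T) (t0 + T))).toReal ≤ 4 * C0 * N * G * L / V ^ 2 := by
  set E' : Set ℝ := E ∩ Set.Icc (t0 - T) (t0 + T) with hE'
  have hE'm : MeasurableSet E' := hE.inter measurableSet_Icc
  have hE's : E' ⊆ Set.Icc (t0 - T) (t0 + T) := Set.inter_subset_right
  have hfin : volume E' < ⊤ := (measure_mono hE's).trans_lt (by
    rw [Real.volume_Icc]; exact ENNReal.ofReal_lt_top)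
  have h1 := hm E' hE'm hE's
  have hint : IntegrableOn (fun t : ℝ =>
      ‖∑ n ∈ Icc 1 N, a n * (n : ℂ) ^ (-((t : ℂ) * Complex.I))‖ ^ 2) E' :=
    ((hux_cont N a).continuousOn.integrableOn_compact isCompact_Icc).mono_set hE's
  have h2 : V ^ 2 * (volume E').toReal ≤
      ∫ t in E', ‖∑ n ∈ Icc 1 N, a n * (n : ℂ) ^ (-((t : ℂ) * Complex.I))‖ ^ 2 := by
    have h3 : ∫ _ in E', V ^ 2 = V ^ 2 * (volume E').toReal := by
      rw [setIntegral_const, smul_eq_mul, mul_comm]
      rfl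
    rw [← h3]
    apply setIntegral_mono_on _ hint hE'm
    · intro t ht
      exact pow_le_pow_left₀ hV.le (hVE t ht.1) 2
    · exact integrableOn_const hfin.ne
  set m : ℝ := (volume E').toReal with hmdef
  have hm0 : 0 ≤ m := ENNReal.toReal_nonneg
  set R : ℝ := V ^ 2 / (2 * C0 * G * L) with hRdef
  have hlogN : 0 ≤ Real.log N := Real.log_natCast_nonneg N
  have hL1 : 1 ≤ L := by linarith
  have hden : 0 < 2 * C0 * G * L := by positivity
  have hsq : Real.sqrt T = R := by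
    rw [hTR, Real.sqrt_sq (by linarith)]
  have hRN : R ≤ N := by
    rw [hRdef, div_le_iff₀ hden]
    have hN0 : (0 : ℝ) ≤ N := Nat.cast_nonneg N
    have : (N : ℝ) * G * 1 ≤ N * G * (2 * C0 * L) := by
      apply mul_le_mul_of_nonneg_left _ (by positivity)
      nlinarith
    calc V ^ 2 ≤ N * G := hNG
      _ = N * G * 1 := by ring
      _ ≤ N * G * (2 * C0 * L) := this
      _ = N * (2 * C0 * G * L) := by ring
  have hlogT : 1 + Real.log T ≤ 2 * L := by
    rw [hTR, Real.log_pow]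
    have : Real.log R ≤ Real.log N := Real.log_le_log (by linarith) hRN
    push_cast
    linarith
  have hRV : R * (2 * C0 * G * L) = V ^ 2 := by
    rw [hRdef]
    field_simp
  have hN0 : (0 : ℝ) < N := by exact_mod_cast hN
  -- the second term
  have h4 : C0 * (m * Real.sqrt T * (1 + Real.log N)) * G ≤ m * V ^ 2 / 2 := by
    rw [hsq, ← hRV]
    have : C0 * (m * R * (1 + Real.log N)) * G ≤ C0 * (m * R * L) * G := by
      apply mul_le_mul_of_nonneg_right _ hG0.le
      apply mul_le_mul_of_nonneg_left _ (by linarith)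
      apply mul_le_mul_of_nonneg_left hL
      have : 0 ≤ R := by linarith
      positivity
    linarith [this, show m * (R * (2 * C0 * G * L)) / 2 = C0 * (m * R * L) * G by ring]
  have h5 : C0 * (N * (1 + Real.log T)) * G ≤ 2 * C0 * N * G * L := by
    have : C0 * (N * (1 + Real.log T)) * G ≤ C0 * (N * (2 * L)) * G := by
      apply mul_le_mul_of_nonneg_right _ hG0.le
      apply mul_le_mul_of_nonneg_left _ (by linarith)
      exact mul_le_mul_of_nonneg_left hlogT hN0.le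
    linarith [this, show C0 * ((N : ℝ) * (2 * L)) * G = 2 * C0 * N * G * L by ring]
  have h6 : V ^ 2 * m ≤ 2 * C0 * N * G * L + m * V ^ 2 / 2 := by
    calc V ^ 2 * m ≤ _ := h2
      _ ≤ _ := h1
      _ = C0 * (N * (1 + Real.log T)) * G + C0 * (m * Real.sqrt T * (1 + Real.log N)) * G := by
        ring
      _ ≤ _ := add_le_add h5 h4
  rw [le_div_iff₀ (by positivity)]
  linarith

theorem hux : ∃ C : ℝ, 0 < C ∧ ∀ (N : ℕ) (T V : ℝ) (a : ℕ → ℂ) (E : Set ℝ), 1 ≤ N → 1 ≤ T →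
    0 < V → MeasurableSet E → E ⊆ Set.Icc (-T) T →
    (∀ t ∈ E, V ≤ ‖∑ n ∈ Icc 1 N, a n * (n : ℂ) ^ (-((t : ℂ) * Complex.I))‖) →
    (MeasureTheory.volume E).toReal * V ^ 6 ≤
      C * (1 + Real.log N + Real.log T) ^ 3 * (N * (∑ n ∈ Icc 1 N, ‖a n‖ ^ 2) * V ^ 4 +
        T * N * (∑ n ∈ Icc 1 N, ‖a n‖ ^ 2) ^ 3) := by
  obtain ⟨C1, hC1, h1⟩ := hm6
  set C0 : ℝ := max C1 1 with hC0def
  have hC0 : 1 ≤ C0 := le_max_right _ _
  refine ⟨16 * C0 ^ 3, by positivity, ?_⟩
  intro N T V a E hN hT hV hE hET hVE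
  obtain ⟨G, hG⟩ : ∃ G : ℝ, G = ∑ n ∈ Icc 1 N, ‖a n‖ ^ 2 := ⟨_, rfl⟩
  obtain ⟨L, hLdef⟩ : ∃ L : ℝ, L = 1 + Real.log N + Real.log T := ⟨_, rfl⟩
  rw [← hG, ← hLdef]
  have hlogN : 0 ≤ Real.log N := Real.log_natCast_nonneg N
  have hlogT : 0 ≤ Real.log T := Real.log_nonneg hT
  have hL1 : 1 ≤ L := by rw [hLdef]; linarith
  have hLN : 1 + Real.log N ≤ L := by rw [hLdef]; linarith
  have hG00 : 0 ≤ G := by rw [hG]; positivity
  have hN0 : (1 : ℝ) ≤ N := by exact_mod_cast hN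
  rcases E.eq_empty_or_nonempty with rfl | ⟨t1, ht1⟩
  · rw [measure_empty, ENNReal.toReal_zero, zero_mul]
    positivity
  have hNG : V ^ 2 ≤ N * G := by
    have h2 := hux_cs N a t1
    rw [← hG] at h2
    exact (pow_le_pow_left₀ hV.le (hVE t1 ht1) 2).trans h2
  have hG0 : 0 < G := by
    rcases hG00.lt_or_eq with h | h
    · exact h
    · rw [← h, mul_zero] at hNG
      have : 0 < V ^ 2 := by positivity
      linarith
  have hden : 0 < 2 * C0 * G * L := by positivity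
  set R : ℝ := V ^ 2 / (2 * C0 * G * L) with hRdef
  have hRV : R * (2 * C0 * G * L) = V ^ 2 := by
    rw [hRdef]
    field_simp
  have hm0 : 0 ≤ (volume E).toReal := ENNReal.toReal_nonneg
  by_cases hR : R < 1
  · have hE2 : (volume E).toReal ≤ 2 * T := by
      have h3 : volume E ≤ ENNReal.ofReal (2 * T) := by
        refine (measure_mono hET).trans (le_of_eq ?_)
        rw [Real.volume_Icc]
        congr 1
        ring
      have h4 := ENNReal.toReal_mono ENNReal.ofReal_ne_top h3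
      rwa [ENNReal.toReal_ofReal (by linarith)] at h4
    have hV2 : V ^ 2 ≤ 2 * C0 * G * L := by
      rw [← hRV]
      nlinarith
    have hV6 : V ^ 6 ≤ (2 * C0 * G * L) ^ 3 := by
      calc V ^ 6 = (V ^ 2) ^ 3 := by ring
        _ ≤ _ := pow_le_pow_left₀ (by positivity) hV2 3
    calc (volume E).toReal * V ^ 6 ≤ 2 * T * (2 * C0 * G * L) ^ 3 :=
          mul_le_mul hE2 hV6 (by positivity) (by linarith)
      _ = 16 * C0 ^ 3 * L ^ 3 * (T * 1 * G ^ 3) := by ring
      _ ≤ 16 * C0 ^ 3 * L ^ 3 * (N * G * V ^ 4 + T * N * G ^ 3) := by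
        apply mul_le_mul_of_nonneg_left _ (by positivity)
        have h5 : T * 1 * G ^ 3 ≤ T * N * G ^ 3 := by
          apply mul_le_mul_of_nonneg_right _ (by positivity)
          exact mul_le_mul_of_nonneg_left hN0 (by linarith)
        have h6 : 0 ≤ (N : ℝ) * G * V ^ 4 := by positivity
        linarith
  · push Not at hR
    set T0 : ℝ := R ^ 2 with hT0def
    have hT0 : 1 ≤ T0 := by
      rw [hT0def]
      nlinarith
    have hm : ∀ (t0 : ℝ) (E' : Set ℝ), MeasurableSet E' → E' ⊆ Set.Icc (t0 - T0) (t0 + T0) →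
        ∫ t in E', ‖∑ n ∈ Icc 1 N, a n * (n : ℂ) ^ (-((t : ℂ) * Complex.I))‖ ^ 2 ≤
        C0 * (N * (1 + Real.log T0) + (volume E').toReal * Real.sqrt T0 *
          (1 + Real.log N)) * G := by
      intro t0 E' hE'm hE's
      refine (h1 N T0 t0 a E' hN hT0 hE'm hE's).trans ?_
      rw [← hG]
      apply mul_le_mul_of_nonneg_right _ hG00
      apply mul_le_mul_of_nonneg_right (le_max_left _ _)
      have : 0 ≤ Real.log T0 := Real.log_nonneg hT0
      positivity
    have hloc : ∀ t0 : ℝ, (volume (E ∩ Set.Icc (t0 - T0) (t0 + T0))).toReal ≤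
        4 * C0 * N * G * L / V ^ 2 := fun t0 =>
      hux_loc hC0 hN hT0 hV hE t0 hG hG0 hNG hLN hR rfl hVE (hm t0)
    -- the cover
    set k : ℕ := ⌈T / T0⌉₊ with hk
    have hkT : T ≤ k * T0 := by
      have := Nat.le_ceil (T / T0)
      rwa [div_le_iff₀ (by linarith)] at this
    have hk2 : (k : ℝ) ≤ T / T0 + 1 := (Nat.ceil_lt_add_one (by positivity)).le
    have hcov : E ⊆ ⋃ j ∈ Finset.range k, (E ∩ Set.Icc ((-T + (2 * j + 1) * T0) - T0)
        ((-T + (2 * j + 1) * T0) + T0)) := by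
      intro t ht
      have htT := hET ht
      simp only [Set.mem_iUnion, Finset.mem_range, exists_prop]
      have hT0p : 0 < T0 := by linarith
      by_cases hlast : t = T
      · -- the last interval
        have hk0 : 0 < k := Nat.ceil_pos.mpr (by positivity)
        refine ⟨k - 1, by omega, ht, ?_⟩
        have hc : ((k - 1 : ℕ) : ℝ) = k - 1 := by
          rw [Nat.cast_sub hk0, Nat.cast_one]
        rw [hc, Set.mem_Icc, hlast]
        have hk3 : ((k : ℝ) - 1) * T0 ≤ T := by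
          have h7 := Nat.ceil_lt_add_one (show (0 : ℝ) ≤ T / T0 by positivity)
          rw [← hk] at h7
          have h8 : (k : ℝ) - 1 ≤ T / T0 := by linarith
          rwa [le_div_iff₀ hT0p] at h8
        constructor
        · nlinarith
        · nlinarith
      · have hlt : t < T := lt_of_le_of_ne htT.2 hlast
        have h0 : 0 ≤ (t + T) / (2 * T0) := by
          apply div_nonneg _ (by linarith)
          linarith [htT.1]
        refine ⟨⌊(t + T) / (2 * T0)⌋₊, ?_, ht, ?_⟩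
        · rw [Nat.floor_lt h0, div_lt_iff₀ (by linarith)]
          linarith
        · have h9 := Nat.floor_le h0
          have h10 := Nat.lt_floor_add_one ((t + T) / (2 * T0))
          rw [le_div_iff₀ (by linarith)] at h9
          rw [div_lt_iff₀ (by linarith)] at h10
          rw [Set.mem_Icc]
          constructor
          · linarith
          · linarith
    have hsum : (volume E).toReal ≤ k * (4 * C0 * N * G * L / V ^ 2) := by
      have h11 : volume E ≤ ∑ j ∈ Finset.range k, volume (E ∩ Set.Icc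
          ((-T + (2 * j + 1) * T0) - T0) ((-T + (2 * j + 1) * T0) + T0)) :=
        (measure_mono hcov).trans (measure_biUnion_finset_le _ _)
      have hfinj : ∀ j ∈ Finset.range k, volume (E ∩ Set.Icc
          ((-T + (2 * (j : ℝ) + 1) * T0) - T0) ((-T + (2 * j + 1) * T0) + T0)) ≠ ⊤ := by
        intro j _
        refine ne_top_of_le_ne_top ?_ (measure_mono Set.inter_subset_right)
        rw [Real.volume_Icc]
        exact ENNReal.ofReal_ne_top
      have h12 := ENNReal.toReal_mono (ENNReal.sum_ne_top.mpr hfinj) h11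
      rw [ENNReal.toReal_sum hfinj] at h12
      refine h12.trans ((Finset.sum_le_sum fun j _ => hloc _).trans ?_)
      rw [Finset.sum_const, Finset.card_range, nsmul_eq_mul]
    have hT0V : T / T0 * V ^ 4 = T * (2 * C0 * G * L) ^ 2 := by
      have : V ^ 4 = T0 * (2 * C0 * G * L) ^ 2 := by
        calc V ^ 4 = (V ^ 2) ^ 2 := by ring
          _ = (R * (2 * C0 * G * L)) ^ 2 := by rw [hRV]
          _ = _ := by rw [hT0def]; ring
      rw [this]
      field_simp
    calc (volume E).toReal * V ^ 6 ≤ (k * (4 * C0 * N * G * L / V ^ 2)) * V ^ 6 :=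
          mul_le_mul_of_nonneg_right hsum (by positivity)
      _ ≤ ((T / T0 + 1) * (4 * C0 * N * G * L / V ^ 2)) * V ^ 6 := by
        apply mul_le_mul_of_nonneg_right _ (by positivity)
        exact mul_le_mul_of_nonneg_right hk2 (by positivity)
      _ = 4 * C0 * N * G * L * (T / T0 * V ^ 4) + 4 * C0 * N * G * L * V ^ 4 := by
        field_simp
      _ = 16 * C0 ^ 3 * L ^ 3 * (T * N * G ^ 3) + 4 * C0 * L * (N * G * V ^ 4) := by
        rw [hT0V]
        ring
      _ ≤ 16 * C0 ^ 3 * L ^ 3 * (T * N * G ^ 3) + 16 * C0 ^ 3 * L ^ 3 * (N * G * V ^ 4) := by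
        apply add_le_add le_rfl
        apply mul_le_mul_of_nonneg_right _ (by positivity)
        have h13 : C0 ≤ C0 ^ 3 := by
          calc C0 = C0 ^ 1 := (pow_one _).symm
            _ ≤ C0 ^ 3 := pow_le_pow_right₀ hC0 (by norm_num)
        have h14 : L ≤ L ^ 3 := by
          calc L = L ^ 1 := (pow_one _).symm
            _ ≤ L ^ 3 := pow_le_pow_right₀ hL1 (by norm_num)
        calc 4 * C0 * L ≤ 4 * C0 ^ 3 * L ^ 3 := by
              apply mul_le_mul _ h14 (by linarith) (by positivity)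
              linarith
          _ ≤ 16 * C0 ^ 3 * L ^ 3 := by
            apply mul_le_mul_of_nonneg_right _ (by positivity)
            have : 0 < C0 ^ 3 := by positivity
            linarith
      _ = 16 * C0 ^ 3 * L ^ 3 * (N * G * V ^ 4 + T * N * G ^ 3) := by ring

end Pool.Agent.H43.HX
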