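import Pool.Agent.H43.SI.Mvp
import Pool.Agent.H43.HX.Defs

/-!
# [H43 HX POW] Powers of one factor

PROOF. As `SI/Mvp.lean`, with `(af (cf χ i) a)^g` (Dirichlet power) in place of the product over `s`: `pol^g` is its series
(`SI.mvp_pol`, `LSeries_mul`), it vanishes unless `1 <= n <= 2^(ag) <= 2^g n`, and its values are at most `(1+a)^g τ_g(n)`
(`τ_g = ζ^g`; `SI.mvp_cf`). `c n = (af^g)(n)/n`. `Σ |c n|^2 <= Σ_{n > 2^(ag)/2^g..} (1+a)^(2g) τ_g(n)^2/n^2`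
`<= (1+a)^(2g) (2^g/2^(ag))^2 Σ_{n<=2^(ag)} τ_g(n)^2 <= C (1+a)^(2g+g^2) / 2^(ag)` (`SI.div_sq`, `1 + log 2^(ag) <= (1+g)(1+a)`).
-/

namespace Pool.Agent.H43.HX

open Finset

private theorem pwx_supp (c : ℕ → ℂ) (a g : ℕ) :
    ∀ n, ((SI.af c a) ^ g) n ≠ 0 →
      1 ≤ n ∧ n ≤ 2 ^ (a * g) ∧ 2 ^ (a * g) ≤ 2 ^ g * n := by
  induction g with
  | zero =>
    intro n hn
    rw [pow_zero] at hn
    have : n = 1 := by
      by_contra h
      exact hn (ArithmeticFunction.one_apply_ne h)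
    subst this
    simp
  | succ g ih =>
    intro n hn
    rw [pow_succ', ArithmeticFunction.mul_apply] at hn
    obtain ⟨x, hx, hx0⟩ := Finset.exists_ne_zero_of_sum_ne_zero hn
    obtain ⟨h1, h2⟩ := Nat.mem_divisorsAntidiagonal.1 hx
    obtain ⟨a1, a2, a3⟩ := SI.mvp_af_supp _ _ _ (left_ne_zero_of_mul hx0)
    obtain ⟨b1, b2, b3⟩ := ih _ (right_ne_zero_of_mul hx0)
    have e1 : a * (g + 1) = a + a * g := by ring
    rw [e1, ← h1]
    refine ⟨Nat.mul_pos a1 b1, ?_, ?_⟩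
    · rw [pow_add]
      exact Nat.mul_le_mul a2 b2
    · calc 2 ^ (a + a * g) = 2 ^ a * 2 ^ (a * g) := pow_add _ _ _
        _ ≤ (2 * x.1) * (2 ^ g * x.2) := Nat.mul_le_mul a3 b3
        _ = 2 ^ (g + 1) * (x.1 * x.2) := by rw [pow_succ]; ring

private theorem pwx_series (c : ℕ → ℂ) (a g : ℕ) (t : ℝ) : (SI.pol c a t) ^ g =
      ∑ n ∈ Icc 1 (2 ^ (a * g)), ((SI.af c a) ^ g) n *
        (n : ℂ) ^ (-(1 + (t : ℂ) * Complex.I)) := by
  have key : (SI.pol c a t) ^ g =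
      LSeries (fun n => ((SI.af c a) ^ g) n) (1 + (t : ℂ) * Complex.I) := by
    induction g with
    | zero =>
      rw [pow_zero, pow_zero]
      rw [(SI.mvp_ls 1 1 (fun n hn => by
        by_contra h
        exact hn (ArithmeticFunction.one_apply_ne (by omega))) _).2]
      simp
    | succ g ih =>
      rw [pow_succ', pow_succ' (SI.af c a), ih, SI.mvp_pol]
      have h1 := (SI.mvp_ls (SI.af c a) (2 ^ a)
        (fun n hn => (SI.mvp_af_supp _ _ n hn).2.1) (1 + (t : ℂ) * Complex.I)).1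
      have h2 := (SI.mvp_ls ((SI.af c a) ^ g) (2 ^ (a * g))
        (fun n hn => (pwx_supp c a g n hn).2.1) (1 + (t : ℂ) * Complex.I)).1
      exact (ArithmeticFunction.LSeries_mul' h1 h2).symm
  rw [key, (SI.mvp_ls _ (2 ^ (a * g)) (fun n hn => (pwx_supp c a g n hn).2.1) _).2]

private theorem pwx_bound {q : ℕ} (χ : DirichletCharacter ℂ q) (i : Fin 6) (a g : ℕ) :
    ∀ n, ‖((SI.af (SI.cf χ i) a) ^ g) n‖ ≤ (1 + (a : ℝ)) ^ g *
      ((((ArithmeticFunction.zeta : ArithmeticFunction ℕ) ^ g) n : ℕ) : ℝ) := by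
  induction g with
  | zero =>
    intro n
    rw [pow_zero, pow_zero, pow_zero, one_mul]
    by_cases h : n = 1
    · subst h; simp
    · rw [ArithmeticFunction.one_apply_ne h, ArithmeticFunction.one_apply_ne h]; simp
  | succ g ih =>
    intro n
    rw [pow_succ' (SI.af (SI.cf χ i) a), ArithmeticFunction.mul_apply,
      pow_succ' (ArithmeticFunction.zeta : ArithmeticFunction ℕ), ArithmeticFunction.mul_apply]
    push_cast
    rw [Finset.mul_sum]
    refine (norm_sum_le _ _).trans (Finset.sum_le_sum fun x hx => ?_)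
    obtain ⟨h1, h2⟩ := Nat.mem_divisorsAntidiagonal.1 hx
    have hx1 : x.1 ≠ 0 := by
      rintro h0
      rw [h0, zero_mul] at h1
      exact h2 h1.symm
    rw [norm_mul, ArithmeticFunction.zeta_apply_ne hx1, Nat.cast_one, one_mul]
    have ha0 : (0 : ℝ) ≤ a := Nat.cast_nonneg _
    have hA : ‖SI.af (SI.cf χ i) a x.1‖ ≤ 1 + (a : ℝ) := by
      show ‖(if x.1 ∈ Ioc (2 ^ a / 2) (2 ^ a) then SI.cf χ i x.1 else 0)‖ ≤ _
      split_ifs with h
      · rw [Finset.mem_Ioc] at h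
        exact SI.mvp_cf χ i a x.1 (Nat.pos_of_ne_zero hx1) h.2
      · rw [norm_zero]; linarith
    have hB := ih x.2
    calc ‖SI.af (SI.cf χ i) a x.1‖ * ‖((SI.af (SI.cf χ i) a) ^ g) x.2‖
        ≤ (1 + (a : ℝ)) * ((1 + (a : ℝ)) ^ g *
          ((((ArithmeticFunction.zeta : ArithmeticFunction ℕ) ^ g) x.2 : ℕ) : ℝ)) :=
          mul_le_mul hA hB (norm_nonneg _) (by linarith)
      _ = _ := by rw [pow_succ]; ring

theorem pow_poly (g : ℕ) : ∃ C : ℝ, 0 < C ∧ ∃ B : ℕ, ∀ (q : ℕ) (χ : DirichletCharacter ℂ q)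
    (i : Fin 6) (a : ℕ), ∃ c : ℕ → ℂ,
    (∀ t : ℝ, (SI.pol (SI.cf χ i) a t) ^ g =
      ∑ n ∈ Icc 1 (2 ^ (a * g)), c n * (n : ℂ) ^ (-((t : ℂ) * Complex.I))) ∧
    ∑ n ∈ Icc 1 (2 ^ (a * g)), ‖c n‖ ^ 2 ≤ C * (1 + (a : ℝ)) ^ B / 2 ^ (a * g) := by
  refine ⟨4 ^ g * (1 + (g : ℝ)) ^ (g ^ 2), by positivity, 2 * g + g ^ 2, ?_⟩
  intro q χ i a
  set f := (SI.af (SI.cf χ i) a) ^ g with hf
  refine ⟨fun n => f n * (n : ℂ)⁻¹, ?_, ?_⟩
  · intro t
    rw [pwx_series]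
    refine Finset.sum_congr rfl fun n hn => ?_
    rw [Finset.mem_Icc] at hn
    have hn0 : (n : ℂ) ≠ 0 := by
      have : n ≠ 0 := by omega
      exact_mod_cast this
    rw [neg_add, Complex.cpow_add _ _ hn0, Complex.cpow_neg_one, mul_assoc]
  · have ha0 : (0 : ℝ) ≤ a := Nat.cast_nonneg _
    have hg0 : (0 : ℝ) ≤ g := Nat.cast_nonneg _
    have ha1 : (1 : ℝ) ≤ 1 + (a : ℝ) := by linarith
    have hP : (0 : ℝ) < 2 ^ (a * g) := by positivity
    have hterm : ∀ n ∈ Icc 1 (2 ^ (a * g)), ‖f n * (n : ℂ)⁻¹‖ ^ 2 ≤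
        (2 ^ g / 2 ^ (a * g)) ^ 2 * (1 + (a : ℝ)) ^ (2 * g) *
          ((((ArithmeticFunction.zeta : ArithmeticFunction ℕ) ^ g) n : ℕ) : ℝ) ^ 2 := by
      intro n hn
      rw [Finset.mem_Icc] at hn
      by_cases h0 : f n = 0
      · rw [h0, zero_mul, norm_zero, zero_pow (by norm_num)]
        positivity
      · obtain ⟨a1, a2, a3⟩ := pwx_supp _ a g n h0
        have hnp : (0 : ℝ) < n := by exact_mod_cast a1
        have h4 : ((n : ℝ))⁻¹ ≤ 2 ^ g / 2 ^ (a * g) := by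
          rw [inv_le_comm₀ hnp (by positivity), inv_div, div_le_iff₀ (by positivity)]
          have h5 : (2 : ℝ) ^ (a * g) ≤ 2 ^ g * n := by exact_mod_cast a3
          linarith
        have h7 := pwx_bound χ i a g n
        rw [← hf] at h7
        rw [norm_mul, norm_inv, Complex.norm_natCast]
        calc (‖f n‖ * (n : ℝ)⁻¹) ^ 2 ≤ (((1 + (a : ℝ)) ^ g *
            ((((ArithmeticFunction.zeta : ArithmeticFunction ℕ) ^ g) n : ℕ) : ℝ)) *
              (2 ^ g / 2 ^ (a * g))) ^ 2 := by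
              apply pow_le_pow_left₀ (by positivity)
              exact mul_le_mul h7 h4 (by positivity) (by positivity)
          _ = _ := by
              rw [mul_pow, mul_pow, ← pow_mul (1 + (a : ℝ)) g 2, mul_comm g 2]
              ring
    refine (Finset.sum_le_sum hterm).trans ?_
    rw [← Finset.mul_sum]
    have h9 := SI.div_sq g (2 ^ (a * g)) Nat.one_le_two_pow
    push_cast at h9
    have h10 : (1 + Real.log ((2 : ℝ) ^ (a * g))) ^ (g ^ 2) ≤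
        ((1 + (g : ℝ)) * (1 + (a : ℝ))) ^ (g ^ 2) := by
      have h11 : 0 ≤ 1 + Real.log ((2 : ℝ) ^ (a * g)) := by
        have := Real.log_nonneg (show (1 : ℝ) ≤ 2 ^ (a * g) from one_le_pow₀ (by norm_num))
        linarith
      have h12 : 1 + Real.log ((2 : ℝ) ^ (a * g)) ≤ (1 + (g : ℝ)) * (1 + (a : ℝ)) := by
        rw [Real.log_pow]
        push_cast
        have h13 := Real.log_two_lt_d9
        have h14 : ((a : ℝ) * g) * Real.log 2 ≤ (a * g) * 1 :=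
          mul_le_mul_of_nonneg_left (by linarith) (by positivity)
        nlinarith
      exact pow_le_pow_left₀ h11 h12 _
    calc (2 ^ g / 2 ^ (a * g)) ^ 2 * (1 + (a : ℝ)) ^ (2 * g) * ∑ n ∈ Icc 1 (2 ^ (a * g)),
          ((((ArithmeticFunction.zeta : ArithmeticFunction ℕ) ^ g) n : ℕ) : ℝ) ^ 2
        ≤ (2 ^ g / 2 ^ (a * g)) ^ 2 * (1 + (a : ℝ)) ^ (2 * g) *
          (2 ^ (a * g) * ((1 + (g : ℝ)) * (1 + (a : ℝ))) ^ (g ^ 2)) := by
          apply mul_le_mul_of_nonneg_left _ (by positivity)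
          exact h9.trans (mul_le_mul_of_nonneg_left h10 hP.le)
      _ = 4 ^ g * (1 + (g : ℝ)) ^ (g ^ 2) * (1 + (a : ℝ)) ^ (2 * g + g ^ 2) / 2 ^ (a * g) := by
          have h4g : (4 : ℝ) ^ g = 2 ^ g * 2 ^ g := by
            rw [← mul_pow]; norm_num
          rw [h4g, pow_add (1 + (a : ℝ)) (2 * g) (g ^ 2), mul_pow (1 + (g : ℝ))]
          field_simp

end Pool.Agent.H43.HX
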