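import Pool.Agent.H43.SI.Mvt
import Pool.Agent.H43.HX.Hux
import Pool.Agent.H43.HX.Pow

/-!
# [H43 HX LVP] Large values of one factor

PROOF. `pow_poly g`: `pol^g = Σ_{n<=N} c_n n^(-it)`, `N = 2^(ag)`, `G = Σ|c_n|^2 <= C (1+a)^B/N`, and `v^g <= |pol^g|` on `E`.
First: `|E| v^(2g) <= ∫_{-T}^T |pol^g|^2 <= C (T+N) G` (`SI.mvt`). Second: `hux` with `V = v^g`:
`|E| v^(6g) <= C L^3 (N G v^(4g) + T N G^3) <= C' (1+a+log T)^B' (v^(4g) + T/N^2)` (`L = 1 + log N + log T <= (1+g)(1+a+log T)`).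
-/

namespace Pool.Agent.H43.HX

open Finset

private theorem lvp_vol (T w : ℝ) (hT : 1 ≤ T) (E : Set ℝ) (hE : MeasurableSet E)
    (hET : E ⊆ Set.Icc (-T) T) (f : ℝ → ℝ) (hf : Continuous f) (h0 : ∀ t, 0 ≤ f t)
    (hw : ∀ t ∈ E, w ≤ f t) :
    (MeasureTheory.volume E).toReal * w ≤ ∫ t in (-T)..T, f t := by
  have hfin : MeasureTheory.volume E ≠ ⊤ := by
    refine ne_top_of_le_ne_top ?_ (MeasureTheory.measure_mono hET)
    rw [Real.volume_Icc]
    exact ENNReal.ofReal_ne_top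
  have hfi : MeasureTheory.IntegrableOn f (Set.Icc (-T) T) := hf.continuousOn.integrableOn_Icc
  have h1 : ∫ t in E, w ≤ ∫ t in E, f t :=
    MeasureTheory.setIntegral_mono_on (MeasureTheory.integrableOn_const hfin enorm_ne_top)
      (hfi.mono_set hET) hE hw
  have h2 : ∫ t in E, f t ≤ ∫ t in Set.Icc (-T) T, f t := by
    refine MeasureTheory.setIntegral_mono_set hfi ?_ ?_
    · exact Filter.Eventually.of_forall fun t => h0 t
    · exact LE.le.eventuallyLE hET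
  rw [MeasureTheory.integral_Icc_eq_integral_Ioc,
    ← intervalIntegral.integral_of_le (by linarith)] at h2
  rw [MeasureTheory.setIntegral_const, smul_eq_mul] at h1
  exact h1.trans h2

private theorem lvp_pol_cont (c : ℕ → ℂ) (a : ℕ) : Continuous (fun t : ℝ => SI.pol c a t) := by
  unfold SI.pol LF.ds
  refine continuous_finsetSum _ fun n hn => ?_
  rw [Finset.mem_Ioc] at hn
  have hn0 : (n : ℂ) ≠ 0 := by
    have : n ≠ 0 := by omega
    exact_mod_cast this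
  refine continuous_const.mul ?_
  refine Continuous.const_cpow ?_ (Or.inl hn0)
  fun_prop

theorem lvp (g : ℕ) : ∃ C : ℝ, 0 < C ∧ ∃ B : ℕ, ∀ (q : ℕ) (χ : DirichletCharacter ℂ q)
    (i : Fin 6) (a : ℕ) (T v : ℝ) (E : Set ℝ), 1 ≤ T → 0 < v → MeasurableSet E →
    E ⊆ Set.Icc (-T) T → (∀ t ∈ E, v ≤ ‖SI.pol (SI.cf χ i) a t‖) →
    (MeasureTheory.volume E).toReal * v ^ (2 * g) ≤
      C * (1 + (a : ℝ) + Real.log T) ^ B * (T / 2 ^ (a * g) + 1) ∧
    (MeasureTheory.volume E).toReal * v ^ (6 * g) ≤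
      C * (1 + (a : ℝ) + Real.log T) ^ B * (v ^ (4 * g) + T / 2 ^ (2 * (a * g))) := by
  obtain ⟨C1, hC1, hmvt⟩ := SI.mvt
  obtain ⟨C2, hC2, hhux⟩ := hux
  obtain ⟨C3, hC3, B3, hpow⟩ := pow_poly g
  refine ⟨C1 * C3 + C2 * (1 + (g : ℝ)) ^ 3 * (C3 + C3 ^ 3), by positivity, 3 + 3 * B3, ?_⟩
  intro q χ i a T v E hT hv hE hET hvE
  obtain ⟨c, hc1, hc2⟩ := hpow q χ i a
  have hlogT : 0 ≤ Real.log T := Real.log_nonneg hT
  have ha0 : (0 : ℝ) ≤ a := Nat.cast_nonneg _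
  have hg0 : (0 : ℝ) ≤ g := Nat.cast_nonneg _
  set W : ℝ := 1 + (a : ℝ) + Real.log T with hW
  have hW1 : 1 ≤ W := by linarith
  have haW : 1 + (a : ℝ) ≤ W := by linarith
  set G : ℝ := ∑ n ∈ Icc 1 (2 ^ (a * g)), ‖c n‖ ^ 2 with hG
  have hG0 : 0 ≤ G := Finset.sum_nonneg fun _ _ => by positivity
  set P : ℝ := 2 ^ (a * g) with hP
  have hP0 : 0 < P := by positivity
  have hNP : ((2 ^ (a * g) : ℕ) : ℝ) = P := by push_cast; rfl
  have hPG : P * G ≤ C3 * W ^ B3 := by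
    have h1 : G ≤ C3 * W ^ B3 / P := by
      refine hc2.trans ?_
      gcongr
    rw [le_div_iff₀ hP0] at h1
    linarith
  have hvol0 : 0 ≤ (MeasureTheory.volume E).toReal := ENNReal.toReal_nonneg
  have hT0 : 0 < T := by linarith
  have hN1 : 1 ≤ 2 ^ (a * g) := Nat.one_le_two_pow
  have hpowW : W ^ B3 ≤ W ^ (3 + 3 * B3) := pow_le_pow_right₀ hW1 (by omega)
  constructor
  · have h1 := lvp_vol T (v ^ (2 * g)) hT E hE hET (fun t => ‖(SI.pol (SI.cf χ i) a t) ^ g‖ ^ 2)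
      (by
        have := lvp_pol_cont (SI.cf χ i) a
        fun_prop) (fun t => by positivity) (by
        intro t ht
        rw [norm_pow, ← pow_mul, mul_comm g 2]
        exact pow_le_pow_left₀ hv.le (hvE t ht) _)
    have h2 : ∫ t in (-T)..T, ‖(SI.pol (SI.cf χ i) a t) ^ g‖ ^ 2 =
        ∫ t in (-T)..T, ‖∑ n ∈ Icc 1 (2 ^ (a * g)), c n *
          (n : ℂ) ^ (-((t : ℂ) * Complex.I))‖ ^ 2 := by
      congr 1
      funext t
      rw [hc1 t]
    rw [h2] at h1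
    have h3 := hmvt (2 ^ (a * g)) T c hN1 hT
    rw [hNP] at h3
    refine h1.trans (h3.trans ?_)
    rw [← hG]
    have h4 : C1 * (T + P) * G = C1 * (P * G) * (T / P + 1) := by field_simp
    rw [h4]
    have h5 : 0 ≤ T / P + 1 := by positivity
    apply mul_le_mul_of_nonneg_right _ h5
    calc C1 * (P * G) ≤ C1 * (C3 * W ^ B3) := by gcongr
      _ ≤ C1 * (C3 * W ^ (3 + 3 * B3)) := by gcongr
      _ = C1 * C3 * W ^ (3 + 3 * B3) := by ring
      _ ≤ (C1 * C3 + C2 * (1 + (g : ℝ)) ^ 3 * (C3 + C3 ^ 3)) * W ^ (3 + 3 * B3) := by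
        apply mul_le_mul_of_nonneg_right _ (by positivity)
        have : 0 ≤ C2 * (1 + (g : ℝ)) ^ 3 * (C3 + C3 ^ 3) := by positivity
        linarith
  · have h1 := hhux (2 ^ (a * g)) T (v ^ g) c E hN1 hT (by positivity) hE hET (by
      intro t ht
      rw [← hc1 t, norm_pow]
      exact pow_le_pow_left₀ hv.le (hvE t ht) _)
    rw [hNP, ← hG, ← pow_mul, ← pow_mul, mul_comm g 6, mul_comm g 4] at h1
    refine h1.trans ?_
    have hL : 1 + Real.log P + Real.log T ≤ (1 + (g : ℝ)) * W := by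
      have h2 : Real.log P ≤ a * g := by
        rw [hP, Real.log_pow]
        push_cast
        have h13 := Real.log_two_lt_d9
        calc ((a : ℝ) * g) * Real.log 2 ≤ (a * g) * 1 :=
              mul_le_mul_of_nonneg_left (by linarith) (by positivity)
          _ = _ := mul_one _
      rw [hW]
      have h3 : 0 ≤ (g : ℝ) * Real.log T := by positivity
      nlinarith
    have hL0 : 0 ≤ 1 + Real.log P + Real.log T := by
      have : 0 ≤ Real.log P := Real.log_nonneg (one_le_pow₀ (by norm_num))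
      linarith
    have hPG0 : 0 ≤ P * G := by positivity
    have h3 : T * P * G ^ 3 ≤ C3 ^ 3 * W ^ (3 * B3) * (T / 2 ^ (2 * (a * g))) := by
      have e1 : T * P * G ^ 3 = (P * G) ^ 3 * (T / P ^ 2) := by field_simp
      have e2 : (2 : ℝ) ^ (2 * (a * g)) = P ^ 2 := by rw [hP, ← pow_mul, mul_comm 2]
      have e3 : C3 ^ 3 * W ^ (3 * B3) = (C3 * W ^ B3) ^ 3 := by
        rw [mul_pow, ← pow_mul, mul_comm B3 3]
      rw [e1, e2, e3]
      gcongr
    have h4 : P * G * v ^ (4 * g) ≤ C3 * W ^ (3 * B3) * v ^ (4 * g) := by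
      apply mul_le_mul_of_nonneg_right _ (by positivity)
      refine hPG.trans ?_
      have : W ^ B3 ≤ W ^ (3 * B3) := pow_le_pow_right₀ hW1 (by omega)
      gcongr
    have h5 : 0 ≤ T / 2 ^ (2 * (a * g)) := by positivity
    have h6 : 0 ≤ v ^ (4 * g) := by positivity
    have h7 : P * G * v ^ (4 * g) + T * P * G ^ 3 ≤
        (C3 + C3 ^ 3) * W ^ (3 * B3) * (v ^ (4 * g) + T / 2 ^ (2 * (a * g))) := by
      have k1 : C3 * W ^ (3 * B3) * v ^ (4 * g) ≤ (C3 + C3 ^ 3) * W ^ (3 * B3) * v ^ (4 * g) := by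
        have : 0 ≤ C3 ^ 3 := by positivity
        gcongr
        linarith
      have k2 : C3 ^ 3 * W ^ (3 * B3) * (T / 2 ^ (2 * (a * g))) ≤
          (C3 + C3 ^ 3) * W ^ (3 * B3) * (T / 2 ^ (2 * (a * g))) := by
        gcongr
        linarith
      calc _ ≤ C3 * W ^ (3 * B3) * v ^ (4 * g) +
            C3 ^ 3 * W ^ (3 * B3) * (T / 2 ^ (2 * (a * g))) := add_le_add h4 h3
        _ ≤ (C3 + C3 ^ 3) * W ^ (3 * B3) * v ^ (4 * g) +
            (C3 + C3 ^ 3) * W ^ (3 * B3) * (T / 2 ^ (2 * (a * g))) := add_le_add k1 k2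
        _ = _ := by ring
    have h8 : (1 + Real.log P + Real.log T) ^ 3 ≤ ((1 + (g : ℝ)) * W) ^ 3 :=
      pow_le_pow_left₀ hL0 hL 3
    have h9 : 0 ≤ P * G * v ^ (4 * g) + T * P * G ^ 3 := by positivity
    calc C2 * (1 + Real.log P + Real.log T) ^ 3 * (P * G * v ^ (4 * g) + T * P * G ^ 3)
        ≤ C2 * ((1 + (g : ℝ)) * W) ^ 3 * ((C3 + C3 ^ 3) * W ^ (3 * B3) *
          (v ^ (4 * g) + T / 2 ^ (2 * (a * g)))) := by
          apply mul_le_mul _ h7 h9 (by positivity)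
          exact mul_le_mul_of_nonneg_left h8 hC2.le
      _ = C2 * (1 + (g : ℝ)) ^ 3 * (C3 + C3 ^ 3) * W ^ (3 + 3 * B3) *
          (v ^ (4 * g) + T / 2 ^ (2 * (a * g))) := by rw [pow_add W 3, mul_pow]; ring
      _ ≤ _ := by
          apply mul_le_mul_of_nonneg_right _ (by positivity)
          apply mul_le_mul_of_nonneg_right _ (by positivity)
          have : 0 ≤ C1 * C3 := by positivity
          linarith

end Pool.Agent.H43.HX
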