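import Pool.Agent.H43.UF.Pw
import Pool.Agent.H43.HX.Lvp
import Pool.Agent.H43.HX.Cmb

/-!
# [H43 HX COR] The core estimate

PROOF. `ℓ = log X`, `η = ε/8`, `η0 = ε/200`, `g0 = ⌊200/ε⌋₊`, `C, Bl` = maximum over `g <= g0` of the constants of `lvp`. `A2 = 2(A + Bl + 20)/η`,
`A0 = A2 + B + 3` (`UF.pwu B A2`). If `E` is empty: `0 <= ..`. Otherwise `v_i <= |pol_i| <= 1 + e_i <= 3ℓ` (`SI.pw_triv`, `2^S <= 2^9 X`).
Long factors: `s = {i : X^η0 <= 2^(e_i)}`; the short ones have product `<= X^(6η0)`, so `∏_{i∈s} 2^(e_i) >= X^(1-6η0)` and `s` is not empty.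
`w_i = v_i/(3ℓ) <= 1`, `u_i = -log w_i/(e_i log 2) >= 0` for `i ∈ s`; let `i ∈ s` minimise `u_i =: u`, `e = e_i`, `w = w_i = (2^e)^(-u)`. Then
`∏_{i∈s} w_i <= X^(-u(1-6η0))`, and `w <= v_i <= ℓ^(-A2)` by `pwu` (`2^e >= X^η0 >= exp(ℓ^0.98)`, `2^e <= X`), `X^(-u) <= w <= ℓ^(-A2)`.
With `α = log 2^e/ℓ ∈ [η0, 5/12]` take `g` from `cmb_g`, `Y = 2^(eg) = X^y`, `y = gα`. `lvp g` with `T = X^(5/6-ε)`, `v = w`, `w^g = Y^(-u)`:
`|E| <= C (3ℓ)^Bl (T Y^(2u-1) + Y^(2u))` and `|E| <= C (3ℓ)^Bl (Y^(2u) + T Y^(6u-2))`. Hence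
`|E| ∏ v_i^2 <= (3ℓ)^12 |E| ∏_{i∈s} w_i^2 <= (3ℓ)^12 C (3ℓ)^Bl (Y^(2u) + T min(Y^(2u-1), Y^(6u-2))) X^(-2u(1-6η0))`
(`v_i <= 3ℓ` for `i ∉ s`, `v_i = 3ℓ w_i` for `i ∈ s`). `Y^(2u) X^(-2u(1-6η0)) <= X^(-2u(η-6η0)) <= (X^(-u))^η <= ℓ^(-ηA2)` (`y <= 1-η`, `6η0 <= η/2`);
the other term is `<= X^(-ε/2)` by `cmb_mv` (`u >= 1/4`), `cmb_hx` (`u <= 1/4`). Total
`<= C 3^(12+Bl) ℓ^(12+Bl) (ℓ^(-ηA2) + X^(-ε/2)) <= ℓ^(-A)` for `X` large.
-/

namespace Pool.Agent.H43.HX

open Finset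

private theorem cor_large (C A c η0 D : ℝ) (N : ℕ) (_hC : 0 < C) (hc : 0 < c) (hη : 0 < η0)
    (hD : N + A < D) :
    ∃ L0 : ℝ, 1 ≤ L0 ∧ ∀ L : ℝ, L0 ≤ L → L ^ (0.98 : ℝ) ≤ η0 * L ∧
      C * (3 * L) ^ N * (L ^ (-D) + Real.exp (-(c * L))) ≤ L ^ (-A) := by
  have t1 : Filter.Tendsto (fun L : ℝ => C * 3 ^ N * L ^ (-(D - N - A))) Filter.atTop (nhds 0) := by
    have := (tendsto_rpow_neg_atTop (y := D - N - A) (by linarith)).const_mul (C * 3 ^ N)
    simpa using this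
  have t2 : Filter.Tendsto (fun L : ℝ => C * 3 ^ N * (L ^ (N + A) * Real.exp (-c * L)))
      Filter.atTop (nhds 0) := by
    have := (tendsto_rpow_mul_exp_neg_mul_atTop_nhds_zero (N + A) c hc).const_mul (C * 3 ^ N)
    simpa using this
  have t3 : Filter.Tendsto (fun L : ℝ => L ^ (-(0.02 : ℝ))) Filter.atTop (nhds 0) :=
    tendsto_rpow_neg_atTop (by norm_num)
  have e1 := t1.eventually_le_const (show (0 : ℝ) < 1 / 2 by norm_num)
  have e2 := t2.eventually_le_const (show (0 : ℝ) < 1 / 2 by norm_num)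
  have e3 := t3.eventually_le_const hη
  obtain ⟨L1, hL1⟩ := Filter.eventually_atTop.1 (e1.and (e2.and e3))
  refine ⟨max 1 L1, le_max_left _ _, ?_⟩
  intro L hL
  have h1 : 1 ≤ L := (le_max_left _ _).trans hL
  have h0 : 0 < L := by linarith
  obtain ⟨f1, f2, f3⟩ := hL1 L ((le_max_right _ _).trans hL)
  refine ⟨?_, ?_⟩
  · have h2 : L ^ (0.98 : ℝ) = L ^ (-(0.02 : ℝ)) * L := by
      nth_rewrite 3 [← Real.rpow_one L]
      rw [← Real.rpow_add h0]
      norm_num
    rw [h2]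
    exact mul_le_mul_of_nonneg_right f3 h0.le
  · have hA : 0 < L ^ (-A) := Real.rpow_pos_of_pos h0 _
    have g1 : C * (3 * L) ^ N * L ^ (-D) = C * 3 ^ N * L ^ (-(D - N - A)) * L ^ (-A) := by
      rw [mul_pow, mul_assoc (C * 3 ^ N), ← Real.rpow_add h0, ← Real.rpow_natCast L N]
      have : C * (3 ^ N * L ^ (N : ℝ)) * L ^ (-D) = C * 3 ^ N * (L ^ (N : ℝ) * L ^ (-D)) := by
        ring
      rw [this, ← Real.rpow_add h0]
      congr 2
      ring
    have g2 : C * (3 * L) ^ N * Real.exp (-(c * L)) =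
        C * 3 ^ N * (L ^ (N + A) * Real.exp (-c * L)) * L ^ (-A) := by
      have h3 : L ^ ((N : ℝ) + A) * L ^ (-A) = L ^ N := by
        rw [← Real.rpow_add h0, ← Real.rpow_natCast L N]
        congr 1
        ring
      rw [mul_pow, ← h3, neg_mul]
      ring
    rw [mul_add, g1, g2]
    have f4 := mul_le_mul_of_nonneg_right f1 hA.le
    have f5 := mul_le_mul_of_nonneg_right f2 hA.le
    linarith

theorem cor (B A ε : ℝ) (hB : 0 < B) (hA : 0 < A) (hε : 0 < ε) (hε1 : ε ≤ 1 / 12) :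
    ∃ A0 X0 : ℝ, 0 < A0 ∧ 10 ≤ X0 ∧ ∀ X : ℝ, X0 ≤ X →
    ∀ (q : ℕ) [NeZero q], (q : ℝ) ≤ (Real.log X) ^ B → ∀ (χ : DirichletCharacter ℂ q)
    (e : Fin 6 → ℕ) (v : Fin 6 → ℝ) (E : Set ℝ),
    X ≤ 2 ^ (∑ i, e i) → (2 : ℝ) ^ (∑ i, e i) ≤ 2 ^ 9 * X →
    (∀ i, (2 : ℝ) ^ (e i) ≤ X ^ ((5 : ℝ) / 12)) → MeasurableSet E →
    (∀ t ∈ E, (Real.log X) ^ A0 ≤ |t| ∧ |t| ≤ X ^ ((5 : ℝ) / 6 - ε)) →
    (∀ i, 0 < v i) → (∀ t ∈ E, ∀ i, v i ≤ ‖SI.pol (SI.cf χ i) (e i) t‖) →
    (MeasureTheory.volume E).toReal * ∏ i, (v i) ^ 2 ≤ (Real.log X) ^ (-A) := by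
  classical
  choose Cf hCf Bf hBf using lvp
  obtain ⟨G, hG⟩ : ∃ G : ℕ, G = ⌊200 / ε⌋₊ := ⟨_, rfl⟩
  obtain ⟨C, hC⟩ : ∃ C : ℝ, C = ∑ g ∈ range (G + 1), Cf g := ⟨_, rfl⟩
  obtain ⟨Bl, hBl⟩ : ∃ Bl : ℕ, Bl = ∑ g ∈ range (G + 1), Bf g := ⟨_, rfl⟩
  have hC0 : 0 < C := by
    rw [hC]
    exact Finset.sum_pos (fun g _ => hCf g) ⟨0, by simp⟩
  obtain ⟨A2, hA2⟩ : ∃ A2 : ℝ, A2 = 2 * (A + Bl + 20) / (ε / 8) := ⟨_, rfl⟩
  have hA20 : 0 < A2 := by
    rw [hA2]
    positivity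
  have hA2D : ε / 8 * A2 = 2 * (A + Bl + 20) := by
    rw [hA2]
    field_simp
  obtain ⟨X1, hX1, hpw⟩ := UF.pwu B A2 hB hA20
  obtain ⟨L0, hL0, hlarge⟩ := cor_large C A (ε / 2) (ε / 200) (2 * (A + Bl + 20)) (Bl + 12) hC0
    (by linarith) (by positivity) (by
      push_cast
      have : (0 : ℝ) ≤ Bl := Nat.cast_nonneg _
      linarith)
  refine ⟨A2 + B + 3, max X1 (Real.exp L0), by positivity, hX1.trans (le_max_left _ _), ?_⟩
  intro X hX q _ hq χ e v E hX2 _ he hE ht hv hvE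
  have hXX1 : X1 ≤ X := (le_max_left _ _).trans hX
  have hX10 : 10 ≤ X := hX1.trans hXX1
  have hX0 : 0 < X := by linarith
  have hpwX := hpw X hXX1 q hq χ
  obtain ⟨L, hL⟩ : ∃ L : ℝ, L = Real.log X := ⟨_, rfl⟩
  have hLL0 : L0 ≤ L := by
    rw [hL]
    exact (Real.le_log_iff_exp_le hX0).2 ((le_max_right _ _).trans hX)
  have hL1 : 1 ≤ L := hL0.trans hLL0
  have hLpos : 0 < L := by linarith
  obtain ⟨hlg1, hlg2⟩ := hlarge L hLL0
  rw [← hL] at ht hpwX ⊢
  have hXe : Real.exp L = X := by rw [hL, Real.exp_log hX0]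
  have hXp : ∀ r : ℝ, X ^ r = Real.exp (r * L) := by
    intro r
    rw [Real.rpow_def_of_pos hX0, ← hL, mul_comm]
  have h2p : ∀ n : ℕ, (2 : ℝ) ^ n = Real.exp (n * Real.log 2) := by
    intro n
    rw [Real.exp_nat_mul, Real.exp_log (by norm_num)]
  rcases E.eq_empty_or_nonempty with rfl | ⟨t0, ht0⟩
  · rw [MeasureTheory.measure_empty]
    simp only [ENNReal.toReal_zero, zero_mul]
    exact Real.rpow_nonneg hLpos.le _
  have hlog2 : 0.69 < Real.log 2 := by
    have := Real.log_two_gt_d9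
    linarith
  have hlog20 : 0 < Real.log 2 := by linarith
  have hα : ∀ i, (e i : ℝ) * Real.log 2 ≤ 5 / 12 * L := by
    intro i
    have h1 := he i
    rw [h2p, hXp] at h1
    exact Real.exp_le_exp.1 h1
  have hsum : L ≤ ∑ i, (e i : ℝ) * Real.log 2 := by
    rw [h2p, ← hXe] at hX2
    have h1 := Real.exp_le_exp.1 hX2
    rw [← Finset.sum_mul]
    push_cast at h1
    exact h1
  have he0 : ∀ i, (0 : ℝ) ≤ e i := fun i => Nat.cast_nonneg _
  have h1e : ∀ i, (e i : ℝ) ≤ L := by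
    intro i
    have h1 := hα i
    have h2 := mul_le_mul_of_nonneg_left hlog2.le (he0 i)
    linarith
  have hK1 : 1 ≤ 3 * L := by linarith
  have hK0 : 0 < 3 * L := by linarith
  have hvK : ∀ i, v i ≤ 3 * L := by
    intro i
    have h1 := (hvE t0 ht0 i).trans (SI.pw_triv χ i (e i) t0)
    have h2 := h1e i
    linarith
  obtain ⟨lam, hlam⟩ : ∃ lam : Fin 6 → ℝ, lam = fun i => -Real.log (v i / (3 * L)) := ⟨_, rfl⟩
  have hlam0 : ∀ i, 0 ≤ lam i := by
    intro i
    rw [hlam]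
    have h1 : v i / (3 * L) ≤ 1 := by
      rw [div_le_one hK0]
      exact hvK i
    have h2 := Real.log_nonpos (div_pos (hv i) hK0).le h1
    change 0 ≤ -Real.log (v i / (3 * L))
    linarith
  have hvl : ∀ i, v i = 3 * L * Real.exp (-lam i) := by
    intro i
    rw [hlam]
    change v i = 3 * L * Real.exp (- -Real.log (v i / (3 * L)))
    rw [neg_neg, Real.exp_log (div_pos (hv i) hK0)]
    field_simp
  have hwv : ∀ i, Real.exp (-lam i) ≤ v i := by
    intro i
    rw [hvl i]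
    have h1 := mul_le_mul_of_nonneg_right hK1 (Real.exp_pos (-lam i)).le
    rw [one_mul] at h1
    exact h1
  obtain ⟨s, hs⟩ : ∃ s : Finset (Fin 6), s =
    univ.filter (fun i => ε / 200 * L ≤ (e i : ℝ) * Real.log 2) := ⟨_, rfl⟩
  have hsm : ∀ i, i ∈ s ↔ ε / 200 * L ≤ (e i : ℝ) * Real.log 2 := by
    intro i
    rw [hs, mem_filter]
    simp
  have hss : (1 - 6 * (ε / 200)) * L ≤ ∑ i ∈ s, (e i : ℝ) * Real.log 2 := by
    have h1 : ∑ i ∈ s, (e i : ℝ) * Real.log 2 + ∑ i ∈ univ \ s, (e i : ℝ) * Real.log 2 =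
        ∑ i, (e i : ℝ) * Real.log 2 := by
      rw [add_comm]
      exact Finset.sum_sdiff (Finset.subset_univ s)
    have h2 : ∑ i ∈ univ \ s, (e i : ℝ) * Real.log 2 ≤ ∑ i ∈ univ \ s, ε / 200 * L := by
      apply Finset.sum_le_sum
      intro i hi
      rw [mem_sdiff, hsm] at hi
      exact (not_le.1 hi.2).le
    have h3 : ∑ i ∈ univ \ s, ε / 200 * L ≤ 6 * (ε / 200 * L) := by
      rw [Finset.sum_const, nsmul_eq_mul]
      apply mul_le_mul_of_nonneg_right _ (by positivity)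
      have h4 : (univ \ s).card ≤ 6 := by
        refine (Finset.card_le_univ _).trans ?_
        simp
      exact_mod_cast h4
    linarith
  have hne : s.Nonempty := by
    by_contra hcon
    rw [Finset.not_nonempty_iff_eq_empty] at hcon
    rw [hcon, Finset.sum_empty] at hss
    have : 0 < (1 - 6 * (ε / 200)) * L := by
      apply mul_pos _ hLpos
      linarith
    linarith
  obtain ⟨i0, hi0, hmin⟩ := Finset.exists_min_image s
    (fun i => lam i / ((e i : ℝ) * Real.log 2)) hne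
  have hpos : ∀ i ∈ s, 0 < (e i : ℝ) * Real.log 2 := by
    intro i hi
    have h1 := (hsm i).1 hi
    have h2 : 0 < ε / 200 * L := by positivity
    linarith
  obtain ⟨u, hu⟩ : ∃ u : ℝ, u = lam i0 / ((e i0 : ℝ) * Real.log 2) := ⟨_, rfl⟩
  have hu0 : 0 ≤ u := by
    rw [hu]
    exact div_nonneg (hlam0 i0) (hpos i0 hi0).le
  have hΛ : u * ((1 - 6 * (ε / 200)) * L) ≤ ∑ i, lam i := by
    calc u * ((1 - 6 * (ε / 200)) * L) ≤ u * ∑ i ∈ s, (e i : ℝ) * Real.log 2 :=
          mul_le_mul_of_nonneg_left hss hu0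
      _ = ∑ i ∈ s, u * ((e i : ℝ) * Real.log 2) := Finset.mul_sum _ _ _
      _ ≤ ∑ i ∈ s, lam i := by
          apply Finset.sum_le_sum
          intro i hi
          have h1 := hmin i hi
          rw [← hu] at h1
          exact (le_div_iff₀ (hpos i hi)).1 h1
      _ ≤ ∑ i, lam i :=
          Finset.sum_le_sum_of_subset_of_nonneg (Finset.subset_univ s) (fun i _ _ => hlam0 i)
  have hprod : ∏ i, v i ^ 2 = (3 * L) ^ 12 * Real.exp (-(2 * ∑ i, lam i)) := by
    have h1 : ∀ i, v i ^ 2 = (3 * L) ^ 2 * Real.exp (-(2 * lam i)) := by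
      intro i
      rw [hvl i, mul_pow, ← Real.exp_nat_mul]
      congr 2
      push_cast
      ring
    rw [Finset.prod_congr rfl (fun i _ => h1 i), Finset.prod_mul_distrib, Finset.prod_const,
      ← Real.exp_sum, Finset.card_univ, Fintype.card_fin, ← pow_mul, Finset.mul_sum,
      ← Finset.sum_neg_distrib]
  obtain ⟨α, hαd⟩ : ∃ α : ℝ, α = (e i0 : ℝ) * Real.log 2 / L := ⟨_, rfl⟩
  have hαL : α * L = (e i0 : ℝ) * Real.log 2 := by
    rw [hαd]
    field_simp
  have hα1 : ε / 200 ≤ α := by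
    rw [hαd, le_div_iff₀ hLpos]
    exact (hsm i0).1 hi0
  have hα2 : α ≤ 5 / 12 := by
    rw [hαd, div_le_iff₀ hLpos]
    exact hα i0
  obtain ⟨g, hg1, hg2, hg3, hg4⟩ := cmb_g ε α hε hε1 hα1 hα2
  obtain ⟨y, hy⟩ : ∃ y : ℝ, y = g * α := ⟨_, rfl⟩
  rw [← hy] at hg3 hg4
  have hgG : g ∈ range (G + 1) := by
    rw [Finset.mem_range, Nat.lt_succ_iff, hG]
    exact Nat.le_floor hg2
  have hCg : Cf g ≤ C := by
    rw [hC]
    exact Finset.single_le_sum (f := Cf) (fun i _ => (hCf i).le) hgG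
  have hBg : Bf g ≤ Bl := by
    rw [hBl]
    exact Finset.single_le_sum (f := Bf) (fun i _ => Nat.zero_le _) hgG
  obtain ⟨T, hT⟩ : ∃ T : ℝ, T = X ^ ((5 : ℝ) / 6 - ε) := ⟨_, rfl⟩
  have hTe : T = Real.exp ((5 / 6 - ε) * L) := by
    rw [hT, hXp]
  have hT1 : 1 ≤ T := by
    rw [hTe]
    apply Real.one_le_exp
    apply mul_nonneg _ hLpos.le
    linarith
  have hTlog : Real.log T = (5 / 6 - ε) * L := by rw [hTe, Real.log_exp]
  have hlu : lam i0 = u * (α * L) := by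
    rw [hαL, hu, div_mul_cancel₀]
    exact (hpos i0 hi0).ne'
  obtain ⟨hl1, hl2⟩ := hBf g q χ i0 (e i0) T (Real.exp (-lam i0)) E hT1 (Real.exp_pos _) hE
    (fun t htE => by
      have h1 := (ht t htE).2
      rw [← hT] at h1
      exact ⟨(abs_le.1 h1).1, (abs_le.1 h1).2⟩)
    (fun t htE => (hwv i0).trans (hvE t htE i0))
  obtain ⟨m, hm⟩ : ∃ m : ℝ, m = (MeasureTheory.volume E).toReal := ⟨_, rfl⟩
  have hm0 : 0 ≤ m := by
    rw [hm]
    exact ENNReal.toReal_nonneg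
  rw [← hm] at hl1 hl2 ⊢
  have hwp : ∀ k : ℕ, Real.exp (-lam i0) ^ (k * g) = Real.exp (-(k * u * y * L)) := by
    intro k
    rw [← Real.exp_nat_mul, hlu, hy]
    congr 1
    push_cast
    ring
  have h2e : (2 : ℝ) ^ (e i0 * g) = Real.exp (y * L) := by
    rw [h2p, hy]
    congr 1
    push_cast
    rw [mul_assoc (g : ℝ) α L, hαL]
    ring
  have h2e2 : (2 : ℝ) ^ (2 * (e i0 * g)) = Real.exp (2 * y * L) := by
    rw [h2p, hy]
    congr 1
    push_cast
    have : 2 * ((g : ℝ) * α) * L = 2 * (g * (α * L)) := by ring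
    rw [this, hαL]
    ring
  have hbase : (1 + (e i0 : ℝ) + Real.log T) ^ (Bf g) ≤ (3 * L) ^ Bl := by
    have h1 : 1 + (e i0 : ℝ) + Real.log T ≤ 3 * L := by
      rw [hTlog]
      have h2 := h1e i0
      have h3 : (5 / 6 - ε) * L ≤ 1 * L := mul_le_mul_of_nonneg_right (by linarith) hLpos.le
      linarith
    have h3 : 0 ≤ 1 + (e i0 : ℝ) + Real.log T := by
      have := Real.log_nonneg hT1
      have := he0 i0
      linarith
    exact (pow_le_pow_left₀ h3 h1 _).trans (pow_le_pow_right₀ hK1 hBg)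
  obtain ⟨M, hM⟩ : ∃ M : ℝ, M = C * (3 * L) ^ Bl := ⟨_, rfl⟩
  have hM0 : 0 < M := by
    rw [hM]
    positivity
  have hCM : Cf g * (1 + (e i0 : ℝ) + Real.log T) ^ (Bf g) ≤ M := by
    rw [hM]
    refine mul_le_mul hCg hbase ?_ hC0.le
    apply pow_nonneg
    have := Real.log_nonneg hT1
    have := he0 i0
    linarith
  rw [hwp 2, h2e] at hl1
  rw [hwp 6, hwp 4, h2e2] at hl2
  have k1 : m * Real.exp (-((2 : ℕ) * u * y * L)) ≤ M * (Real.exp ((5 / 6 - ε - y) * L) + 1) := by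
    refine hl1.trans ?_
    have h1 : T / Real.exp (y * L) = Real.exp ((5 / 6 - ε - y) * L) := by
      rw [hTe, ← Real.exp_sub]
      congr 1
      ring
    rw [h1]
    exact mul_le_mul_of_nonneg_right hCM (by positivity)
  have k2 : m * Real.exp (-((6 : ℕ) * u * y * L)) ≤
      M * (Real.exp (-((4 : ℕ) * u * y * L)) + Real.exp ((5 / 6 - ε - 2 * y) * L)) := by
    refine hl2.trans ?_
    have h1 : T / Real.exp (2 * y * L) = Real.exp ((5 / 6 - ε - 2 * y) * L) := by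
      rw [hTe, ← Real.exp_sub]
      congr 1
      ring
    rw [h1]
    exact mul_le_mul_of_nonneg_right hCM (by positivity)
  -- the pointwise bound
  have hlog : A2 * Real.log L ≤ lam i0 := by
    have h1 := hpwX i0 (e i0) t0 (by
      rw [h2p]
      apply Real.exp_le_exp.2
      exact hlg1.trans ((hsm i0).1 hi0)) (by
      rw [h2p, ← hXe]
      apply Real.exp_le_exp.2
      have := hα i0
      linarith) (ht t0 ht0).1 (by
      refine (ht t0 ht0).2.trans ?_
      rw [hXp, ← hXe]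
      apply Real.exp_le_exp.2
      have h3 : (5 / 6 - ε) * L ≤ 1 * L := mul_le_mul_of_nonneg_right (by linarith) hLpos.le
      linarith)
    have h2 := ((hwv i0).trans (hvE t0 ht0 i0)).trans h1
    rw [Real.rpow_def_of_pos hLpos] at h2
    have h3 := Real.exp_le_exp.1 h2
    linarith
  have huL : A2 * Real.log L ≤ u * L := by
    refine hlog.trans ?_
    rw [hlu]
    apply mul_le_mul_of_nonneg_left _ hu0
    have h3 : α * L ≤ 1 * L := mul_le_mul_of_nonneg_right (by linarith) hLpos.le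
    linarith
  have hterm : Real.exp ((2 * u * y - 2 * u * (1 - 6 * (ε / 200))) * L) ≤
      L ^ (-(2 * (A + Bl + 20))) := by
    rw [Real.rpow_def_of_pos hLpos]
    apply Real.exp_le_exp.2
    have h1 : ε / 16 ≤ 1 - 6 * (ε / 200) - y := by linarith
    have h2 : 0 ≤ u * L := mul_nonneg hu0 hLpos.le
    calc (2 * u * y - 2 * u * (1 - 6 * (ε / 200))) * L
        = -(2 * (u * L) * (1 - 6 * (ε / 200) - y)) := by ring
      _ ≤ -(2 * (u * L) * (ε / 16)) := by
          have := mul_le_mul_of_nonneg_left h1 h2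
          linarith
      _ = -(ε / 8 * (u * L)) := by ring
      _ ≤ -(ε / 8 * (A2 * Real.log L)) := by
          have := mul_le_mul_of_nonneg_left huL (show 0 ≤ ε / 8 by positivity)
          linarith
      _ = Real.log L * (-(2 * (A + Bl + 20))) := by
          rw [← mul_assoc, hA2D]
          ring
  have hmain : m * Real.exp (-(2 * (u * ((1 - 6 * (ε / 200)) * L)))) ≤
      M * (L ^ (-(2 * (A + Bl + 20))) + Real.exp (-(ε / 2 * L))) := by
    by_cases hu4 : 1 / 4 ≤ u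
    · have h1 : Real.exp (-(2 * (u * ((1 - 6 * (ε / 200)) * L)))) =
          Real.exp (-((2 : ℕ) * u * y * L)) *
            Real.exp ((2 * u * y - 2 * u * (1 - 6 * (ε / 200))) * L) := by
        rw [← Real.exp_add]
        congr 1
        push_cast
        ring
      rw [h1, ← mul_assoc]
      calc m * Real.exp (-((2 : ℕ) * u * y * L)) *
            Real.exp ((2 * u * y - 2 * u * (1 - 6 * (ε / 200))) * L)
          ≤ M * (Real.exp ((5 / 6 - ε - y) * L) + 1) *
            Real.exp ((2 * u * y - 2 * u * (1 - 6 * (ε / 200))) * L) :=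
            mul_le_mul_of_nonneg_right k1 (Real.exp_pos _).le
        _ = M * (Real.exp ((2 * u * y - 2 * u * (1 - 6 * (ε / 200))) * L) +
              Real.exp ((5 / 6 - ε + y * (2 * u - 1) - 2 * u * (1 - 6 * (ε / 200))) * L)) := by
            have h2 : Real.exp ((5 / 6 - ε + y * (2 * u - 1) - 2 * u * (1 - 6 * (ε / 200))) * L) =
                Real.exp ((5 / 6 - ε - y) * L) *
                Real.exp ((2 * u * y - 2 * u * (1 - 6 * (ε / 200))) * L) := by
              rw [← Real.exp_add]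
              congr 1
              ring
            rw [h2]
            ring
        _ ≤ M * (L ^ (-(2 * (A + Bl + 20))) + Real.exp (-(ε / 2 * L))) := by
            apply mul_le_mul_of_nonneg_left _ hM0.le
            apply add_le_add hterm
            apply Real.exp_le_exp.2
            have h3 := mul_le_mul_of_nonneg_right (cmb_mv ε y u hε hε1 hg3 hg4 hu4) hLpos.le
            refine h3.trans (le_of_eq ?_)
            ring
    · have hu4' : u ≤ 1 / 4 := (not_le.1 hu4).le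
      have h1 : Real.exp (-(2 * (u * ((1 - 6 * (ε / 200)) * L)))) =
          Real.exp (-((6 : ℕ) * u * y * L)) *
            Real.exp ((6 * u * y - 2 * u * (1 - 6 * (ε / 200))) * L) := by
        rw [← Real.exp_add]
        congr 1
        push_cast
        ring
      rw [h1, ← mul_assoc]
      calc m * Real.exp (-((6 : ℕ) * u * y * L)) *
            Real.exp ((6 * u * y - 2 * u * (1 - 6 * (ε / 200))) * L)
          ≤ M * (Real.exp (-((4 : ℕ) * u * y * L)) + Real.exp ((5 / 6 - ε - 2 * y) * L)) *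
            Real.exp ((6 * u * y - 2 * u * (1 - 6 * (ε / 200))) * L) :=
            mul_le_mul_of_nonneg_right k2 (Real.exp_pos _).le
        _ = M * (Real.exp ((2 * u * y - 2 * u * (1 - 6 * (ε / 200))) * L) +
              Real.exp ((5 / 6 - ε + y * (6 * u - 2) - 2 * u * (1 - 6 * (ε / 200))) * L)) := by
            have h2 : Real.exp ((5 / 6 - ε + y * (6 * u - 2) - 2 * u * (1 - 6 * (ε / 200))) * L) =
                Real.exp ((5 / 6 - ε - 2 * y) * L) *
                Real.exp ((6 * u * y - 2 * u * (1 - 6 * (ε / 200))) * L) := by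
              rw [← Real.exp_add]
              congr 1
              ring
            have h3 : Real.exp ((2 * u * y - 2 * u * (1 - 6 * (ε / 200))) * L) =
                Real.exp (-((4 : ℕ) * u * y * L)) *
                Real.exp ((6 * u * y - 2 * u * (1 - 6 * (ε / 200))) * L) := by
              rw [← Real.exp_add]
              congr 1
              push_cast
              ring
            rw [h2, h3]
            ring
        _ ≤ M * (L ^ (-(2 * (A + Bl + 20))) + Real.exp (-(ε / 2 * L))) := by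
            apply mul_le_mul_of_nonneg_left _ hM0.le
            apply add_le_add hterm
            apply Real.exp_le_exp.2
            have h3 := mul_le_mul_of_nonneg_right (cmb_hx ε y u hε hε1 hg3 hu0 hu4') hLpos.le
            refine h3.trans (le_of_eq ?_)
            ring
  rw [hprod]
  calc m * ((3 * L) ^ 12 * Real.exp (-(2 * ∑ i, lam i)))
      ≤ m * ((3 * L) ^ 12 * Real.exp (-(2 * (u * ((1 - 6 * (ε / 200)) * L))))) := by
        apply mul_le_mul_of_nonneg_left _ hm0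
        apply mul_le_mul_of_nonneg_left _ (by positivity)
        apply Real.exp_le_exp.2
        linarith
    _ = (3 * L) ^ 12 * (m * Real.exp (-(2 * (u * ((1 - 6 * (ε / 200)) * L))))) := by ring
    _ ≤ (3 * L) ^ 12 * (M * (L ^ (-(2 * (A + Bl + 20))) + Real.exp (-(ε / 2 * L)))) :=
        mul_le_mul_of_nonneg_left hmain (by positivity)
    _ = C * (3 * L) ^ (Bl + 12) * (L ^ (-(2 * (A + Bl + 20))) + Real.exp (-(ε / 2 * L))) := by
        rw [hM, pow_add]
        ring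
    _ ≤ L ^ (-A) := hlg2

end Pool.Agent.H43.HX
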