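import Pool.Agent.H26.LDP.Defs
import Pool.Agent.H43.HX.Defs

/-!
# [H43 HX COU] Fractions near a given fraction

PROOF. `nn x = |x - round x|`. For `m <= D`, `k < m`: `r/s - k/m = d0/(sm)`, `d0 = rm - ks`; let `d` be the integer with `d ≡ d0 mod sm`, `-sm/2 < d <= sm/2`: then
`nn(r/s - k/m) = |d|/(sm)`, and the term is `sm/(2|d|)`. Fix `m`. For `k < m` the numbers `d` are distinct integers of `(-sm/2, sm/2]`, all `≡ rm mod s`.
If `s ∣ rm`: they are multiples of `s`, the nonzero ones contribute `<= 2 Σ_{1<=j<=m} sm/(2js) = m Σ_{j<=m} 1/j <= m (1 + log m)`. If not: with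
`ρ_m = min(rm mod s, s - rm mod s) >= 1` they are among `ρ + js` (`j ∈ ℤ`), so the contribution is `<= 2 * sm/(2ρ_m) + 2 Σ_{1<=j<=m} sm/(2js)`
`<= sm/ρ_m + m(1+log m)`. Sum over `m <= D`: `Σ_m m(1+log m) <= D^2 (1+log D)`. For `m` in a block of `s` consecutive integers `rm` runs over all residues
mod `s` (`(r,s) = 1`), each value of `ρ_m >= 1` is taken at most twice: `Σ_block 1/ρ_m <= 2(1+log s)`; there are at most `D/s + 1 <= 2D/s` blocks:
`Σ_{m<=D} sm/ρ_m <= sD * (2D/s) * 2(1+log s) <= 4D^2 (1+log D)`. Total `<= 5 D^2 (1+log D)`.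
-/

namespace Pool.Agent.H43.HX

open Finset

/-- harmonic sums -/
private lemma cou_harm (n : ℕ) : ∑ j ∈ range n, 1 / ((j : ℝ) + 1) ≤ 1 + Real.log n := by
  have h := harmonic_le_one_add_log n
  have h2 : ((harmonic n : ℚ) : ℝ) = ∑ j ∈ range n, 1 / ((j : ℝ) + 1) := by
    unfold harmonic
    push_cast
    refine sum_congr rfl fun j _ => ?_
    rw [one_div]
  rw [h2] at h
  exact h

private lemma cou_union {ι : Type*} [DecidableEq ι] (A B : Finset ι) (f : ι → ℝ)
    (hf : ∀ j, 0 ≤ f j) : ∑ j ∈ A ∪ B, f j ≤ ∑ j ∈ A, f j + ∑ j ∈ B, f j := by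
  have h := sum_union_inter (s₁ := A) (s₂ := B) (f := f)
  have h2 : 0 ≤ ∑ j ∈ A ∩ B, f j := sum_nonneg fun j _ => hf j
  linarith

/-- the bound for the term with quotient `j` -/
private noncomputable def couG (s m ρ : ℕ) (j : ℤ) : ℝ :=
  if 0 < j then (m : ℝ) / (2 * j) else if j = 0 then (s : ℝ) * m / (2 * ρ)
    else if j = -1 then (s : ℝ) * m / (2 * ((s : ℝ) - ρ)) else (m : ℝ) / (2 * (-j - 1 : ℝ))

private lemma couG_nonneg (s m ρ : ℕ) (hρ : ρ < s) (j : ℤ) : 0 ≤ couG s m ρ j := by
  unfold couG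
  have hρ' : (ρ : ℝ) < s := by exact_mod_cast hρ
  split_ifs with h1 h2 h3
  · have : (0 : ℝ) < j := by exact_mod_cast h1
    positivity
  · positivity
  · have : (0 : ℝ) < (s : ℝ) - ρ := by linarith
    positivity
  · have h4 : j ≤ -2 := by omega
    have h5 : (j : ℝ) ≤ -2 := by exact_mod_cast h4
    have : (0 : ℝ) < -(j : ℝ) - 1 := by linarith
    positivity

private lemma couG_le (s m ρ : ℕ) (hs : 1 ≤ s) (hρ : ρ < s) (j : ℤ)
    (hd : (ρ : ℤ) + j * s ≠ 0) :
    (s : ℝ) * m / (2 * |((ρ : ℝ) + j * s)|) ≤ couG s m ρ j := by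
  have hs0 : (0 : ℝ) < s := by exact_mod_cast hs
  have hρ' : (ρ : ℝ) < s := by exact_mod_cast hρ
  have hρ0 : (0 : ℝ) ≤ ρ := by positivity
  have hm0 : (0 : ℝ) ≤ m := by positivity
  unfold couG
  split_ifs with h1 h2 h3
  · have hj : (0 : ℝ) < j := by exact_mod_cast h1
    have hjs : 0 < (j : ℝ) * s := by positivity
    rw [abs_of_pos (by linarith)]
    rw [div_le_div_iff₀ (by positivity) (by positivity)]
    nlinarith [mul_nonneg hm0 hρ0]
  · subst h2
    have : (0 : ℝ) < ρ := by
      have : ρ ≠ 0 := by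
        intro h; apply hd; simp [h]
      positivity
    simp only [Int.cast_zero, zero_mul, add_zero]
    rw [abs_of_pos this]
  · subst h3
    rw [abs_of_neg (by push_cast; linarith)]
    apply le_of_eq
    push_cast
    ring
  · have h4 : j ≤ -2 := by omega
    have h5 : (j : ℝ) ≤ -2 := by exact_mod_cast h4
    have h6 : 0 < (-(j : ℝ) - 1) * s := by
      have : (0 : ℝ) < -(j : ℝ) - 1 := by linarith
      positivity
    have h7 : (ρ : ℝ) + j * s ≤ -((-(j : ℝ) - 1) * s) := by nlinarith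
    rw [abs_of_neg (by linarith)]
    have h8 : (0 : ℝ) < -(j : ℝ) - 1 := by linarith
    rw [div_le_div_iff₀ (by nlinarith) (by positivity)]
    nlinarith

private lemma couG_sum (s m ρ : ℕ) (hs : 1 ≤ s) (hρ : ρ < s) :
    ∑ j ∈ Icc (-(m : ℤ)) m, couG s m ρ j ≤
      m * (1 + Real.log m) + (s : ℝ) * m / 2 * (1 / (ρ : ℝ) + 1 / ((s : ℝ) - ρ)) := by
  classical
  have hs0 : (0 : ℝ) < s := by exact_mod_cast hs
  have hρ' : (ρ : ℝ) < s := by exact_mod_cast hρ
  have hsub : Icc (-(m : ℤ)) m ⊆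
      ((range m).image fun i : ℕ => ((i : ℤ) + 1)) ∪ ({0, -1} : Finset ℤ) ∪
        ((range m).image fun i : ℕ => (-(i : ℤ) - 2)) := by
    intro j hj
    rw [mem_Icc] at hj
    simp only [mem_union, mem_image, mem_range, mem_insert, mem_singleton]
    rcases lt_trichotomy j 0 with h | h | h
    · by_cases h1 : j = -1
      · left; right; right; exact h1
      · right
        refine ⟨(-j - 2).toNat, ?_, ?_⟩ <;> omega
    · left; right; left; exact h
    · left; left
      refine ⟨(j - 1).toNat, ?_, ?_⟩ <;> omega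
  have hnn := couG_nonneg s m ρ hρ
  calc ∑ j ∈ Icc (-(m : ℤ)) m, couG s m ρ j
      ≤ ∑ j ∈ ((range m).image fun i : ℕ => ((i : ℤ) + 1)) ∪ ({0, -1} : Finset ℤ) ∪
        ((range m).image fun i : ℕ => (-(i : ℤ) - 2)), couG s m ρ j :=
        sum_le_sum_of_subset_of_nonneg hsub fun j _ _ => hnn j
    _ ≤ (∑ j ∈ ((range m).image fun i : ℕ => ((i : ℤ) + 1)), couG s m ρ j +
          ∑ j ∈ ({0, -1} : Finset ℤ), couG s m ρ j) +
        ∑ j ∈ ((range m).image fun i : ℕ => (-(i : ℤ) - 2)), couG s m ρ j := by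
        refine (cou_union _ _ _ hnn).trans ?_
        exact add_le_add (cou_union _ _ _ hnn) le_rfl
    _ ≤ _ := by
        rw [sum_image (fun a _ b _ h => by simpa using h),
          sum_image (fun a _ b _ h => by simpa using h), sum_pair (by norm_num)]
        have e1 : ∑ i ∈ range m, couG s m ρ ((i : ℤ) + 1) =
            (m : ℝ) / 2 * ∑ j ∈ range m, 1 / ((j : ℝ) + 1) := by
          rw [mul_sum]
          refine sum_congr rfl fun i _ => ?_
          unfold couG
          rw [if_pos (by positivity)]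
          push_cast
          field_simp
        have e2 : ∑ i ∈ range m, couG s m ρ (-(i : ℤ) - 2) =
            (m : ℝ) / 2 * ∑ j ∈ range m, 1 / ((j : ℝ) + 1) := by
          rw [mul_sum]
          refine sum_congr rfl fun i _ => ?_
          unfold couG
          rw [if_neg (by omega), if_neg (by omega), if_neg (by omega)]
          push_cast
          have : (-(-(i : ℝ) - 2) - 1) = (i : ℝ) + 1 := by ring
          rw [this]
          field_simp
        have e3 : couG s m ρ 0 = (s : ℝ) * m / 2 * (1 / (ρ : ℝ)) := by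
          unfold couG
          rw [if_neg (by norm_num), if_pos rfl]
          rw [div_mul_div_comm, mul_one]
        have e4 : couG s m ρ (-1) = (s : ℝ) * m / 2 * (1 / ((s : ℝ) - ρ)) := by
          unfold couG
          rw [if_neg (by norm_num), if_neg (by norm_num), if_pos rfl]
          rw [div_mul_div_comm, mul_one]
        rw [e1, e2, e3, e4]
        have h := cou_harm m
        have hm : (0 : ℝ) ≤ m := by positivity
        nlinarith [mul_le_mul_of_nonneg_left h hm]

open Classical in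
/-- one denominator -/
private lemma cou_one (s r m : ℕ) (hs : 1 ≤ s) (hm : 1 ≤ m) :
    ∑ k ∈ range m,
      (if H26.LDP.nn ((r : ℝ) / s - (k : ℝ) / m) = 0 then 0
        else 1 / (2 * H26.LDP.nn ((r : ℝ) / s - (k : ℝ) / m))) ≤
      m * (1 + Real.log m) +
        (s : ℝ) * m / 2 * (1 / (((r * m) % s : ℕ) : ℝ) + 1 / ((s : ℝ) - ((r * m) % s : ℕ))) := by
  have hs0 : (0 : ℝ) < s := by exact_mod_cast hs
  have hm0 : (0 : ℝ) < m := by exact_mod_cast hm
  set ρ := (r * m) % s with hρd
  have hρ : ρ < s := Nat.mod_lt _ hs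
  refine le_trans ?_ (couG_sum s m ρ hs hρ)
  -- the integers d
  set d : ℕ → ℤ := fun k => ((r : ℤ) * m - k * s) -
    (s * m : ℤ) * round ((r : ℝ) / s - (k : ℝ) / m) with hd
  have hx : ∀ k : ℕ, ((r : ℝ) / s - (k : ℝ) / m) - round ((r : ℝ) / s - (k : ℝ) / m) =
      (d k : ℝ) / (s * m) := by
    intro k
    rw [hd]
    push_cast
    field_simp
  have hnn : ∀ k : ℕ, H26.LDP.nn ((r : ℝ) / s - (k : ℝ) / m) = |(d k : ℝ)| / (s * m) := by
    intro k
    unfold H26.LDP.nn
    rw [hx k, abs_div, abs_of_pos (mul_pos hs0 hm0)]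
  have hdρ : ∀ k : ℕ, (d k) % s = ρ := by
    intro k
    have h1 : d k = (r * m : ℕ) + (s : ℤ) * (-k - m * round ((r : ℝ) / s - (k : ℝ) / m)) := by
      rw [hd]; push_cast; ring
    rw [h1, Int.add_mul_emod_self_left, hρd]
    norm_cast
  have hdj : ∀ k : ℕ, d k = ρ + (d k / s) * s := by
    intro k
    have := Int.emod_add_mul_ediv (d k) s
    rw [hdρ k] at this
    linarith
  have habs : ∀ k : ℕ, |(d k : ℝ)| ≤ s * m / 2 := by
    intro k
    have h1 := H26.LDP.nn_le_half ((r : ℝ) / s - (k : ℝ) / m)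
    rw [hnn k, div_le_iff₀ (mul_pos hs0 hm0)] at h1
    linarith
  have hjmem : ∀ k ∈ range m, d k / (s : ℤ) ∈ Icc (-(m : ℤ)) m := by
    intro k _
    rw [mem_Icc]
    have h1 := habs k
    rw [abs_le] at h1
    have h2 := hdj k
    have h2' : (d k : ℝ) = ρ + ((d k / s : ℤ) : ℝ) * s := by exact_mod_cast h2
    have hρ' : (ρ : ℝ) < s := by exact_mod_cast hρ
    have hρ0 : (0 : ℝ) ≤ ρ := by positivity
    have hm1 : (1 : ℝ) ≤ m := by exact_mod_cast hm
    constructor
    · by_contra hc
      push Not at hc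
      have h3 : (d k / (s : ℤ)) ≤ -(m : ℤ) - 1 := by omega
      have h4 : ((d k / s : ℤ) : ℝ) ≤ -(m : ℝ) - 1 := by exact_mod_cast h3
      nlinarith
    · by_contra hc
      push Not at hc
      have h3 : (m : ℤ) + 1 ≤ (d k / (s : ℤ)) := by omega
      have h4 : (m : ℝ) + 1 ≤ ((d k / s : ℤ) : ℝ) := by exact_mod_cast h3
      nlinarith
  have hinj : Set.InjOn (fun k : ℕ => d k / (s : ℤ)) (range m : Set ℕ) := by
    intro k hk k' hk' h
    simp only at h
    have h1 : d k = d k' := by rw [hdj k, hdj k', h]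
    rw [hd] at h1
    simp only at h1
    have hk1 : k < m := by simpa using hk
    have hk1' : k' < m := by simpa using hk'
    set a := round ((r : ℝ) / s - (k : ℝ) / m)
    set a' := round ((r : ℝ) / s - (k' : ℝ) / m)
    have hsz : (s : ℤ) ≠ 0 := by exact_mod_cast (by omega : s ≠ 0)
    have h2 : (s : ℤ) * ((k' : ℤ) - k) = s * (m * (a - a')) := by
      have : (s : ℤ) * m * a - s * m * a' = k' * s - k * s := by linarith
      linarith
    have h3 : (k' : ℤ) - k = m * (a - a') := mul_left_cancel₀ hsz h2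
    have h4 : a - a' = 0 := by
      by_contra hc
      have h5 : (1 : ℤ) ≤ |a - a'| := Int.one_le_abs hc
      have h6 : |(k' : ℤ) - k| = m * |a - a'| := by
        rw [h3, abs_mul]; simp
      have h7 : |(k' : ℤ) - k| < m := by
        rw [abs_lt]; constructor <;> omega
      nlinarith
    rw [h4, mul_zero] at h3
    omega
  calc _ ≤ ∑ k ∈ range m, couG s m ρ (d k / (s : ℤ)) := by
        refine sum_le_sum fun k _ => ?_
        rw [hnn k]
        split_ifs with h0
        · exact couG_nonneg s m ρ hρ _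
        · have hdne : d k ≠ 0 := by
            intro h; apply h0; rw [h]; simp
          have h1 := couG_le s m ρ hs hρ (d k / (s : ℤ)) (by rw [← hdj k]; exact hdne)
          have h2 : ((ρ : ℝ) + ((d k / s : ℤ) : ℝ) * s) = (d k : ℝ) := by
            exact_mod_cast (hdj k).symm
          rw [h2] at h1
          refine le_trans (le_of_eq ?_) h1
          have : (d k : ℝ) ≠ 0 := by exact_mod_cast hdne
          have := abs_pos.2 this
          field_simp
    _ = ∑ j ∈ (range m).image (fun k : ℕ => d k / (s : ℤ)), couG s m ρ j := by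
        rw [sum_image]
        exact fun a ha b hb h => hinj (by simpa using ha) (by simpa using hb) h
    _ ≤ _ := by
        refine sum_le_sum_of_subset_of_nonneg ?_ fun j _ _ => couG_nonneg s m ρ hρ j
        intro j hj
        rw [mem_image] at hj
        obtain ⟨k, hk, rfl⟩ := hj
        exact hjmem k hk

/-- number of `m` with `r m` in a given class mod `s` -/
private lemma cou_card (D s r ρ : ℕ) (hs : 1 ≤ s) (hr : Nat.Coprime r s) :
    ((Icc 1 D).filter fun m => (r * m) % s = ρ).card ≤ D / s + 1 := by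
  rw [← card_range (D / s + 1)]
  refine card_le_card_of_injOn (fun m => m / s) ?_ ?_
  · intro m hm
    simp only [coe_filter, mem_Icc, Set.mem_ofPred_eq] at hm
    simp only [coe_range, Set.mem_Iio]
    have := Nat.div_le_div_right (c := s) hm.1.2
    omega
  · intro m hm m' hm' h
    simp only [coe_filter, mem_Icc, Set.mem_ofPred_eq] at hm hm'
    simp only at h
    have h1 : r * m ≡ r * m' [MOD s] := by
      unfold Nat.ModEq; rw [hm.2, hm'.2]
    have h2 : m ≡ m' [MOD s] := Nat.ModEq.cancel_left_of_coprime hr.symm h1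
    unfold Nat.ModEq at h2
    rw [← Nat.div_add_mod m s, ← Nat.div_add_mod m' s, h, h2]

open Classical in
theorem cou (D s r : ℕ) (hs : 1 ≤ s) (hsD : s ≤ D) (hr : Nat.Coprime r s) :
    ∑ m ∈ Icc 1 D, ∑ k ∈ range m,
      (if H26.LDP.nn ((r : ℝ) / s - (k : ℝ) / m) = 0 then 0
        else 1 / (2 * H26.LDP.nn ((r : ℝ) / s - (k : ℝ) / m))) ≤
      5 * (D : ℝ) ^ 2 * (1 + Real.log D) := by
  have hs0 : (0 : ℝ) < s := by exact_mod_cast hs
  have hD1 : (1 : ℝ) ≤ D := by exact_mod_cast hs.trans hsD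
  have hsD' : (s : ℝ) ≤ D := by exact_mod_cast hsD
  have hL : 0 ≤ Real.log D := Real.log_nonneg hD1
  have hLs : Real.log s ≤ Real.log D := Real.log_le_log hs0 hsD'
  set h : ℕ → ℝ := fun ρ => 1 / (ρ : ℝ) + 1 / ((s : ℝ) - ρ) with hh
  have hhn : ∀ ρ < s, 0 ≤ h ρ := by
    intro ρ hρ
    have hρ' : (ρ : ℝ) < s := by exact_mod_cast hρ
    have : 0 < (s : ℝ) - ρ := by linarith
    rw [hh]
    positivity
  have step : ∀ m ∈ Icc 1 D, ∑ k ∈ range m,
      (if H26.LDP.nn ((r : ℝ) / s - (k : ℝ) / m) = 0 then 0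
        else 1 / (2 * H26.LDP.nn ((r : ℝ) / s - (k : ℝ) / m))) ≤
      D * (1 + Real.log D) + (s : ℝ) * D / 2 * h ((r * m) % s) := by
    intro m hm
    rw [mem_Icc] at hm
    have hm0 : (0 : ℝ) < m := by exact_mod_cast hm.1
    have hmD : (m : ℝ) ≤ D := by exact_mod_cast hm.2
    have hlm : Real.log m ≤ Real.log D := Real.log_le_log hm0 hmD
    have hlm0 : 0 ≤ Real.log m := Real.log_nonneg (by exact_mod_cast hm.1)
    refine (cou_one s r m hs hm.1).trans ?_
    have h1 := hhn ((r * m) % s) (Nat.mod_lt _ hs)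
    rw [hh] at h1 ⊢
    simp only at h1 ⊢
    gcongr
  have hsum : ∑ m ∈ Icc 1 D, h ((r * m) % s) ≤ (2 * D / s) * (2 * (1 + Real.log D)) := by
    have hmaps : ∀ m ∈ Icc 1 D, (r * m) % s ∈ range s := fun m _ =>
      mem_range.2 (Nat.mod_lt _ hs)
    rw [← sum_fiberwise_of_maps_to hmaps]
    have h1 : ∀ ρ ∈ range s, ∑ m ∈ (Icc 1 D).filter (fun m => (r * m) % s = ρ),
        h ((r * m) % s) ≤ (2 * D / s) * h ρ := by
      intro ρ hρ
      rw [mem_range] at hρ
      have h2 : ∑ m ∈ (Icc 1 D).filter (fun m => (r * m) % s = ρ), h ((r * m) % s) =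
          ((Icc 1 D).filter fun m => (r * m) % s = ρ).card * h ρ := by
        rw [← nsmul_eq_mul, ← sum_const]
        refine sum_congr rfl fun m hm => ?_
        rw [(mem_filter.1 hm).2]
      rw [h2]
      refine mul_le_mul_of_nonneg_right ?_ (hhn ρ hρ)
      have h3 : (((Icc 1 D).filter fun m => (r * m) % s = ρ).card : ℝ) ≤ ((D / s + 1 : ℕ) : ℝ) := by
        exact_mod_cast cou_card D s r ρ hs hr
      refine h3.trans ?_
      push_cast
      have h4 : ((D / s : ℕ) : ℝ) ≤ D / s := Nat.cast_div_le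
      have h5 : (1 : ℝ) ≤ D / s := by rwa [le_div_iff₀ hs0, one_mul]
      have h6 : (2 * (D : ℝ) / s) = D / s + D / s := by ring
      rw [h6]
      linarith
    refine (sum_le_sum h1).trans ?_
    rw [← mul_sum]
    refine mul_le_mul_of_nonneg_left ?_ (by positivity)
    rw [hh, sum_add_distrib]
    have h7 : ∑ ρ ∈ range s, 1 / (ρ : ℝ) ≤ 1 + Real.log D := by
      obtain ⟨t, rfl⟩ : ∃ t, s = t + 1 := ⟨s - 1, by omega⟩
      rw [sum_range_succ']
      simp only [Nat.cast_zero, div_zero, add_zero]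
      have h8 := cou_harm t
      have h9 : Real.log t ≤ Real.log D := by
        rcases Nat.eq_zero_or_pos t with h | h
        · subst h; simp [hL]
        · refine Real.log_le_log (by exact_mod_cast h) ?_
          have : t ≤ D := by omega
          exact_mod_cast this
      push_cast
      linarith
    have h10 : ∑ ρ ∈ range s, 1 / ((s : ℝ) - ρ) ≤ 1 + Real.log D := by
      rw [← sum_range_reflect]
      have h8 := cou_harm s
      refine le_trans (le_of_eq ?_) (h8.trans (by linarith))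
      refine sum_congr rfl fun j hj => ?_
      rw [mem_range] at hj
      have : ((s - 1 - j : ℕ) : ℝ) = (s : ℝ) - 1 - j := by
        rw [Nat.cast_sub (by omega), Nat.cast_sub hs]; simp
      rw [this]
      congr 1
      ring
    linarith
  refine (sum_le_sum step).trans ?_
  rw [sum_add_distrib, sum_const, Nat.card_Icc, Nat.add_sub_cancel, nsmul_eq_mul, ← mul_sum]
  have h11 : (s : ℝ) * D / 2 * ∑ m ∈ Icc 1 D, h ((r * m) % s) ≤
      (s : ℝ) * D / 2 * ((2 * D / s) * (2 * (1 + Real.log D))) :=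
    mul_le_mul_of_nonneg_left hsum (by positivity)
  have h12 : (s : ℝ) * D / 2 * ((2 * D / s) * (2 * (1 + Real.log D))) =
      2 * D ^ 2 * (1 + Real.log D) := by
    field_simp
  have h13 : 0 ≤ (D : ℝ) ^ 2 * (1 + Real.log D) := by positivity
  nlinarith

end Pool.Agent.H43.HX
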