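import Pool.Agent.H43.LF.Em
import Pool.Agent.H43.HX.Defs
import Pool.Agent.H26.LDP.Parseval

/-!
# [H43 HX FOU] Finite Fourier expansion of `Σ_{x < ab <= x+H} χ(b)`

PROOF. `e = H26.LDP.e` (1-periodic, `e(x+y) = e(x)e(y)`), `M = aq`. (1) For every `n`: `1[a ∣ n] χ(n/a) = (1/M) Σ_{k<M} τ_k e(kn/M)`, `τ_k = tau χ k`:
`Σ_{k<M} Σ_{b<q} χ(b) e(-kb/q) e(kn/M) = Σ_{b<q} χ(b) Σ_{k<M} e(k(n-ab)/M)`, the inner sum is `M` if `M ∣ n - ab` and `0` otherwise (geometric sum); that is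
`a ∣ n` and `n/a ≡ b mod q`. (2) Sum over `n = x+h`, `1 <= h <= H`: `Σ_{n∈(x,x+H], a∣n} χ(n/a) = (1/M) Σ_{k<M} τ_k FH H (k/M) e(kx/M)`. (3) `k = 0`:
`(1/M) τ_0 H = rho χ H/a` (`Σ_{b<q} χ(b) = φ(q)` if `χ = 1`, `0` otherwise; `LF.rho`). So `c k = (1/M) τ_k FH H (k/M)` and `‖τ_k‖ <= q`.
-/

namespace Pool.Agent.H43.HX

open Finset

theorem fou_range (s : ℕ) (hs : 1 ≤ s) (n : ℤ) :
    ∑ r ∈ range s, H26.LDP.e ((n : ℝ) * ((r : ℝ) / s)) = if (s : ℤ) ∣ n then (s : ℂ) else 0 := by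
  have : NeZero s := ⟨by omega⟩
  have h1 := H26.LDP.sum_e_al s n
  have h2 : ∑ t : ZMod s, H26.LDP.e ((n : ℝ) * H26.LDP.al s t) =
      ∑ r ∈ range s, H26.LDP.e ((n : ℝ) * ((r : ℝ) / s)) := by
    refine Finset.sum_nbij' (fun t : ZMod s => t.val) (fun r : ℕ => (r : ZMod s)) ?_ ?_ ?_ ?_ ?_
    · intro t _
      exact mem_range.2 (ZMod.val_lt t)
    · intro r _
      exact mem_univ _
    · intro t _
      exact ZMod.natCast_zmod_val t
    · intro r hr
      exact ZMod.val_cast_of_lt (mem_range.1 hr)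
    · intro t _
      rfl
  rw [← h2, h1]
  by_cases h : (s : ℤ) ∣ n
  · rw [if_pos h, if_pos ((ZMod.intCast_zmod_eq_zero_iff_dvd n s).2 h)]
  · rw [if_neg h, if_neg (fun h' => h ((ZMod.intCast_zmod_eq_zero_iff_dvd n s).1 h'))]

theorem fou_sel {q : ℕ} [NeZero q] (χ : DirichletCharacter ℂ q) (a n : ℕ) (ha : 1 ≤ a) :
    ∑ b ∈ range q, χ b * (if ((a * q : ℕ) : ℤ) ∣ (n : ℤ) - (a : ℤ) * (b : ℤ) then
      ((a * q : ℕ) : ℂ) else 0) =
      if a ∣ n then ((a * q : ℕ) : ℂ) * χ (n / a : ℕ) else 0 := by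
  have hq : 0 < q := Nat.pos_of_ne_zero (NeZero.ne q)
  by_cases h : a ∣ n
  · rw [if_pos h]
    obtain ⟨m, rfl⟩ := h
    rw [Nat.mul_div_cancel_left m (by omega : 0 < a)]
    rw [sum_eq_single (m % q)]
    · have h1 : ((a * q : ℕ) : ℤ) ∣ ((a * m : ℕ) : ℤ) - (a : ℤ) * ((m % q : ℕ) : ℤ) := by
        have h2 : ((a * m : ℕ) : ℤ) - (a : ℤ) * ((m % q : ℕ) : ℤ) =
            ((a * q : ℕ) : ℤ) * ((m / q : ℕ) : ℤ) := by
          have h3 : (m : ℤ) = (q : ℤ) * ((m / q : ℕ) : ℤ) + ((m % q : ℕ) : ℤ) := by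
            exact_mod_cast (Nat.div_add_mod m q).symm
          push_cast at h3 ⊢
          linear_combination (a : ℤ) * h3
        rw [h2]
        exact dvd_mul_right _ _
      rw [if_pos h1]
      have h4 : χ ((m % q : ℕ) : ZMod q) = χ (m : ZMod q) := by
        rw [ZMod.natCast_mod]
      rw [h4]
      ring
    · intro b hb hne
      rw [if_neg, mul_zero]
      intro hd
      apply hne
      have h1 : ((a * m : ℕ) : ℤ) - (a : ℤ) * (b : ℤ) = (a : ℤ) * ((m : ℤ) - b) := by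
        push_cast
        ring
      rw [h1] at hd
      have h2 : (q : ℤ) ∣ (m : ℤ) - b := by
        have h3 : ((a * q : ℕ) : ℤ) = (a : ℤ) * q := by push_cast; ring
        rw [h3] at hd
        exact Int.dvd_of_mul_dvd_mul_left (by exact_mod_cast (by omega : a ≠ 0)) hd
      have h3 : b ≡ m [MOD q] := (Nat.modEq_iff_dvd).2 h2
      have h4 : b % q = m % q := h3
      rw [Nat.mod_eq_of_lt (mem_range.1 hb)] at h4
      exact h4
    · intro hn
      exact absurd (mem_range.2 (Nat.mod_lt m hq)) hn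
  · rw [if_neg h]
    apply sum_eq_zero
    intro b _
    rw [if_neg, mul_zero]
    intro hd
    apply h
    have h1 : (a : ℤ) ∣ (n : ℤ) - (a : ℤ) * (b : ℤ) :=
      dvd_trans ⟨(q : ℤ), by push_cast; ring⟩ hd
    have h2 : (a : ℤ) ∣ (n : ℤ) := (Int.dvd_iff_dvd_of_dvd_sub h1).2 (dvd_mul_right _ _)
    exact_mod_cast h2

theorem fou_one {q : ℕ} [NeZero q] (χ : DirichletCharacter ℂ q) (a n : ℕ) (ha : 1 ≤ a) :
    ∑ k ∈ range (a * q), tau χ k * H26.LDP.e ((n : ℝ) * ((k : ℝ) / (a * q : ℕ))) =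
      if a ∣ n then ((a * q : ℕ) : ℂ) * χ (n / a : ℕ) else 0 := by
  have hq : 0 < q := Nat.pos_of_ne_zero (NeZero.ne q)
  have hqR : (q : ℝ) ≠ 0 := by exact_mod_cast hq.ne'
  have haR : (a : ℝ) ≠ 0 := by exact_mod_cast (by omega : a ≠ 0)
  rw [← fou_sel χ a n ha]
  unfold tau
  simp_rw [sum_mul]
  rw [sum_comm]
  apply sum_congr rfl
  intro b _
  rw [← fou_range (a * q) (Nat.mul_pos (by omega) hq) ((n : ℤ) - (a : ℤ) * (b : ℤ)), mul_sum]
  apply sum_congr rfl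
  intro k _
  rw [mul_assoc, ← H26.LDP.e_add]
  congr 2
  push_cast
  field_simp
  ring

theorem fou_zero {q : ℕ} [NeZero q] (χ : DirichletCharacter ℂ q) :
    tau χ 0 = (q : ℂ) * (LF.rho χ : ℂ) := by
  classical
  have hq : 0 < q := Nat.pos_of_ne_zero (NeZero.ne q)
  have h0 : tau χ 0 = ∑ t : ZMod q, χ t := by
    unfold tau
    symm
    refine Finset.sum_nbij' (fun t : ZMod q => t.val) (fun r : ℕ => (r : ZMod q)) ?_ ?_ ?_ ?_ ?_
    · intro t _
      exact mem_range.2 (ZMod.val_lt t)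
    · intro r _
      exact mem_univ _
    · intro t _
      exact ZMod.natCast_zmod_val t
    · intro r hr
      exact ZMod.val_cast_of_lt (mem_range.1 hr)
    · intro t _
      simp [H26.LDP.e_zero]
  rw [h0]
  by_cases hχ : χ = 1
  · subst hχ
    have hr : LF.rho (1 : DirichletCharacter ℂ q) = (q.totient : ℝ) / q := if_pos rfl
    rw [hr, MulChar.sum_one_eq_card_units, ZMod.card_units_eq_totient]
    push_cast
    have : (q : ℂ) ≠ 0 := by exact_mod_cast hq.ne'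
    field_simp
  · have hr : LF.rho χ = 0 := if_neg hχ
    rw [hr, χ.sum_eq_zero_of_ne_one hχ]
    simp

theorem fou_tau {q : ℕ} [NeZero q] (χ : DirichletCharacter ℂ q) (k : ℕ) : ‖tau χ k‖ ≤ q := by
  unfold tau
  calc ‖∑ b ∈ range q, χ b * H26.LDP.e (-((k : ℝ) * b / q))‖ ≤
      ∑ b ∈ range q, ‖χ b * H26.LDP.e (-((k : ℝ) * b / q))‖ := norm_sum_le _ _
    _ ≤ ∑ b ∈ range q, (1 : ℝ) := by
        apply sum_le_sum
        intro b _
        rw [norm_mul, H26.LDP.norm_e, mul_one]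
        exact χ.norm_le_one _
    _ = q := by simp

theorem fou {q : ℕ} [NeZero q] (χ : DirichletCharacter ℂ q) (a H : ℕ) (ha : 1 ≤ a) :
    ∃ c : ℕ → ℂ, (∀ k, ‖c k‖ ≤ (1 / (a : ℝ)) * ‖FH H ((k : ℝ) / (a * q : ℕ))‖) ∧
    ∀ x : ℕ, ∑ n ∈ (Ioc x (x + H)).filter (fun n => a ∣ n), χ (n / a : ℕ) -
        (LF.rho χ : ℂ) * H / a =
      ∑ k ∈ Ico 1 (a * q), c k * H26.LDP.e ((x : ℝ) * ((k : ℝ) / (a * q : ℕ))) := by
  have hq : 0 < q := Nat.pos_of_ne_zero (NeZero.ne q)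
  have hqR : (0 : ℝ) < q := by exact_mod_cast hq
  have haR : (0 : ℝ) < a := by exact_mod_cast (by omega : 0 < a)
  have hM : 0 < a * q := Nat.mul_pos (by omega) hq
  have hMC : ((a * q : ℕ) : ℂ) ≠ 0 := by exact_mod_cast hM.ne'
  have hqC : (q : ℂ) ≠ 0 := by exact_mod_cast hq.ne'
  have haC : (a : ℂ) ≠ 0 := by exact_mod_cast (by omega : a ≠ 0)
  refine ⟨fun k => (1 / ((a * q : ℕ) : ℂ)) * tau χ k * FH H ((k : ℝ) / (a * q : ℕ)), ?_, ?_⟩
  · intro k
    rw [norm_mul, norm_mul]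
    apply mul_le_mul_of_nonneg_right _ (norm_nonneg _)
    rw [norm_div, norm_one, Complex.norm_natCast]
    calc 1 / ((a * q : ℕ) : ℝ) * ‖tau χ k‖ ≤ 1 / ((a * q : ℕ) : ℝ) * q :=
          mul_le_mul_of_nonneg_left (fou_tau χ k) (by positivity)
      _ = 1 / (a : ℝ) := by
          push_cast
          field_simp
  · intro x
    have h1 : ∀ n : ℕ, (if a ∣ n then χ (n / a : ℕ) else 0) =
        (1 / ((a * q : ℕ) : ℂ)) * ∑ k ∈ range (a * q),
          tau χ k * H26.LDP.e ((n : ℝ) * ((k : ℝ) / (a * q : ℕ))) := by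
      intro n
      rw [fou_one χ a n ha]
      by_cases h : a ∣ n
      · rw [if_pos h, if_pos h]
        field_simp
      · rw [if_neg h, if_neg h, mul_zero]
    have h2 : ∑ n ∈ (Ioc x (x + H)).filter (fun n => a ∣ n), χ (n / a : ℕ) =
        ∑ k ∈ range (a * q), (1 / ((a * q : ℕ) : ℂ)) * tau χ k * FH H ((k : ℝ) / (a * q : ℕ)) *
          H26.LDP.e ((x : ℝ) * ((k : ℝ) / (a * q : ℕ))) := by
      rw [sum_filter, sum_congr rfl (fun n _ => h1 n), ← mul_sum, sum_comm, mul_sum]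
      apply sum_congr rfl
      intro k _
      rw [← mul_sum]
      have h3 : ∑ n ∈ Ioc x (x + H), H26.LDP.e ((n : ℝ) * ((k : ℝ) / (a * q : ℕ))) =
          FH H ((k : ℝ) / (a * q : ℕ)) * H26.LDP.e ((x : ℝ) * ((k : ℝ) / (a * q : ℕ))) := by
        unfold FH
        rw [sum_mul]
        symm
        refine Finset.sum_nbij' (fun h : ℕ => x + h) (fun n : ℕ => n - x) ?_ ?_ ?_ ?_ ?_
        · intro h hh
          simp only [mem_Icc] at hh
          simp only [mem_Ioc]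
          omega
        · intro n hn
          simp only [mem_Ioc] at hn
          simp only [mem_Icc]
          omega
        · intro h _
          simp
        · intro n hn
          simp only [mem_Ioc] at hn
          show x + (n - x) = n
          omega
        · intro h _
          rw [← H26.LDP.e_add]
          congr 1
          push_cast
          ring
      rw [h3]
      ring
    rw [h2, range_eq_Ico, sum_eq_sum_Ico_succ_bot hM]
    have h4 : FH H (((0 : ℕ) : ℝ) / (a * q : ℕ)) = H := by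
      unfold FH
      simp [H26.LDP.e_zero]
    rw [h4, fou_zero χ]
    have h5 : H26.LDP.e ((x : ℝ) * (((0 : ℕ) : ℝ) / (a * q : ℕ))) = 1 := by
      simp [H26.LDP.e_zero]
    rw [h5]
    have h6 : 1 / ((a * q : ℕ) : ℂ) * ((q : ℂ) * (LF.rho χ : ℂ)) * (H : ℂ) * 1 =
        (LF.rho χ : ℂ) * H / a := by
      push_cast
      field_simp
    rw [h6]
    exact add_sub_cancel_left _ _

end Pool.Agent.H43.HX
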