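import Pool.Agent.H43.HX.Psp

/-!
# [H43 HX TI] Type I sums in short windows

PROOF. `f n = Σ_{a∣n, a <= A, N < n/a <= N'} g(a) χ(n/a)`. For fixed `a` and `x` let `c_a(x) = Σ_{n∈(x,x+H], a∣n} χ(n/a)` and `c'_a(x)` the same with the condition
`N < n/a <= N'`. The set of `x` is `Ioc U V`. If `aN <= x` and `x + H <= aN'` (inside) then `c'_a(x) = c_a(x)`; the main term of the statement contains
`a` iff `aN <= x < aN'`. Call `x` a boundary point of `a` if `aN - H < x < aN` or `aN' - H < x < aN'`. If `x` is neither inside nor a boundary point then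
`c'_a(x) = 0` and `a` does not occur in the main term (`x + H <= aN` or `x >= aN'`). If `x` is a boundary point: `|c'_a(x)| <= H/a + 1`, main term `<= H/a`.
So the difference is `Σ_{a: x inside} g(a)(c_a(x) - rho H/a) + O(Σ_{a: x boundary} ‖g a‖ (2H/a + 1))`. First sum: `psp` with `u a = aN - 1`, `w a = aN' - H`
(truncated; if `aN = 0` or `H > aN'` adjust). Second: for given `x` the number of `a` is at most `2(H/N + 1)` (`aN ∈ (x,x+H)`, `N >= 1`; `N' >= N`); by Cauchy-Schwarz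
its square is `<= 2(H/N+1) Σ_{a: x boundary} ‖g a‖^2 (2H/a+1)^2`, and each `a` has at most `2H` boundary points: the sum over `x` is
`<= 4H(H/N+1) Σ_a ‖g a‖^2 (8H^2/a^2 + 2) <= 4H(H/N+1)(8192 H^2/A^2 + 2) Σ ‖g a‖^2`. `(s+t)^2 <= 2s^2 + 2t^2`.
-/

namespace Pool.Agent.H43.HX

open Finset

/-- the type I function -/
noncomputable def ft {q : ℕ} (χ : DirichletCharacter ℂ q) (g : ℕ → ℂ) (A N N' n : ℕ) : ℂ :=
  ∑ a ∈ (Icc 1 A).filter (fun a => a ∣ n ∧ N < n / a ∧ n / a ≤ N'), g a * χ (n / a : ℕ)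

/-- multiples of `a` in the window with cofactor in `(N, N']` -/
private noncomputable def tic {q : ℕ} (χ : DirichletCharacter ℂ q) (N N' H a x : ℕ) : ℂ :=
  ∑ n ∈ (Ioc x (x + H)).filter (fun n => a ∣ n ∧ N < n / a ∧ n / a ≤ N'), χ (n / a : ℕ)

private lemma ti_wn {q : ℕ} (χ : DirichletCharacter ℂ q) (g : ℕ → ℂ) (A N N' H x : ℕ) :
    wn (ft χ g A N N') H x = ∑ a ∈ Icc 1 A, g a * tic χ N N' H a x := by
  unfold wn ft tic
  simp only [sum_filter, mul_sum]
  rw [sum_comm]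
  refine sum_congr rfl fun a _ => sum_congr rfl fun n _ => ?_
  split_ifs <;> simp

/-- boundary point -/
private def tib (N N' H a x : ℕ) : Prop :=
  (x < a * N ∧ a * N < x + H) ∨ (x < a * N' ∧ a * N' < x + H)

private lemma ti_in {q : ℕ} (χ : DirichletCharacter ℂ q) (N N' H a x : ℕ) (ha : 1 ≤ a)
    (h1 : a * N ≤ x) (h2 : x + H ≤ a * N') :
    tic χ N N' H a x = ∑ n ∈ (Ioc x (x + H)).filter (fun n => a ∣ n), χ (n / a : ℕ) := by
  unfold tic
  congr 1
  ext n
  simp only [mem_filter, mem_Ioc]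
  constructor
  · rintro ⟨h, hd, _⟩
    exact ⟨h, hd⟩
  · rintro ⟨h, hd⟩
    refine ⟨h, hd, ?_, ?_⟩
    · obtain ⟨m, rfl⟩ := hd
      rw [Nat.mul_div_cancel_left _ ha]
      exact lt_of_mul_lt_mul_left (lt_of_le_of_lt h1 h.1) (Nat.zero_le a)
    · obtain ⟨m, rfl⟩ := hd
      rw [Nat.mul_div_cancel_left _ ha]
      exact le_of_mul_le_mul_left (h.2.trans h2) ha

private lemma ti_out {q : ℕ} (χ : DirichletCharacter ℂ q) (N N' H a x : ℕ) (ha : 1 ≤ a)
    (h : x + H ≤ a * N ∨ a * N' ≤ x) : tic χ N N' H a x = 0 := by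
  unfold tic
  rw [filter_false_of_mem, sum_empty]
  rintro n hn ⟨hd, h1, h2⟩
  rw [mem_Ioc] at hn
  obtain ⟨m, rfl⟩ := hd
  rw [Nat.mul_div_cancel_left _ ha] at h1 h2
  rcases h with h | h
  · have : m ≤ N := le_of_mul_le_mul_left (hn.2.trans h) ha
    omega
  · have : N' < m := lt_of_mul_lt_mul_left (lt_of_le_of_lt h hn.1) (Nat.zero_le a)
    omega

/-- number of multiples of `a` in a window -/
private lemma ti_mult (a x H : ℕ) (ha : 1 ≤ a) :
    (((Ioc x (x + H)).filter (fun n => a ∣ n)).card : ℝ) ≤ (H : ℝ) / a + 1 := by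
  have ha0 : (0 : ℝ) < a := by exact_mod_cast ha
  have h1 : ((Ioc x (x + H)).filter (fun n => a ∣ n)).card ≤ (Ioc (x / a) ((x + H) / a)).card := by
    refine card_le_card_of_injOn (fun n => n / a) ?_ ?_
    · intro n hn
      simp only [coe_filter, mem_Ioc, Set.mem_ofPred_eq] at hn
      obtain ⟨⟨h1, h2⟩, m, rfl⟩ := hn
      simp only [coe_Ioc, Set.mem_Ioc]
      rw [Nat.mul_div_cancel_left _ ha]
      exact ⟨(Nat.div_lt_iff_lt_mul ha).2 (by rwa [mul_comm]),
        (Nat.le_div_iff_mul_le ha).2 (by rwa [mul_comm])⟩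
    · intro n hn n' hn' h
      simp only [coe_filter, mem_Ioc, Set.mem_ofPred_eq] at hn hn'
      obtain ⟨_, m, rfl⟩ := hn
      obtain ⟨_, m', rfl⟩ := hn'
      simp only at h
      rw [Nat.mul_div_cancel_left _ ha, Nat.mul_div_cancel_left _ ha] at h
      rw [h]
  have h2 : (((Ioc x (x + H)).filter (fun n => a ∣ n)).card : ℝ) ≤
      (((x + H) / a - x / a : ℕ) : ℝ) := by
    rw [Nat.card_Ioc] at h1
    exact_mod_cast h1
  refine h2.trans ?_
  rw [Nat.cast_sub (Nat.div_le_div_right (by omega))]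
  have h3 : (((x + H) / a : ℕ) : ℝ) ≤ ((x : ℝ) + H) / a := by
    have := @Nat.cast_div_le ℝ _ _ _ (x + H) a
    push_cast at this
    exact this
  have h4 : (x : ℝ) / a < ((x / a : ℕ) : ℝ) + 1 := by
    rw [div_lt_iff₀ ha0]
    have h5 := Nat.lt_mul_div_succ x ha
    have h6 : (x : ℝ) < a * ((x / a : ℕ) + 1 : ℕ) := by exact_mod_cast h5
    push_cast at h6
    linarith
  have h7 : ((x : ℝ) + H) / a = x / a + H / a := add_div ..
  linarith

private lemma ti_norm {q : ℕ} (χ : DirichletCharacter ℂ q) (N N' H a x : ℕ) (ha : 1 ≤ a) :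
    ‖tic χ N N' H a x‖ ≤ (H : ℝ) / a + 1 := by
  unfold tic
  refine (norm_sum_le _ _).trans ?_
  refine (sum_le_sum (fun n _ => χ.norm_le_one _)).trans ?_
  rw [sum_const, nsmul_eq_mul, mul_one]
  refine le_trans ?_ (ti_mult a x H ha)
  have : ((Ioc x (x + H)).filter (fun n => a ∣ n ∧ N < n / a ∧ n / a ≤ N')).card ≤
      ((Ioc x (x + H)).filter (fun n => a ∣ n)).card := by
    refine card_le_card fun n hn => ?_
    rw [mem_filter] at hn ⊢
    exact ⟨hn.1, hn.2.1⟩
  exact_mod_cast this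

/-- the number of `a` for which `x` is a boundary point -/
private lemma ti_cnt (A N N' H x : ℕ) (hN : 1 ≤ N) (hNN : N ≤ N') :
    open Classical in
    (((Icc 1 A).filter (fun a => tib N N' H a x)).card : ℝ) ≤ 2 * ((H : ℝ) / N + 1) := by
  classical
  have key : ∀ K : ℕ, N ≤ K → 1 ≤ K →
      (((Icc 1 A).filter (fun a => x < a * K ∧ a * K < x + H)).card : ℝ) ≤ (H : ℝ) / N + 1 := by
    intro K hK hK1
    have h1 : ((Icc 1 A).filter (fun a => x < a * K ∧ a * K < x + H)).card ≤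
        ((Ioc x (x + H)).filter (fun n => K ∣ n)).card := by
      refine card_le_card_of_injOn (fun a => a * K) ?_ ?_
      · intro a ha
        simp only [coe_filter, mem_Icc, Set.mem_ofPred_eq] at ha
        simp only [coe_filter, mem_Ioc, Set.mem_ofPred_eq]
        exact ⟨⟨ha.2.1, ha.2.2.le⟩, Dvd.intro_left a rfl⟩
      · intro a _ a' _ h
        exact Nat.eq_of_mul_eq_mul_right hK1 h
    have h2 := ti_mult K x H hK1
    have h3 : (((Icc 1 A).filter (fun a => x < a * K ∧ a * K < x + H)).card : ℝ) ≤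
        (((Ioc x (x + H)).filter (fun n => K ∣ n)).card : ℝ) := by exact_mod_cast h1
    have h4 : (H : ℝ) / K ≤ H / N := by
      have : (N : ℝ) ≤ K := by exact_mod_cast hK
      have : (0 : ℝ) < N := by exact_mod_cast hN
      gcongr
    linarith
  have h1 : (Icc 1 A).filter (fun a => tib N N' H a x) ⊆
      (Icc 1 A).filter (fun a => x < a * N ∧ a * N < x + H) ∪
      (Icc 1 A).filter (fun a => x < a * N' ∧ a * N' < x + H) := by
    intro a ha
    rw [mem_filter] at ha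
    rw [mem_union, mem_filter, mem_filter]
    rcases ha.2 with h | h
    · left; exact ⟨ha.1, h⟩
    · right; exact ⟨ha.1, h⟩
  have h2 := (card_le_card h1).trans (card_union_le _ _)
  have h3 : (((Icc 1 A).filter (fun a => tib N N' H a x)).card : ℝ) ≤
      (((Icc 1 A).filter (fun a => x < a * N ∧ a * N < x + H)).card : ℝ) +
      (((Icc 1 A).filter (fun a => x < a * N' ∧ a * N' < x + H)).card : ℝ) := by exact_mod_cast h2
  have h4 := key N le_rfl hN
  have h5 := key N' hNN (hN.trans hNN)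
  linarith

/-- the number of boundary points of `a` -/
private lemma ti_pts (N N' H a U V : ℕ) :
    open Classical in
    (((Ioc U V).filter (fun x => tib N N' H a x)).card : ℝ) ≤ 2 * H := by
  classical
  have key : ∀ K : ℕ, ((Ioc U V).filter (fun x => x < K ∧ K < x + H)).card ≤ H := by
    intro K
    have h0 : ((Ioc U V).filter (fun x => x < K ∧ K < x + H)).card ≤ (range H).card := by
      refine card_le_card_of_injOn (fun x => K - x) ?_ ?_
      · intro x hx
        simp only [coe_filter, mem_Ioc, Set.mem_ofPred_eq] at hx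
        simp only [coe_range, Set.mem_Iio]
        omega
      · intro x hx x' hx' h
        simp only [coe_filter, mem_Ioc, Set.mem_ofPred_eq] at hx hx'
        simp only at h
        omega
    rwa [card_range] at h0
  have h1 : (Ioc U V).filter (fun x => tib N N' H a x) ⊆
      (Ioc U V).filter (fun x => x < a * N ∧ a * N < x + H) ∪
      (Ioc U V).filter (fun x => x < a * N' ∧ a * N' < x + H) := by
    intro x hx
    rw [mem_filter] at hx
    rw [mem_union, mem_filter, mem_filter]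
    rcases hx.2 with h | h
    · left; exact ⟨hx.1, h⟩
    · right; exact ⟨hx.1, h⟩
  have h2 := (card_le_card h1).trans (card_union_le _ _)
  have h4 := key (a * N)
  have h5 := key (a * N')
  have h6 : ((Ioc U V).filter (fun x => tib N N' H a x)).card ≤ 2 * H := by omega
  exact_mod_cast h6

theorem ti {q : ℕ} [NeZero q] (χ : DirichletCharacter ℂ q) (g : ℕ → ℂ) (A N N' H U V : ℕ) (G : ℝ)
    (hA : 1 ≤ A) (hG : ∀ a, ‖g a‖ ≤ G) (hg : ∀ a, g a ≠ 0 → A ≤ 32 * a) (hN : 1 ≤ N) (hNN : N ≤ N')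
    (hH : 1 ≤ H) (hUV : U ≤ V) :
    ∑ x ∈ Ioc U V, ‖wn (ft χ g A N N') H x -
        (LF.rho χ : ℂ) * H * ∑ a ∈ (Icc 1 A).filter (fun a => a * N ≤ x ∧ x < a * N'), g a / a‖ ^ 2 ≤
      100000 * (G ^ 2 * (q : ℝ) ^ 3 * (1 + Real.log (A * q : ℕ)) ^ 2 *
        (((V : ℝ) - U) + (A : ℝ) ^ 2) * H +
        H * ((H : ℝ) / N + 1) * ((H : ℝ) ^ 2 / A ^ 2 + 1) * ∑ a ∈ Icc 1 A, ‖g a‖ ^ 2) := by
  classical
  have hA0 : (0 : ℝ) < A := by exact_mod_cast hA
  have hH0 : (0 : ℝ) < H := by exact_mod_cast hH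
  have hN0 : (0 : ℝ) < N := by exact_mod_cast hN
  obtain ⟨hr0, hr1⟩ := LF.em_rho χ
  -- the main part
  set P : ℕ → ℂ := fun x => ∑ a ∈ (Icc 1 A).filter (fun a => A ≤ 32 * a),
      if a * N - 1 < x ∧ x ≤ a * N' - H then
        g a * (∑ n ∈ (Ioc x (x + H)).filter (fun n => a ∣ n), χ (n / a : ℕ) -
          (LF.rho χ : ℂ) * H / a) else 0 with hP
  -- the boundary part
  set R : ℕ → ℂ := fun x => ∑ a ∈ (Icc 1 A).filter (fun a => tib N N' H a x),
      (if a * N - 1 < x ∧ x ≤ a * N' - H then 0 else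
        g a * (tic χ N N' H a x -
          (if a * N ≤ x ∧ x < a * N' then (LF.rho χ : ℂ) * H / a else 0))) with hR
  have hsplit : ∀ x ∈ Ioc U V, wn (ft χ g A N N') H x -
        (LF.rho χ : ℂ) * H * ∑ a ∈ (Icc 1 A).filter (fun a => a * N ≤ x ∧ x < a * N'), g a / a =
      P x + R x := by
    intro x hx
    rw [mem_Ioc] at hx
    rw [ti_wn, hP, hR]
    simp only
    rw [sum_filter, sum_filter, sum_filter, mul_sum, ← sum_sub_distrib, ← sum_add_distrib]
    refine sum_congr rfl fun a ha => ?_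
    rw [mem_Icc] at ha
    by_cases hga : g a = 0
    · simp [hga]
    have hA32 := hg a hga
    have haN : 1 ≤ a * N := Nat.mul_pos ha.1 hN
    rw [if_pos hA32]
    by_cases hin : a * N - 1 < x ∧ x ≤ a * N' - H
    · have hin1 : a * N ≤ x := by omega
      have hin2 : x + H ≤ a * N' := by omega
      rw [if_pos hin, if_pos hin, ti_in χ N N' H a x ha.1 hin1 hin2]
      rw [if_pos ⟨hin1, by omega⟩]
      simp only [ite_self, add_zero]
      ring
    · rw [if_neg hin, if_neg hin, zero_add]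
      by_cases hb : tib N N' H a x
      · rw [if_pos hb]
        split_ifs <;> ring
      · rw [if_neg hb]
        unfold tib at hb
        push Not at hb
        have hout : x + H ≤ a * N ∨ a * N' ≤ x := by
          by_contra hc
          push Not at hc
          obtain ⟨hc1, hc2⟩ := hc
          have h1 : ¬ x < a * N := fun h => by
            have := hb.1 h; omega
          have h3 := hb.2 hc2
          apply hin
          constructor <;> omega
        rw [ti_out χ N N' H a x ha.1 hout, if_neg]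
        · simp
        · rintro ⟨h1, h2⟩
          omega
  -- bound for the boundary part
  have hRb : ∀ x, ‖R x‖ ^ 2 ≤ 2 * ((H : ℝ) / N + 1) *
      ∑ a ∈ (Icc 1 A).filter (fun a => tib N N' H a x),
        ‖g a‖ ^ 2 * (8192 * ((H : ℝ) ^ 2 / A ^ 2) + 2) := by
    intro x
    have h1 : ‖R x‖ ≤ ∑ a ∈ (Icc 1 A).filter (fun a => tib N N' H a x),
        ‖g a‖ * (2 * (H : ℝ) / a + 1) := by
      rw [hR]
      refine (norm_sum_le _ _).trans (sum_le_sum fun a ha => ?_)
      rw [mem_filter, mem_Icc] at ha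
      have ha0 : (0 : ℝ) < a := by exact_mod_cast ha.1.1
      split_ifs with h1 h2
      · rw [norm_zero]; positivity
      · rw [norm_mul]
        refine mul_le_mul_of_nonneg_left ?_ (norm_nonneg _)
        refine (norm_sub_le _ _).trans ?_
        have h3 := ti_norm χ N N' H a x ha.1.1
        have h4 : ‖(LF.rho χ : ℂ) * H / a‖ ≤ (H : ℝ) / a := by
          rw [norm_div, norm_mul, Complex.norm_real, Complex.norm_natCast, Complex.norm_natCast,
            Real.norm_of_nonneg hr0]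
          gcongr
          nlinarith
        have h5 : 2 * (H : ℝ) / a = H / a + H / a := by ring
        linarith
      · rw [norm_mul, sub_zero]
        refine mul_le_mul_of_nonneg_left ?_ (norm_nonneg _)
        have h3 := ti_norm χ N N' H a x ha.1.1
        have h5 : 2 * (H : ℝ) / a = H / a + H / a := by ring
        have : 0 ≤ (H : ℝ) / a := by positivity
        linarith
    have h2 : (∑ a ∈ (Icc 1 A).filter (fun a => tib N N' H a x),
        ‖g a‖ * (2 * (H : ℝ) / a + 1)) ^ 2 ≤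
        ((Icc 1 A).filter (fun a => tib N N' H a x)).card *
        ∑ a ∈ (Icc 1 A).filter (fun a => tib N N' H a x), (‖g a‖ * (2 * (H : ℝ) / a + 1)) ^ 2 :=
      sq_sum_le_card_mul_sum_sq
    have h3 : ∑ a ∈ (Icc 1 A).filter (fun a => tib N N' H a x),
        (‖g a‖ * (2 * (H : ℝ) / a + 1)) ^ 2 ≤
        ∑ a ∈ (Icc 1 A).filter (fun a => tib N N' H a x),
        ‖g a‖ ^ 2 * (8192 * ((H : ℝ) ^ 2 / A ^ 2) + 2) := by
      refine sum_le_sum fun a ha => ?_
      rw [mem_filter, mem_Icc] at ha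
      have ha0 : (0 : ℝ) < a := by exact_mod_cast ha.1.1
      by_cases hga : g a = 0
      · simp [hga]
      rw [mul_pow]
      refine mul_le_mul_of_nonneg_left ?_ (sq_nonneg _)
      have h4 : (A : ℝ) ≤ 32 * a := by exact_mod_cast hg a hga
      have h5 : (H : ℝ) / a ≤ 32 * (H / A) := by
        rw [div_le_iff₀ ha0]
        have : 32 * ((H : ℝ) / A) * a = H * (32 * a) / A := by ring
        rw [this, le_div_iff₀ hA0]
        gcongr
      have h6 : 0 ≤ (H : ℝ) / a := by positivity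
      have h7 : ((H : ℝ) / a) ^ 2 ≤ 1024 * (H ^ 2 / A ^ 2) := by
        have := pow_le_pow_left₀ h6 h5 2
        rw [mul_pow, div_pow (H : ℝ) A] at this
        linarith
      have h8 : 2 * (H : ℝ) / a = 2 * (H / a) := by ring
      rw [h8]
      nlinarith [sq_nonneg (2 * ((H : ℝ) / a) - 1)]
    have h4 := ti_cnt A N N' H x hN hNN
    have h5 : 0 ≤ ∑ a ∈ (Icc 1 A).filter (fun a => tib N N' H a x),
        ‖g a‖ ^ 2 * (8192 * ((H : ℝ) ^ 2 / A ^ 2) + 2) :=
      sum_nonneg fun a _ => by positivity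
    have h6 : 0 ≤ ∑ a ∈ (Icc 1 A).filter (fun a => tib N N' H a x),
        (‖g a‖ * (2 * (H : ℝ) / a + 1)) ^ 2 := sum_nonneg fun a _ => sq_nonneg _
    calc ‖R x‖ ^ 2 ≤ (∑ a ∈ (Icc 1 A).filter (fun a => tib N N' H a x),
        ‖g a‖ * (2 * (H : ℝ) / a + 1)) ^ 2 := pow_le_pow_left₀ (norm_nonneg _) h1 2
      _ ≤ _ := h2
      _ ≤ _ := mul_le_mul h4 h3 h6 (by positivity)
  have hRs : ∑ x ∈ Ioc U V, ‖R x‖ ^ 2 ≤ 4 * H * ((H : ℝ) / N + 1) *
      (8192 * ((H : ℝ) ^ 2 / A ^ 2) + 2) * ∑ a ∈ Icc 1 A, ‖g a‖ ^ 2 := by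
    refine (sum_le_sum fun x _ => hRb x).trans ?_
    rw [← mul_sum]
    simp only [sum_filter]
    rw [sum_comm]
    have h1 : ∑ a ∈ Icc 1 A, ∑ x ∈ Ioc U V, (if tib N N' H a x then
        ‖g a‖ ^ 2 * (8192 * ((H : ℝ) ^ 2 / A ^ 2) + 2) else 0) ≤
        ∑ a ∈ Icc 1 A, (2 * H) * (‖g a‖ ^ 2 * (8192 * ((H : ℝ) ^ 2 / A ^ 2) + 2)) := by
      refine sum_le_sum fun a _ => ?_
      rw [← sum_filter, sum_const, nsmul_eq_mul]
      exact mul_le_mul_of_nonneg_right (ti_pts N N' H a U V) (by positivity)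
    refine (mul_le_mul_of_nonneg_left h1 (by positivity)).trans (le_of_eq ?_)
    rw [← mul_sum, ← sum_mul]
    ring
  have hPs := psp χ g A H U V G hA hG hUV (fun a => a * N - 1) (fun a => a * N' - H)
  have h1 : ∑ x ∈ Ioc U V, ‖P x‖ ^ 2 ≤ 2000 * G ^ 2 * (q : ℝ) ^ 3 *
      (1 + Real.log (A * q : ℕ)) ^ 2 * (((V : ℝ) - U) + (A : ℝ) ^ 2) * H := hPs
  have h2 : ∀ x ∈ Ioc U V, ‖wn (ft χ g A N N') H x -
        (LF.rho χ : ℂ) * H * ∑ a ∈ (Icc 1 A).filter (fun a => a * N ≤ x ∧ x < a * N'), g a / a‖ ^ 2 ≤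
        2 * ‖P x‖ ^ 2 + 2 * ‖R x‖ ^ 2 := by
    intro x hx
    rw [hsplit x hx]
    have h3 := norm_add_le (P x) (R x)
    have h4 := pow_le_pow_left₀ (norm_nonneg _) h3 2
    nlinarith [sq_nonneg (‖P x‖ - ‖R x‖)]
  refine (sum_le_sum h2).trans ?_
  rw [sum_add_distrib, ← mul_sum, ← mul_sum]
  have hG0 : 0 ≤ G ^ 2 := sq_nonneg _
  have hVU : (0 : ℝ) ≤ (V : ℝ) - U := by
    have : (U : ℝ) ≤ V := by exact_mod_cast hUV
    linarith
  have h5 : 0 ≤ G ^ 2 * (q : ℝ) ^ 3 * (1 + Real.log (A * q : ℕ)) ^ 2 *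
        (((V : ℝ) - U) + (A : ℝ) ^ 2) * H := by positivity
  have h6 : 0 ≤ H * ((H : ℝ) / N + 1) * ∑ a ∈ Icc 1 A, ‖g a‖ ^ 2 := by
    have : 0 ≤ ∑ a ∈ Icc 1 A, ‖g a‖ ^ 2 := sum_nonneg fun a _ => sq_nonneg _
    positivity
  have h7 : 0 ≤ (H : ℝ) ^ 2 / A ^ 2 := by positivity
  have h8 : 4 * H * ((H : ℝ) / N + 1) * (8192 * ((H : ℝ) ^ 2 / A ^ 2) + 2) *
      ∑ a ∈ Icc 1 A, ‖g a‖ ^ 2 ≤ 32768 * (H * ((H : ℝ) / N + 1) * ((H : ℝ) ^ 2 / A ^ 2 + 1) *
        ∑ a ∈ Icc 1 A, ‖g a‖ ^ 2) := by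
    nlinarith [mul_nonneg h6 h7]
  have h9 : 0 ≤ H * ((H : ℝ) / N + 1) * ((H : ℝ) ^ 2 / A ^ 2 + 1) *
        ∑ a ∈ Icc 1 A, ‖g a‖ ^ 2 := by
    have : 0 ≤ ∑ a ∈ Icc 1 A, ‖g a‖ ^ 2 := sum_nonneg fun a _ => sq_nonneg _
    positivity
  nlinarith

end Pool.Agent.H43.HX
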