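import Pool.Agent.H92.DivBound
import Pool.Agent.H43.SI.Poly
import Pool.Agent.H43.SI.Mvp
import Pool.Agent.H43.HX.Ti

/-!
# [H43 HX TIB] Boxes with a smooth factor `> X^(5/12)`

PROOF. `ℓ = log X`. Let `i >= 3`, `2^(e_i) > X^(5/12)`. If no `n ∈ (X, 4X]` has `bf χ e n ≠ 0` the sum is `0` (windows lie in `(X, 3X]`); so (`SI.bf_supp`)
`X <= 2^S <= 2^9 X`, `S <= 3ℓ`. `gg = ∏_{j≠i} af (cf χ j) (e_j)`, `A = 2^(S-e_i) <= 2^9 X^(7/12)`, `gg a ≠ 0` implies `1 <= a <= A <= 32a` (`SI.mvp_supp`),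
`‖gg a‖ <= (1+S)^5 τ_5(a)` (`SI.mvp_bound`) `<= X^(ε/4)` (`τ_5(a) <= τ(a)^4`, `H5.W.divisor_bound`), `Σ_{a<=A} ‖gg a‖^2 <= A ℓ^C2` (`SI.div_sq`).
`N = 2^(e_i)/2`, `N' = 2^(e_i)`; `N >= X^(5/12)/2`, `NA >= X/2`.
(a) `i = 4, 5`: `bf χ e n = ft χ gg A N N' n`. `ti` with `U = ⌊X⌋`, `V = ⌊2X⌋` for the lengths `L = H` and `L = H1 = ⌊Xℓ^(-K)⌋` (the main terms divided by `L`
are the same), so `Σ ‖dw‖^2 <= 2 Σ_L (bound)/L^2`, and `(bound)/L^2 <= C (X^(ε/2) ℓ^(3B+2) (X + 2^18 X^(7/6))/L + (1/L)(L/N+1)(L^2/A^2+1) A ℓ^C2)`; first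
`<= C X^(1-2ε)` as `L >= X^(1/6+3ε)/2`; second `= C (L^2/(NA) + A/N + L/A + A/L) ℓ^C2 <= C (2L^2/X + X^(1/4) + L + X^(1/2)) ℓ^C2 <= X ℓ^(-A-1)` if `K >= A + C2 + 3`.
(b) `i = 3`: `bf χ e n = log n f1(n) - f2(n)` with `f1 = ft χ gg`, `f2 = ft χ (gg log)` (`log b = log n - log a`). `wn (bf) L x/L = log x wn f1 L x/L - wn f2 L x/L + err`,
`‖err‖ <= (L/x)(1/L) Σ_{(x,x+L]} ‖f1‖`, whose mean square is `<= (L/X)^2 Σ_{n<=4X} ‖f1 n‖^2 <= X ℓ^(-2K+C3)`; apply (a) to `f1` and `f2` (with `A + 3` in place of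
`A`; `log x <= 2ℓ`, `‖gg a log a‖ <= 2ℓ ‖gg a‖`).
-/

namespace Pool.Agent.H43.HX

open Finset

private theorem ev_log (c k δ : ℝ) (hδ : 0 < δ) : ∃ X1 : ℝ, ∀ X : ℝ, X1 ≤ X →
    c * (Real.log X) ^ k ≤ X ^ δ := by
  have h1 := (isLittleO_log_rpow_rpow_atTop k hδ).def
    (show (0 : ℝ) < 1 / (|c| + 1) by positivity)
  rw [Filter.eventually_atTop] at h1
  obtain ⟨X1, hX1⟩ := h1
  refine ⟨max X1 1, fun X hX => ?_⟩
  have h2 := hX1 X ((le_max_left _ _).trans hX)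
  have hX0 : 1 ≤ X := (le_max_right _ _).trans hX
  have hl : 0 ≤ Real.log X := Real.log_nonneg hX0
  have h3 : 0 ≤ (Real.log X) ^ k := Real.rpow_nonneg hl _
  have h4 : 0 ≤ X ^ δ := Real.rpow_nonneg (by linarith) _
  rw [Real.norm_eq_abs, Real.norm_eq_abs, abs_of_nonneg h3, abs_of_nonneg h4] at h2
  have h5 : 0 < |c| + 1 := by positivity
  calc c * (Real.log X) ^ k ≤ (|c| + 1) * (Real.log X) ^ k :=
        mul_le_mul_of_nonneg_right (by linarith [le_abs_self c]) h3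
    _ ≤ (|c| + 1) * (1 / (|c| + 1) * X ^ δ) := mul_le_mul_of_nonneg_left h2 h5.le
    _ = X ^ δ := by field_simp

/-- main term -/
private noncomputable def mt {q : ℕ} (χ : DirichletCharacter ℂ q) (g : ℕ → ℂ)
    (Aa N N' x : ℕ) : ℂ :=
  (LF.rho χ : ℂ) * ∑ a ∈ (Icc 1 Aa).filter (fun a => a * N ≤ x ∧ x < a * N'), g a / a

private theorem core {q : ℕ} [NeZero q] (χ : DirichletCharacter ℂ q) (g : ℕ → ℂ)
    (Aa N N' L U V : ℕ) (G W : ℝ) (hA : 1 ≤ Aa) (hG : ∀ a, ‖g a‖ ≤ G)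
    (hg : ∀ a, g a ≠ 0 → Aa ≤ 32 * a) (hN : 1 ≤ N) (hNN : N ≤ N') (hL : 1 ≤ L) (hUV : U ≤ V)
    (hW : ∑ a ∈ Icc 1 Aa, ‖g a‖ ^ 2 ≤ Aa * W) :
    ∑ x ∈ Ioc U V, ‖wn (ft χ g Aa N N') L x / L - mt χ g Aa N N' x‖ ^ 2 ≤
      100000 * (G ^ 2 * (q : ℝ) ^ 3 * (1 + Real.log (Aa * q : ℕ)) ^ 2 *
        (((V : ℝ) - U) + (Aa : ℝ) ^ 2) / L +
        ((L : ℝ) ^ 2 / (N * Aa) + Aa / N + L / Aa + Aa / L) * W) := by
  have h := ti χ g Aa N N' L U V G hA hG hg hN hNN hL hUV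
  have hL0 : (0 : ℝ) < L := by exact_mod_cast hL
  have hN0 : (0 : ℝ) < N := by exact_mod_cast hN
  have hA0 : (0 : ℝ) < Aa := by exact_mod_cast hA
  have hLc : (L : ℂ) ≠ 0 := by exact_mod_cast (by omega : L ≠ 0)
  have h1 : ∀ x ∈ Ioc U V, ‖wn (ft χ g Aa N N') L x / L - mt χ g Aa N N' x‖ ^ 2 =
      ‖wn (ft χ g Aa N N') L x - (LF.rho χ : ℂ) * L *
        ∑ a ∈ (Icc 1 Aa).filter (fun a => a * N ≤ x ∧ x < a * N'), g a / a‖ ^ 2 *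
        (1 / (L : ℝ) ^ 2) := by
    intro x _
    have h2 : wn (ft χ g Aa N N') L x / L - mt χ g Aa N N' x =
        (wn (ft χ g Aa N N') L x - (LF.rho χ : ℂ) * L *
        ∑ a ∈ (Icc 1 Aa).filter (fun a => a * N ≤ x ∧ x < a * N'), g a / a) / L := by
      unfold mt
      field_simp
    rw [h2, norm_div, Complex.norm_natCast, div_pow]
    ring
  rw [sum_congr rfl h1, ← sum_mul]
  refine (mul_le_mul_of_nonneg_right h (by positivity)).trans ?_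
  have h3 : (L : ℝ) * ((L : ℝ) / N + 1) * ((L : ℝ) ^ 2 / (Aa : ℝ) ^ 2 + 1) *
      ∑ a ∈ Icc 1 Aa, ‖g a‖ ^ 2 ≤ (L : ℝ) * ((L : ℝ) / N + 1) *
      ((L : ℝ) ^ 2 / (Aa : ℝ) ^ 2 + 1) * (Aa * W) :=
    mul_le_mul_of_nonneg_left hW (by positivity)
  have h4 : 100000 * (G ^ 2 * (q : ℝ) ^ 3 * (1 + Real.log (Aa * q : ℕ)) ^ 2 *
        (((V : ℝ) - U) + (Aa : ℝ) ^ 2) * L +
        (L : ℝ) * ((L : ℝ) / N + 1) * ((L : ℝ) ^ 2 / (Aa : ℝ) ^ 2 + 1) *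
          ∑ a ∈ Icc 1 Aa, ‖g a‖ ^ 2) * (1 / (L : ℝ) ^ 2) ≤
      100000 * (G ^ 2 * (q : ℝ) ^ 3 * (1 + Real.log (Aa * q : ℕ)) ^ 2 *
        (((V : ℝ) - U) + (Aa : ℝ) ^ 2) * L +
        (L : ℝ) * ((L : ℝ) / N + 1) * ((L : ℝ) ^ 2 / (Aa : ℝ) ^ 2 + 1) *
          (Aa * W)) * (1 / (L : ℝ) ^ 2) := by
    apply mul_le_mul_of_nonneg_right _ (by positivity)
    linarith
  refine h4.trans (le_of_eq ?_)
  field_simp
  ring

private theorem small (B A1 ε : ℝ) (_hB : 0 < B) (hA : 0 < A1) (hε : 0 < ε) :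
    ∃ X0 : ℝ, ∀ X : ℝ, X0 ≤ X → ∀ K : ℝ, A1 + 50 ≤ K → ∀ (q Aa N L : ℕ), 1 ≤ q →
    (q : ℝ) ≤ (Real.log X) ^ B → 1 ≤ Aa → (Aa : ℝ) ≤ 192 * X ^ ((7 : ℝ) / 12) →
    X / 2 ≤ N * Aa → X ^ ((1 : ℝ) / 6 + 3 * ε) ≤ L → (L : ℝ) ≤ X * (Real.log X) ^ (-K) →
    100000 * ((X ^ (ε / 4)) ^ 2 * (q : ℝ) ^ 3 * (1 + Real.log (Aa * q : ℕ)) ^ 2 *
        (2 * X + (Aa : ℝ) ^ 2) / L +
        ((L : ℝ) ^ 2 / (N * Aa) + Aa / N + L / Aa + Aa / L) * (Real.log X) ^ (40 : ℝ)) ≤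
      X * (Real.log X) ^ (-A1) := by
  obtain ⟨X1, h1⟩ := ev_log 192 0 (5 / 12) (by norm_num)
  obtain ⟨X2, h2⟩ := ev_log 1 B 1 one_pos
  obtain ⟨X3, h3⟩ := ev_log 70000000000 (3 * B + 2 + A1) (5 * ε / 2) (by positivity)
  obtain ⟨X4, h4⟩ := ev_log 45000000000 (40 + A1) (5 / 6) (by norm_num)
  obtain ⟨X5, h5⟩ := ev_log 240000000 (40 + A1) (5 / 12) (by norm_num)
  refine ⟨max (max X1 X2) (max (max X3 X4) (max X5 (Real.exp 100000))), ?_⟩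
  intro X hX K hK q Aa N L hq hqB hAa hAaX hNA hL1 hL2
  simp only [max_le_iff] at hX
  obtain ⟨⟨hX1, hX2⟩, ⟨hX3, hX4⟩, hX5, hX6⟩ := hX
  replace h1 := h1 X hX1
  replace h2 := h2 X hX2
  replace h3 := h3 X hX3
  replace h4 := h4 X hX4
  replace h5 := h5 X hX5
  have hXpos : 0 < X := (Real.exp_pos _).trans_le hX6
  have hℓ : 100000 ≤ Real.log X := by
    rw [Real.le_log_iff_exp_le hXpos]
    exact hX6
  have hX1' : 1 ≤ X := by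
    have h := Real.add_one_le_exp (100000 : ℝ)
    linarith
  set ℓ := Real.log X with hℓdef
  have hℓ0 : 0 < ℓ := by linarith
  have hq0 : (1 : ℝ) ≤ q := by exact_mod_cast hq
  have hAa0 : (1 : ℝ) ≤ Aa := by exact_mod_cast hAa
  rw [Real.rpow_zero, mul_one] at h1
  rw [one_mul, Real.rpow_one] at h2
  have hx712 : 0 < X ^ ((7 : ℝ) / 12) := Real.rpow_pos_of_pos hXpos _
  have hAX : (Aa : ℝ) ≤ X := by
    calc (Aa : ℝ) ≤ 192 * X ^ ((7 : ℝ) / 12) := hAaX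
      _ ≤ X ^ ((5 : ℝ) / 12) * X ^ ((7 : ℝ) / 12) := mul_le_mul_of_nonneg_right h1 hx712.le
      _ = X := by rw [← Real.rpow_add hXpos]; norm_num
  have hlog : Real.log (Aa * q : ℕ) ≤ 2 * ℓ := by
    push_cast
    rw [Real.log_mul (by positivity) (by positivity)]
    have e1 : Real.log Aa ≤ ℓ := Real.log_le_log (by linarith) hAX
    have e2 : Real.log q ≤ ℓ := Real.log_le_log (by linarith) (hqB.trans h2)
    linarith
  have hlog0 : 0 ≤ Real.log (Aa * q : ℕ) := Real.log_natCast_nonneg _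
  have hLpos : (0 : ℝ) < L := (Real.rpow_pos_of_pos hXpos _).trans_le hL1
  have hNApos : (0 : ℝ) < N * Aa := by linarith
  have hNpos : (0 : ℝ) < N := by
    rcases (Nat.cast_nonneg (α := ℝ) N).lt_or_eq with h | h
    · exact h
    · rw [← h, zero_mul] at hNApos
      exact absurd hNApos (lt_irrefl _)
  -- first part
  have hA2 : (Aa : ℝ) ^ 2 ≤ 36864 * X ^ ((7 : ℝ) / 6) := by
    calc (Aa : ℝ) ^ 2 ≤ (192 * X ^ ((7 : ℝ) / 12)) ^ 2 := by gcongr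
      _ = 36864 * (X ^ ((7 : ℝ) / 12)) ^ 2 := by ring
      _ = 36864 * X ^ ((7 : ℝ) / 6) := by
        rw [← Real.rpow_natCast, ← Real.rpow_mul hXpos.le]
        norm_num
  have hX76 : X ≤ X ^ ((7 : ℝ) / 6) := by
    calc X = X ^ (1 : ℝ) := (Real.rpow_one X).symm
      _ ≤ X ^ ((7 : ℝ) / 6) := Real.rpow_le_rpow_of_exponent_le hX1' (by norm_num)
  have hT1 : (X ^ (ε / 4)) ^ 2 * (q : ℝ) ^ 3 * (1 + Real.log (Aa * q : ℕ)) ^ 2 *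
        (2 * X + (Aa : ℝ) ^ 2) / L ≤ 1 / 200000 * (X * ℓ ^ (-A1)) := by
    rw [div_le_iff₀ hLpos]
    have e1 : (X ^ (ε / 4)) ^ 2 = X ^ (ε / 2) := by
      rw [← Real.rpow_natCast, ← Real.rpow_mul hXpos.le]
      congr 1
      push_cast
      ring
    have e2 : (q : ℝ) ^ 3 ≤ ℓ ^ (3 * B) := by
      calc (q : ℝ) ^ 3 ≤ (ℓ ^ B) ^ 3 := by gcongr
        _ = ℓ ^ (3 * B) := by
          rw [← Real.rpow_natCast, ← Real.rpow_mul hℓ0.le]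
          congr 1
          push_cast
          ring
    have e3 : (1 + Real.log (Aa * q : ℕ)) ^ 2 ≤ 9 * ℓ ^ (2 : ℝ) := by
      calc (1 + Real.log (Aa * q : ℕ)) ^ 2 ≤ (3 * ℓ) ^ 2 := by
            apply pow_le_pow_left₀ (by linarith)
            linarith
        _ = 9 * ℓ ^ (2 : ℝ) := by norm_cast; ring
    have e4 : 2 * X + (Aa : ℝ) ^ 2 ≤ 36866 * X ^ ((7 : ℝ) / 6) := by linarith
    have hY : 0 < X ^ (ε / 2) := Real.rpow_pos_of_pos hXpos _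
    have hY2 : 0 < X ^ ((7 : ℝ) / 6) := Real.rpow_pos_of_pos hXpos _
    have hZ : 0 < ℓ ^ (-A1) := Real.rpow_pos_of_pos hℓ0 _
    have h31 : 0 < ℓ ^ (3 * B) := Real.rpow_pos_of_pos hℓ0 _
    have h32 : 0 < ℓ ^ (2 : ℝ) := Real.rpow_pos_of_pos hℓ0 _
    have h33 : ℓ ^ (3 * B) * ℓ ^ (2 : ℝ) = ℓ ^ (3 * B + 2 + A1) * ℓ ^ (-A1) := by
      rw [← Real.rpow_add hℓ0, ← Real.rpow_add hℓ0]
      congr 1
      ring
    calc (X ^ (ε / 4)) ^ 2 * (q : ℝ) ^ 3 * (1 + Real.log (Aa * q : ℕ)) ^ 2 *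
          (2 * X + (Aa : ℝ) ^ 2)
        ≤ X ^ (ε / 2) * ℓ ^ (3 * B) * (9 * ℓ ^ (2 : ℝ)) * (36866 * X ^ ((7 : ℝ) / 6)) := by
          rw [e1]
          gcongr
      _ = 331794 * (X ^ (ε / 2) * X ^ ((7 : ℝ) / 6)) * (ℓ ^ (3 * B) * ℓ ^ (2 : ℝ)) := by ring
      _ = 331794 / 70000000000 * (X ^ (ε / 2) * X ^ ((7 : ℝ) / 6)) *
          (70000000000 * ℓ ^ (3 * B + 2 + A1)) * ℓ ^ (-A1) := by rw [h33]; ring
      _ ≤ 331794 / 70000000000 * (X ^ (ε / 2) * X ^ ((7 : ℝ) / 6)) *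
          X ^ (5 * ε / 2) * ℓ ^ (-A1) := by gcongr
      _ = 331794 / 70000000000 * (X * X ^ ((1 : ℝ) / 6 + 3 * ε)) * ℓ ^ (-A1) := by
          have : X ^ (ε / 2) * X ^ ((7 : ℝ) / 6) * X ^ (5 * ε / 2) =
              X * X ^ ((1 : ℝ) / 6 + 3 * ε) := by
            nth_rewrite 4 [← Real.rpow_one X]
            rw [← Real.rpow_add hXpos, ← Real.rpow_add hXpos, ← Real.rpow_add hXpos]
            congr 1
            ring
          rw [← this]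
          ring
      _ ≤ 1 / 200000 * (X * (L : ℝ)) * ℓ ^ (-A1) := by
          have : (331794 : ℝ) / 70000000000 ≤ 1 / 200000 := by norm_num
          gcongr
      _ = 1 / 200000 * (X * ℓ ^ (-A1)) * L := by ring
  -- second part
  have hZ : 0 < ℓ ^ (-A1) := Real.rpow_pos_of_pos hℓ0 _
  have hW0 : 0 < ℓ ^ (40 : ℝ) := Real.rpow_pos_of_pos hℓ0 _
  have hWZ : ℓ ^ (40 : ℝ) = ℓ ^ (40 + A1) * ℓ ^ (-A1) := by
    rw [← Real.rpow_add hℓ0]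
    congr 1
    ring
  have hK1 : ℓ ^ (-K) * ℓ ^ (40 : ℝ) ≤ 1 / 10000000000 * ℓ ^ (-A1) := by
    have e1 : ℓ ^ (-K) * ℓ ^ (40 : ℝ) ≤ ℓ ^ (-10 : ℝ) * ℓ ^ (-A1) := by
      rw [← Real.rpow_add hℓ0, ← Real.rpow_add hℓ0]
      exact Real.rpow_le_rpow_of_exponent_le (by linarith) (by linarith)
    have e2 : ℓ ^ (-10 : ℝ) ≤ 1 / 10000000000 := by
      rw [Real.rpow_neg hℓ0.le, ← one_div]
      apply one_div_le_one_div_of_le (by norm_num)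
      have : ℓ ^ (10 : ℝ) = ℓ ^ (10 : ℕ) := by norm_cast
      rw [this]
      calc (10000000000 : ℝ) ≤ 100000 ^ 10 := by norm_num
        _ ≤ ℓ ^ 10 := by gcongr
    refine e1.trans ?_
    gcongr
  have hK2 : ℓ ^ (-K) ≤ 1 := by
    apply Real.rpow_le_one_of_one_le_of_nonpos (by linarith)
    linarith
  have hLX : (L : ℝ) ≤ X := hL2.trans (mul_le_of_le_one_right hXpos.le hK2)
  have t1 : (L : ℝ) ^ 2 / (N * Aa) ≤ 2 * (X * ℓ ^ (-K)) := by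
    rw [div_le_iff₀ hNApos]
    calc (L : ℝ) ^ 2 = L * L := by ring
      _ ≤ (X * ℓ ^ (-K)) * X := by gcongr
      _ = 2 * (X * ℓ ^ (-K)) * (X / 2) := by ring
      _ ≤ 2 * (X * ℓ ^ (-K)) * (N * Aa) := by gcongr
  have hX16 : 0 < X ^ ((1 : ℝ) / 6) := Real.rpow_pos_of_pos hXpos _
  have t2 : (Aa : ℝ) / N ≤ 73728 * X ^ ((1 : ℝ) / 6) := by
    rw [div_le_iff₀ hNpos]
    have e1 : (Aa : ℝ) * Aa ≤ 73728 * X ^ ((1 : ℝ) / 6) * N * Aa := by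
      calc (Aa : ℝ) * Aa = (Aa : ℝ) ^ 2 := by ring
        _ ≤ 36864 * X ^ ((7 : ℝ) / 6) := hA2
        _ = 73728 * X ^ ((1 : ℝ) / 6) * (X / 2) := by
          have : X ^ ((7 : ℝ) / 6) = X ^ ((1 : ℝ) / 6) * X := by
            nth_rewrite 3 [← Real.rpow_one X]
            rw [← Real.rpow_add hXpos]
            norm_num
          rw [this]
          ring
        _ ≤ 73728 * X ^ ((1 : ℝ) / 6) * (N * Aa) := by gcongr
        _ = _ := by ring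
    exact le_of_mul_le_mul_right e1 (by linarith)
  have t3 : (L : ℝ) / Aa ≤ X * ℓ ^ (-K) := by
    rw [div_le_iff₀ (by linarith)]
    calc (L : ℝ) ≤ X * ℓ ^ (-K) := hL2
      _ = X * ℓ ^ (-K) * 1 := by ring
      _ ≤ X * ℓ ^ (-K) * Aa := by
        apply mul_le_mul_of_nonneg_left hAa0
        positivity
  have t4 : (Aa : ℝ) / L ≤ 192 * X ^ ((7 : ℝ) / 12) := by
    rw [div_le_iff₀ hLpos]
    have e1 : (1 : ℝ) ≤ L :=
      (Real.one_le_rpow hX1' (by positivity)).trans hL1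
    calc (Aa : ℝ) ≤ 192 * X ^ ((7 : ℝ) / 12) := hAaX
      _ = 192 * X ^ ((7 : ℝ) / 12) * 1 := by ring
      _ ≤ 192 * X ^ ((7 : ℝ) / 12) * L := by gcongr
  have hT2 : ((L : ℝ) ^ 2 / (N * Aa) + Aa / N + L / Aa + Aa / L) * ℓ ^ (40 : ℝ) ≤
      1 / 200000 * (X * ℓ ^ (-A1)) := by
    have s1 : 3 * (X * ℓ ^ (-K)) * ℓ ^ (40 : ℝ) ≤ 1 / 3000000000 * (X * ℓ ^ (-A1)) := by
      calc 3 * (X * ℓ ^ (-K)) * ℓ ^ (40 : ℝ) = 3 * X * (ℓ ^ (-K) * ℓ ^ (40 : ℝ)) := by ring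
        _ ≤ 3 * X * (1 / 10000000000 * ℓ ^ (-A1)) := by gcongr
        _ ≤ _ := by nlinarith [mul_pos hXpos hZ]
    have s2 : 73728 * X ^ ((1 : ℝ) / 6) * ℓ ^ (40 : ℝ) ≤ 1 / 600000 * (X * ℓ ^ (-A1)) := by
      have e1 : X ^ ((1 : ℝ) / 6) * X ^ ((5 : ℝ) / 6) = X := by
        rw [← Real.rpow_add hXpos]
        norm_num
      calc 73728 * X ^ ((1 : ℝ) / 6) * ℓ ^ (40 : ℝ) =
            73728 / 45000000000 * X ^ ((1 : ℝ) / 6) * (45000000000 * ℓ ^ (40 + A1)) *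
              ℓ ^ (-A1) := by rw [hWZ]; ring
        _ ≤ 73728 / 45000000000 * X ^ ((1 : ℝ) / 6) * X ^ ((5 : ℝ) / 6) * ℓ ^ (-A1) := by
              gcongr
        _ = 73728 / 45000000000 * (X * ℓ ^ (-A1)) := by
              rw [mul_assoc (73728 / 45000000000 : ℝ), e1]
              ring
        _ ≤ _ := by
              apply mul_le_mul_of_nonneg_right (by norm_num)
              positivity
    have s3 : 192 * X ^ ((7 : ℝ) / 12) * ℓ ^ (40 : ℝ) ≤ 1 / 600000 * (X * ℓ ^ (-A1)) := by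
      have e1 : X ^ ((7 : ℝ) / 12) * X ^ ((5 : ℝ) / 12) = X := by
        rw [← Real.rpow_add hXpos]
        norm_num
      calc 192 * X ^ ((7 : ℝ) / 12) * ℓ ^ (40 : ℝ) =
            192 / 240000000 * X ^ ((7 : ℝ) / 12) * (240000000 * ℓ ^ (40 + A1)) *
              ℓ ^ (-A1) := by rw [hWZ]; ring
        _ ≤ 192 / 240000000 * X ^ ((7 : ℝ) / 12) * X ^ ((5 : ℝ) / 12) * ℓ ^ (-A1) := by
              gcongr
        _ = 192 / 240000000 * (X * ℓ ^ (-A1)) := by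
              rw [mul_assoc (192 / 240000000 : ℝ), e1]
              ring
        _ ≤ _ := by
              apply mul_le_mul_of_nonneg_right (by norm_num)
              positivity
    have hXZ : 0 < X * ℓ ^ (-A1) := by positivity
    calc ((L : ℝ) ^ 2 / (N * Aa) + Aa / N + L / Aa + Aa / L) * ℓ ^ (40 : ℝ)
        ≤ (2 * (X * ℓ ^ (-K)) + 73728 * X ^ ((1 : ℝ) / 6) + X * ℓ ^ (-K) +
            192 * X ^ ((7 : ℝ) / 12)) * ℓ ^ (40 : ℝ) := by gcongr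
      _ = 3 * (X * ℓ ^ (-K)) * ℓ ^ (40 : ℝ) + 73728 * X ^ ((1 : ℝ) / 6) * ℓ ^ (40 : ℝ) +
            192 * X ^ ((7 : ℝ) / 12) * ℓ ^ (40 : ℝ) := by ring
      _ ≤ 1 / 3000000000 * (X * ℓ ^ (-A1)) + 1 / 600000 * (X * ℓ ^ (-A1)) +
            1 / 600000 * (X * ℓ ^ (-A1)) := by linarith
      _ ≤ _ := by linarith
  linarith

/-- product of the other factors -/
private noncomputable def gg {q : ℕ} (χ : DirichletCharacter ℂ q) (e : Fin 6 → ℕ) (i : Fin 6) :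
    ArithmeticFunction ℂ := ∏ j ∈ univ.erase i, SI.af (SI.cf χ j) (e j)

/-- length of `a` -/
private def la (e : Fin 6 → ℕ) (i : Fin 6) : ℕ := 2 ^ (∑ j ∈ univ.erase i, e j)

private theorem card5 (i : Fin 6) : (univ.erase i).card = 5 := by
  rw [card_erase_of_mem (mem_univ i)]
  rfl

private theorem gg_supp {q : ℕ} (χ : DirichletCharacter ℂ q) (e : Fin 6 → ℕ) (i : Fin 6) (a : ℕ)
    (h : gg χ e i a ≠ 0) : 1 ≤ a ∧ a ≤ la e i ∧ la e i ≤ 32 * a := by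
  have h1 := SI.mvp_supp χ e (univ.erase i) a h
  rw [card5] at h1
  exact h1

private theorem gg_bound {q : ℕ} (χ : DirichletCharacter ℂ q) (e : Fin 6 → ℕ) (i : Fin 6) {S : ℝ}
    (hS : 1 + ((∑ j, e j : ℕ) : ℝ) ≤ S) (a : ℕ) :
    ‖gg χ e i a‖ ≤ S ^ 5 * (SI.dvt 5 a : ℝ) := by
  have h1 := SI.mvp_bound χ e (univ.erase i) a
  rw [card5] at h1
  refine h1.trans ?_
  unfold SI.dvt
  apply mul_le_mul_of_nonneg_right _ (Nat.cast_nonneg _)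
  apply pow_le_pow_left₀ (by positivity)
  refine le_trans ?_ hS
  have h2 : ∑ j ∈ univ.erase i, e j ≤ ∑ j, e j :=
    sum_le_sum_of_subset (erase_subset _ _)
  have h3 : ((∑ j ∈ univ.erase i, e j : ℕ) : ℝ) ≤ ((∑ j, e j : ℕ) : ℝ) := by exact_mod_cast h2
  linarith

private theorem bf_gg {q : ℕ} (χ : DirichletCharacter ℂ q) (e : Fin 6 → ℕ) (i : Fin 6) :
    SI.bf χ e = gg χ e i * SI.af (SI.cf χ i) (e i) := by
  unfold SI.bf gg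
  rw [Finset.prod_erase_mul _ _ (mem_univ i), Fin.prod_univ_six]

private theorem bf_ft {q : ℕ} (χ : DirichletCharacter ℂ q) (e : Fin 6 → ℕ) (i : Fin 6) (n : ℕ) :
    SI.bf χ e n = ∑ a ∈ (Icc 1 (la e i)).filter
      (fun a => a ∣ n ∧ 2 ^ e i / 2 < n / a ∧ n / a ≤ 2 ^ e i),
      gg χ e i a * SI.cf χ i (n / a) := by
  rw [bf_gg χ e i, ArithmeticFunction.mul_apply,
    Nat.sum_divisorsAntidiagonal (fun a b => gg χ e i a * SI.af (SI.cf χ i) (e i) b)]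
  have haf : ∀ b : ℕ, SI.af (SI.cf χ i) (e i) b =
      if b ∈ Ioc (2 ^ e i / 2) (2 ^ e i) then SI.cf χ i b else 0 := fun b => rfl
  by_cases hn : n = 0
  · subst hn
    rw [Nat.divisors_zero, sum_empty]
    symm
    apply sum_eq_zero
    intro a ha
    rw [mem_filter] at ha
    have := ha.2.2.1
    rw [Nat.zero_div] at this
    omega
  have hsub : (Icc 1 (la e i)).filter
      (fun a => a ∣ n ∧ 2 ^ e i / 2 < n / a ∧ n / a ≤ 2 ^ e i) ⊆ n.divisors := by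
    intro a ha
    rw [mem_filter] at ha
    exact Nat.mem_divisors.2 ⟨ha.2.1, hn⟩
  rw [← sum_subset hsub]
  · refine sum_congr rfl fun a ha => ?_
    rw [mem_filter] at ha
    rw [haf, if_pos (mem_Ioc.2 ⟨ha.2.2.1, ha.2.2.2⟩)]
  · intro a ha hna
    rw [Nat.mem_divisors] at ha
    by_cases h0 : gg χ e i a = 0
    · rw [h0, zero_mul]
    · obtain ⟨h1, h2, -⟩ := gg_supp χ e i a h0
      rw [haf, if_neg, mul_zero]
      intro h3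
      rw [mem_Ioc] at h3
      exact hna (mem_filter.2 ⟨mem_Icc.2 ⟨h1, h2⟩, ha.1, h3.1, h3.2⟩)

private theorem bf_smooth {q : ℕ} (χ : DirichletCharacter ℂ q) (e : Fin 6 → ℕ) (i : Fin 6)
    (hi : 3 < (i : ℕ)) (n : ℕ) :
    SI.bf χ e n = ft χ (gg χ e i) (la e i) (2 ^ e i / 2) (2 ^ e i) n := by
  rw [bf_ft χ e i n]
  unfold ft
  refine sum_congr rfl fun a _ => ?_
  have : SI.cf χ i (n / a) = χ (n / a : ℕ) := by
    unfold SI.cf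
    rw [if_neg (by omega), if_neg (by omega)]
  rw [this]

private theorem bf_log {q : ℕ} (χ : DirichletCharacter ℂ q) (e : Fin 6 → ℕ) (i : Fin 6)
    (hi : (i : ℕ) = 3) (n : ℕ) :
    SI.bf χ e n = ((Real.log n : ℝ) : ℂ) *
        ft χ (gg χ e i) (la e i) (2 ^ e i / 2) (2 ^ e i) n -
      ft χ (fun a => gg χ e i a * ((Real.log a : ℝ) : ℂ)) (la e i) (2 ^ e i / 2) (2 ^ e i) n := by
  rw [bf_ft χ e i n]
  unfold ft
  rw [mul_sum, ← sum_sub_distrib]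
  refine sum_congr rfl fun a ha => ?_
  rw [mem_filter, mem_Icc] at ha
  have h1 : SI.cf χ i (n / a) = χ (n / a : ℕ) * ((Real.log (n / a : ℕ) : ℝ) : ℂ) := by
    unfold SI.cf
    rw [if_neg (by omega), if_pos hi]
  have ha0 : (a : ℝ) ≠ 0 := by
    have := ha.1.1
    exact_mod_cast (by omega : a ≠ 0)
  have hn0 : (n : ℝ) ≠ 0 := by
    have h2 := ha.2.2.1
    have : n ≠ 0 := by
      rintro rfl
      rw [Nat.zero_div] at h2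
      omega
    exact_mod_cast this
  have h2 : Real.log (n / a : ℕ) = Real.log n - Real.log a := by
    rw [Nat.cast_div ha.2.1 ha0, Real.log_div hn0 ha0]
  rw [h1, h2]
  push_cast
  ring

private theorem dvt_le_card (k : ℕ) : ∀ a : ℕ, SI.dvt (k + 1) a ≤ a.divisors.card ^ k := by
  induction k with
  | zero =>
    intro a
    rw [SI.dvt_succ, pow_zero]
    calc ∑ e ∈ a.divisors, SI.dvt 0 e = ∑ e ∈ a.divisors, if e = 1 then 1 else 0 :=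
          sum_congr rfl fun e _ => SI.dvt_zero e
      _ ≤ 1 := by
        rw [sum_ite_eq']
        split_ifs <;> omega
  | succ k ih =>
    intro a
    rw [SI.dvt_succ, pow_succ]
    by_cases h0 : a = 0
    · subst h0
      simp
    calc ∑ e ∈ a.divisors, SI.dvt (k + 1) e ≤ ∑ e ∈ a.divisors, a.divisors.card ^ k := by
          refine sum_le_sum fun e he => (ih e).trans ?_
          apply Nat.pow_le_pow_left
          exact card_le_card (Nat.divisors_subset_of_dvd h0 (Nat.dvd_of_mem_divisors he))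
      _ = a.divisors.card ^ k * a.divisors.card := by
          rw [sum_const, smul_eq_mul, mul_comm]

private theorem gbound (ε : ℝ) (hε : 0 < ε) : ∃ X0 : ℝ, ∀ X : ℝ, X0 ≤ X → ∀ a : ℕ, 1 ≤ a →
    (a : ℝ) ≤ 192 * X ^ ((7 : ℝ) / 12) →
    (4 * Real.log X) ^ 5 * (SI.dvt 5 a : ℝ) * Real.log X ≤ X ^ (ε / 4) := by
  obtain ⟨C, hC, hdiv⟩ := H5.W.divisor_bound (ε / 16) (by positivity)
  obtain ⟨X1, h1⟩ := ev_log (4 ^ 5 * C ^ 4 * 192 ^ (ε / 4)) 6 (5 * ε / 48) (by positivity)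
  refine ⟨max X1 (Real.exp 1), fun X hX a ha haX => ?_⟩
  rw [max_le_iff] at hX
  have hXpos : 0 < X := (Real.exp_pos _).trans_le hX.2
  have hℓ : 1 ≤ Real.log X := by
    rw [Real.le_log_iff_exp_le hXpos]
    exact hX.2
  replace h1 := h1 X hX.1
  set ℓ := Real.log X with hℓd
  have ha0 : (0 : ℝ) < a := by exact_mod_cast ha
  have e1 : (SI.dvt 5 a : ℝ) ≤ ((a.divisors.card : ℕ) : ℝ) ^ 4 := by
    exact_mod_cast dvt_le_card 4 a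
  have e2 : ((a.divisors.card : ℕ) : ℝ) ^ 4 ≤ C ^ 4 * (a : ℝ) ^ (ε / 4) := by
    calc ((a.divisors.card : ℕ) : ℝ) ^ 4 ≤ (C * (a : ℝ) ^ (ε / 16)) ^ 4 := by
          gcongr
          exact hdiv a ha
      _ = C ^ 4 * ((a : ℝ) ^ (ε / 16)) ^ 4 := by ring
      _ = C ^ 4 * (a : ℝ) ^ (ε / 4) := by
          rw [← Real.rpow_natCast ((a : ℝ) ^ (ε / 16)), ← Real.rpow_mul ha0.le]
          congr 2
          push_cast
          ring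
  have e3 : (a : ℝ) ^ (ε / 4) ≤ 192 ^ (ε / 4) * X ^ (7 * ε / 48) := by
    calc (a : ℝ) ^ (ε / 4) ≤ (192 * X ^ ((7 : ℝ) / 12)) ^ (ε / 4) :=
          Real.rpow_le_rpow ha0.le haX (by positivity)
      _ = 192 ^ (ε / 4) * X ^ (7 * ε / 48) := by
          rw [Real.mul_rpow (by norm_num) (Real.rpow_nonneg hXpos.le _), ← Real.rpow_mul hXpos.le]
          congr 2
          ring
  have e4 : (SI.dvt 5 a : ℝ) ≤ C ^ 4 * (192 ^ (ε / 4) * X ^ (7 * ε / 48)) :=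
    (e1.trans e2).trans (mul_le_mul_of_nonneg_left e3 (by positivity))
  have e5 : ℓ ^ (6 : ℝ) = ℓ ^ 6 := by norm_cast
  rw [e5] at h1
  have hp : 0 < X ^ (7 * ε / 48) := Real.rpow_pos_of_pos hXpos _
  calc (4 * ℓ) ^ 5 * (SI.dvt 5 a : ℝ) * ℓ
      ≤ (4 * ℓ) ^ 5 * (C ^ 4 * (192 ^ (ε / 4) * X ^ (7 * ε / 48))) * ℓ := by gcongr
    _ = (4 ^ 5 * C ^ 4 * 192 ^ (ε / 4) * ℓ ^ 6) * X ^ (7 * ε / 48) := by ring
    _ ≤ X ^ (5 * ε / 48) * X ^ (7 * ε / 48) := by gcongr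
    _ = X ^ (ε / 4) := by
        rw [← Real.rpow_add hXpos]
        congr 1
        ring

private theorem l2bound {ℓ : ℝ} (hℓ : 100000 ≤ ℓ) (g : ℕ → ℂ) (Aa : ℕ) (hAa : 1 ≤ Aa)
    (hlog : Real.log Aa ≤ ℓ) (hg : ∀ a ∈ Icc 1 Aa, ‖g a‖ ≤ (4 * ℓ) ^ 5 * (SI.dvt 5 a : ℝ) * ℓ) :
    ∑ a ∈ Icc 1 Aa, ‖g a‖ ^ 2 ≤ Aa * ℓ ^ (40 : ℝ) := by
  have h1 := SI.div_sq 5 Aa hAa
  have hl0 : 0 ≤ Real.log Aa := Real.log_natCast_nonneg _
  have hℓ0 : 0 < ℓ := by linarith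
  calc ∑ a ∈ Icc 1 Aa, ‖g a‖ ^ 2
      ≤ ∑ a ∈ Icc 1 Aa, ((4 * ℓ) ^ 5 * ℓ) ^ 2 * (SI.dvt 5 a : ℝ) ^ 2 := by
        refine sum_le_sum fun a ha => ?_
        calc ‖g a‖ ^ 2 ≤ ((4 * ℓ) ^ 5 * (SI.dvt 5 a : ℝ) * ℓ) ^ 2 := by
              apply pow_le_pow_left₀ (norm_nonneg _) (hg a ha)
          _ = _ := by ring
    _ = ((4 * ℓ) ^ 5 * ℓ) ^ 2 * ∑ a ∈ Icc 1 Aa, (SI.dvt 5 a : ℝ) ^ 2 := by rw [mul_sum]
    _ ≤ ((4 * ℓ) ^ 5 * ℓ) ^ 2 * (Aa * (1 + Real.log Aa) ^ (5 ^ 2)) := by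
        apply mul_le_mul_of_nonneg_left h1 (by positivity)
    _ ≤ ((4 * ℓ) ^ 5 * ℓ) ^ 2 * (Aa * (2 * ℓ) ^ (5 ^ 2)) := by
        gcongr
        linarith
    _ = Aa * (35184372088832 * ℓ ^ 37) := by ring
    _ ≤ Aa * (ℓ ^ 3 * ℓ ^ 37) := by
        have : (35184372088832 : ℝ) ≤ ℓ ^ 3 := by
          calc (35184372088832 : ℝ) ≤ 100000 ^ 3 := by norm_num
            _ ≤ ℓ ^ 3 := by gcongr
        gcongr
    _ = Aa * ℓ ^ (40 : ℝ) := by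
        have : ℓ ^ (40 : ℝ) = ℓ ^ (40 : ℕ) := by norm_cast
        rw [this]
        ring

private theorem errE (f1 : ℕ → ℂ) (X : ℝ) (hX : 1 ≤ X) (L : ℕ) (hL : 1 ≤ L) (hLX : (L : ℝ) ≤ X)
    (Q : ℝ) (hQ : ∑ n ∈ Icc 1 ⌊3 * X⌋₊, ‖f1 n‖ ^ 2 ≤ Q) :
    ∑ x ∈ Ioc ⌊X⌋₊ ⌊2 * X⌋₊, ‖(∑ n ∈ Ioc x (x + L),
      ((Real.log n - Real.log x : ℝ) : ℂ) * f1 n) / L‖ ^ 2 ≤ (L / X) ^ 2 * Q := by
  have hL0 : (0 : ℝ) < L := by exact_mod_cast hL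
  have hX0 : 0 < X := by linarith
  have key : ∀ x ∈ Ioc ⌊X⌋₊ ⌊2 * X⌋₊, ‖(∑ n ∈ Ioc x (x + L),
      ((Real.log n - Real.log x : ℝ) : ℂ) * f1 n) / L‖ ^ 2 ≤
      L / X ^ 2 * ∑ n ∈ Ioc x (x + L), ‖f1 n‖ ^ 2 := by
    intro x hx
    rw [mem_Ioc] at hx
    have hxX : X < x := (Nat.floor_lt hX0.le).1 hx.1
    have hx0 : (0 : ℝ) < x := by linarith
    have e1 : ‖∑ n ∈ Ioc x (x + L), ((Real.log n - Real.log x : ℝ) : ℂ) * f1 n‖ ≤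
        L / X * ∑ n ∈ Ioc x (x + L), ‖f1 n‖ := by
      rw [mul_sum]
      refine (norm_sum_le _ _).trans (sum_le_sum fun n hn => ?_)
      rw [mem_Ioc] at hn
      have hn0 : (x : ℝ) < n := by exact_mod_cast hn.1
      have hn1 : (n : ℝ) ≤ x + L := by exact_mod_cast hn.2
      rw [norm_mul, Complex.norm_real, Real.norm_eq_abs]
      apply mul_le_mul_of_nonneg_right _ (norm_nonneg _)
      rw [← Real.log_div (by linarith : (n : ℝ) ≠ 0) hx0.ne', abs_of_nonneg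
        (Real.log_nonneg (by rw [le_div_iff₀ hx0]; linarith))]
      have h1 := Real.log_le_sub_one_of_pos (show (0 : ℝ) < n / x from div_pos (by linarith) hx0)
      refine h1.trans ?_
      have h2 : (n : ℝ) / x - 1 = (n - x) / x := by field_simp
      rw [h2]
      calc ((n : ℝ) - x) / x ≤ L / x := by
            apply div_le_div_of_nonneg_right _ hx0.le
            linarith
        _ ≤ L / X := by
            apply div_le_div_of_nonneg_left hL0.le hX0 hxX.le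
    have e2 : (∑ n ∈ Ioc x (x + L), ‖f1 n‖) ^ 2 ≤ L * ∑ n ∈ Ioc x (x + L), ‖f1 n‖ ^ 2 := by
      have := sq_sum_le_card_mul_sum_sq (s := Ioc x (x + L)) (f := fun n => ‖f1 n‖)
      rw [Nat.card_Ioc] at this
      have h3 : x + L - x = L := by omega
      rw [h3] at this
      exact this
    rw [norm_div, Complex.norm_natCast, div_pow, div_le_iff₀ (by positivity)]
    calc ‖∑ n ∈ Ioc x (x + L), ((Real.log n - Real.log x : ℝ) : ℂ) * f1 n‖ ^ 2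
        ≤ (L / X * ∑ n ∈ Ioc x (x + L), ‖f1 n‖) ^ 2 :=
          pow_le_pow_left₀ (norm_nonneg _) e1 2
      _ = (L / X) ^ 2 * (∑ n ∈ Ioc x (x + L), ‖f1 n‖) ^ 2 := by ring
      _ ≤ (L / X) ^ 2 * (L * ∑ n ∈ Ioc x (x + L), ‖f1 n‖ ^ 2) := by gcongr
      _ = _ := by field_simp
  refine (sum_le_sum key).trans ?_
  rw [← mul_sum]
  have hM : ⌊2 * X⌋₊ + L ≤ ⌊3 * X⌋₊ := by
    apply Nat.le_floor
    push_cast
    have := Nat.floor_le (show 0 ≤ 2 * X by linarith)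
    linarith
  have hswap : ∑ x ∈ Ioc ⌊X⌋₊ ⌊2 * X⌋₊, ∑ n ∈ Ioc x (x + L), ‖f1 n‖ ^ 2 =
      ∑ n ∈ Icc 1 ⌊3 * X⌋₊, ∑ x ∈ (Ioc ⌊X⌋₊ ⌊2 * X⌋₊).filter (fun x => x < n ∧ n ≤ x + L),
        ‖f1 n‖ ^ 2 := by
    refine sum_comm' ?_
    intro x n
    rw [mem_filter, mem_Ioc, mem_Ioc, mem_Icc]
    constructor
    · rintro ⟨⟨h1, h2⟩, h3, h4⟩
      exact ⟨⟨⟨h1, h2⟩, h3, h4⟩, by omega, by omega⟩
    · rintro ⟨⟨⟨h1, h2⟩, h3, h4⟩, -, -⟩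
      exact ⟨⟨h1, h2⟩, h3, h4⟩
  have hle : ∑ x ∈ Ioc ⌊X⌋₊ ⌊2 * X⌋₊, ∑ n ∈ Ioc x (x + L), ‖f1 n‖ ^ 2 ≤ L * Q := by
    rw [hswap]
    calc ∑ n ∈ Icc 1 ⌊3 * X⌋₊, ∑ x ∈ (Ioc ⌊X⌋₊ ⌊2 * X⌋₊).filter (fun x => x < n ∧ n ≤ x + L),
          ‖f1 n‖ ^ 2 ≤ ∑ n ∈ Icc 1 ⌊3 * X⌋₊, L * ‖f1 n‖ ^ 2 := by
          refine sum_le_sum fun n _ => ?_
          rw [sum_const, nsmul_eq_mul]
          apply mul_le_mul_of_nonneg_right _ (by positivity)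
          have hc : ((Ioc ⌊X⌋₊ ⌊2 * X⌋₊).filter (fun x => x < n ∧ n ≤ x + L)).card ≤ L := by
            calc _ ≤ (Ico (n - L) n).card := by
                  apply card_le_card
                  intro x hx
                  rw [mem_filter] at hx
                  rw [mem_Ico]
                  omega
              _ ≤ L := by rw [Nat.card_Ico]; omega
          exact_mod_cast hc
      _ = L * ∑ n ∈ Icc 1 ⌊3 * X⌋₊, ‖f1 n‖ ^ 2 := by rw [mul_sum]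
      _ ≤ L * Q := by gcongr
  calc L / X ^ 2 * ∑ x ∈ Ioc ⌊X⌋₊ ⌊2 * X⌋₊, ∑ n ∈ Ioc x (x + L), ‖f1 n‖ ^ 2
      ≤ L / X ^ 2 * (L * Q) := by gcongr
    _ = (L / X) ^ 2 * Q := by ring

private theorem part (B A1 ε : ℝ) (hB : 0 < B) (hA : 0 < A1) (hε : 0 < ε) :
    ∃ X0 : ℝ, Real.exp 100000 ≤ X0 ∧ ∀ X : ℝ, X0 ≤ X → ∀ K : ℝ, A1 + 50 ≤ K →
    ∀ (q : ℕ) [NeZero q], (q : ℝ) ≤ (Real.log X) ^ B → ∀ (χ : DirichletCharacter ℂ q)
    (e : Fin 6 → ℕ) (i : Fin 6), X ^ ((5 : ℝ) / 12) < (2 : ℝ) ^ (e i) →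
    X ≤ (2 : ℝ) ^ (∑ j, e j) → 1 + ((∑ j, e j : ℕ) : ℝ) ≤ 4 * Real.log X →
    (2 : ℝ) ^ (∑ j, e j) ≤ 192 * X →
    ∀ g : ℕ → ℂ, (∀ a, (gg χ e i a = 0 → g a = 0) ∧
      (a ∈ Icc 1 (la e i) → ‖g a‖ ≤ ‖gg χ e i a‖ * Real.log X)) →
    ∀ L : ℕ, X ^ ((1 : ℝ) / 6 + 3 * ε) ≤ L → (L : ℝ) ≤ X * (Real.log X) ^ (-K) →
    1 ≤ 2 ^ e i / 2 ∧ (la e i : ℝ) ≤ X ∧
    ∑ x ∈ Ioc ⌊X⌋₊ ⌊2 * X⌋₊,
      ‖wn (ft χ g (la e i) (2 ^ e i / 2) (2 ^ e i)) L x / L -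
        mt χ g (la e i) (2 ^ e i / 2) (2 ^ e i) x‖ ^ 2 ≤ X * (Real.log X) ^ (-A1) := by
  obtain ⟨X1, h1⟩ := small B A1 ε hB hA hε
  obtain ⟨X2, h2⟩ := gbound ε hε
  obtain ⟨X3, h3⟩ := ev_log 192 0 (5 / 12) (by norm_num)
  refine ⟨max (max X1 X2) (max X3 (Real.exp 100000)),
    (le_max_right _ _).trans (le_max_right _ _), ?_⟩
  intro X hX K hK q _ hq χ e i hi hS1 hS3 hS2 g hg L hL1 hL2
  simp only [max_le_iff] at hX
  obtain ⟨⟨hX1, hX2⟩, hX3, hX4⟩ := hX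
  replace h1 := h1 X hX1 K hK
  replace h2 := h2 X hX2
  replace h3 := h3 X hX3
  have hXpos : 0 < X := (Real.exp_pos _).trans_le hX4
  have hℓ : 100000 ≤ Real.log X := by
    rw [Real.le_log_iff_exp_le hXpos]
    exact hX4
  have hX1' : 1 ≤ X := by
    have h := Real.add_one_le_exp (100000 : ℝ)
    linarith
  rw [Real.rpow_zero, mul_one] at h3
  have hx712 : 0 < X ^ ((7 : ℝ) / 12) := Real.rpow_pos_of_pos hXpos _
  have hx512 : 0 < X ^ ((5 : ℝ) / 12) := Real.rpow_pos_of_pos hXpos _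
  have hXX : X ^ ((7 : ℝ) / 12) * X ^ ((5 : ℝ) / 12) = X := by
    rw [← Real.rpow_add hXpos]
    norm_num
  have hei : 1 ≤ e i := by
    by_contra h
    have h' : e i = 0 := by omega
    rw [h', pow_zero] at hi
    exact absurd hi (not_lt.2 (Real.one_le_rpow hX1' (by norm_num)))
  have h2N : 2 ^ e i = 2 * (2 ^ e i / 2) := by
    obtain ⟨m, hm⟩ : ∃ m, e i = m + 1 := ⟨e i - 1, by omega⟩
    rw [hm, pow_succ]
    omega
  have hN1 : 1 ≤ 2 ^ e i / 2 := by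
    have := Nat.one_le_two_pow (n := e i)
    omega
  have hla1 : 1 ≤ la e i := Nat.one_le_two_pow
  have hlaS : la e i * 2 ^ e i = 2 ^ (∑ j, e j) := by
    unfold la
    rw [← pow_add, Finset.sum_erase_add _ _ (mem_univ i)]
  have hlaSr : (la e i : ℝ) * 2 ^ e i = 2 ^ (∑ j, e j) := by exact_mod_cast hlaS
  have hlaX : (la e i : ℝ) ≤ 192 * X ^ ((7 : ℝ) / 12) := by
    have e1 : (la e i : ℝ) * X ^ ((5 : ℝ) / 12) ≤
        192 * X ^ ((7 : ℝ) / 12) * X ^ ((5 : ℝ) / 12) := by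
      calc (la e i : ℝ) * X ^ ((5 : ℝ) / 12) ≤ (la e i : ℝ) * 2 ^ e i := by gcongr
        _ ≤ 192 * X := by rw [hlaSr]; exact hS2
        _ = 192 * X ^ ((7 : ℝ) / 12) * X ^ ((5 : ℝ) / 12) := by rw [mul_assoc, hXX]
    exact le_of_mul_le_mul_right e1 hx512
  have hlaX' : (la e i : ℝ) ≤ X := by
    calc (la e i : ℝ) ≤ 192 * X ^ ((7 : ℝ) / 12) := hlaX
      _ ≤ X ^ ((5 : ℝ) / 12) * X ^ ((7 : ℝ) / 12) := by gcongr
      _ = X := by rw [mul_comm, hXX]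
  have hNla : X / 2 ≤ ((2 ^ e i / 2 : ℕ) : ℝ) * la e i := by
    have e1 : (2 : ℝ) ^ e i = 2 * ((2 ^ e i / 2 : ℕ) : ℝ) := by exact_mod_cast h2N
    rw [e1] at hlaSr
    have e2 : (la e i : ℝ) * (2 * ((2 ^ e i / 2 : ℕ) : ℝ)) =
        2 * (((2 ^ e i / 2 : ℕ) : ℝ) * la e i) := by ring
    rw [e2] at hlaSr
    linarith
  have hgb : ∀ a ∈ Icc 1 (la e i),
      ‖g a‖ ≤ (4 * Real.log X) ^ 5 * (SI.dvt 5 a : ℝ) * Real.log X := by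
    intro a ha
    refine ((hg a).2 ha).trans ?_
    exact mul_le_mul_of_nonneg_right (gg_bound χ e i hS3 a) (by linarith)
  have hG : ∀ a, ‖g a‖ ≤ X ^ (ε / 4) := by
    intro a
    by_cases h0 : gg χ e i a = 0
    · rw [(hg a).1 h0, norm_zero]
      exact (Real.rpow_pos_of_pos hXpos _).le
    · obtain ⟨k1, k2, k3⟩ := gg_supp χ e i a h0
      refine (hgb a (mem_Icc.2 ⟨k1, k2⟩)).trans (h2 a k1 ?_)
      have : (a : ℝ) ≤ la e i := by exact_mod_cast k2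
      linarith
  have hg32 : ∀ a, g a ≠ 0 → la e i ≤ 32 * a := by
    intro a ha
    have h0 : gg χ e i a ≠ 0 := fun h0 => ha ((hg a).1 h0)
    exact (gg_supp χ e i a h0).2.2
  have hL0 : 1 ≤ L := by
    have e1 : (1 : ℝ) ≤ L := (Real.one_le_rpow hX1' (by positivity)).trans hL1
    exact_mod_cast e1
  have hUV : ⌊X⌋₊ ≤ ⌊2 * X⌋₊ := Nat.floor_le_floor (by linarith)
  have hla0 : (0 : ℝ) < la e i := by exact_mod_cast hla1
  have hW := l2bound hℓ g (la e i) hla1 (Real.log_le_log hla0 hlaX') hgb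
  have hcore := core χ g (la e i) (2 ^ e i / 2) (2 ^ e i) L ⌊X⌋₊ ⌊2 * X⌋₊ (X ^ (ε / 4))
    ((Real.log X) ^ (40 : ℝ)) hla1 hG hg32 hN1 (by omega) hL0 hUV hW
  refine ⟨hN1, hlaX', hcore.trans ?_⟩
  have hq1 : 1 ≤ q := Nat.one_le_iff_ne_zero.2 (NeZero.ne q)
  refine le_trans ?_ (h1 q (la e i) (2 ^ e i / 2) L hq1 hq hla1 hlaX hNla hL1 hL2)
  have hVU : ((⌊2 * X⌋₊ : ℕ) : ℝ) - (⌊X⌋₊ : ℕ) ≤ 2 * X := by
    have e1 := Nat.floor_le (show 0 ≤ 2 * X by linarith)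
    have e2 : (0 : ℝ) ≤ (⌊X⌋₊ : ℕ) := Nat.cast_nonneg _
    linarith
  have hLr : (0 : ℝ) < L := by exact_mod_cast hL0
  gcongr

private theorem qbound {q : ℕ} (χ : DirichletCharacter ℂ q) (e : Fin 6 → ℕ) (i : Fin 6) (X : ℝ)
    (hX : 1 ≤ X) (hℓ : 100000 ≤ Real.log X) (hS : 1 + ((∑ j, e j : ℕ) : ℝ) ≤ 4 * Real.log X) :
    ∑ n ∈ Icc 1 ⌊3 * X⌋₊, ‖ft χ (gg χ e i) (la e i) (2 ^ e i / 2) (2 ^ e i) n‖ ^ 2 ≤
      X * (Real.log X) ^ 50 := by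
  set ℓ := Real.log X with hℓd
  have hℓ0 : 0 < ℓ := by linarith
  have hf : ∀ n ∈ Icc 1 ⌊3 * X⌋₊, ‖ft χ (gg χ e i) (la e i) (2 ^ e i / 2) (2 ^ e i) n‖ ≤
      (4 * ℓ) ^ 5 * (SI.dvt 6 n : ℝ) := by
    intro n hn
    rw [mem_Icc] at hn
    unfold ft
    calc ‖∑ a ∈ (Icc 1 (la e i)).filter
            (fun a => a ∣ n ∧ 2 ^ e i / 2 < n / a ∧ n / a ≤ 2 ^ e i),
            gg χ e i a * χ (n / a : ℕ)‖
        ≤ ∑ a ∈ (Icc 1 (la e i)).filter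
            (fun a => a ∣ n ∧ 2 ^ e i / 2 < n / a ∧ n / a ≤ 2 ^ e i),
            (4 * ℓ) ^ 5 * (SI.dvt 5 a : ℝ) := by
          refine (norm_sum_le _ _).trans (sum_le_sum fun a _ => ?_)
          rw [norm_mul]
          have k1 := gg_bound χ e i hS a
          have k2 : ‖χ (n / a : ℕ)‖ ≤ 1 := χ.norm_le_one _
          calc ‖gg χ e i a‖ * ‖χ (n / a : ℕ)‖ ≤ ‖gg χ e i a‖ * 1 := by gcongr
            _ = ‖gg χ e i a‖ := mul_one _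
            _ ≤ _ := k1
      _ ≤ ∑ a ∈ n.divisors, (4 * ℓ) ^ 5 * (SI.dvt 5 a : ℝ) := by
          apply sum_le_sum_of_subset_of_nonneg
          · intro a ha
            rw [mem_filter] at ha
            exact Nat.mem_divisors.2 ⟨ha.2.1, by omega⟩
          · intro a _ _
            positivity
      _ = (4 * ℓ) ^ 5 * (SI.dvt 6 n : ℝ) := by
          rw [← mul_sum, SI.dvt_succ]
          push_cast
          rfl
  have hM1 : 1 ≤ ⌊3 * X⌋₊ := by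
    apply Nat.le_floor
    push_cast
    linarith
  have hM0 : (0 : ℝ) < (⌊3 * X⌋₊ : ℕ) := by exact_mod_cast hM1
  have hMX : ((⌊3 * X⌋₊ : ℕ) : ℝ) ≤ 3 * X := Nat.floor_le (by linarith)
  have hlog : 1 + Real.log (⌊3 * X⌋₊ : ℕ) ≤ 2 * ℓ := by
    have e1 : Real.log (⌊3 * X⌋₊ : ℕ) ≤ Real.log (3 * X) := Real.log_le_log hM0 hMX
    rw [Real.log_mul (by norm_num) (by linarith)] at e1
    have e2 : Real.log 3 ≤ 3 - 1 := Real.log_le_sub_one_of_pos (by norm_num)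
    linarith
  have hlog0 : 0 ≤ Real.log (⌊3 * X⌋₊ : ℕ) := Real.log_natCast_nonneg _
  calc ∑ n ∈ Icc 1 ⌊3 * X⌋₊, ‖ft χ (gg χ e i) (la e i) (2 ^ e i / 2) (2 ^ e i) n‖ ^ 2
      ≤ ∑ n ∈ Icc 1 ⌊3 * X⌋₊, ((4 * ℓ) ^ 5) ^ 2 * (SI.dvt 6 n : ℝ) ^ 2 := by
        refine sum_le_sum fun n hn => ?_
        rw [← mul_pow]
        exact pow_le_pow_left₀ (norm_nonneg _) (hf n hn) 2
    _ = ((4 * ℓ) ^ 5) ^ 2 * ∑ n ∈ Icc 1 ⌊3 * X⌋₊, (SI.dvt 6 n : ℝ) ^ 2 := by rw [mul_sum]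
    _ ≤ ((4 * ℓ) ^ 5) ^ 2 * (((⌊3 * X⌋₊ : ℕ) : ℝ) *
          (1 + Real.log (⌊3 * X⌋₊ : ℕ)) ^ (6 ^ 2)) := by
        apply mul_le_mul_of_nonneg_left (SI.div_sq 6 _ hM1) (by positivity)
    _ ≤ ((4 * ℓ) ^ 5) ^ 2 * (3 * X * (2 * ℓ) ^ (6 ^ 2)) := by gcongr
    _ = X * (216172782113783808 * ℓ ^ 46) := by ring
    _ ≤ X * (ℓ ^ 4 * ℓ ^ 46) := by
        have : (216172782113783808 : ℝ) ≤ ℓ ^ 4 := by
          calc (216172782113783808 : ℝ) ≤ 100000 ^ 4 := by norm_num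
            _ ≤ ℓ ^ 4 := by gcongr
        gcongr
    _ = X * ℓ ^ 50 := by ring

private theorem sq2 (a b : ℂ) : ‖a - b‖ ^ 2 ≤ 2 * ‖a‖ ^ 2 + 2 * ‖b‖ ^ 2 := by
  have h1 := norm_sub_le a b
  have h2 := norm_nonneg (a - b)
  calc ‖a - b‖ ^ 2 ≤ (‖a‖ + ‖b‖) ^ 2 := pow_le_pow_left₀ h2 h1 2
    _ ≤ _ := by nlinarith [sq_nonneg (‖a‖ - ‖b‖)]

private theorem sq6 (t : ℝ) (a1 a2 e1 e2 b1 b2 : ℂ) :
    ‖(t : ℂ) * (a1 - a2) + (e1 - e2) - (b1 - b2)‖ ^ 2 ≤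
      6 * (t ^ 2 * (‖a1‖ ^ 2 + ‖a2‖ ^ 2) + (‖e1‖ ^ 2 + ‖e2‖ ^ 2) + (‖b1‖ ^ 2 + ‖b2‖ ^ 2)) := by
  have h1 : ‖(t : ℂ) * (a1 - a2) + (e1 - e2) - (b1 - b2)‖ ≤
      |t| * ‖a1 - a2‖ + ‖e1 - e2‖ + ‖b1 - b2‖ := by
    refine (norm_sub_le _ _).trans ?_
    gcongr
    refine (norm_add_le _ _).trans ?_
    gcongr
    rw [norm_mul, Complex.norm_real, Real.norm_eq_abs]
  have ha := sq2 a1 a2
  have he := sq2 e1 e2
  have hb := sq2 b1 b2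
  have ht : |t| ^ 2 = t ^ 2 := sq_abs t
  have ht0 : 0 ≤ t ^ 2 := sq_nonneg t
  calc ‖(t : ℂ) * (a1 - a2) + (e1 - e2) - (b1 - b2)‖ ^ 2
      ≤ (|t| * ‖a1 - a2‖ + ‖e1 - e2‖ + ‖b1 - b2‖) ^ 2 :=
        pow_le_pow_left₀ (norm_nonneg _) h1 2
    _ ≤ 3 * ((|t| * ‖a1 - a2‖) ^ 2 + ‖e1 - e2‖ ^ 2 + ‖b1 - b2‖ ^ 2) := by
        nlinarith [sq_nonneg (|t| * ‖a1 - a2‖ - ‖e1 - e2‖),
          sq_nonneg (|t| * ‖a1 - a2‖ - ‖b1 - b2‖), sq_nonneg (‖e1 - e2‖ - ‖b1 - b2‖)]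
    _ = 3 * (t ^ 2 * ‖a1 - a2‖ ^ 2 + ‖e1 - e2‖ ^ 2 + ‖b1 - b2‖ ^ 2) := by
        rw [mul_pow, ht]
    _ ≤ 3 * (t ^ 2 * (2 * ‖a1‖ ^ 2 + 2 * ‖a2‖ ^ 2) + (2 * ‖e1‖ ^ 2 + 2 * ‖e2‖ ^ 2) +
          (2 * ‖b1‖ ^ 2 + 2 * ‖b2‖ ^ 2)) := by gcongr
    _ = _ := by ring

theorem tib (B A ε : ℝ) (hB : 0 < B) (hA : 0 < A) (hε : 0 < ε) (hε1 : ε ≤ 1 / 12) :
    ∃ K0 : ℝ, 0 < K0 ∧ ∀ K : ℝ, K0 ≤ K → ∃ X0 : ℝ, 10 ≤ X0 ∧ ∀ X : ℝ, X0 ≤ X →
    ∀ (q : ℕ) [NeZero q], (q : ℝ) ≤ (Real.log X) ^ B → ∀ (χ : DirichletCharacter ℂ q)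
    (e : Fin 6 → ℕ), (∃ i : Fin 6, 3 ≤ (i : ℕ) ∧ X ^ ((5 : ℝ) / 12) < (2 : ℝ) ^ (e i)) → ∀ H : ℕ,
    X ^ ((1 : ℝ) / 6 + 3 * ε) ≤ H → (H : ℝ) ≤ X * (Real.log X) ^ (-K) →
    ∑ x ∈ Ioc ⌊X⌋₊ ⌊2 * X⌋₊,
      ‖dw (fun n => SI.bf χ e n) H ⌊X * (Real.log X) ^ (-K)⌋₊ x‖ ^ 2 ≤
      X * (Real.log X) ^ (-A) := by
  obtain ⟨X1, hX1e, hpart⟩ := part B (A + 4) ε hB (by linarith) hε
  refine ⟨A + 60, by linarith, fun K hK => ⟨max X1 10, le_max_right _ _, ?_⟩⟩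
  intro X hX q _ hq χ e hi H hH1 hH2
  obtain ⟨i, hi3, hi⟩ := hi
  have hXX1 : X1 ≤ X := (le_max_left _ _).trans hX
  have hXe : Real.exp 100000 ≤ X := hX1e.trans hXX1
  have hXpos : 0 < X := (Real.exp_pos _).trans_le hXe
  have hℓ : 100000 ≤ Real.log X := by
    rw [Real.le_log_iff_exp_le hXpos]
    exact hXe
  have hX1' : 1 ≤ X := by
    have h := Real.add_one_le_exp (100000 : ℝ)
    linarith
  replace hpart := hpart X hXX1 K (by linarith) q hq χ e i hi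
  set ℓ := Real.log X with hℓd
  have hℓ0 : 0 < ℓ := by linarith
  have hZ : 0 < X * ℓ ^ (-A) := by positivity
  have hK2 : ℓ ^ (-K) ≤ 1 := by
    apply Real.rpow_le_one_of_one_le_of_nonpos (by linarith)
    linarith
  have hXK : X * ℓ ^ (-K) ≤ X := mul_le_of_le_one_right hXpos.le hK2
  have hXK0 : 0 ≤ X * ℓ ^ (-K) := by positivity
  set H1 := ⌊X * ℓ ^ (-K)⌋₊ with hH1d
  have hHH1 : H ≤ H1 := Nat.le_floor hH2
  have hH1X : (H1 : ℝ) ≤ X * ℓ ^ (-K) := Nat.floor_le hXK0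
  have hH1b : X ^ ((1 : ℝ) / 6 + 3 * ε) ≤ H1 := hH1.trans (by exact_mod_cast hHH1)
  have hHpos : 1 ≤ H := by
    have e1 : (1 : ℝ) ≤ H := (Real.one_le_rpow hX1' (by positivity)).trans hH1
    exact_mod_cast e1
  by_cases h0 : ∀ n ∈ Ioc ⌊X⌋₊ ⌊3 * X⌋₊, SI.bf χ e n = 0
  · have hwn : ∀ L : ℕ, (L : ℝ) ≤ X → ∀ x ∈ Ioc ⌊X⌋₊ ⌊2 * X⌋₊,
        wn (fun n => SI.bf χ e n) L x = 0 := by
      intro L hL x hx
      unfold wn
      apply sum_eq_zero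
      intro n hn
      rw [mem_Ioc] at hn hx
      apply h0
      rw [mem_Ioc]
      refine ⟨by omega, ?_⟩
      apply Nat.le_floor
      have e1 := Nat.floor_le (show 0 ≤ 2 * X by linarith)
      have e2 : (n : ℝ) ≤ (⌊2 * X⌋₊ : ℕ) + (L : ℕ) := by
        exact_mod_cast (by omega : n ≤ ⌊2 * X⌋₊ + L)
      linarith
    refine le_trans (le_of_eq ?_) hZ.le
    apply sum_eq_zero
    intro x hx
    unfold dw
    rw [hwn H (by linarith) x hx, hwn H1 (by linarith) x hx]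
    simp
  push Not at h0
  obtain ⟨n, hn, hne⟩ := h0
  obtain ⟨hn1, hn2, hn3⟩ := SI.bf_supp χ e n hne
  rw [mem_Ioc] at hn
  have hXn : X < n := (Nat.floor_lt hXpos.le).1 hn.1
  have hn3X : (n : ℝ) ≤ 3 * X := by
    have e1 : (n : ℝ) ≤ (⌊3 * X⌋₊ : ℕ) := by exact_mod_cast hn.2
    exact e1.trans (Nat.floor_le (by linarith))
  have hS1 : X ≤ (2 : ℝ) ^ (∑ j, e j) := by
    have e1 : (n : ℝ) ≤ (2 : ℝ) ^ (∑ j, e j) := by exact_mod_cast hn2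
    linarith
  have hS2 : (2 : ℝ) ^ (∑ j, e j) ≤ 192 * X := by
    have e1 : (2 : ℝ) ^ (∑ j, e j) ≤ 64 * n := by exact_mod_cast hn3
    linarith
  have hS3 : 1 + ((∑ j, e j : ℕ) : ℝ) ≤ 4 * ℓ := by
    have e1 : Real.log ((2 : ℝ) ^ (∑ j, e j)) ≤ Real.log (192 * X) :=
      Real.log_le_log (by positivity) hS2
    rw [Real.log_pow, Real.log_mul (by norm_num) hXpos.ne'] at e1
    have e2 : Real.log 192 ≤ 192 - 1 := Real.log_le_sub_one_of_pos (by norm_num)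
    have e3 := Real.log_two_gt_d9
    have e4 : (0 : ℝ) ≤ ((∑ j, e j : ℕ) : ℝ) := Nat.cast_nonneg _
    have e5 : ((∑ j, e j : ℕ) : ℝ) * (1 / 2) ≤ ((∑ j, e j : ℕ) : ℝ) * Real.log 2 := by
      apply mul_le_mul_of_nonneg_left _ e4
      linarith
    linarith
  replace hpart := hpart hS1 hS3 hS2
  have hA4 : 72 * ℓ ^ 2 * (X * ℓ ^ (-(A + 4))) ≤ X * ℓ ^ (-A) := by
    have e1 : ℓ ^ (-(A + 4)) * ℓ ^ 4 = ℓ ^ (-A) := by
      rw [← Real.rpow_natCast ℓ 4, ← Real.rpow_add hℓ0]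
      congr 1
      push_cast
      ring
    rw [← e1]
    have e2 : 0 < X * ℓ ^ (-(A + 4)) := by positivity
    have e3 : 72 * ℓ ^ 2 ≤ ℓ ^ 4 := by
      have : (72 : ℝ) ≤ ℓ ^ 2 := by nlinarith
      calc 72 * ℓ ^ 2 ≤ ℓ ^ 2 * ℓ ^ 2 := by gcongr
        _ = ℓ ^ 4 := by ring
    calc 72 * ℓ ^ 2 * (X * ℓ ^ (-(A + 4))) ≤ ℓ ^ 4 * (X * ℓ ^ (-(A + 4))) := by gcongr
      _ = _ := by ring
  have hT0 : 0 < X * ℓ ^ (-(A + 4)) := by positivity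
  have hgg : ∀ a, (gg χ e i a = 0 → gg χ e i a = 0) ∧
      (a ∈ Icc 1 (la e i) → ‖gg χ e i a‖ ≤ ‖gg χ e i a‖ * ℓ) := fun a =>
    ⟨id, fun _ => le_mul_of_one_le_right (norm_nonneg _) (by linarith)⟩
  obtain ⟨hN1, hlaX, p1⟩ := hpart (fun a => gg χ e i a) hgg H hH1 hH2
  obtain ⟨-, -, p2⟩ := hpart (fun a => gg χ e i a) hgg H1 hH1b hH1X
  by_cases hi4 : 3 < (i : ℕ)
  · have hbf : (fun n => SI.bf χ e n) =
        ft χ (fun a => gg χ e i a) (la e i) (2 ^ e i / 2) (2 ^ e i) := by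
      funext n
      exact bf_smooth χ e i hi4 n
    rw [hbf]
    have key : ∀ x ∈ Ioc ⌊X⌋₊ ⌊2 * X⌋₊,
        ‖dw (ft χ (fun a => gg χ e i a) (la e i) (2 ^ e i / 2) (2 ^ e i)) H H1 x‖ ^ 2 ≤
        2 * ‖wn (ft χ (fun a => gg χ e i a) (la e i) (2 ^ e i / 2) (2 ^ e i)) H x / H -
          mt χ (fun a => gg χ e i a) (la e i) (2 ^ e i / 2) (2 ^ e i) x‖ ^ 2 +
        2 * ‖wn (ft χ (fun a => gg χ e i a) (la e i) (2 ^ e i / 2) (2 ^ e i)) H1 x / H1 -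
          mt χ (fun a => gg χ e i a) (la e i) (2 ^ e i / 2) (2 ^ e i) x‖ ^ 2 := by
      intro x _
      refine le_trans (le_of_eq ?_) (sq2 _ _)
      unfold dw
      congr 2
      ring
    refine (sum_le_sum key).trans ?_
    rw [sum_add_distrib, ← mul_sum, ← mul_sum]
    have : (1 : ℝ) ≤ ℓ ^ 2 := by nlinarith
    nlinarith
  -- the logarithmic factor
  have hi3' : (i : ℕ) = 3 := by omega
  have hgl : ∀ a, (gg χ e i a = 0 → gg χ e i a * ((Real.log a : ℝ) : ℂ) = 0) ∧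
      (a ∈ Icc 1 (la e i) → ‖gg χ e i a * ((Real.log a : ℝ) : ℂ)‖ ≤ ‖gg χ e i a‖ * ℓ) := by
    refine fun a => ⟨fun h => by rw [h, zero_mul], fun ha => ?_⟩
    rw [mem_Icc] at ha
    rw [norm_mul, Complex.norm_real, Real.norm_eq_abs, abs_of_nonneg (Real.log_natCast_nonneg _)]
    apply mul_le_mul_of_nonneg_left _ (norm_nonneg _)
    apply Real.log_le_log (by exact_mod_cast ha.1)
    have : (a : ℝ) ≤ la e i := by exact_mod_cast ha.2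
    linarith
  obtain ⟨-, -, r1⟩ := hpart (fun a => gg χ e i a * ((Real.log a : ℝ) : ℂ)) hgl H hH1 hH2
  obtain ⟨-, -, r2⟩ := hpart (fun a => gg χ e i a * ((Real.log a : ℝ) : ℂ)) hgl H1 hH1b hH1X
  have hQ := qbound χ e i X hX1' hℓ hS3
  set f1 := ft χ (fun a => gg χ e i a) (la e i) (2 ^ e i / 2) (2 ^ e i) with hf1
  set f2 := ft χ (fun a => gg χ e i a * ((Real.log a : ℝ) : ℂ)) (la e i) (2 ^ e i / 2)
    (2 ^ e i) with hf2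
  have hE : ∀ L : ℕ, 1 ≤ L → (L : ℝ) ≤ X * ℓ ^ (-K) →
      ∑ x ∈ Ioc ⌊X⌋₊ ⌊2 * X⌋₊, ‖(∑ n ∈ Ioc x (x + L),
        ((Real.log n - Real.log x : ℝ) : ℂ) * f1 n) / L‖ ^ 2 ≤ X * ℓ ^ (-(A + 4)) := by
    intro L hL hL2
    refine (errE f1 X hX1' L hL (by linarith) _ hQ).trans ?_
    have e1 : (L : ℝ) / X ≤ ℓ ^ (-K) := by
      rw [div_le_iff₀ hXpos]
      linarith
    have e0 : (0 : ℝ) ≤ (L : ℝ) / X := by positivity
    calc ((L : ℝ) / X) ^ 2 * (X * ℓ ^ 50) ≤ (ℓ ^ (-K)) ^ 2 * (X * ℓ ^ 50) := by gcongr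
      _ = X * (ℓ ^ (-K) * ℓ ^ (-K) * ℓ ^ (50 : ℝ)) := by
          have : ℓ ^ (50 : ℝ) = ℓ ^ (50 : ℕ) := by norm_cast
          rw [this]
          ring
      _ = X * ℓ ^ (-K + -K + 50) := by
          rw [← Real.rpow_add hℓ0, ← Real.rpow_add hℓ0]
      _ ≤ X * ℓ ^ (-(A + 4)) := by
          apply mul_le_mul_of_nonneg_left _ hXpos.le
          apply Real.rpow_le_rpow_of_exponent_le (by linarith)
          linarith
  have s1 := hE H hHpos hH2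
  have s2 := hE H1 (hHpos.trans hHH1) hH1X
  have hwb : ∀ L x : ℕ, wn (fun n => SI.bf χ e n) L x / L =
      ((Real.log x : ℝ) : ℂ) * (wn f1 L x / L) + (∑ n ∈ Ioc x (x + L),
        ((Real.log n - Real.log x : ℝ) : ℂ) * f1 n) / L - wn f2 L x / L := by
    intro L x
    have h1 : wn (fun n => SI.bf χ e n) L x = ((Real.log x : ℝ) : ℂ) * wn f1 L x +
        ∑ n ∈ Ioc x (x + L), ((Real.log n - Real.log x : ℝ) : ℂ) * f1 n - wn f2 L x := by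
      unfold wn
      rw [mul_sum, ← sum_add_distrib, ← sum_sub_distrib]
      refine sum_congr rfl fun n _ => ?_
      have hb : SI.bf χ e n = ((Real.log n : ℝ) : ℂ) * f1 n - f2 n := bf_log χ e i hi3' n
      beta_reduce
      rw [hb]
      push_cast
      ring
    rw [h1]
    ring
  have key : ∀ x ∈ Ioc ⌊X⌋₊ ⌊2 * X⌋₊, ‖dw (fun n => SI.bf χ e n) H H1 x‖ ^ 2 ≤
      6 * (4 * ℓ ^ 2 * (‖wn f1 H x / H -
          mt χ (fun a => gg χ e i a) (la e i) (2 ^ e i / 2) (2 ^ e i) x‖ ^ 2 +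
        ‖wn f1 H1 x / H1 -
          mt χ (fun a => gg χ e i a) (la e i) (2 ^ e i / 2) (2 ^ e i) x‖ ^ 2) +
      (‖(∑ n ∈ Ioc x (x + H), ((Real.log n - Real.log x : ℝ) : ℂ) * f1 n) / H‖ ^ 2 +
        ‖(∑ n ∈ Ioc x (x + H1), ((Real.log n - Real.log x : ℝ) : ℂ) * f1 n) / H1‖ ^ 2) +
      (‖wn f2 H x / H - mt χ (fun a => gg χ e i a * ((Real.log a : ℝ) : ℂ)) (la e i)
          (2 ^ e i / 2) (2 ^ e i) x‖ ^ 2 +
        ‖wn f2 H1 x / H1 - mt χ (fun a => gg χ e i a * ((Real.log a : ℝ) : ℂ)) (la e i)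
          (2 ^ e i / 2) (2 ^ e i) x‖ ^ 2)) := by
    intro x hx
    rw [mem_Ioc] at hx
    have hxX : X < x := (Nat.floor_lt hXpos.le).1 hx.1
    have hx2 : (x : ℝ) ≤ 2 * X := by
      have e1 : (x : ℝ) ≤ (⌊2 * X⌋₊ : ℕ) := by exact_mod_cast hx.2
      exact e1.trans (Nat.floor_le (by linarith))
    have hlx0 : 0 ≤ Real.log x := Real.log_natCast_nonneg _
    have hlx : Real.log x ≤ 2 * ℓ := by
      have e1 : Real.log x ≤ Real.log (2 * X) := Real.log_le_log (by linarith) hx2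
      rw [Real.log_mul (by norm_num) hXpos.ne'] at e1
      have e2 : Real.log 2 ≤ 2 - 1 := Real.log_le_sub_one_of_pos (by norm_num)
      linarith
    have hlx2 : (Real.log x) ^ 2 ≤ 4 * ℓ ^ 2 := by
      calc (Real.log x) ^ 2 ≤ (2 * ℓ) ^ 2 := by gcongr
        _ = 4 * ℓ ^ 2 := by ring
    have h6 := sq6 (Real.log x)
      (wn f1 H x / H - mt χ (fun a => gg χ e i a) (la e i) (2 ^ e i / 2) (2 ^ e i) x)
      (wn f1 H1 x / H1 - mt χ (fun a => gg χ e i a) (la e i) (2 ^ e i / 2) (2 ^ e i) x)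
      ((∑ n ∈ Ioc x (x + H), ((Real.log n - Real.log x : ℝ) : ℂ) * f1 n) / H)
      ((∑ n ∈ Ioc x (x + H1), ((Real.log n - Real.log x : ℝ) : ℂ) * f1 n) / H1)
      (wn f2 H x / H - mt χ (fun a => gg χ e i a * ((Real.log a : ℝ) : ℂ)) (la e i)
        (2 ^ e i / 2) (2 ^ e i) x)
      (wn f2 H1 x / H1 - mt χ (fun a => gg χ e i a * ((Real.log a : ℝ) : ℂ)) (la e i)
        (2 ^ e i / 2) (2 ^ e i) x)
    refine le_trans (le_of_eq ?_) (h6.trans ?_)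
    · unfold dw
      rw [hwb H x, hwb H1 x]
      congr 2
      ring
    · gcongr
  refine (sum_le_sum key).trans ?_
  rw [← mul_sum, sum_add_distrib, sum_add_distrib, ← mul_sum, sum_add_distrib, sum_add_distrib,
    sum_add_distrib]
  refine le_trans ?_ hA4
  have hℓ2 : (1 : ℝ) ≤ ℓ ^ 2 := by nlinarith
  have m1 := add_le_add p1 p2
  have m2 := add_le_add s1 s2
  have m3 := add_le_add r1 r2
  have m4 : 4 * ℓ ^ 2 * (∑ x ∈ Ioc ⌊X⌋₊ ⌊2 * X⌋₊, ‖wn f1 H x / H -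
          mt χ (fun a => gg χ e i a) (la e i) (2 ^ e i / 2) (2 ^ e i) x‖ ^ 2 +
        ∑ x ∈ Ioc ⌊X⌋₊ ⌊2 * X⌋₊, ‖wn f1 H1 x / H1 -
          mt χ (fun a => gg χ e i a) (la e i) (2 ^ e i / 2) (2 ^ e i) x‖ ^ 2) ≤
      4 * ℓ ^ 2 * (X * ℓ ^ (-(A + 4)) + X * ℓ ^ (-(A + 4))) :=
    mul_le_mul_of_nonneg_left m1 (by positivity)
  have m5 : X * ℓ ^ (-(A + 4)) ≤ ℓ ^ 2 * (X * ℓ ^ (-(A + 4))) :=
    le_mul_of_one_le_left hT0.le hℓ2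
  linarith

end Pool.Agent.H43.HX
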