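import Pool.Agent.H43.SI.Si
import Pool.Agent.H43.HX.Bxa
import Pool.Agent.H43.HX.Tib

/-!
# [H43 HX HBX] Windows of `Λ χ`

PROOF. `ℓ = log X`, `b` minimal with `6X <= 2^(3b)` (`2^b <= 8X^(1/3)`), `Bb` minimal with `6X <= 2^Bb` (see the proof of `SI.si`). For `n <= 6X` `Λ(n)χ(n) = Σ_{e∈boxes b Bb} wt e bf χ e n`
(`SI.hb`), all windows lie in `(X, 3X]`, so `dw (Λχ) = Σ_e wt e dw (bf χ e)`; `card boxes <= (3ℓ)^6` (`SI.boxes_card_le`), `‖wt e‖ <= 7` (`SI.wt_norm`), Cauchy-Schwarz: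
`Σ_x ‖dw (Λχ)‖^2 <= 49 (card)^2 max_e Σ_x ‖dw (bf χ e)‖^2`. Each `e ∈ boxes b Bb` has `2^(e_i) <= 2^b <= 8X^(1/3) <= X^(5/12)` for `i < 3`, so either all
`2^(e_i) <= X^(5/12)` (`bxa`) or some `i >= 3` has `2^(e_i) > X^(5/12)` (`tib`), both with `(B, A+14, ε)`, `K0` = the maximum.
-/

namespace Pool.Agent.H43.HX

open Finset

private theorem wn_hb {q : ℕ} [NeZero q] (χ : DirichletCharacter ℂ q) (X : ℝ) (b Bb L x : ℕ)
    (hb1 : 6 * X ≤ 2 ^ (3 * b)) (hB1 : 6 * X ≤ 2 ^ Bb) (hx : (x : ℝ) + L ≤ 6 * X) :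
    wn (fun n => ((ArithmeticFunction.vonMangoldt n : ℝ) : ℂ) * χ n) L x =
      ∑ e ∈ SI.boxes b Bb, SI.wt e * wn (fun n => SI.bf χ e n) L x := by
  unfold wn
  simp only [Finset.mul_sum]
  rw [Finset.sum_comm]
  refine Finset.sum_congr rfl fun n hn => ?_
  rw [mem_Ioc] at hn
  have h6 : (n : ℝ) ≤ 6 * X := by
    have h1 : (n : ℝ) ≤ ((x + L : ℕ) : ℝ) := by exact_mod_cast hn.2
    push_cast at h1
    linarith
  apply SI.hb χ b Bb n (by omega)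
  · have : (n : ℝ) ≤ 2 ^ (3 * b) := le_trans h6 hb1
    exact_mod_cast this
  · have : (n : ℝ) ≤ 2 ^ Bb := le_trans h6 hB1
    exact_mod_cast this

private theorem dw_boxes {q : ℕ} [NeZero q] (χ : DirichletCharacter ℂ q) (X : ℝ) (b Bb H H1 : ℕ)
    (s : Finset ℕ) (hb1 : 6 * X ≤ 2 ^ (3 * b)) (hB1 : 6 * X ≤ 2 ^ Bb)
    (hx : ∀ x ∈ s, (x : ℝ) + H ≤ 6 * X ∧ (x : ℝ) + H1 ≤ 6 * X) (Z : ℝ)
    (hZ : ∀ e ∈ SI.boxes b Bb, ∑ x ∈ s, ‖dw (fun n => SI.bf χ e n) H H1 x‖ ^ 2 ≤ Z) :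
    ∑ x ∈ s, ‖dw (fun n => ((ArithmeticFunction.vonMangoldt n : ℝ) : ℂ) * χ n) H H1 x‖ ^ 2 ≤
      49 * ((SI.boxes b Bb).card : ℝ) ^ 2 * Z := by
  have hD : ∀ x ∈ s, ‖dw (fun n => ((ArithmeticFunction.vonMangoldt n : ℝ) : ℂ) * χ n) H H1 x‖ ^ 2 ≤
      49 * ((SI.boxes b Bb).card : ℝ) *
        ∑ e ∈ SI.boxes b Bb, ‖dw (fun n => SI.bf χ e n) H H1 x‖ ^ 2 := by
    intro x hxs
    have e1 : dw (fun n => ((ArithmeticFunction.vonMangoldt n : ℝ) : ℂ) * χ n) H H1 x =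
        ∑ e ∈ SI.boxes b Bb, SI.wt e * dw (fun n => SI.bf χ e n) H H1 x := by
      unfold dw
      rw [wn_hb χ X b Bb H x hb1 hB1 (hx x hxs).1, wn_hb χ X b Bb H1 x hb1 hB1 (hx x hxs).2,
        Finset.sum_div, Finset.sum_div, ← Finset.sum_sub_distrib]
      apply Finset.sum_congr rfl
      intro e _
      ring
    rw [e1]
    have e2 : ‖∑ e ∈ SI.boxes b Bb, SI.wt e * dw (fun n => SI.bf χ e n) H H1 x‖ ≤
        ∑ e ∈ SI.boxes b Bb, 7 * ‖dw (fun n => SI.bf χ e n) H H1 x‖ := by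
      refine le_trans (norm_sum_le _ _) (Finset.sum_le_sum ?_)
      intro e _
      rw [norm_mul]
      exact mul_le_mul_of_nonneg_right (SI.wt_norm e) (norm_nonneg _)
    calc _ ≤ (∑ e ∈ SI.boxes b Bb, 7 * ‖dw (fun n => SI.bf χ e n) H H1 x‖) ^ 2 :=
          pow_le_pow_left₀ (norm_nonneg _) e2 2
      _ ≤ ((SI.boxes b Bb).card : ℝ) *
          ∑ e ∈ SI.boxes b Bb, (7 * ‖dw (fun n => SI.bf χ e n) H H1 x‖) ^ 2 :=
          sq_sum_le_card_mul_sum_sq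
      _ = 49 * ((SI.boxes b Bb).card : ℝ) *
          ∑ e ∈ SI.boxes b Bb, ‖dw (fun n => SI.bf χ e n) H H1 x‖ ^ 2 := by
          rw [Finset.mul_sum, Finset.mul_sum]
          apply Finset.sum_congr rfl
          intro e _
          ring
  calc _ ≤ ∑ x ∈ s, 49 * ((SI.boxes b Bb).card : ℝ) *
        ∑ e ∈ SI.boxes b Bb, ‖dw (fun n => SI.bf χ e n) H H1 x‖ ^ 2 := Finset.sum_le_sum hD
    _ = 49 * ((SI.boxes b Bb).card : ℝ) *
        ∑ e ∈ SI.boxes b Bb, ∑ x ∈ s, ‖dw (fun n => SI.bf χ e n) H H1 x‖ ^ 2 := by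
        rw [← Finset.mul_sum, Finset.sum_comm]
    _ ≤ 49 * ((SI.boxes b Bb).card : ℝ) * ∑ e ∈ SI.boxes b Bb, Z := by
        apply mul_le_mul_of_nonneg_left (Finset.sum_le_sum hZ) (by positivity)
    _ = 49 * ((SI.boxes b Bb).card : ℝ) ^ 2 * Z := by
        rw [Finset.sum_const, nsmul_eq_mul]; ring

theorem hbx (B A ε : ℝ) (hB : 0 < B) (hA : 0 < A) (hε : 0 < ε) (hε1 : ε ≤ 1 / 12) :
    ∃ K0 : ℝ, 0 < K0 ∧ ∀ K : ℝ, K0 ≤ K → ∃ X0 : ℝ, 10 ≤ X0 ∧ ∀ X : ℝ, X0 ≤ X →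
    ∀ (q : ℕ) [NeZero q], (q : ℝ) ≤ (Real.log X) ^ B → ∀ (χ : DirichletCharacter ℂ q) (H : ℕ),
    X ^ ((1 : ℝ) / 6 + 3 * ε) ≤ H → (H : ℝ) ≤ X * (Real.log X) ^ (-K) →
    ∑ x ∈ Ioc ⌊X⌋₊ ⌊2 * X⌋₊,
      ‖dw (fun n => ((ArithmeticFunction.vonMangoldt n : ℝ) : ℂ) * χ n) H
        ⌊X * (Real.log X) ^ (-K)⌋₊ x‖ ^ 2 ≤ X * (Real.log X) ^ (-A) := by
  obtain ⟨K1, hK1, hbxa⟩ := bxa B (A + 14) ε hB (by linarith) hε hε1
  obtain ⟨K2, hK2, htib⟩ := tib B (A + 14) ε hB (by linarith) hε hε1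
  refine ⟨max K1 K2, lt_max_of_lt_left hK1, fun K hK => ?_⟩
  obtain ⟨X1, hX1, hbxa⟩ := hbxa K ((le_max_left _ _).trans hK)
  obtain ⟨X2, hX2, htib⟩ := htib K ((le_max_right _ _).trans hK)
  have hKpos : 0 < K := hK1.trans_le ((le_max_left _ _).trans hK)
  set L0 : ℝ := 49 * 3 ^ 12 with hL0
  refine ⟨max (max X1 X2) (Real.exp L0), (hX1.trans (le_max_left _ _)).trans (le_max_left _ _), ?_⟩
  intro X hX q _ hq χ H hH1 hH2
  have hXX1 : X1 ≤ X := ((le_max_left _ _).trans (le_max_left _ _)).trans hX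
  have hXX2 : X2 ≤ X := ((le_max_right _ _).trans (le_max_left _ _)).trans hX
  have hX10 : 10 ≤ X := le_trans hX1 hXX1
  have hXpos : 0 < X := by linarith
  have hbx := hbxa X hXX1 q hq χ
  have hti := htib X hXX2 q hq χ
  set ℓ := Real.log X with hℓ
  have hℓL : L0 ≤ ℓ := (Real.le_log_iff_exp_le hXpos).2 (le_trans (le_max_right _ _) hX)
  have hℓ100 : 100 ≤ ℓ := by
    rw [hL0] at hℓL
    norm_num at hℓL
    linarith
  have hℓpos : 0 < ℓ := by linarith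
  have hl2a : (0.6931471803 : ℝ) < Real.log 2 := Real.log_two_gt_d9
  have hl2b : Real.log 2 < 0.6931471808 := Real.log_two_lt_d9
  have h2e : ∀ n : ℕ, (2 : ℝ) ^ n = Real.exp (n * Real.log 2) := by
    intro n
    rw [mul_comm, ← Real.rpow_natCast, Real.rpow_def_of_pos (by norm_num)]
  have hlog6 : Real.log (6 * X) = Real.log 6 + ℓ := Real.log_mul (by norm_num) hXpos.ne'
  have hlog6b : Real.log 6 ≤ 3 * Real.log 2 := by
    have : Real.log 6 ≤ Real.log (2 ^ 3) := Real.log_le_log (by norm_num) (by norm_num)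
    rwa [Real.log_pow] at this
  have hlog6c : 0 ≤ Real.log 6 := Real.log_nonneg (by norm_num)
  have h6X : 6 * X = Real.exp (Real.log 6 + ℓ) := by
    rw [← hlog6, Real.exp_log (by positivity)]
  set b := ⌈(Real.log 6 + ℓ) / (3 * Real.log 2)⌉₊ with hb
  set Bb := ⌈(Real.log 6 + ℓ) / Real.log 2⌉₊ with hBb
  have hb0 : (Real.log 6 + ℓ) / (3 * Real.log 2) ≤ b := Nat.le_ceil _
  have hb2 : (b : ℝ) < (Real.log 6 + ℓ) / (3 * Real.log 2) + 1 :=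
    Nat.ceil_lt_add_one (by positivity)
  have hB0 : (Real.log 6 + ℓ) / Real.log 2 ≤ Bb := Nat.le_ceil _
  have hB2 : (Bb : ℝ) < (Real.log 6 + ℓ) / Real.log 2 + 1 := Nat.ceil_lt_add_one (by positivity)
  rw [div_le_iff₀ (by positivity)] at hb0 hB0
  have hb3 : (b : ℝ) * (3 * Real.log 2) < (Real.log 6 + ℓ) + 3 * Real.log 2 := by
    have h1 : (0 : ℝ) < 3 * Real.log 2 := by positivity
    calc (b : ℝ) * (3 * Real.log 2)
        < ((Real.log 6 + ℓ) / (3 * Real.log 2) + 1) * (3 * Real.log 2) :=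
          mul_lt_mul_of_pos_right hb2 h1
      _ = (Real.log 6 + ℓ) + 3 * Real.log 2 := by field_simp
  have hB3 : (Bb : ℝ) * Real.log 2 < (Real.log 6 + ℓ) + Real.log 2 := by
    have h1 : (0 : ℝ) < Real.log 2 := by positivity
    calc (Bb : ℝ) * Real.log 2 < ((Real.log 6 + ℓ) / Real.log 2 + 1) * Real.log 2 :=
          mul_lt_mul_of_pos_right hB2 h1
      _ = (Real.log 6 + ℓ) + Real.log 2 := by field_simp
  have hbR : (b : ℝ) + 1 ≤ 3 * ℓ := by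
    have h1 : (b : ℝ) * 2 ≤ (b : ℝ) * (3 * Real.log 2) := by
      apply mul_le_mul_of_nonneg_left _ (Nat.cast_nonneg b)
      linarith
    linarith
  have hBR : (Bb : ℝ) + 1 ≤ 3 * ℓ := by
    have h1 : (Bb : ℝ) * (1 / 2) ≤ (Bb : ℝ) * Real.log 2 := by
      apply mul_le_mul_of_nonneg_left _ (Nat.cast_nonneg Bb)
      linarith
    linarith
  have hb6 : 6 * X ≤ 2 ^ (3 * b) := by
    rw [h2e, h6X]
    apply Real.exp_le_exp.2
    push_cast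
    linarith
  have hB6 : 6 * X ≤ 2 ^ Bb := by
    rw [h2e, h6X]
    exact Real.exp_le_exp.2 hB0
  have hb8 : (2 : ℝ) ^ b ≤ X ^ ((5 : ℝ) / 12) := by
    rw [h2e, Real.rpow_def_of_pos hXpos, ← hℓ]
    apply Real.exp_le_exp.2
    linarith
  have hcard := SI.boxes_card_le b Bb (3 * ℓ) hbR hBR
  have hp1 : ℓ ^ (-K) ≤ 1 := Real.rpow_le_one_of_one_le_of_nonpos (by linarith) (by linarith)
  have hp0 : 0 < ℓ ^ (-K) := Real.rpow_pos_of_pos hℓpos _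
  have hHX : (H : ℝ) ≤ X := by
    refine hH2.trans ?_
    exact mul_le_of_le_one_right hXpos.le hp1
  have hH1X : ((⌊X * ℓ ^ (-K)⌋₊ : ℕ) : ℝ) ≤ X := by
    refine (Nat.floor_le (by positivity)).trans ?_
    exact mul_le_of_le_one_right hXpos.le hp1
  have hwin : ∀ x ∈ Ioc ⌊X⌋₊ ⌊2 * X⌋₊, (x : ℝ) + H ≤ 6 * X ∧
      (x : ℝ) + (⌊X * ℓ ^ (-K)⌋₊ : ℕ) ≤ 6 * X := by
    intro x hx
    rw [mem_Ioc] at hx
    have h1 : (x : ℝ) ≤ 2 * X :=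
      le_trans (by exact_mod_cast hx.2) (Nat.floor_le (by linarith : 0 ≤ 2 * X))
    constructor <;> linarith
  have hbox : ∀ e ∈ SI.boxes b Bb, ∑ x ∈ Ioc ⌊X⌋₊ ⌊2 * X⌋₊,
      ‖dw (fun n => SI.bf χ e n) H ⌊X * ℓ ^ (-K)⌋₊ x‖ ^ 2 ≤ X * ℓ ^ (-(A + 14)) := by
    intro e he
    by_cases hall : ∀ i, (2 : ℝ) ^ (e i) ≤ X ^ ((5 : ℝ) / 12)
    · exact hbx e hall H hH1 hH2
    · push Not at hall
      obtain ⟨i, hi⟩ := hall
      refine hti e ⟨i, ?_, hi⟩ H hH1 hH2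
      by_contra hi3
      push Not at hi3
      have h1 := (Fintype.mem_piFinset.1 he) i
      rw [if_pos hi3, mem_range] at h1
      have h2 : (2 : ℝ) ^ (e i) ≤ 2 ^ b := pow_le_pow_right₀ (by norm_num) (by omega)
      linarith
  have hmain := dw_boxes χ X b Bb H ⌊X * ℓ ^ (-K)⌋₊ _ hb6 hB6 hwin _ hbox
  refine le_trans hmain ?_
  have hcard0 : (0 : ℝ) ≤ ((SI.boxes b Bb).card : ℝ) := Nat.cast_nonneg _
  have hp14 : 0 < ℓ ^ (-(A + 14)) := Real.rpow_pos_of_pos hℓpos _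
  calc 49 * ((SI.boxes b Bb).card : ℝ) ^ 2 * (X * ℓ ^ (-(A + 14)))
      ≤ 49 * ((3 * ℓ) ^ 6) ^ 2 * (X * ℓ ^ (-(A + 14))) := by gcongr
    _ = X * (L0 * (ℓ ^ (12 : ℕ) * ℓ ^ (-(A + 14)))) := by rw [hL0]; ring
    _ ≤ X * (ℓ * (ℓ ^ (12 : ℕ) * ℓ ^ (-(A + 14)))) := by gcongr
    _ ≤ X * (ℓ * (ℓ * (ℓ ^ (12 : ℕ) * ℓ ^ (-(A + 14))))) := by
        have h3 : 0 ≤ ℓ * (ℓ ^ (12 : ℕ) * ℓ ^ (-(A + 14))) := by positivity
        apply mul_le_mul_of_nonneg_left _ hXpos.le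
        exact mul_le_mul_of_nonneg_left (le_mul_of_one_le_left (by positivity) (by linarith))
          hℓpos.le
    _ = X * ℓ ^ (-A) := by
        have e1 : ℓ * (ℓ * (ℓ ^ (12 : ℕ) * ℓ ^ (-(A + 14)))) = ℓ ^ (-A) := by
          have e2 : ℓ * (ℓ * (ℓ ^ (12 : ℕ) * ℓ ^ (-(A + 14)))) = ℓ ^ (14 : ℕ) * ℓ ^ (-(A + 14)) := by
            ring
          rw [e2, ← Real.rpow_natCast, ← Real.rpow_add hℓpos]
          congr 1
          push_cast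
          ring
        rw [e1]

end Pool.Agent.H43.HX
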