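import Pool.Agent.H43.HX.Kr

/-!
# [H43 HX HM6] Halasz-Montgomery on a measurable set

PROOF. As `TP/Hm.lean` (same duality argument) with `kr` in place of `TP.ker`. `F(t) = Σ_{n<=N} a_n n^(-it)`, `I = ∫_E |F|^2`,
`I <= (Σ|a_n|^2)^(1/2) (∫_E |F(t)|^2 (∫_E |K(t-s)| ds) dt)^(1/2)`, `K(v) = Σ_{n<=N} n^(-iv)`. For `s, t ∈ E ⊆ [t0-T, t0+T]`: `|t-s| <= 2T`, so
`∫_E |K(t-s)| ds <= C (N ∫_{-2T}^{2T} dv/(1+|v|) + |E| √(2T) (1+log N)) <= C' (N(1+log T) + |E| √T (1+log N))`.
-/

namespace Pool.Agent.H43.HX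

open Finset MeasureTheory ComplexConjugate

private noncomputable def hmE (n : ℕ) (t : ℝ) : ℂ :=
  Complex.exp (((-(t * Real.log n) : ℝ) : ℂ) * Complex.I)

private theorem hmE_eq {n : ℕ} (hn : 1 ≤ n) (t : ℝ) :
    (n : ℂ) ^ (-((t : ℂ) * Complex.I)) = hmE n t := by
  have h0 : (n : ℂ) ≠ 0 := by exact_mod_cast (by omega : n ≠ 0)
  rw [hmE, Complex.cpow_def_of_ne_zero h0, ← Complex.natCast_log]
  congr 1
  push_cast
  ring

private theorem hmE_norm (n : ℕ) (t : ℝ) : ‖hmE n t‖ = 1 := by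
  rw [hmE, Complex.norm_exp_ofReal_mul_I]

private theorem hmE_mul (n : ℕ) (t s : ℝ) : hmE n t * conj (hmE n s) = hmE n (t - s) := by
  rw [hmE, hmE, hmE, ← Complex.exp_conj, ← Complex.exp_add]
  congr 1
  rw [map_mul, Complex.conj_ofReal, Complex.conj_I]
  push_cast
  ring

private theorem hmE_neg (n : ℕ) (t : ℝ) : hmE n (-t) = conj (hmE n t) := by
  rw [hmE, hmE, ← Complex.exp_conj]
  congr 1
  rw [map_mul, Complex.conj_ofReal, Complex.conj_I]
  push_cast
  ring

private theorem hmE_cont (n : ℕ) : Continuous (hmE n) := by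
  unfold hmE
  fun_prop

private noncomputable def hmF (N : ℕ) (a : ℕ → ℂ) (t : ℝ) : ℂ := ∑ n ∈ Icc 1 N, a n * hmE n t

private noncomputable def hmK (N : ℕ) (t : ℝ) : ℂ := ∑ n ∈ Icc 1 N, hmE n t

private theorem hmF_cont (N : ℕ) (a : ℕ → ℂ) : Continuous (hmF N a) := by
  unfold hmF
  exact continuous_finsetSum _ fun n _ => continuous_const.mul (hmE_cont n)

private theorem hmK_cont (N : ℕ) : Continuous (hmK N) := by
  unfold hmK
  exact continuous_finsetSum _ fun n _ => hmE_cont n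

private theorem hmF_norm (N : ℕ) (a : ℕ → ℂ) (t : ℝ) : ‖hmF N a t‖ ≤ ∑ n ∈ Icc 1 N, ‖a n‖ := by
  unfold hmF
  refine (norm_sum_le _ _).trans (Finset.sum_le_sum fun n _ => ?_)
  rw [norm_mul, hmE_norm, mul_one]

private theorem hmK_norm (N : ℕ) (t : ℝ) : ‖hmK N t‖ ≤ N := by
  unfold hmK
  refine (norm_sum_le _ _).trans ?_
  simp [hmE_norm]

private theorem hmK_neg (N : ℕ) (t : ℝ) : ‖hmK N (-t)‖ = ‖hmK N t‖ := by
  have : hmK N (-t) = conj (hmK N t) := by
    unfold hmK
    rw [map_sum]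
    exact Finset.sum_congr rfl fun n _ => hmE_neg n t
  rw [this, Complex.norm_conj]

private theorem hm_core (N : ℕ) (a : ℕ → ℂ) (E : Set ℝ) (hE : MeasurableSet E)
    (hfin : volume E ≠ ⊤) (Z : ℝ) (hZ0 : 0 ≤ Z) (hZ : ∀ t ∈ E, ∫ s in E, ‖hmK N (t - s)‖ ≤ Z) :
    ∫ t in E, ‖hmF N a t‖ ^ 2 ≤ Z * ∑ n ∈ Icc 1 N, ‖a n‖ ^ 2 := by
  set ν : Measure ℝ := volume.restrict E with hν
  have : IsFiniteMeasure ν := ⟨by rw [hν, Measure.restrict_apply_univ]; exact hfin.lt_top⟩
  set M : ℝ := ∑ n ∈ Icc 1 N, ‖a n‖ with hM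
  have hM0 : 0 ≤ M := Finset.sum_nonneg fun n _ => norm_nonneg _
  have hFc := hmF_cont N a
  have hKc := hmK_cont N
  set I : ℝ := ∫ t, ‖hmF N a t‖ ^ 2 ∂ν with hI
  have hI0 : 0 ≤ I := integral_nonneg fun t => by positivity
  -- the coefficients
  set b : ℕ → ℂ := fun n => ∫ t, hmE n t * conj (hmF N a t) ∂ν with hb
  have hint1 : ∀ n, Integrable (fun t => hmE n t * conj (hmF N a t)) ν := by
    intro n
    refine Integrable.of_bound (C := M) ?_ ?_
    · exact ((hmE_cont n).mul (Complex.continuous_conj.comp hFc)).aestronglyMeasurable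
    · refine Filter.Eventually.of_forall fun t => ?_
      rw [norm_mul, hmE_norm, one_mul, Complex.norm_conj]
      exact hmF_norm N a t
  have h1 : (I : ℂ) = ∑ n ∈ Icc 1 N, a n * b n := by
    have e1 : ∑ n ∈ Icc 1 N, a n * b n
        = ∫ t, ∑ n ∈ Icc 1 N, a n * (hmE n t * conj (hmF N a t)) ∂ν := by
      rw [integral_finsetSum _ fun n _ => (hint1 n).const_mul (a n)]
      refine Finset.sum_congr rfl fun n _ => ?_
      rw [integral_const_mul]
    rw [e1, hI, ← integral_complex_ofReal]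
    refine integral_congr_ae (Filter.Eventually.of_forall fun t => ?_)
    simp only
    have e2 : ∑ n ∈ Icc 1 N, a n * (hmE n t * conj (hmF N a t)) = hmF N a t * conj (hmF N a t) := by
      rw [hmF, Finset.sum_mul]
      exact Finset.sum_congr rfl fun n _ => by ring
    rw [e2, Complex.mul_conj, Complex.normSq_eq_norm_sq]
  have h2 : I ^ 2 ≤ (∑ n ∈ Icc 1 N, ‖a n‖ ^ 2) * ∑ n ∈ Icc 1 N, ‖b n‖ ^ 2 := by
    have e1 : I ≤ ∑ n ∈ Icc 1 N, ‖a n‖ * ‖b n‖ := by
      have : ‖(I : ℂ)‖ ≤ ∑ n ∈ Icc 1 N, ‖a n‖ * ‖b n‖ := by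
        rw [h1]
        refine (norm_sum_le _ _).trans (le_of_eq ?_)
        exact Finset.sum_congr rfl fun n _ => norm_mul _ _
      rwa [Complex.norm_real, Real.norm_of_nonneg hI0] at this
    calc I ^ 2 ≤ (∑ n ∈ Icc 1 N, ‖a n‖ * ‖b n‖) ^ 2 := pow_le_pow_left₀ hI0 e1 2
      _ ≤ _ := Finset.sum_mul_sq_le_sq_mul_sq _ _ _
  -- the double integral
  have h3 : ((∑ n ∈ Icc 1 N, ‖b n‖ ^ 2 : ℝ) : ℂ)
      = ∫ z, conj (hmF N a z.1) * hmF N a z.2 * hmK N (z.1 - z.2) ∂(ν.prod ν) := by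
    have e1 : ∀ n, ((‖b n‖ ^ 2 : ℝ) : ℂ)
        = ∫ z, (hmE n z.1 * conj (hmF N a z.1)) * conj (hmE n z.2 * conj (hmF N a z.2))
          ∂(ν.prod ν) := by
      intro n
      rw [integral_prod_mul (f := fun t => hmE n t * conj (hmF N a t))
        (g := fun t => conj (hmE n t * conj (hmF N a t))), integral_conj]
      rw [Complex.mul_conj, Complex.normSq_eq_norm_sq]
    have e2 : ∀ n ∈ Icc 1 N, Integrable (fun z : ℝ × ℝ => (hmE n z.1 * conj (hmF N a z.1)) *
        conj (hmE n z.2 * conj (hmF N a z.2))) (ν.prod ν) := by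
      intro n _
      refine Integrable.of_bound (C := M * M) ?_ ?_
      · refine Continuous.aestronglyMeasurable ?_
        have c1 := hmE_cont n
        have c2 := Complex.continuous_conj
        fun_prop
      · refine Filter.Eventually.of_forall fun z => ?_
        rw [norm_mul, norm_mul, Complex.norm_conj, Complex.norm_conj, norm_mul, Complex.norm_conj,
          hmE_norm, hmE_norm, one_mul, one_mul]
        exact mul_le_mul (hmF_norm N a _) (hmF_norm N a _) (norm_nonneg _) hM0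
    rw [Complex.ofReal_sum, Finset.sum_congr rfl fun n _ => e1 n, ← integral_finsetSum _ e2]
    refine integral_congr_ae (Filter.Eventually.of_forall fun z => ?_)
    simp only
    rw [hmK, Finset.mul_sum]
    refine Finset.sum_congr rfl fun n _ => ?_
    rw [← hmE_mul, map_mul, Complex.conj_conj]
    ring
  have hKcc : Continuous fun z : ℝ × ℝ => hmK N (z.1 - z.2) :=
    hKc.comp (continuous_fst.sub continuous_snd)
  have hintA : Integrable (fun z : ℝ × ℝ => ‖hmF N a z.1‖ ^ 2 * ‖hmK N (z.1 - z.2)‖)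
      (ν.prod ν) := by
    refine Integrable.of_bound (C := M ^ 2 * N) ?_ ?_
    · exact (((hFc.comp continuous_fst).norm.pow 2).mul hKcc.norm).aestronglyMeasurable
    · refine Filter.Eventually.of_forall fun z => ?_
      rw [Real.norm_of_nonneg (by positivity)]
      exact mul_le_mul (pow_le_pow_left₀ (norm_nonneg _) (hmF_norm N a _) 2) (hmK_norm N _)
        (norm_nonneg _) (by positivity)
  have hintB : Integrable (fun z : ℝ × ℝ => ‖hmF N a z.2‖ ^ 2 * ‖hmK N (z.2 - z.1)‖)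
      (ν.prod ν) := hintA.swap
  have hAB : ∫ z, ‖hmF N a z.2‖ ^ 2 * ‖hmK N (z.2 - z.1)‖ ∂(ν.prod ν)
      = ∫ z, ‖hmF N a z.1‖ ^ 2 * ‖hmK N (z.1 - z.2)‖ ∂(ν.prod ν) :=
    integral_prod_swap (fun z : ℝ × ℝ => ‖hmF N a z.1‖ ^ 2 * ‖hmK N (z.1 - z.2)‖)
  have hA : ∫ z, ‖hmF N a z.1‖ ^ 2 * ‖hmK N (z.1 - z.2)‖ ∂(ν.prod ν) ≤ Z * I := by
    rw [integral_prod _ hintA, hI, ← integral_const_mul]
    refine integral_mono_ae hintA.integral_prod_left ?_ ?_
    · refine Integrable.const_mul ?_ _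
      refine Integrable.of_bound (C := M ^ 2) (hFc.norm.pow 2).aestronglyMeasurable ?_
      refine Filter.Eventually.of_forall fun t => ?_
      rw [Real.norm_of_nonneg (by positivity)]
      exact pow_le_pow_left₀ (norm_nonneg _) (hmF_norm N a _) 2
    · rw [hν]
      refine (ae_restrict_iff' hE).mpr (Filter.Eventually.of_forall fun t ht => ?_)
      simp only
      rw [integral_const_mul, mul_comm Z]
      exact mul_le_mul_of_nonneg_left (hZ t ht) (by positivity)
  have h4 : ∑ n ∈ Icc 1 N, ‖b n‖ ^ 2 ≤ Z * I := by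
    have e0 : 0 ≤ ∑ n ∈ Icc 1 N, ‖b n‖ ^ 2 := Finset.sum_nonneg fun n _ => by positivity
    have e1 : ∑ n ∈ Icc 1 N, ‖b n‖ ^ 2
        ≤ ∫ z, ‖conj (hmF N a z.1) * hmF N a z.2 * hmK N (z.1 - z.2)‖ ∂(ν.prod ν) := by
      rw [← Real.norm_of_nonneg e0, ← Complex.norm_real, h3]
      exact norm_integral_le_integral_norm _
    refine e1.trans ?_
    have e2 : ∫ z, ‖conj (hmF N a z.1) * hmF N a z.2 * hmK N (z.1 - z.2)‖ ∂(ν.prod ν)
        ≤ ∫ z, (1 / 2 * (‖hmF N a z.1‖ ^ 2 * ‖hmK N (z.1 - z.2)‖)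
          + 1 / 2 * (‖hmF N a z.2‖ ^ 2 * ‖hmK N (z.2 - z.1)‖)) ∂(ν.prod ν) := by
      refine integral_mono_of_nonneg (Filter.Eventually.of_forall fun z => norm_nonneg _)
        ((hintA.const_mul _).add (hintB.const_mul _)) (Filter.Eventually.of_forall fun z => ?_)
      simp only
      rw [norm_mul, norm_mul, Complex.norm_conj]
      have e3 : ‖hmK N (z.2 - z.1)‖ = ‖hmK N (z.1 - z.2)‖ := by
        rw [← hmK_neg, neg_sub]
      rw [e3]
      have e4 := two_mul_le_add_sq ‖hmF N a z.1‖ ‖hmF N a z.2‖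
      have e5 := norm_nonneg (hmK N (z.1 - z.2))
      nlinarith
    refine e2.trans ?_
    rw [integral_add (hintA.const_mul _) (hintB.const_mul _), integral_const_mul,
      integral_const_mul, hAB]
    linarith
  have hS0 : 0 ≤ ∑ n ∈ Icc 1 N, ‖a n‖ ^ 2 := Finset.sum_nonneg fun n _ => by positivity
  have h5 : I ^ 2 ≤ (∑ n ∈ Icc 1 N, ‖a n‖ ^ 2) * (Z * I) :=
    h2.trans (mul_le_mul_of_nonneg_left h4 hS0)
  rcases hI0.eq_or_lt with h | h
  · rw [← h]
    positivity
  · have h6 : I * I ≤ (Z * ∑ n ∈ Icc 1 N, ‖a n‖ ^ 2) * I := by nlinarith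
    exact le_of_mul_le_mul_right h6 h

private theorem hm_log (T t0 t : ℝ) (hT : 1 ≤ T) (ht : t ∈ Set.Icc (t0 - T) (t0 + T)) :
    ∫ s in (t0 - T)..(t0 + T), 1 / (1 + |t - s|) ≤ 4 * (1 + Real.log T) := by
  have h1 : ∫ s in (t0 - T)..(t0 + T), 1 / (1 + |t - s|) =
      ∫ v in (t - (t0 + T))..(t - (t0 - T)), 1 / (1 + |v|) := by
    rw [intervalIntegral.integral_comp_sub_left (fun v => 1 / (1 + |v|)) t]
  have hc : Continuous fun v : ℝ => 1 / (1 + |v|) := by
    refine continuous_const.div (continuous_const.add continuous_abs) fun v => ?_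
    positivity
  have h2 : ∫ v in (t - (t0 + T))..(t - (t0 - T)), 1 / (1 + |v|) ≤
      ∫ v in (-(2 * T))..(2 * T), 1 / (1 + |v|) := by
    refine intervalIntegral.integral_mono_interval (by linarith [ht.1]) (by linarith)
      (by linarith [ht.2]) ?_ (hc.intervalIntegrable _ _)
    exact Filter.Eventually.of_forall fun v => by positivity
  have h3 : ∫ v in (0 : ℝ)..(2 * T), 1 / (1 + |v|) = Real.log (1 + 2 * T) := by
    have e1 : ∫ v in (0 : ℝ)..(2 * T), 1 / (1 + |v|) = ∫ v in (0 : ℝ)..(2 * T), 1 / (1 + v) := by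
      refine intervalIntegral.integral_congr fun v hv => ?_
      rw [Set.uIcc_of_le (by linarith)] at hv
      have := abs_of_nonneg hv.1
      simp [this]
    rw [e1, intervalIntegral.integral_comp_add_left (fun x => 1 / x) 1]
    rw [integral_one_div_of_pos (by linarith) (by linarith)]
    simp
  have h4 : ∫ v in (-(2 * T))..(0 : ℝ), 1 / (1 + |v|) = Real.log (1 + 2 * T) := by
    rw [← h3]
    have := intervalIntegral.integral_comp_neg (a := 0) (b := 2 * T)
      (fun v : ℝ => 1 / (1 + |v|))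
    simp only [abs_neg, neg_zero] at this
    exact this.symm
  have h5 : ∫ v in (-(2 * T))..(2 * T), 1 / (1 + |v|) = 2 * Real.log (1 + 2 * T) := by
    rw [← intervalIntegral.integral_add_adjacent_intervals (b := 0) (hc.intervalIntegrable _ _)
      (hc.intervalIntegrable _ _), h3, h4]
    ring
  have h6 : Real.log (1 + 2 * T) ≤ 2 + Real.log T := by
    have e1 : 1 + 2 * T ≤ Real.exp 2 * T := by
      have := Real.add_one_le_exp (2 : ℝ)
      nlinarith
    calc Real.log (1 + 2 * T) ≤ Real.log (Real.exp 2 * T) :=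
          Real.log_le_log (by linarith) e1
      _ = 2 + Real.log T := by
        rw [Real.log_mul (Real.exp_pos 2).ne' (by linarith), Real.log_exp]
  have h7 := Real.log_nonneg hT
  rw [h1]
  linarith

theorem hm6 : ∃ C : ℝ, 0 < C ∧ ∀ (N : ℕ) (T t0 : ℝ) (a : ℕ → ℂ) (E : Set ℝ), 1 ≤ N → 1 ≤ T →
    MeasurableSet E → E ⊆ Set.Icc (t0 - T) (t0 + T) →
    ∫ t in E, ‖∑ n ∈ Icc 1 N, a n * (n : ℂ) ^ (-((t : ℂ) * Complex.I))‖ ^ 2 ≤
      C * (N * (1 + Real.log T) + (MeasureTheory.volume E).toReal * Real.sqrt T *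
        (1 + Real.log N)) * ∑ n ∈ Icc 1 N, ‖a n‖ ^ 2 := by
  obtain ⟨C, hC, hker⟩ := kr
  refine ⟨4 * C, by positivity, fun N T t0 a E hN hT hE hET => ?_⟩
  have hfin : volume E ≠ ⊤ := by
    refine ne_top_of_le_ne_top ?_ (measure_mono hET)
    rw [Real.volume_Icc]
    exact ENNReal.ofReal_ne_top
  have hlogN : 0 ≤ Real.log N := Real.log_nonneg (by exact_mod_cast hN)
  have hlogT : 0 ≤ Real.log T := Real.log_nonneg hT
  set L : ℝ := 1 + Real.log N with hL
  set B : ℝ := Real.sqrt T with hB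
  have hL0 : 0 ≤ L := by positivity
  have hB0 : 0 ≤ B := by positivity
  have hv0 : 0 ≤ (volume E).toReal := ENNReal.toReal_nonneg
  have hF : ∀ t : ℝ, ∑ n ∈ Icc 1 N, a n * (n : ℂ) ^ (-((t : ℂ) * Complex.I)) = hmF N a t := by
    intro t
    rw [hmF]
    refine Finset.sum_congr rfl fun n hn => ?_
    rw [hmE_eq (Finset.mem_Icc.mp hn).1]
  have hK : ∀ t : ℝ, ∑ n ∈ Icc 1 N, (n : ℂ) ^ (-((t : ℂ) * Complex.I)) = hmK N t := by
    intro t
    rw [hmK]
    refine Finset.sum_congr rfl fun n hn => ?_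
    rw [hmE_eq (Finset.mem_Icc.mp hn).1]
  simp only [hF]
  refine hm_core N a E hE hfin _ (by positivity) fun t ht => ?_
  have htT := hET ht
  have hpt : ∀ s ∈ E, ‖hmK N (t - s)‖ ≤ C * N * (1 / (1 + |t - s|)) + C * (2 * B * L) := by
    intro s hs
    have hsT := hET hs
    have e1 := hker N (t - s) hN
    rw [hK] at e1
    have e2 : |t - s| ≤ 2 * T := by
      rw [abs_le]
      constructor <;> linarith [htT.1, htT.2, hsT.1, hsT.2]
    have e3 : Real.sqrt |t - s| ≤ 2 * Real.sqrt T := by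
      calc Real.sqrt |t - s| ≤ Real.sqrt (4 * T) := Real.sqrt_le_sqrt (by linarith)
        _ = 2 * Real.sqrt T := by
          rw [Real.sqrt_mul (by norm_num), show (4 : ℝ) = 2 ^ 2 by norm_num,
            Real.sqrt_sq (by norm_num)]
    have e5 : Real.sqrt |t - s| * (1 + Real.log N) ≤ 2 * B * L :=
      mul_le_mul_of_nonneg_right e3 hL0
    calc ‖hmK N (t - s)‖ ≤ C * (N / (1 + |t - s|) +
          Real.sqrt |t - s| * (1 + Real.log N)) := e1
      _ ≤ C * (N / (1 + |t - s|) + 2 * B * L) :=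
        mul_le_mul_of_nonneg_left (by linarith) hC.le
      _ = _ := by ring
  have hc : Continuous fun s : ℝ => 1 / (1 + |t - s|) := by
    refine continuous_const.div (continuous_const.add
      ((continuous_const.sub continuous_id).abs)) fun v => ?_
    positivity
  have hci : IntegrableOn (fun s : ℝ => 1 / (1 + |t - s|)) (Set.Icc (t0 - T) (t0 + T)) :=
    hc.continuousOn.integrableOn_Icc
  have hcE : IntegrableOn (fun s : ℝ => 1 / (1 + |t - s|)) E := hci.mono_set hET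
  have hconst : IntegrableOn (fun _ : ℝ => C * (2 * B * L)) E := by
    exact integrableOn_const hfin enorm_ne_top
  have g1 : ∫ s in E, ‖hmK N (t - s)‖
      ≤ ∫ s in E, (C * N * (1 / (1 + |t - s|)) + C * (2 * B * L)) := by
    refine setIntegral_mono_on ?_ ((hcE.const_mul _).add hconst) hE hpt
    have : IntegrableOn (fun s : ℝ => ‖hmK N (t - s)‖) (Set.Icc (t0 - T) (t0 + T)) :=
      (((hmK_cont N).comp (continuous_const.sub continuous_id)).norm).continuousOn.integrableOn_Icc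
    exact this.mono_set hET
  have g2 : ∫ s in E, (C * N * (1 / (1 + |t - s|)) + C * (2 * B * L))
      = C * N * (∫ s in E, 1 / (1 + |t - s|)) + (volume E).toReal * (C * (2 * B * L)) := by
    rw [integral_add (hcE.const_mul _) hconst, integral_const_mul, setIntegral_const, smul_eq_mul]
    rfl
  have g3 : ∫ s in E, 1 / (1 + |t - s|) ≤ 4 * (1 + Real.log T) := by
    have e1 : ∫ s in E, 1 / (1 + |t - s|) ≤ ∫ s in Set.Icc (t0 - T) (t0 + T), 1 / (1 + |t - s|) := by
      refine setIntegral_mono_set hci ?_ ?_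
      · exact Filter.Eventually.of_forall fun v => by positivity
      · exact LE.le.eventuallyLE hET
    rw [integral_Icc_eq_integral_Ioc, ← intervalIntegral.integral_of_le (by linarith)] at e1
    exact e1.trans (hm_log T t0 t hT htT)
  refine g1.trans ?_
  rw [g2]
  have g4 : C * N * (∫ s in E, 1 / (1 + |t - s|)) ≤ C * N * (4 * (1 + Real.log T)) :=
    mul_le_mul_of_nonneg_left g3 (by positivity)
  have g5 : 0 ≤ C * ((volume E).toReal * B * L) := by positivity
  calc C * N * (∫ s in E, 1 / (1 + |t - s|)) + (volume E).toReal * (C * (2 * B * L))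
      ≤ C * N * (4 * (1 + Real.log T)) + (volume E).toReal * (C * (2 * B * L)) := by linarith
    _ ≤ 4 * C * (N * (1 + Real.log T) + (volume E).toReal * B * L) := by nlinarith

end Pool.Agent.H43.HX
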