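import Pool.Agent.H43.LF.Vdx
import Pool.Agent.H43.HX.Defs

/-!
# [H43 HX KR] The kernel `Σ_{n<=N} n^(-iv)`

PROOF. For `|v| < 1`: trivially `<= N <= 2N/(1+|v|)`. Let `|v| >= 1`, by conjugation `v > 0`. Dyadic intervals `(K, K'] ⊆ [1,N]`,
`K' <= 2K` (e.g. `(2^j, 2^(j+1)] ∩ [1,N]`, and `n = 1`). The phase of `n^(-iv)` is `2π θ(n)`, `θ(n) = -(v/2π) log n`,
`θ(n) - θ(n+1) ∈ [v/(2π(n+1)), v/(2πn)]`, decreasing in `n`.
(a) `v <= K`: `|θ(n+1)-θ(n)| ∈ [v/(6πK), 1/(2π)]`, Kusmin-Landau (`LF.vd_minus` with `m = 0`, or `H19.Wa.kusmin` after reversing the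
order of summation): `<= 12πK/v <= 80 K/(1+v)`. (b) `v > K`: second derivative test, `LF.vdx_cls` with `q = 1`, `a = 0` (or as in `LF/Vdx.lean`):
`<= 6400 (√v + K/√v) <= 12800 √v`. Sum over the dyadic intervals: `Σ_K K/(1+v) <= 2N/(1+v)`, and at most `1 + 2 log N` terms `√v`.
-/

namespace Pool.Agent.H43.HX

open Finset

theorem kr_block (M N : ℕ) (v : ℝ) (hv : 1 ≤ v) (hM : 1 ≤ M) (hMN : M ≤ N) (hN : N ≤ 2 * M) :
    ‖∑ n ∈ Ioc M N, Complex.exp (-(v * Real.log (n : ℝ) : ℝ) * Complex.I)‖ ≤
      80 * (M / (1 + v)) + 12800 * Real.sqrt v := by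
  have hM0 : (0 : ℝ) < M := by exact_mod_cast hM
  have hv0 : 0 < v := by linarith
  have hsv : 0 < Real.sqrt v := Real.sqrt_pos.mpr hv0
  have hpi : 0 < Real.pi := Real.pi_pos
  rcases le_or_gt v M with hvM | hvM
  · -- Kusmin-Landau
    set θ : ℕ → ℝ := fun n => -(v / (2 * Real.pi)) * Real.log (n : ℝ) with hθ
    have hvp : 0 < v / (2 * Real.pi) := by positivity
    have hd : ∀ n : ℕ, 1 ≤ n → v / (2 * Real.pi) * (1 / ((n : ℝ) + 1)) ≤ θ n - θ (n + 1) ∧
        θ n - θ (n + 1) ≤ v / (2 * Real.pi) * (1 / (n : ℝ)) := by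
      intro n hn
      have hn0 : (0 : ℝ) < n := by exact_mod_cast hn
      have e1 : θ n - θ (n + 1) = v / (2 * Real.pi) * Real.log (1 + 1 / (n : ℝ)) := by
        simp only [hθ]
        push_cast
        have : (1 + 1 / (n : ℝ)) = ((n : ℝ) + 1) / n := by field_simp
        rw [this, Real.log_div (by positivity) (by positivity)]
        ring
      rw [e1]
      constructor
      · refine mul_le_mul_of_nonneg_left ?_ hvp.le
        have h2 := Real.one_sub_inv_le_log_of_pos (show 0 < 1 + 1 / (n : ℝ) by positivity)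
        refine le_trans (le_of_eq ?_) h2
        field_simp
        ring
      · refine mul_le_mul_of_nonneg_left ?_ hvp.le
        have h2 := Real.log_le_sub_one_of_pos (show 0 < 1 + 1 / (n : ℝ) by positivity)
        linarith
    set δ : ℝ := v / (6 * Real.pi * M) with hδ
    have hδ0 : 0 < δ := by positivity
    have hδ2 : δ ≤ 1 / 2 := by
      rw [hδ, div_le_div_iff₀ (by positivity) (by norm_num)]
      have h3 := Real.pi_gt_three
      nlinarith
    have hmain := LF.vd_minus (Ioc M N) (by
        intro x hx y hy z h1 h2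
        rw [mem_Ioc] at hx hy ⊢
        omega) θ 0 δ hδ0 hδ2
      (by
        intro n hn _
        rw [mem_Ioc] at hn
        have hn0 : (0 : ℝ) < n := by
          have : 0 < n := by omega
          exact_mod_cast this
        simp only [hθ]
        push_cast
        have h1 : Real.log (n : ℝ) + Real.log ((n : ℝ) + 2) ≤ 2 * Real.log ((n : ℝ) + 1) := by
          rw [← Real.log_mul (by positivity) (by positivity)]
          have : 2 * Real.log ((n : ℝ) + 1) = Real.log (((n : ℝ) + 1) ^ 2) := by
            rw [Real.log_pow]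
            push_cast
            ring
          rw [this]
          exact Real.log_le_log (by positivity) (by nlinarith)
        nlinarith)
      (by
        intro n hn
        rw [mem_Ioc] at hn
        have h1 := (hd n (by omega)).2
        have hn0 : (M : ℝ) ≤ n := by exact_mod_cast hn.1.le
        have hn1 : (0 : ℝ) < n := by linarith
        have h2 : v / (2 * Real.pi) * (1 / (n : ℝ)) ≤ 1 / 2 := by
          rw [div_mul_div_comm, mul_one, div_le_div_iff₀ (by positivity) (by norm_num)]
          have h3 := Real.pi_gt_three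
          nlinarith
        push_cast
        linarith)
      (by
        intro n hn
        rw [mem_Ioc] at hn
        have h1 := (hd n (by omega)).1
        have hn0 : (n : ℝ) ≤ 2 * M := by
          have : n ≤ 2 * M := by omega
          exact_mod_cast this
        have hM1 : (1 : ℝ) ≤ M := by exact_mod_cast hM
        have hn1 : (0 : ℝ) ≤ n := Nat.cast_nonneg n
        have h2 : δ ≤ v / (2 * Real.pi) * (1 / ((n : ℝ) + 1)) := by
          rw [hδ, div_mul_div_comm, mul_one]
          apply div_le_div_of_nonneg_left hv0.le (by positivity)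
          nlinarith
        push_cast
        linarith)
    have e1 : ∑ n ∈ Ioc M N, Complex.exp (-(v * Real.log (n : ℝ) : ℝ) * Complex.I) =
        ∑ n ∈ Ioc M N, Pool.H19.Wa.e (θ n) := by
      refine Finset.sum_congr rfl fun n _ => ?_
      unfold Pool.H19.Wa.e
      congr 1
      congr 1
      have h1 : 2 * Real.pi * θ n = -(v * Real.log (n : ℝ)) := by
        simp only [hθ]
        field_simp
      have h2 : ((2 * Real.pi * θ n : ℝ) : ℂ) = 2 * (Real.pi : ℂ) * (θ n : ℂ) := by push_cast; ring
      rw [← h2, h1]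
      push_cast
      ring
    rw [e1]
    refine hmain.trans ?_
    have h2 : 2 / δ ≤ 80 * (M / (1 + v)) := by
      have h3 : 2 / δ = 12 * Real.pi * M / v := by
        rw [hδ]
        field_simp
        ring
      rw [h3, ← mul_div_assoc, div_le_div_iff₀ hv0 (by linarith)]
      have h4 := Real.pi_lt_d2
      have h5 : 12 * Real.pi * M * (1 + v) ≤ 12 * Real.pi * M * (2 * v) :=
        mul_le_mul_of_nonneg_left (by linarith) (by positivity)
      refine h5.trans ?_
      have h6 : 0 < (M : ℝ) * v := by positivity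
      nlinarith
    have : 0 ≤ 12800 * Real.sqrt v := by positivity
    linarith
  · have h1 := LF.vdx_cls 1 one_pos M N v hv hM hMN hN 0 one_pos
    simp only [Nat.sub_zero, Nat.div_one, Nat.cast_zero, Nat.cast_one, zero_div, add_zero] at h1
    refine h1.trans ?_
    have h2 : (M : ℝ) / Real.sqrt v ≤ Real.sqrt v := by
      rw [div_le_iff₀ hsv, Real.mul_self_sqrt hv0.le]
      exact hvM.le
    have h3 : 0 ≤ 80 * ((M : ℝ) / (1 + v)) := by positivity
    linarith

theorem kr_pos (v : ℝ) (hv : 1 ≤ v) (N : ℕ) (hN : 1 ≤ N) :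
    ‖∑ n ∈ Icc 1 N, Complex.exp (-(v * Real.log (n : ℝ) : ℝ) * Complex.I)‖ ≤
      240 * (N / (1 + v)) + 12801 * (Real.sqrt v * (1 + 4 * Real.log N)) := by
  have hv0 : 0 < v := by linarith
  have hsv : 1 ≤ Real.sqrt v := by
    rw [Real.one_le_sqrt]
    exact hv
  induction N using Nat.strong_induction_on with
  | _ N ih =>
    rcases Nat.lt_or_ge N 2 with h2 | h2
    · have hN1 : N = 1 := by omega
      subst hN1
      have h3 : 0 ≤ 240 * (((1 : ℕ) : ℝ) / (1 + v)) := by positivity
      rw [Icc_self, Finset.sum_singleton]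
      have h4 : ‖Complex.exp (-(v * Real.log ((1 : ℕ) : ℝ) : ℝ) * Complex.I)‖ = 1 := by
        simp
      rw [h4]
      simp only [Nat.cast_one, Real.log_one, mul_zero, add_zero, mul_one] at h3 ⊢
      linarith
    · set M := (N + 1) / 2 with hMdef
      have hM1 : 1 ≤ M := by omega
      have hMN : M < N := by omega
      have hN2 : N ≤ 2 * M := by omega
      have h34 : 4 * M ≤ 3 * N := by omega
      have h34' : (M : ℝ) ≤ 3 / 4 * N := by
        have : (4 : ℝ) * M ≤ 3 * N := by exact_mod_cast h34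
        linarith
      have hN0 : (0 : ℝ) < N := by
        have : 0 < N := by omega
        exact_mod_cast this
      have hM0 : (0 : ℝ) < M := by exact_mod_cast hM1
      have hsplit : Icc 1 N = Icc 1 M ∪ Ioc M N := by
        ext x
        simp only [mem_union, mem_Icc, mem_Ioc]
        omega
      have hdisj : Disjoint (Icc 1 M) (Ioc M N) := by
        rw [Finset.disjoint_left]
        intro x hx hy
        rw [mem_Icc] at hx
        rw [mem_Ioc] at hy
        omega
      rw [hsplit, Finset.sum_union hdisj]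
      refine (norm_add_le _ _).trans ?_
      have h5 := ih M hMN hM1
      have h6 := kr_block M N v hv hM1 hMN.le hN2
      have hlog : Real.log M ≤ Real.log N - 1 / 4 := by
        have h7 : Real.log M ≤ Real.log (3 / 4 * N) := Real.log_le_log hM0 h34'
        rw [Real.log_mul (by norm_num) hN0.ne'] at h7
        have h8 := Real.log_le_sub_one_of_pos (show (0 : ℝ) < 3 / 4 by norm_num)
        linarith
      have h9 : Real.sqrt v * (1 + 4 * Real.log M) ≤ Real.sqrt v * (4 * Real.log N) :=
        mul_le_mul_of_nonneg_left (by linarith) (by linarith)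
      have h10 : (M : ℝ) / (1 + v) ≤ 3 / 4 * (N / (1 + v)) := by
        rw [← mul_div_assoc]
        exact div_le_div_of_nonneg_right h34' (by linarith)
      nlinarith

theorem kr_exp (v : ℝ) (N : ℕ) :
    ∑ n ∈ Icc 1 N, (n : ℂ) ^ (-((v : ℂ) * Complex.I)) =
      ∑ n ∈ Icc 1 N, Complex.exp (-(v * Real.log (n : ℝ) : ℝ) * Complex.I) := by
  refine Finset.sum_congr rfl fun n hn => ?_
  rw [mem_Icc] at hn
  have hn0 : (n : ℂ) ≠ 0 := by
    have : n ≠ 0 := by omega
    exact_mod_cast this
  rw [Complex.cpow_def_of_ne_zero hn0]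
  congr 1
  rw [← Complex.natCast_log]
  push_cast
  ring

theorem kr_conj (v : ℝ) (N : ℕ) :
    ‖∑ n ∈ Icc 1 N, Complex.exp (-((-v) * Real.log (n : ℝ) : ℝ) * Complex.I)‖ =
      ‖∑ n ∈ Icc 1 N, Complex.exp (-(v * Real.log (n : ℝ) : ℝ) * Complex.I)‖ := by
  rw [← Complex.norm_conj, map_sum]
  congr 1
  refine Finset.sum_congr rfl fun n _ => ?_
  rw [← Complex.exp_conj]
  congr 1
  rw [map_mul, Complex.conj_I, map_neg, Complex.conj_ofReal]
  push_cast
  ring

theorem kr : ∃ C : ℝ, 0 < C ∧ ∀ (N : ℕ) (v : ℝ), 1 ≤ N →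
    ‖∑ n ∈ Icc 1 N, (n : ℂ) ^ (-((v : ℂ) * Complex.I))‖ ≤
      C * (N / (1 + |v|) + Real.sqrt |v| * (1 + Real.log N)) := by
  refine ⟨60000, by norm_num, ?_⟩
  intro N v hN
  have hN0 : (0 : ℝ) < N := by exact_mod_cast hN
  have hlog : 0 ≤ Real.log N := Real.log_nonneg (by exact_mod_cast hN)
  have key : ∀ w : ℝ, 0 ≤ w →
      ‖∑ n ∈ Icc 1 N, Complex.exp (-(w * Real.log (n : ℝ) : ℝ) * Complex.I)‖ ≤
      60000 * (N / (1 + w) + Real.sqrt w * (1 + Real.log N)) := by
    intro w hw
    rcases le_or_gt 1 w with h1 | h1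
    · refine (kr_pos w h1 N hN).trans ?_
      have h2 : 0 ≤ (N : ℝ) / (1 + w) := by positivity
      have h3 : 0 ≤ Real.sqrt w := Real.sqrt_nonneg w
      have h4 : 0 ≤ Real.sqrt w * Real.log N := mul_nonneg h3 hlog
      nlinarith
    · have h2 : ‖∑ n ∈ Icc 1 N, Complex.exp (-(w * Real.log (n : ℝ) : ℝ) * Complex.I)‖ ≤ N := by
        refine (norm_sum_le _ _).trans ?_
        have h3 : ∀ n ∈ Icc 1 N, ‖Complex.exp (-(w * Real.log (n : ℝ) : ℝ) * Complex.I)‖ ≤ 1 := by
          intro n _
          have := Complex.norm_exp_ofReal_mul_I (-(w * Real.log (n : ℝ)))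
          push_cast at this ⊢
          exact this.le
        refine (Finset.sum_le_card_nsmul _ _ _ h3).trans ?_
        rw [nsmul_eq_mul, mul_one, Nat.card_Icc]
        simp
      refine h2.trans ?_
      have h4 : (N : ℝ) ≤ 2 * (N / (1 + w)) := by
        rw [← mul_div_assoc, le_div_iff₀ (by linarith)]
        nlinarith
      have h5 : 0 ≤ Real.sqrt w * (1 + Real.log N) := by positivity
      have h6 : 0 ≤ (N : ℝ) / (1 + w) := by positivity
      linarith
  rw [kr_exp]
  rcases le_total 0 v with h | h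
  · rw [abs_of_nonneg h]
    exact key v h
  · rw [abs_of_nonpos h]
    have h1 := key (-v) (by linarith)
    rw [← kr_conj v] 
    exact h1

end Pool.Agent.H43.HX
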