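import Pool.Agent.H43.SI.Freq
import Pool.Agent.H43.HX.Cor

/-!
# [H43 HX LEV] The main estimate for boxes with all factors `<= X^(5/12)`

PROOF. `ℓ = log X`, `cor` with `(B, A+10, ε)` gives `A0`. `W = {ℓ^A0 <= |t| <= X^(5/6-ε)}`, `J = ⌈2ℓ⌉₊`. For `j : Fin 6 → Fin J` let
`E_j = {t ∈ W : ∀ i, (1+e_i) 2^(-j_i-1) <= |pol_i(t)| <= (1+e_i) 2^(-j_i)}` (closed in `W`, so measurable), and
`E' = {t ∈ W : ∃ i, |pol_i(t)| <= (1+e_i) 2^(-J)}`. As `|pol_i| <= 1 + e_i` (`SI.pw_triv`) these sets cover `W`, so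
`∫_W ‖bp‖^2 <= Σ_j ∫_{E_j} ‖bp‖^2 + ∫_{E'} ‖bp‖^2`. On `E_j`: `‖bp‖^2 <= ∏ ((1+e_i) 2^(-j_i))^2 = 4^6 ∏ v_i^2`, `v_i = (1+e_i) 2^(-j_i-1)`, so by `cor`
`∫_{E_j} <= 4^6 |E_j| ∏ v_i^2 <= 4^6 ℓ^(-A-10)`; there are `J^6 <= (3ℓ)^6` indices `j`. On `E'`: `‖bp‖^2 <= (3ℓ)^12 2^(-2J) <= (3ℓ)^12 X^(-2)`
(`2^(-2J) <= exp(-4ℓ log 2) <= X^(-2)`), `|W| <= 2X`. Total `<= ℓ^(-A)` for `X` large.
-/

namespace Pool.Agent.H43.HX

open Finset MeasureTheory

private theorem lev_dy (c x : ℝ) : ∀ J : ℕ, c * (1 / 2) ^ J < x → x ≤ c →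
    ∃ j : ℕ, j < J ∧ c * (1 / 2) ^ (j + 1) ≤ x ∧ x ≤ c * (1 / 2) ^ j := by
  intro J
  induction J with
  | zero =>
    intro h1 h2
    rw [pow_zero, mul_one] at h1
    linarith
  | succ J ih =>
    intro h1 h2
    by_cases h3 : c * (1 / 2) ^ J < x
    · obtain ⟨j, hj, h4, h5⟩ := ih h3 h2
      exact ⟨j, by omega, h4, h5⟩
    · exact ⟨J, by omega, h1.le, not_lt.1 h3⟩

private theorem lev_abs (P : Fin 6 → ℝ → ℝ) (hP : ∀ i, Continuous (P i))
    (hP0 : ∀ i t, 0 ≤ P i t) (c : Fin 6 → ℝ) (hc : ∀ i, 0 < c i) (hPc : ∀ i t, P i t ≤ c i)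
    (W : Set ℝ) (hW : MeasurableSet W) (hWf : volume W ≠ ⊤) (K : ℝ)
    (hK : ∀ (v : Fin 6 → ℝ) (E : Set ℝ), MeasurableSet E → E ⊆ W → (∀ i, 0 < v i) →
      (∀ t ∈ E, ∀ i, v i ≤ P i t) → (volume E).toReal * ∏ i, (v i) ^ 2 ≤ K) (J : ℕ) :
    ∫ t in W, (∏ i, P i t) ^ 2 ≤ (J : ℝ) ^ 6 * (4 ^ 6 * K) +
      (∏ i, c i) ^ 2 * (1 / 4) ^ J * (volume W).toReal := by
  classical
  obtain ⟨v, hv⟩ : ∃ v : (Fin 6 → Fin J) → Fin 6 → ℝ,
      v = fun j i => c i * (1 / 2) ^ ((j i : ℕ) + 1) := ⟨_, rfl⟩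
  have hv0 : ∀ j i, 0 < v j i := by
    intro j i
    rw [hv]
    have := hc i
    positivity
  obtain ⟨E, hE⟩ : ∃ E : (Fin 6 → Fin J) → Set ℝ,
      E = fun j => W ∩ {t : ℝ | ∀ i, v j i ≤ P i t} := ⟨_, rfl⟩
  have hEm : ∀ j, MeasurableSet (E j) := by
    intro j
    rw [hE]
    refine hW.inter ?_
    have h1 : {t : ℝ | ∀ i, v j i ≤ P i t} = ⋂ i, {t : ℝ | v j i ≤ P i t} := by
      ext t
      simp
    rw [h1]
    exact MeasurableSet.iInter fun i => (isClosed_le continuous_const (hP i)).measurableSet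
  have hEW : ∀ j, E j ⊆ W := by
    intro j
    rw [hE]
    exact Set.inter_subset_left
  obtain ⟨k, hk⟩ : ∃ k : (Fin 6 → Fin J) → ℝ, k = fun j => 4 ^ 6 * ∏ i, (v j i) ^ 2 := ⟨_, rfl⟩
  have hk0 : ∀ j, 0 ≤ k j := by
    intro j
    rw [hk]
    exact mul_nonneg (by positivity) (prod_nonneg fun i _ => sq_nonneg _)
  have hD0 : 0 ≤ (∏ i, c i) ^ 2 * (1 / 4 : ℝ) ^ J := by positivity
  have hpt : ∀ t ∈ W, (∏ i, P i t) ^ 2 ≤
      ∑ j, (E j).indicator (fun _ => k j) t + (∏ i, c i) ^ 2 * (1 / 4) ^ J := by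
    intro t ht
    by_cases h : ∃ i, P i t ≤ c i * (1 / 2) ^ J
    · obtain ⟨i, hi⟩ := h
      have h1 : ∏ i, P i t ≤ (∏ i, c i) * (1 / 2) ^ J := by
        rw [← mul_prod_erase univ (fun i => P i t) (mem_univ i),
          ← mul_prod_erase univ c (mem_univ i)]
        have h2 : ∏ x ∈ univ.erase i, P x t ≤ ∏ x ∈ univ.erase i, c x :=
          prod_le_prod (fun x _ => hP0 x t) (fun x _ => hPc x t)
        calc P i t * ∏ x ∈ univ.erase i, P x t
            ≤ (c i * (1 / 2) ^ J) * ∏ x ∈ univ.erase i, c x :=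
              mul_le_mul hi h2 (prod_nonneg fun x _ => hP0 x t) (by have := hc i; positivity)
          _ = c i * (∏ x ∈ univ.erase i, c x) * (1 / 2) ^ J := by ring
      have h3 : (∏ i, P i t) ^ 2 ≤ ((∏ i, c i) * (1 / 2) ^ J) ^ 2 :=
        pow_le_pow_left₀ (prod_nonneg fun x _ => hP0 x t) h1 2
      have h4 : ((∏ i, c i) * (1 / 2 : ℝ) ^ J) ^ 2 = (∏ i, c i) ^ 2 * (1 / 4) ^ J := by
        rw [mul_pow, ← pow_mul, mul_comm J 2, pow_mul]
        norm_num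
      have h5 : 0 ≤ ∑ j, (E j).indicator (fun _ => k j) t :=
        sum_nonneg fun j _ => Set.indicator_nonneg (fun _ _ => hk0 j) t
      linarith
    · push Not at h
      have h1 : ∀ i, ∃ j : ℕ, j < J ∧ c i * (1 / 2) ^ (j + 1) ≤ P i t ∧
          P i t ≤ c i * (1 / 2) ^ j := fun i => lev_dy (c i) (P i t) J (h i) (hPc i t)
      choose g hg1 hg2 hg3 using h1
      obtain ⟨j, hj⟩ : ∃ j : Fin 6 → Fin J, j = fun i => ⟨g i, hg1 i⟩ := ⟨_, rfl⟩
      have h2 : t ∈ E j := by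
        rw [hE]
        refine ⟨ht, fun i => ?_⟩
        rw [hv, hj]
        exact hg2 i
      have h3 : (∏ i, P i t) ^ 2 ≤ k j := by
        rw [hk, ← prod_pow]
        have h4 : (4 : ℝ) ^ 6 * ∏ i, (v j i) ^ 2 = ∏ i, (2 * v j i) ^ 2 := by
          simp only [mul_pow, prod_mul_distrib, prod_const, card_univ, Fintype.card_fin]
          norm_num
        change ∏ i, P i t ^ 2 ≤ 4 ^ 6 * ∏ i, (v j i) ^ 2
        rw [h4]
        refine prod_le_prod (fun i _ => sq_nonneg _) fun i _ => ?_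
        refine pow_le_pow_left₀ (hP0 i t) ?_ 2
        rw [hv, hj]
        have h5 := hg3 i
        have h6 : 2 * (c i * (1 / 2 : ℝ) ^ (g i + 1)) = c i * (1 / 2) ^ g i := by
          rw [pow_succ]
          ring
        change P i t ≤ 2 * (c i * (1 / 2 : ℝ) ^ (g i + 1))
        rw [h6]
        exact h5
      have h7 : k j ≤ ∑ j, (E j).indicator (fun _ => k j) t := by
        have h8 := single_le_sum (f := fun j => (E j).indicator (fun _ => k j) t)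
          (fun j _ => Set.indicator_nonneg (fun _ _ => hk0 j) t) (mem_univ j)
        have h9 : (E j).indicator (fun _ => k j) t = k j := Set.indicator_of_mem h2 _
        calc k j = (E j).indicator (fun _ => k j) t := h9.symm
          _ ≤ _ := h8
      linarith
  have hconst : ∀ a : ℝ, IntegrableOn (fun _ : ℝ => a) W := fun a => integrableOn_const hWf
  have hind : ∀ j, IntegrableOn ((E j).indicator (fun _ => k j)) W := by
    intro j
    exact (hconst (k j)).indicator (hEm j)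
  have hprod : Continuous fun t => (∏ i, P i t) ^ 2 := by fun_prop
  have hbd : IntegrableOn (fun t => (∏ i, P i t) ^ 2) W := by
    refine Integrable.mono' (hconst ((∏ i, c i) ^ 2)) hprod.aestronglyMeasurable ?_
    refine Filter.Eventually.of_forall fun t => ?_
    rw [Real.norm_eq_abs, abs_of_nonneg (sq_nonneg _)]
    exact pow_le_pow_left₀ (prod_nonneg fun x _ => hP0 x t)
      (prod_le_prod (fun x _ => hP0 x t) (fun x _ => hPc x t)) 2
  have hsumI : IntegrableOn (fun t => ∑ j, (E j).indicator (fun _ => k j) t) W :=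
    integrable_finsetSum _ fun j _ => hind j
  calc ∫ t in W, (∏ i, P i t) ^ 2
      ≤ ∫ t in W, (∑ j, (E j).indicator (fun _ => k j) t + (∏ i, c i) ^ 2 * (1 / 4) ^ J) :=
        setIntegral_mono_on hbd (hsumI.add (hconst _)) hW hpt
    _ = ∑ j, k j * (volume (E j)).toReal +
        (∏ i, c i) ^ 2 * (1 / 4) ^ J * (volume W).toReal := by
        rw [integral_add hsumI (hconst _), integral_finsetSum _ fun j _ => hind j]
        congr 1
        · refine sum_congr rfl fun j _ => ?_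
          rw [setIntegral_indicator (hEm j), Set.inter_eq_self_of_subset_right (hEW j),
            setIntegral_const, smul_eq_mul, mul_comm]
          rfl
        · rw [setIntegral_const, smul_eq_mul, mul_comm]
          rfl
    _ ≤ (J : ℝ) ^ 6 * (4 ^ 6 * K) + (∏ i, c i) ^ 2 * (1 / 4) ^ J * (volume W).toReal := by
        refine add_le_add ?_ le_rfl
        have h1 : ∀ j ∈ (univ : Finset (Fin 6 → Fin J)), k j * (volume (E j)).toReal ≤
            4 ^ 6 * K := by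
          intro j _
          have h2 := hK (v j) (E j) (hEm j) (hEW j) (hv0 j) (by
            intro t ht i
            rw [hE] at ht
            exact ht.2 i)
          have h3 : k j * (volume (E j)).toReal =
              4 ^ 6 * ((volume (E j)).toReal * ∏ i, (v j i) ^ 2) := by
            rw [hk]
            ring
          rw [h3]
          exact mul_le_mul_of_nonneg_left h2 (by positivity)
        have h4 := sum_le_card_nsmul _ _ _ h1
        rw [card_univ, Fintype.card_fun, Fintype.card_fin, Fintype.card_fin, nsmul_eq_mul] at h4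
        rw [Nat.cast_pow] at h4
        exact h4

theorem lev (B A ε : ℝ) (hB : 0 < B) (hA : 0 < A) (hε : 0 < ε) (hε1 : ε ≤ 1 / 12) :
    ∃ A0 X0 : ℝ, 0 < A0 ∧ 10 ≤ X0 ∧ ∀ X : ℝ, X0 ≤ X →
    ∀ (q : ℕ) [NeZero q], (q : ℝ) ≤ (Real.log X) ^ B → ∀ (χ : DirichletCharacter ℂ q)
    (e : Fin 6 → ℕ), X ≤ 2 ^ (∑ i, e i) → (2 : ℝ) ^ (∑ i, e i) ≤ 2 ^ 9 * X →
    (∀ i, (2 : ℝ) ^ (e i) ≤ X ^ ((5 : ℝ) / 12)) →
    ∫ t in {t : ℝ | (Real.log X) ^ A0 ≤ |t| ∧ |t| ≤ X ^ ((5 : ℝ) / 6 - ε)}, ‖SI.bp χ e t‖ ^ 2 ≤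
      (Real.log X) ^ (-A) := by
  obtain ⟨A0, X1, hA0, hX1, hcor⟩ := cor B (A + 10) ε hB (by linarith) hε hε1
  have ev1 : ∀ᶠ X : ℝ in Filter.atTop, 2 ^ 14 * (Real.log X) ^ (A + 12) ≤ X := by
    have h1 := isLittleO_log_rpow_rpow_atTop (A + 12) (zero_lt_one' ℝ)
    have h2 := h1.bound (c := 1 / 2 ^ 14) (by positivity)
    filter_upwards [h2, Filter.eventually_gt_atTop 1] with X hX hX1
    rw [Real.rpow_one, Real.norm_eq_abs, Real.norm_eq_abs] at hX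
    have h3 : 0 < Real.log X := Real.log_pos hX1
    rw [abs_of_nonneg (Real.rpow_nonneg h3.le _), abs_of_pos (by linarith)] at hX
    linarith
  have ev2 : ∀ᶠ X : ℝ in Filter.atTop, 50 ≤ Real.log X :=
    Real.tendsto_log_atTop.eventually_ge_atTop 50
  obtain ⟨X2, hX2⟩ := Filter.eventually_atTop.1 (ev1.and ev2)
  refine ⟨A0, max X1 X2, hA0, hX1.trans (le_max_left _ _), ?_⟩
  intro X hX q _ hq χ e hS1 hS2 he
  obtain ⟨h14, h50⟩ := hX2 X (le_trans (le_max_right _ _) hX)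
  have hX1' : X1 ≤ X := le_trans (le_max_left _ _) hX
  have hXpos : 0 < X := by linarith
  obtain ⟨ℓ, hℓ⟩ : ∃ ℓ, ℓ = Real.log X := ⟨_, rfl⟩
  have hcor' := fun v E => hcor X hX1' q hq χ e v E hS1 hS2 he
  rw [← hℓ] at h14 h50 hcor' ⊢
  have hℓ0 : 0 < ℓ := by linarith
  have hc2 : ∀ i, 1 + (e i : ℝ) ≤ 2 * ℓ := by
    intro i
    have h1 := Real.log_le_log (by positivity) (he i)
    rw [Real.log_pow, Real.log_rpow hXpos, ← hℓ] at h1
    have h2 := Real.log_two_gt_d9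
    have h3 : (0 : ℝ) ≤ e i := Nat.cast_nonneg _
    nlinarith
  obtain ⟨W, hWdef⟩ : ∃ W : Set ℝ, W = {t : ℝ | ℓ ^ A0 ≤ |t| ∧ |t| ≤ X ^ ((5 : ℝ) / 6 - ε)} :=
    ⟨_, rfl⟩
  have hR : X ^ ((5 : ℝ) / 6 - ε) ≤ X := by
    have h1 : X ^ ((5 : ℝ) / 6 - ε) ≤ X ^ (1 : ℝ) :=
      Real.rpow_le_rpow_of_exponent_le (by linarith) (by linarith)
    rwa [Real.rpow_one] at h1
  have hWm : MeasurableSet W := by
    rw [hWdef]
    exact ((isClosed_le continuous_const continuous_abs).inter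
      (isClosed_le continuous_abs continuous_const)).measurableSet
  have hWsub : W ⊆ Set.Icc (-X) X := by
    intro t ht
    rw [hWdef] at ht
    exact abs_le.1 (ht.2.trans hR)
  have hWv : volume W ≤ ENNReal.ofReal (2 * X) := by
    refine (measure_mono hWsub).trans ?_
    rw [Real.volume_Icc]
    exact ENNReal.ofReal_le_ofReal (by linarith)
  have hWf : volume W ≠ ⊤ := ne_top_of_le_ne_top ENNReal.ofReal_ne_top hWv
  have hWr : (volume W).toReal ≤ 2 * X := by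
    have h1 := ENNReal.toReal_mono ENNReal.ofReal_ne_top hWv
    rwa [ENNReal.toReal_ofReal (by linarith)] at h1
  rw [← hWdef]
  have hmain := lev_abs (fun i t => ‖SI.pol (SI.cf χ i) (e i) t‖)
    (fun i => (SI.pol_cont _ _).norm) (fun i t => norm_nonneg _) (fun i => 1 + (e i : ℝ))
    (fun i => by positivity) (fun i t => SI.pw_triv χ i (e i) t) W hWm hWf
    (ℓ ^ (-(A + 10))) (fun v E hE hEW hv hvP => hcor' v E hE (fun t ht => by
      have h1 := hEW ht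
      rw [hWdef] at h1
      exact h1) hv hvP) ⌈2 * ℓ⌉₊
  have heq : ∀ t, ‖SI.bp χ e t‖ ^ 2 = (∏ i, ‖SI.pol (SI.cf χ i) (e i) t‖) ^ 2 := by
    intro t
    unfold SI.bp
    rw [norm_prod]
  simp only [heq]
  refine hmain.trans ?_
  obtain ⟨J, hJ⟩ : ∃ J : ℕ, J = ⌈2 * ℓ⌉₊ := ⟨_, rfl⟩
  rw [← hJ]
  have hJ1 : 2 * ℓ ≤ J := by
    rw [hJ]
    exact Nat.le_ceil _
  have hJ2 : (J : ℝ) ≤ 3 * ℓ := by
    have h1 := Nat.ceil_lt_add_one (show 0 ≤ 2 * ℓ by linarith)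
    rw [← hJ] at h1
    linarith
  -- first term
  have hA1 : ℓ ^ (-(A + 10)) = ℓ ^ (-A) * (ℓ ^ 10)⁻¹ := by
    have h1 : -(A + 10) = -A + (-(10 : ℕ) : ℝ) := by push_cast; ring
    rw [h1, Real.rpow_add hℓ0, Real.rpow_neg hℓ0.le (10 : ℕ), Real.rpow_natCast]
  have hAp : 0 < ℓ ^ (-A) := Real.rpow_pos_of_pos hℓ0 _
  have h1 : (J : ℝ) ^ 6 * (4 ^ 6 * ℓ ^ (-(A + 10))) ≤ ℓ ^ (-A) / 2 := by
    rw [hA1]
    have h2 : (J : ℝ) ^ 6 ≤ (3 * ℓ) ^ 6 := pow_le_pow_left₀ (Nat.cast_nonneg _) hJ2 6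
    have h3 : (50 : ℝ) ^ 4 ≤ ℓ ^ 4 := pow_le_pow_left₀ (by norm_num) h50 4
    calc (J : ℝ) ^ 6 * (4 ^ 6 * (ℓ ^ (-A) * (ℓ ^ 10)⁻¹))
        ≤ (3 * ℓ) ^ 6 * (4 ^ 6 * (ℓ ^ (-A) * (ℓ ^ 10)⁻¹)) :=
          mul_le_mul_of_nonneg_right h2 (by positivity)
      _ = ℓ ^ (-A) * (12 ^ 6 / ℓ ^ 4) := by
          field_simp
          norm_num
      _ ≤ ℓ ^ (-A) * (1 / 2) := by
          refine mul_le_mul_of_nonneg_left ?_ hAp.le
          rw [div_le_div_iff₀ (by positivity) (by norm_num)]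
          norm_num at h3 ⊢
          linarith
      _ = ℓ ^ (-A) / 2 := by ring
  -- second term
  have hP : (∏ i : Fin 6, (1 + (e i : ℝ))) ^ 2 ≤ (2 * ℓ) ^ 12 := by
    have h2 : ∏ i : Fin 6, (1 + (e i : ℝ)) ≤ ∏ _i : Fin 6, (2 * ℓ) :=
      prod_le_prod (fun i _ => by positivity) (fun i _ => hc2 i)
    rw [prod_const, card_univ, Fintype.card_fin] at h2
    calc (∏ i : Fin 6, (1 + (e i : ℝ))) ^ 2 ≤ ((2 * ℓ) ^ 6) ^ 2 :=
          pow_le_pow_left₀ (prod_nonneg fun i _ => by positivity) h2 2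
      _ = (2 * ℓ) ^ 12 := by ring
  have hJ4 : (1 / 4 : ℝ) ^ J ≤ X⁻¹ ^ 2 := by
    have h2 : (1 / 4 : ℝ) ^ J = Real.exp (J * Real.log (1 / 4)) := by
      rw [Real.exp_nat_mul, Real.exp_log (by norm_num)]
    have h3 : X⁻¹ ^ 2 = Real.exp (-(2 * ℓ)) := by
      rw [hℓ, Real.exp_neg, two_mul, Real.exp_add, Real.exp_log hXpos]
      field_simp
    rw [h2, h3]
    refine Real.exp_le_exp.2 ?_
    have h4 : Real.log (1 / 4) = -(2 * Real.log 2) := by
      rw [one_div, Real.log_inv]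
      have h5 : (4 : ℝ) = 2 ^ 2 := by norm_num
      rw [h5, Real.log_pow]
      push_cast
      ring
    have h5 := Real.log_two_gt_d9
    rw [h4]
    nlinarith
  have h2 : (∏ i : Fin 6, (1 + (e i : ℝ))) ^ 2 * (1 / 4) ^ J * (volume W).toReal ≤
      ℓ ^ (-A) / 2 := by
    have h3 : ℓ ^ (A + 12) = ℓ ^ A * ℓ ^ 12 := by
      have h4 : A + 12 = A + ((12 : ℕ) : ℝ) := by push_cast; ring
      rw [h4, Real.rpow_add hℓ0, Real.rpow_natCast]
    have h5 : ℓ ^ (-A) = (ℓ ^ A)⁻¹ := Real.rpow_neg hℓ0.le A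
    have h6 : 0 < ℓ ^ A := Real.rpow_pos_of_pos hℓ0 _
    calc (∏ i : Fin 6, (1 + (e i : ℝ))) ^ 2 * (1 / 4) ^ J * (volume W).toReal
        ≤ (2 * ℓ) ^ 12 * X⁻¹ ^ 2 * (2 * X) := by
          refine mul_le_mul (mul_le_mul hP hJ4 (by positivity) (by positivity)) hWr
            ENNReal.toReal_nonneg (by positivity)
      _ = 2 ^ 13 * ℓ ^ 12 / X := by
          field_simp
      _ ≤ ℓ ^ (-A) / 2 := by
          rw [h5, div_le_div_iff₀ hXpos (by norm_num)]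
          rw [h3] at h14
          have h7 : 2 ^ 13 * ℓ ^ 12 * 2 * ℓ ^ A ≤ X := by linarith
          calc 2 ^ 13 * ℓ ^ 12 * 2 = (2 ^ 13 * ℓ ^ 12 * 2 * ℓ ^ A) * (ℓ ^ A)⁻¹ := by
                field_simp
            _ ≤ X * (ℓ ^ A)⁻¹ := mul_le_mul_of_nonneg_right h7 (by positivity)
            _ = (ℓ ^ A)⁻¹ * X := mul_comm _ _
  linarith

end Pool.Agent.H43.HX
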