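import Pool.Agent.H43.HX.Defs
import Pool.Agent.H26.LDP.Parseval

/-!
# [H43 HX PRS] Parseval for `FH`

PROOF. `Σ_{r<s} ‖FH H (r/s)‖^2 = Σ_{h,h'<=H} Σ_{r<s} e((h-h')r/s) = s #{(h,h') : h ≡ h' mod s} <= s H (H/s + 1) = H^2 + sH`, and the term `r = 0` is `H^2`.
-/

namespace Pool.Agent.H43.HX

open Finset

theorem prs_range (s : ℕ) (hs : 1 ≤ s) (n : ℤ) :
    ∑ r ∈ range s, H26.LDP.e ((n : ℝ) * ((r : ℝ) / s)) = if (s : ℤ) ∣ n then (s : ℂ) else 0 := by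
  haveI : NeZero s := ⟨by omega⟩
  have h1 := H26.LDP.sum_e_al s n
  have h2 : ∑ t : ZMod s, H26.LDP.e ((n : ℝ) * H26.LDP.al s t) =
      ∑ r ∈ range s, H26.LDP.e ((n : ℝ) * ((r : ℝ) / s)) := by
    refine Finset.sum_nbij' (fun t : ZMod s => t.val) (fun r : ℕ => (r : ZMod s)) ?_ ?_ ?_ ?_ ?_
    · intro t _
      exact mem_range.2 (ZMod.val_lt t)
    · intro r _
      exact mem_univ _
    · intro t _
      exact ZMod.natCast_zmod_val t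
    · intro r hr
      exact ZMod.val_cast_of_lt (mem_range.1 hr)
    · intro t _
      rfl
  rw [← h2, h1]
  by_cases h : (s : ℤ) ∣ n
  · rw [if_pos h, if_pos ((ZMod.intCast_zmod_eq_zero_iff_dvd n s).2 h)]
  · rw [if_neg h, if_neg (fun h' => h ((ZMod.intCast_zmod_eq_zero_iff_dvd n s).1 h'))]

theorem prs_count (s H h : ℕ) (hs : 1 ≤ s) :
    (((Icc 1 H).filter (fun k : ℕ => (s : ℤ) ∣ (h : ℤ) - (k : ℤ))).card : ℝ) ≤ H / s + 1 := by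
  have h1 : (Icc 1 H).filter (fun k : ℕ => (s : ℤ) ∣ (h : ℤ) - (k : ℤ)) =
      (Ioc 0 H).filter (fun k : ℕ => k ≡ h [MOD s]) := by
    ext k
    simp only [mem_filter, mem_Icc, mem_Ioc]
    rw [← Nat.modEq_iff_dvd]
    constructor
    · rintro ⟨⟨h1, h2⟩, h3⟩
      exact ⟨⟨by omega, h2⟩, h3⟩
    · rintro ⟨⟨h1, h2⟩, h3⟩
      exact ⟨⟨by omega, h2⟩, h3⟩
  have h2 := Nat.Ioc_filter_modEq_card 0 H (r := s) hs h
  rw [h1]
  have h3 : ((((Ioc 0 H).filter (fun k : ℕ => k ≡ h [MOD s])).card : ℤ) : ℚ) ≤ (H : ℚ) / s + 1 := by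
    rw [h2]
    push_cast
    apply max_le
    · have h4 := Int.floor_le (((H : ℚ) - h) / s)
      have h5 := Int.lt_floor_add_one (((0 : ℚ) - h) / s)
      have h6 : ((H : ℚ) - h) / s = (H : ℚ) / s + (0 - h) / s := by ring
      linarith
    · positivity
  have h4 : ((((Ioc 0 H).filter (fun k : ℕ => k ≡ h [MOD s])).card : ℚ)) ≤ (H : ℚ) / s + 1 := by
    exact_mod_cast h3
  have h5 : (((((Ioc 0 H).filter (fun k : ℕ => k ≡ h [MOD s])).card : ℚ)) : ℝ) ≤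
      (((H : ℚ) / s + 1 : ℚ) : ℝ) := by
    exact_mod_cast h4
  push_cast at h5
  exact h5

theorem prs (s H : ℕ) (hs : 1 ≤ s) :
    ∑ r ∈ Ico 1 s, ‖FH H ((r : ℝ) / s)‖ ^ 2 ≤ (s : ℝ) * H := by
  have hs0 : (0 : ℝ) < s := by exact_mod_cast hs
  have key : ((∑ r ∈ range s, ‖FH H ((r : ℝ) / s)‖ ^ 2 : ℝ) : ℂ) =
      ((∑ h ∈ Icc 1 H, (s : ℝ) *
        ((Icc 1 H).filter (fun k : ℕ => (s : ℤ) ∣ (h : ℤ) - (k : ℤ))).card : ℝ) : ℂ) := by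
    push_cast
    have h1 : ∀ r : ℕ, ((‖FH H ((r : ℝ) / s)‖ : ℝ) : ℂ) ^ 2 =
        ∑ h ∈ Icc 1 H, ∑ k ∈ Icc 1 H,
          H26.LDP.e ((((h : ℤ) - (k : ℤ) : ℤ) : ℝ) * ((r : ℝ) / s)) := by
      intro r
      rw [← Complex.mul_conj']
      unfold FH
      rw [map_sum, sum_mul_sum]
      apply sum_congr rfl
      intro h _
      apply sum_congr rfl
      intro k _
      rw [← H26.LDP.e_neg, ← H26.LDP.e_add]
      congr 1
      push_cast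
      ring
    simp_rw [h1]
    rw [sum_comm]
    apply sum_congr rfl
    intro h _
    rw [sum_comm]
    have h2 : ∀ k ∈ Icc 1 H, ∑ r ∈ range s,
        H26.LDP.e ((((h : ℤ) - (k : ℤ) : ℤ) : ℝ) * ((r : ℝ) / s)) =
        if (s : ℤ) ∣ (h : ℤ) - (k : ℤ) then (s : ℂ) else 0 := by
      intro k _
      exact prs_range s hs _
    rw [sum_congr rfl h2, ← sum_filter, sum_const, nsmul_eq_mul]
    ring
  have key2 : ∑ r ∈ range s, ‖FH H ((r : ℝ) / s)‖ ^ 2 =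
      ∑ h ∈ Icc 1 H, (s : ℝ) *
        ((Icc 1 H).filter (fun k : ℕ => (s : ℤ) ∣ (h : ℤ) - (k : ℤ))).card := by
    exact_mod_cast key
  have h3 : ∑ h ∈ Icc 1 H, (s : ℝ) *
        ((Icc 1 H).filter (fun k : ℕ => (s : ℤ) ∣ (h : ℤ) - (k : ℤ))).card ≤
      ∑ h ∈ Icc 1 H, (s : ℝ) * ((H : ℝ) / s + 1) := by
    apply sum_le_sum
    intro h _
    exact mul_le_mul_of_nonneg_left (prs_count s H h hs) hs0.le
  have h4 : ∑ h ∈ Icc 1 H, (s : ℝ) * ((H : ℝ) / s + 1) = (H : ℝ) ^ 2 + s * H := by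
    rw [sum_const, Nat.card_Icc, nsmul_eq_mul]
    have : ((H + 1 - 1 : ℕ) : ℝ) = H := by simp
    rw [this]
    field_simp
  have h5 : ∑ r ∈ range s, ‖FH H ((r : ℝ) / s)‖ ^ 2 =
      (H : ℝ) ^ 2 + ∑ r ∈ Ico 1 s, ‖FH H ((r : ℝ) / s)‖ ^ 2 := by
    rw [range_eq_Ico, sum_eq_sum_Ico_succ_bot (by omega)]
    congr 1
    have h6 : FH H (((0 : ℕ) : ℝ) / s) = H := by
      unfold FH
      simp [H26.LDP.e_zero]
    rw [h6]
    simp
  linarith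

end Pool.Agent.H43.HX
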