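import Pool.Agent.H26.LDP.Diff
import Pool.Agent.H43.HX.Defs

/-!
# [H43 HX SCH] Schur's test for exponential sums cut off by intervals

PROOF. Expand the square: `Σ_{j,j'} b_j conj(b_j') Σ_x e(x(λ_j - λ_j'))` over the integers `x ∈ Ioc U V` of `I_j ∩ I_j'` (`I_j = Ioc (u j) (w j)`), an interval of
integers, so the inner sum is at most `V - U` and, if `nn(λ_j - λ_j') ≠ 0`, at most `1/(2 nn(λ_j - λ_j'))` (`H26.LDP.geom`). This bound `M(j,j')` is symmetric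
(`nn(-x) = nn x`), and `|b_j b_j'| <= (|b_j|^2 + |b_j'|^2)/2`.
-/

namespace Pool.Agent.H43.HX

open Finset

private theorem sch_nn_neg (x : ℝ) : H26.LDP.nn (-x) = H26.LDP.nn x := by
  apply le_antisymm
  · have h := H26.LDP.nn_le (-x) (-(round x))
    have h2 : |(-x) - ((-(round x) : ℤ) : ℝ)| = |x - round x| := by
      push_cast
      rw [← abs_neg]
      congr 1
      ring
    rw [h2] at h
    exact h
  · have h := H26.LDP.nn_le x (-(round (-x)))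
    have h2 : |x - ((-(round (-x)) : ℤ) : ℝ)| = |(-x) - round (-x)| := by
      push_cast
      rw [← abs_neg]
      congr 1
      ring
    rw [h2] at h
    exact h

private noncomputable def schM (U V : ℕ) (θ : ℝ) : ℝ :=
  if H26.LDP.nn θ = 0 then ((V : ℝ) - U) else 1 / (2 * H26.LDP.nn θ)

private theorem schM_nonneg (U V : ℕ) (hUV : U ≤ V) (θ : ℝ) : 0 ≤ schM U V θ := by
  unfold schM
  split_ifs
  · have : (U : ℝ) ≤ V := by exact_mod_cast hUV
    linarith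
  · have := H26.LDP.nn_nonneg θ
    positivity

private theorem schM_neg (U V : ℕ) (θ : ℝ) : schM U V (-θ) = schM U V θ := by
  unfold schM
  rw [sch_nn_neg]

private theorem sch_interval (A B : ℕ) (θ : ℝ) :
    ∑ x ∈ Ioc A B, H26.LDP.e ((x : ℝ) * θ) = ∑ m ∈ Icc 1 (B - A), H26.LDP.e (θ * m + A * θ) := by
  apply Finset.sum_nbij' (fun x => x - A) (fun m => m + A)
  · intro x hx
    simp only [mem_Ioc, mem_Icc] at hx ⊢
    omega
  · intro x hx
    simp only [mem_Ioc, mem_Icc] at hx ⊢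
    omega
  · intro x hx
    simp only [mem_Ioc] at hx
    omega
  · intro x hx
    omega
  · intro x hx
    simp only [mem_Ioc] at hx
    congr 1
    rw [Nat.cast_sub (by omega)]
    ring

private theorem sch_bound (U V A B : ℕ) (hUV : U ≤ V) (hA : U ≤ A) (hB : B ≤ V) (θ : ℝ) :
    ‖∑ x ∈ Ioc A B, H26.LDP.e ((x : ℝ) * θ)‖ ≤ schM U V θ := by
  rw [sch_interval]
  unfold schM
  split_ifs with h
  · calc ‖∑ m ∈ Icc 1 (B - A), H26.LDP.e (θ * m + A * θ)‖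
        ≤ ((B - A : ℕ) : ℝ) := H26.LDP.norm_sum_e_le (fun m : ℕ => θ * m + A * θ) (B - A)
      _ ≤ ((V - U : ℕ) : ℝ) := by
          exact_mod_cast (by omega : B - A ≤ V - U)
      _ = (V : ℝ) - U := by
          rw [Nat.cast_sub hUV]
  · have h1 := H26.LDP.geom θ (A * θ) (B - A)
    have h2 : 0 < 2 * H26.LDP.nn θ := by
      have := H26.LDP.nn_nonneg θ
      have : 0 < H26.LDP.nn θ := lt_of_le_of_ne this (Ne.symm h)
      linarith
    rw [le_div_iff₀ h2]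
    exact h1

open Classical in
private theorem sch_pair (bj bj' : ℂ) (l l' : ℝ) (u u' w w' U V : ℕ) (hUV : U ≤ V) :
    ‖∑ x ∈ Ioc U V, (if u < x ∧ x ≤ w then bj * H26.LDP.e ((x : ℝ) * l) else 0) *
      (starRingEnd ℂ) (if u' < x ∧ x ≤ w' then bj' * H26.LDP.e ((x : ℝ) * l') else 0)‖ ≤
      ‖bj‖ * ‖bj'‖ * schM U V (l - l') := by
  have h1 : ∑ x ∈ Ioc U V, (if u < x ∧ x ≤ w then bj * H26.LDP.e ((x : ℝ) * l) else 0) *
      (starRingEnd ℂ) (if u' < x ∧ x ≤ w' then bj' * H26.LDP.e ((x : ℝ) * l') else 0) =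
      bj * (starRingEnd ℂ) bj' *
        ∑ x ∈ Ioc (max U (max u u')) (min V (min w w')), H26.LDP.e ((x : ℝ) * (l - l')) := by
    rw [Finset.mul_sum]
    have h2 : Ioc (max U (max u u')) (min V (min w w')) ⊆ Ioc U V := by
      intro x hx
      simp only [mem_Ioc, max_lt_iff, le_min_iff] at hx ⊢
      exact ⟨hx.1.1, hx.2.1⟩
    rw [← Finset.sum_subset h2 (f := fun x => (if u < x ∧ x ≤ w then bj * H26.LDP.e ((x : ℝ) * l) else 0) *
      (starRingEnd ℂ) (if u' < x ∧ x ≤ w' then bj' * H26.LDP.e ((x : ℝ) * l') else 0))]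
    · apply Finset.sum_congr rfl
      intro x hx
      simp only [mem_Ioc, max_lt_iff, le_min_iff] at hx
      rw [if_pos ⟨hx.1.2.1, hx.2.2.1⟩, if_pos ⟨hx.1.2.2, hx.2.2.2⟩]
      rw [map_mul, ← H26.LDP.e_neg]
      have h3 : H26.LDP.e ((x : ℝ) * (l - l')) = H26.LDP.e ((x : ℝ) * l) * H26.LDP.e (-((x : ℝ) * l')) := by
        rw [← H26.LDP.e_add]
        congr 1
        ring
      rw [h3]
      ring
    · intro x hx hx2
      simp only [mem_Ioc, max_lt_iff, le_min_iff] at hx hx2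
      by_cases h3 : u < x ∧ x ≤ w
      · by_cases h4 : u' < x ∧ x ≤ w'
        · exact absurd ⟨⟨hx.1, h3.1, h4.1⟩, hx.2, h3.2, h4.2⟩ hx2
        · rw [if_neg h4]
          simp
      · rw [if_neg h3]
        simp
  rw [h1, norm_mul, norm_mul, RCLike.norm_conj]
  apply mul_le_mul_of_nonneg_left _ (by positivity)
  exact sch_bound U V _ _ hUV (le_max_left _ _) (min_le_left _ _) _

open Classical in
theorem sch {ι : Type*} (J : Finset ι) (b : ι → ℂ) (lam : ι → ℝ) (u w : ι → ℕ) (U V : ℕ)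
    (hUV : U ≤ V) :
    ∑ x ∈ Ioc U V, ‖∑ j ∈ J, if u j < x ∧ x ≤ w j then b j * H26.LDP.e ((x : ℝ) * lam j) else 0‖ ^ 2 ≤
      ∑ j ∈ J, ‖b j‖ ^ 2 * ∑ j' ∈ J,
        (if H26.LDP.nn (lam j - lam j') = 0 then ((V : ℝ) - U)
          else 1 / (2 * H26.LDP.nn (lam j - lam j'))) := by
  set c : ι → ℕ → ℂ := fun j x => if u j < x ∧ x ≤ w j then b j * H26.LDP.e ((x : ℝ) * lam j) else 0
    with hc
  have h1 : ((∑ x ∈ Ioc U V, ‖∑ j ∈ J, c j x‖ ^ 2 : ℝ) : ℂ) =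
      ∑ j ∈ J, ∑ j' ∈ J, ∑ x ∈ Ioc U V, c j x * (starRingEnd ℂ) (c j' x) := by
    push_cast
    have h2 : ∀ x ∈ Ioc U V, ((‖∑ j ∈ J, c j x‖ : ℝ) : ℂ) ^ 2 =
        ∑ j ∈ J, ∑ j' ∈ J, c j x * (starRingEnd ℂ) (c j' x) := by
      intro x _
      rw [← Complex.mul_conj', map_sum, Finset.sum_mul_sum]
    rw [Finset.sum_congr rfl h2, Finset.sum_comm]
    apply Finset.sum_congr rfl
    intro j _
    rw [Finset.sum_comm]
  have h3 : ∑ x ∈ Ioc U V, ‖∑ j ∈ J, c j x‖ ^ 2 ≤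
      ∑ j ∈ J, ∑ j' ∈ J, ‖b j‖ * ‖b j'‖ * schM U V (lam j - lam j') := by
    have h4 : ∑ x ∈ Ioc U V, ‖∑ j ∈ J, c j x‖ ^ 2 =
        ‖((∑ x ∈ Ioc U V, ‖∑ j ∈ J, c j x‖ ^ 2 : ℝ) : ℂ)‖ := by
      rw [Complex.norm_real, Real.norm_of_nonneg]
      positivity
    rw [h4, h1]
    refine (norm_sum_le _ _).trans (Finset.sum_le_sum fun j _ => ?_)
    refine (norm_sum_le _ _).trans (Finset.sum_le_sum fun j' _ => ?_)
    exact sch_pair (b j) (b j') (lam j) (lam j') (u j) (u j') (w j) (w j') U V hUV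
  have h5 : ∑ j ∈ J, ∑ j' ∈ J, ‖b j‖ * ‖b j'‖ * schM U V (lam j - lam j') ≤
      ∑ j ∈ J, ∑ j' ∈ J, (‖b j‖ ^ 2 / 2 * schM U V (lam j - lam j') +
        ‖b j'‖ ^ 2 / 2 * schM U V (lam j - lam j')) := by
    refine Finset.sum_le_sum fun j _ => Finset.sum_le_sum fun j' _ => ?_
    have h6 := schM_nonneg U V hUV (lam j - lam j')
    rw [← add_mul]
    apply mul_le_mul_of_nonneg_right _ h6
    nlinarith [sq_nonneg (‖b j‖ - ‖b j'‖)]
  have h7 : ∑ j ∈ J, ∑ j' ∈ J, (‖b j‖ ^ 2 / 2 * schM U V (lam j - lam j') +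
        ‖b j'‖ ^ 2 / 2 * schM U V (lam j - lam j')) =
      ∑ j ∈ J, ‖b j‖ ^ 2 * ∑ j' ∈ J, schM U V (lam j - lam j') := by
    simp only [Finset.sum_add_distrib]
    have h8 : ∑ j ∈ J, ∑ j' ∈ J, ‖b j'‖ ^ 2 / 2 * schM U V (lam j - lam j') =
        ∑ j ∈ J, ∑ j' ∈ J, ‖b j‖ ^ 2 / 2 * schM U V (lam j - lam j') := by
      rw [Finset.sum_comm]
      refine Finset.sum_congr rfl fun j _ => Finset.sum_congr rfl fun j' _ => ?_
      rw [← schM_neg U V (lam j - lam j'), neg_sub]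
    rw [h8, ← Finset.sum_add_distrib]
    refine Finset.sum_congr rfl fun j _ => ?_
    rw [← Finset.sum_add_distrib, Finset.mul_sum]
    refine Finset.sum_congr rfl fun j' _ => ?_
    ring
  calc ∑ x ∈ Ioc U V, ‖∑ j ∈ J, c j x‖ ^ 2 ≤ _ := h3
    _ ≤ _ := h5
    _ = _ := h7

end Pool.Agent.H43.HX
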