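import Pool.Agent.H43.HX.Fou
import Pool.Agent.H43.HX.Prs
import Pool.Agent.H43.HX.Cou
import Pool.Agent.H43.HX.Sch

/-!
# [H43 HX PSP] The oscillating part of a type I sum

PROOF. `D = Aq`, `T = V - U`. `J = {(a,k) : A/32 <= a <= A, 1 <= k < aq}`, `b_(a,k) = g(a) c_a(k)` (`fou`), `λ = k/(aq) ∈ (0,1)`. `sch`. For
`λ = r/s` in lowest terms (`s >= 2`, `s ∣ aq`, `s <= D`) the inner sum over `j' = (a',k')` is at most `T mult(s) + 5D^2(1+log D)`: the part with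
`nn(λ-λ') ≠ 0` by `cou` (the pairs `(a'q, k')` are among the pairs `(m,k)`, `m <= D`, `k < m`); `nn(λ-λ') = 0` means `λ = λ'` (both in `(0,1)`), then
`s ∣ a'q`, at most `Aq/s` values of `a'` and one `k'` for each: `mult(s) <= Aq/s`. Now `‖b‖^2 <= G^2 a^(-2) ‖FH H (r/s)‖^2`.
(1) `Σ_j ‖b_j‖^2 5D^2(1+log D) <= 5D^2(1+log D) G^2 Σ_a a^(-2) Σ_{1<=k<aq} ‖FH H (k/(aq))‖^2 <= 5D^2(1+log D) G^2 Σ_{a<=A} qH/a`
`<= 5 A^2 q^3 (1+log D)(1+log A) G^2 H` (`prs`).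
(2) `Σ_j ‖b_j‖^2 T mult(s) <= T G^2 Σ_a a^(-2) Σ_{s ∣ aq, s>=2} (Aq/s) Σ_{r<s, (r,s)=1} ‖FH H (r/s)‖^2 <= T G^2 A q H Σ_a a^(-2) τ(aq)` (`prs`), and with `a >= A/32`,
`τ(aq) <= q τ(a)`, `Σ_{a<=A} τ(a) <= A(1+log A)`: `<= 1024 T G^2 q^2 H (1+log A)`.
(Group the `k < aq` by `s = aq/gcd(k,aq)`.) Total `<= 2000 G^2 q^3 (1+log(Aq))^2 (T + A^2) H`.
-/

namespace Pool.Agent.H43.HX

open Finset

private theorem psp_harm (A : ℕ) : ∑ a ∈ Icc 1 A, 1 / (a : ℝ) ≤ 1 + Real.log A := by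
  have h := harmonic_le_one_add_log A
  rw [harmonic_eq_sum_Icc] at h
  push_cast at h
  simpa [one_div] using h

private theorem psp_tau (A : ℕ) :
    ∑ a ∈ Icc 1 A, (a.divisors.card : ℝ) ≤ A * (1 + Real.log A) := by
  have h := ArithmeticFunction.sum_Ioc_sigma0_eq_sum_div A
  have e : Ioc 0 A = Icc 1 A := by
    ext x
    simp only [mem_Ioc, mem_Icc]
    omega
  rw [e] at h
  have h1 : ∑ a ∈ Icc 1 A, (a.divisors.card : ℝ) = ∑ n ∈ Icc 1 A, ((A / n : ℕ) : ℝ) := by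
    have h2 : ∑ n ∈ Icc 1 A, n.divisors.card = ∑ n ∈ Icc 1 A, A / n := by
      rw [← h]
      refine Finset.sum_congr rfl fun n _ => ?_
      rw [ArithmeticFunction.sigma_zero_apply]
    exact_mod_cast h2
  rw [h1]
  calc ∑ n ∈ Icc 1 A, ((A / n : ℕ) : ℝ) ≤ ∑ n ∈ Icc 1 A, (A : ℝ) * (1 / n) := by
        refine sum_le_sum fun n _ => ?_
        refine Nat.cast_div_le.trans ?_
        rw [mul_one_div]
    _ = A * ∑ n ∈ Icc 1 A, 1 / (n : ℝ) := by rw [mul_sum]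
    _ ≤ _ := by
        gcongr
        exact psp_harm A

private theorem psp_div (a q : ℕ) : ((a * q).divisors.card : ℝ) ≤ q * a.divisors.card := by
  have h1 : (a * q).divisors.card ≤ a.divisors.card * q.divisors.card := by
    rw [Nat.divisors_mul]
    exact Finset.card_mul_le
  have h2 : q.divisors.card ≤ q := Nat.card_divisors_le_self q
  have h3 : (a * q).divisors.card ≤ q * a.divisors.card := by
    calc (a * q).divisors.card ≤ a.divisors.card * q.divisors.card := h1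
      _ ≤ a.divisors.card * q := Nat.mul_le_mul_left _ h2
      _ = _ := mul_comm _ _
  exact_mod_cast h3

private theorem psp_group (M : ℕ) (hM : 1 ≤ M) (F : ℕ → ℕ → ℝ) (hF : ∀ s r, 0 ≤ F s r) :
    ∑ k ∈ Ico 1 M, F (M / Nat.gcd k M) (k / Nat.gcd k M) ≤
      ∑ s ∈ M.divisors, ∑ r ∈ Ico 1 s, F s r := by
  rw [Finset.sum_sigma' M.divisors (fun s => Ico 1 s) (fun s r => F s r)]
  have hinj : Set.InjOn (fun k : ℕ => (⟨M / Nat.gcd k M, k / Nat.gcd k M⟩ : Σ _ : ℕ, ℕ))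
      ((Ico 1 M : Finset ℕ) : Set ℕ) := by
    intro k _ k' _ h
    simp only [Sigma.mk.injEq, heq_eq_eq] at h
    obtain ⟨h1, h2⟩ := h
    have h3 : Nat.gcd k M = Nat.gcd k' M := by
      rw [← Nat.div_div_self (Nat.gcd_dvd_right k M) (by omega), h1,
        Nat.div_div_self (Nat.gcd_dvd_right k' M) (by omega)]
    rw [← Nat.div_mul_cancel (Nat.gcd_dvd_left k M), h2, h3,
      Nat.div_mul_cancel (Nat.gcd_dvd_left k' M)]
  rw [← Finset.sum_image (f := fun p : Σ _ : ℕ, ℕ => F p.1 p.2) hinj]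
  apply Finset.sum_le_sum_of_subset_of_nonneg
  · intro p hp
    rw [mem_image] at hp
    obtain ⟨k, hk, rfl⟩ := hp
    rw [mem_Ico] at hk
    have hg : 0 < Nat.gcd k M := Nat.gcd_pos_of_pos_left _ (by omega)
    rw [mem_sigma, mem_Ico, Nat.mem_divisors]
    refine ⟨⟨Nat.div_dvd_of_dvd (Nat.gcd_dvd_right k M), by omega⟩, ?_, ?_⟩
    · exact Nat.div_pos (Nat.gcd_le_left M (by omega)) hg
    · exact Nat.div_lt_div_of_lt_of_dvd (Nat.gcd_dvd_right k M) hk.2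
  · intro p _ _
    exact hF _ _

private theorem psp_count (A q s : ℕ) (hs : 1 ≤ s) (hq : 1 ≤ q) :
    (((Icc 1 A).filter (fun a => s ∣ a * q)).card : ℝ) ≤ (A : ℝ) * q / s := by
  obtain ⟨s', q', hco, h1, h2⟩ := Nat.exists_coprime s q
  obtain ⟨g, hgd⟩ : ∃ g, g = Nat.gcd s q := ⟨_, rfl⟩
  rw [← hgd] at h1 h2
  have hg : 0 < g := by
    rw [hgd]
    exact Nat.gcd_pos_of_pos_left _ hs
  have hgq : g ≤ q := by
    rw [hgd]
    exact Nat.gcd_le_right _ (by omega)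
  have hs' : 0 < s' := by
    rcases Nat.eq_zero_or_pos s' with h | h
    · rw [h, zero_mul] at h1
      omega
    · exact h
  have hsub : (Icc 1 A).filter (fun a => s ∣ a * q) ⊆ (Ioc 0 A).filter (fun a => s' ∣ a) := by
    intro a ha
    simp only [mem_filter, mem_Icc, mem_Ioc] at ha ⊢
    refine ⟨⟨by omega, ha.1.2⟩, ?_⟩
    have h3 : s' * g ∣ (a * q') * g := by
      rw [← h1, mul_assoc, ← h2]
      exact ha.2
    exact hco.dvd_of_dvd_mul_right (Nat.dvd_of_mul_dvd_mul_right hg h3)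
  have h4 := card_le_card hsub
  rw [Nat.Ioc_filter_dvd_card_eq_div] at h4
  have h5 : (((Icc 1 A).filter (fun a => s ∣ a * q)).card : ℝ) ≤ ((A / s' : ℕ) : ℝ) := by
    exact_mod_cast h4
  refine h5.trans (Nat.cast_div_le.trans ?_)
  have h6 : (s : ℝ) = s' * g := by exact_mod_cast h1
  have h7 : (0 : ℝ) < s' := by exact_mod_cast hs'
  have h8 : (0 : ℝ) < g := by exact_mod_cast hg
  have h9 : (g : ℝ) ≤ q := by exact_mod_cast hgq
  rw [h6, div_le_div_iff₀ h7 (by positivity)]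
  have h10 : (0 : ℝ) ≤ A := Nat.cast_nonneg A
  have h11 : (A : ℝ) * s' * g ≤ (A : ℝ) * s' * q := by gcongr
  nlinarith

/-- the pairs `(a, k)` -/
private def pspJ (A q : ℕ) : Finset (Σ _ : ℕ, ℕ) :=
  ((Icc 1 A).filter (fun a => A ≤ 32 * a)).sigma (fun a => Ico 1 (a * q))

/-- the frequency -/
private noncomputable def pspl (q : ℕ) (j : Σ _ : ℕ, ℕ) : ℝ := (j.2 : ℝ) / (j.1 * q : ℕ)

private theorem pspJ_mem (A q : ℕ) (j : Σ _ : ℕ, ℕ) :
    j ∈ pspJ A q ↔ ((1 ≤ j.1 ∧ j.1 ≤ A) ∧ A ≤ 32 * j.1) ∧ 1 ≤ j.2 ∧ j.2 < j.1 * q := by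
  unfold pspJ
  rw [mem_sigma, mem_filter, mem_Icc, mem_Ico]

private theorem pspl_bd (A q : ℕ) (j : Σ _ : ℕ, ℕ) (hj : j ∈ pspJ A q) :
    0 < pspl q j ∧ pspl q j < 1 := by
  rw [pspJ_mem] at hj
  unfold pspl
  have h1 : (0 : ℝ) < j.2 := by exact_mod_cast hj.2.1
  have h2 : (j.2 : ℝ) < ((j.1 * q : ℕ) : ℝ) := by exact_mod_cast hj.2.2
  have h3 : (0 : ℝ) < ((j.1 * q : ℕ) : ℝ) := h1.trans h2
  exact ⟨by positivity, (div_lt_one h3).2 h2⟩

private theorem psp_nn (x : ℝ) (h : H26.LDP.nn x = 0) (h1 : |x| < 1) : x = 0 := by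
  unfold H26.LDP.nn at h
  have h2 : x = (round x : ℝ) := by
    have := abs_eq_zero.1 h
    linarith
  rw [h2] at h1
  have h3 : |round x| < 1 := by exact_mod_cast h1
  rw [Int.abs_lt_one_iff] at h3
  rw [h2, h3, Int.cast_zero]

private theorem psp_inner (A q r s : ℕ) (T : ℝ) (hT : 0 ≤ T) (hq : 1 ≤ q) (hr : 1 ≤ r)
    (hrs : r < s) (hco : Nat.Coprime r s) (hsD : s ≤ A * q) :
    ∑ j ∈ pspJ A q, (if H26.LDP.nn ((r : ℝ) / s - pspl q j) = 0 then T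
      else 1 / (2 * H26.LDP.nn ((r : ℝ) / s - pspl q j))) ≤
      T * ((A : ℝ) * q / s) + 5 * ((A * q : ℕ) : ℝ) ^ 2 * (1 + Real.log (A * q : ℕ)) := by
  classical
  have hs0 : (0 : ℝ) < s := by exact_mod_cast (by omega : 0 < s)
  have hr0 : (0 : ℝ) < r := by exact_mod_cast hr
  have hrs' : (r : ℝ) < s := by exact_mod_cast hrs
  have hsplit : ∀ j ∈ pspJ A q, (if H26.LDP.nn ((r : ℝ) / s - pspl q j) = 0 then T
      else 1 / (2 * H26.LDP.nn ((r : ℝ) / s - pspl q j))) =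
      (if H26.LDP.nn ((r : ℝ) / s - pspl q j) = 0 then T else 0) +
      (if H26.LDP.nn ((r : ℝ) / s - pspl q j) = 0 then 0
      else 1 / (2 * H26.LDP.nn ((r : ℝ) / s - pspl q j))) := by
    intro j _
    split_ifs
    · rw [add_zero]
    · rw [zero_add]
  rw [sum_congr rfl hsplit, sum_add_distrib]
  apply add_le_add
  · -- the multiplicity
    rw [← sum_filter, sum_const, nsmul_eq_mul, mul_comm]
    apply mul_le_mul_of_nonneg_left _ hT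
    have hkey : ∀ j ∈ (pspJ A q).filter (fun j => H26.LDP.nn ((r : ℝ) / s - pspl q j) = 0),
        r * (j.1 * q) = j.2 * s := by
      intro j hj
      rw [mem_filter] at hj
      obtain ⟨h1, h2⟩ := pspl_bd A q j hj.1
      have h3 := psp_nn _ hj.2 (by
        rw [abs_lt]
        have h4 : 0 < (r : ℝ) / s := by positivity
        have h5 : (r : ℝ) / s < 1 := (div_lt_one hs0).2 hrs'
        constructor <;> linarith)
      have h6 : (r : ℝ) / s = pspl q j := by linarith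
      unfold pspl at h6
      have h7 := ((pspJ_mem A q j).1 hj.1).2
      have h8 : (0 : ℝ) < ((j.1 * q : ℕ) : ℝ) := by exact_mod_cast (by omega : 0 < j.1 * q)
      rw [div_eq_div_iff hs0.ne' h8.ne'] at h6
      exact_mod_cast h6
    have hinj : Set.InjOn (fun j : Σ _ : ℕ, ℕ => j.1)
        (((pspJ A q).filter (fun j => H26.LDP.nn ((r : ℝ) / s - pspl q j) = 0) :
          Finset (Σ _ : ℕ, ℕ)) : Set (Σ _ : ℕ, ℕ)) := by
      intro j hj j' hj' h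
      have h1 := hkey j hj
      have h2 := hkey j' hj'
      change j.1 = j'.1 at h
      rw [h, h2] at h1
      have h3 : j'.2 = j.2 := Nat.eq_of_mul_eq_mul_right (by omega) h1
      obtain ⟨a, k⟩ := j
      obtain ⟨a', k'⟩ := j'
      change a = a' at h
      change k' = k at h3
      rw [h, h3]
    rw [← card_image_of_injOn hinj]
    refine le_trans ?_ (psp_count A q s (by omega) hq)
    have hsub : ((pspJ A q).filter (fun j => H26.LDP.nn ((r : ℝ) / s - pspl q j) = 0)).image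
        (fun j : Σ _ : ℕ, ℕ => j.1) ⊆ (Icc 1 A).filter (fun a => s ∣ a * q) := by
      intro a ha
      rw [mem_image] at ha
      obtain ⟨j, hj, rfl⟩ := ha
      have h1 := hkey j hj
      rw [mem_filter] at hj
      have h2 := (pspJ_mem A q j).1 hj.1
      rw [mem_filter, mem_Icc]
      refine ⟨h2.1.1, ?_⟩
      have h3 : s ∣ r * (j.1 * q) := ⟨j.2, by rw [h1, mul_comm]⟩
      exact hco.symm.dvd_of_dvd_mul_left h3
    exact_mod_cast card_le_card hsub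
  · -- the other fractions
    have h1 := cou (A * q) s r (by omega) hsD hco
    refine le_trans ?_ h1
    rw [Finset.sum_sigma' (Icc 1 (A * q)) (fun m => range m) (fun m k =>
      (if H26.LDP.nn ((r : ℝ) / s - (k : ℝ) / m) = 0 then (0 : ℝ)
        else 1 / (2 * H26.LDP.nn ((r : ℝ) / s - (k : ℝ) / m))))]
    have hinj : Set.InjOn (fun j : Σ _ : ℕ, ℕ => (⟨j.1 * q, j.2⟩ : Σ _ : ℕ, ℕ))
        ((pspJ A q : Finset (Σ _ : ℕ, ℕ)) : Set (Σ _ : ℕ, ℕ)) := by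
      rintro ⟨a, k⟩ _ ⟨a', k'⟩ _ h
      simp only [Sigma.mk.injEq, heq_eq_eq] at h
      obtain ⟨h2, h3⟩ := h
      rw [Nat.eq_of_mul_eq_mul_right (by omega) h2, h3]
    have h2 : ∑ j ∈ pspJ A q, (if H26.LDP.nn ((r : ℝ) / s - pspl q j) = 0 then (0 : ℝ)
        else 1 / (2 * H26.LDP.nn ((r : ℝ) / s - pspl q j))) =
        ∑ p ∈ (pspJ A q).image (fun j : Σ _ : ℕ, ℕ => (⟨j.1 * q, j.2⟩ : Σ _ : ℕ, ℕ)),
          (if H26.LDP.nn ((r : ℝ) / s - (p.2 : ℝ) / p.1) = 0 then (0 : ℝ)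
        else 1 / (2 * H26.LDP.nn ((r : ℝ) / s - (p.2 : ℝ) / p.1))) := by
      rw [Finset.sum_image hinj]
      rfl
    rw [h2]
    apply Finset.sum_le_sum_of_subset_of_nonneg
    · intro p hp
      rw [mem_image] at hp
      obtain ⟨j, hj, rfl⟩ := hp
      rw [pspJ_mem] at hj
      rw [mem_sigma, mem_Icc, mem_range]
      exact ⟨⟨Nat.succ_le_of_lt (Nat.zero_lt_of_lt hj.2.2), Nat.mul_le_mul_right _ hj.1.1.2⟩,
        hj.2.2⟩
    · intro p _ _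
      split_ifs
      · exact le_rfl
      · have := H26.LDP.nn_nonneg ((r : ℝ) / s - (p.2 : ℝ) / p.1)
        positivity

/-- the diagonal sums -/
private theorem psp_sum1 (A q H : ℕ) (hA : 1 ≤ A) :
    ∑ j ∈ pspJ A q, (1 / (j.1 : ℝ)) ^ 2 * ‖FH H (pspl q j)‖ ^ 2 ≤
      q * H * (1 + Real.log A) := by
  unfold pspJ
  rw [Finset.sum_sigma]
  have h1 : ∀ a ∈ (Icc 1 A).filter (fun a => A ≤ 32 * a),
      ∑ k ∈ Ico 1 (a * q), (1 / ((⟨a, k⟩ : Σ _ : ℕ, ℕ).1 : ℝ)) ^ 2 *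
        ‖FH H (pspl q ⟨a, k⟩)‖ ^ 2 ≤ (q * H : ℝ) * (1 / a) := by
    intro a ha
    rw [mem_filter, mem_Icc] at ha
    have ha0 : (0 : ℝ) < a := by exact_mod_cast ha.1.1
    change ∑ k ∈ Ico 1 (a * q), (1 / (a : ℝ)) ^ 2 * ‖FH H (pspl q ⟨a, k⟩)‖ ^ 2 ≤ _
    rw [← mul_sum]
    rcases Nat.eq_zero_or_pos q with hq | hq
    · subst hq
      simp
    have h2 := prs (a * q) H (Nat.mul_pos ha.1.1 hq)
    have h3 : ∑ k ∈ Ico 1 (a * q), ‖FH H (pspl q ⟨a, k⟩)‖ ^ 2 ≤ ((a * q : ℕ) : ℝ) * H := h2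
    calc (1 / (a : ℝ)) ^ 2 * ∑ k ∈ Ico 1 (a * q), ‖FH H (pspl q ⟨a, k⟩)‖ ^ 2
        ≤ (1 / (a : ℝ)) ^ 2 * (((a * q : ℕ) : ℝ) * H) := by gcongr
      _ = _ := by
        push_cast
        field_simp
  refine (sum_le_sum h1).trans ?_
  rw [← mul_sum]
  apply mul_le_mul_of_nonneg_left _ (by positivity)
  refine le_trans ?_ (psp_harm A)
  apply Finset.sum_le_sum_of_subset_of_nonneg (filter_subset _ _)
  intro a _ _
  positivity

private theorem psp_sum2 (A q H : ℕ) (hA : 1 ≤ A) (hq : 1 ≤ q) :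
    ∑ j ∈ pspJ A q, (1 / (j.1 : ℝ)) ^ 2 * ‖FH H (pspl q j)‖ ^ 2 *
      ((A : ℝ) * q / ((j.1 * q / Nat.gcd j.2 (j.1 * q) : ℕ) : ℝ)) ≤
      1024 * q ^ 2 * H * (1 + Real.log A) := by
  have hA0 : (0 : ℝ) < A := by exact_mod_cast hA
  unfold pspJ
  rw [Finset.sum_sigma]
  have h1 : ∀ a ∈ (Icc 1 A).filter (fun a => A ≤ 32 * a),
      ∑ k ∈ Ico 1 (a * q), (1 / ((⟨a, k⟩ : Σ _ : ℕ, ℕ).1 : ℝ)) ^ 2 *
        ‖FH H (pspl q ⟨a, k⟩)‖ ^ 2 * ((A : ℝ) * q /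
          (((⟨a, k⟩ : Σ _ : ℕ, ℕ).1 * q / Nat.gcd (⟨a, k⟩ : Σ _ : ℕ, ℕ).2
            ((⟨a, k⟩ : Σ _ : ℕ, ℕ).1 * q) : ℕ) : ℝ)) ≤
      (1024 * q ^ 2 * H / A : ℝ) * a.divisors.card := by
    intro a ha
    rw [mem_filter, mem_Icc] at ha
    have ha0 : (0 : ℝ) < a := by exact_mod_cast ha.1.1
    have hM : 1 ≤ a * q := Nat.mul_pos ha.1.1 hq
    have h2 := psp_group (a * q) hM (fun s r => ‖FH H ((r : ℝ) / s)‖ ^ 2 * ((A : ℝ) * q / s))
      (fun s r => by positivity)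
    have h3 : ∀ k ∈ Ico 1 (a * q), ‖FH H (pspl q ⟨a, k⟩)‖ ^ 2 *
        ((A : ℝ) * q / ((a * q / Nat.gcd k (a * q) : ℕ) : ℝ)) =
        ‖FH H (((k / Nat.gcd k (a * q) : ℕ) : ℝ) / ((a * q / Nat.gcd k (a * q) : ℕ) : ℝ))‖ ^ 2 *
        ((A : ℝ) * q / ((a * q / Nat.gcd k (a * q) : ℕ) : ℝ)) := by
      intro k hk
      rw [mem_Ico] at hk
      have hg : 0 < Nat.gcd k (a * q) := Nat.gcd_pos_of_pos_left _ (by omega)
      have hg' : (0 : ℝ) < (Nat.gcd k (a * q) : ℕ) := by exact_mod_cast hg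
      have h4 : pspl q ⟨a, k⟩ =
          ((k / Nat.gcd k (a * q) : ℕ) : ℝ) / ((a * q / Nat.gcd k (a * q) : ℕ) : ℝ) := by
        rw [Nat.cast_div (Nat.gcd_dvd_left _ _) hg'.ne',
          Nat.cast_div (Nat.gcd_dvd_right _ _) hg'.ne', div_div_div_cancel_right₀ hg'.ne']
        rfl
      rw [h4]
    have h5 : ∑ s ∈ (a * q).divisors, ∑ r ∈ Ico 1 s,
        ‖FH H ((r : ℝ) / s)‖ ^ 2 * ((A : ℝ) * q / s) ≤
        ((a * q).divisors.card : ℝ) * ((A : ℝ) * q * H) := by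
      refine (Finset.sum_le_card_nsmul _ _ ((A : ℝ) * q * H) ?_).trans
        (le_of_eq (nsmul_eq_mul _ _))
      intro s hs
      have hs1 : 1 ≤ s := Nat.pos_of_mem_divisors hs
      have hs0 : (0 : ℝ) < s := by exact_mod_cast hs1
      rw [← sum_mul]
      calc (∑ r ∈ Ico 1 s, ‖FH H ((r : ℝ) / s)‖ ^ 2) * ((A : ℝ) * q / s)
          ≤ ((s : ℝ) * H) * ((A : ℝ) * q / s) := by
            have := prs s H hs1
            gcongr
        _ = _ := by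
            field_simp
    have h6 : ∑ k ∈ Ico 1 (a * q), (1 / (a : ℝ)) ^ 2 *
        ‖FH H (pspl q ⟨a, k⟩)‖ ^ 2 * ((A : ℝ) * q / ((a * q / Nat.gcd k (a * q) : ℕ) : ℝ)) =
        (1 / (a : ℝ)) ^ 2 * ∑ k ∈ Ico 1 (a * q),
        ‖FH H (((k / Nat.gcd k (a * q) : ℕ) : ℝ) / ((a * q / Nat.gcd k (a * q) : ℕ) : ℝ))‖ ^ 2 *
        ((A : ℝ) * q / ((a * q / Nat.gcd k (a * q) : ℕ) : ℝ)) := by
      rw [mul_sum]
      refine sum_congr rfl fun k hk => ?_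
      rw [← h3 k hk]
      ring
    change ∑ k ∈ Ico 1 (a * q), (1 / (a : ℝ)) ^ 2 *
        ‖FH H (pspl q ⟨a, k⟩)‖ ^ 2 * ((A : ℝ) * q / ((a * q / Nat.gcd k (a * q) : ℕ) : ℝ)) ≤ _
    rw [h6]
    have h7 : (1 / (a : ℝ)) ^ 2 ≤ 1024 / (A : ℝ) ^ 2 := by
      have h8 : (A : ℝ) ≤ 32 * a := by exact_mod_cast ha.2
      rw [div_pow, one_pow, div_le_div_iff₀ (by positivity) (by positivity)]
      nlinarith
    have h9 := psp_div a q
    calc (1 / (a : ℝ)) ^ 2 * ∑ k ∈ Ico 1 (a * q),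
        ‖FH H (((k / Nat.gcd k (a * q) : ℕ) : ℝ) / ((a * q / Nat.gcd k (a * q) : ℕ) : ℝ))‖ ^ 2 *
        ((A : ℝ) * q / ((a * q / Nat.gcd k (a * q) : ℕ) : ℝ))
        ≤ (1024 / (A : ℝ) ^ 2) * (((q : ℝ) * a.divisors.card) * ((A : ℝ) * q * H)) := by
          apply mul_le_mul h7 _ (Finset.sum_nonneg fun k _ => by positivity) (by positivity)
          refine h2.trans (h5.trans ?_)
          gcongr
      _ = _ := by
          field_simp
  refine (sum_le_sum h1).trans ?_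
  rw [← mul_sum]
  have h2 : ∑ a ∈ (Icc 1 A).filter (fun a => A ≤ 32 * a), (a.divisors.card : ℝ) ≤
      A * (1 + Real.log A) := by
    refine le_trans ?_ (psp_tau A)
    apply Finset.sum_le_sum_of_subset_of_nonneg (filter_subset _ _)
    intro a _ _
    positivity
  calc (1024 * q ^ 2 * H / A : ℝ) * ∑ a ∈ (Icc 1 A).filter (fun a => A ≤ 32 * a),
        (a.divisors.card : ℝ)
      ≤ (1024 * q ^ 2 * H / A : ℝ) * (A * (1 + Real.log A)) := by gcongr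
    _ = _ := by
      field_simp

open Classical in
theorem psp {q : ℕ} [NeZero q] (χ : DirichletCharacter ℂ q) (g : ℕ → ℂ) (A H U V : ℕ) (G : ℝ)
    (hA : 1 ≤ A) (hG : ∀ a, ‖g a‖ ≤ G) (hUV : U ≤ V) (u w : ℕ → ℕ) :
    ∑ x ∈ Ioc U V, ‖∑ a ∈ (Icc 1 A).filter (fun a => A ≤ 32 * a),
      if u a < x ∧ x ≤ w a then
        g a * (∑ n ∈ (Ioc x (x + H)).filter (fun n => a ∣ n), χ (n / a : ℕ) -
          (LF.rho χ : ℂ) * H / a) else 0‖ ^ 2 ≤
      2000 * G ^ 2 * (q : ℝ) ^ 3 * (1 + Real.log (A * q : ℕ)) ^ 2 * (((V : ℝ) - U) + (A : ℝ) ^ 2) *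
        H := by
  have hq : 1 ≤ q := NeZero.one_le
  have hA0 : (1 : ℝ) ≤ A := by exact_mod_cast hA
  have hq0 : (1 : ℝ) ≤ q := by exact_mod_cast hq
  have hG0 : 0 ≤ G := (norm_nonneg _).trans (hG 0)
  have hT : 0 ≤ (V : ℝ) - U := by
    have : (U : ℝ) ≤ V := by exact_mod_cast hUV
    linarith
  have hfou : ∀ a : ℕ, ∃ c : ℕ → ℂ, 1 ≤ a →
      ((∀ k, ‖c k‖ ≤ (1 / (a : ℝ)) * ‖FH H ((k : ℝ) / (a * q : ℕ))‖) ∧
      ∀ x : ℕ, ∑ n ∈ (Ioc x (x + H)).filter (fun n => a ∣ n), χ (n / a : ℕ) -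
        (LF.rho χ : ℂ) * H / a =
      ∑ k ∈ Ico 1 (a * q), c k * H26.LDP.e ((x : ℝ) * ((k : ℝ) / (a * q : ℕ)))) := by
    intro a
    by_cases ha : 1 ≤ a
    · obtain ⟨c, hc⟩ := fou χ a H ha
      exact ⟨c, fun _ => hc⟩
    · exact ⟨0, fun h => absurd h ha⟩
  choose c hc using hfou
  have hrw : ∀ x ∈ Ioc U V, ‖∑ a ∈ (Icc 1 A).filter (fun a => A ≤ 32 * a),
      (if u a < x ∧ x ≤ w a then
        g a * (∑ n ∈ (Ioc x (x + H)).filter (fun n => a ∣ n), χ (n / a : ℕ) -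
          (LF.rho χ : ℂ) * H / a) else 0)‖ ^ 2 =
      ‖∑ j ∈ pspJ A q, if u j.1 < x ∧ x ≤ w j.1 then
        (g j.1 * c j.1 j.2) * H26.LDP.e ((x : ℝ) * pspl q j) else 0‖ ^ 2 := by
    intro x _
    congr 2
    unfold pspJ
    rw [Finset.sum_sigma]
    refine sum_congr rfl fun a ha => ?_
    rw [mem_filter, mem_Icc] at ha
    by_cases h : u a < x ∧ x ≤ w a
    · rw [if_pos h, (hc a ha.1.1).2 x, mul_sum]
      refine sum_congr rfl fun k _ => ?_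
      change _ = if u a < x ∧ x ≤ w a then _ else _
      rw [if_pos h]
      unfold pspl
      ring
    · rw [if_neg h, eq_comm]
      refine sum_eq_zero fun k _ => ?_
      change (if u a < x ∧ x ≤ w a then _ else _) = _
      rw [if_neg h]
  rw [sum_congr rfl hrw]
  refine (sch (pspJ A q) (fun j => g j.1 * c j.1 j.2) (pspl q) (fun j => u j.1)
    (fun j => w j.1) U V hUV).trans ?_
  obtain ⟨L, hL⟩ : ∃ L : ℝ, L = 1 + Real.log (A * q : ℕ) := ⟨_, rfl⟩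
  have hAq : A ≤ A * q := Nat.le_mul_of_pos_right A (by omega)
  have hLA : 1 + Real.log A ≤ L := by
    rw [hL]
    have : Real.log A ≤ Real.log (A * q : ℕ) :=
      Real.log_le_log (by linarith) (by exact_mod_cast hAq)
    linarith
  have hL0 : 0 ≤ 1 + Real.log (A : ℝ) := by
    have := Real.log_nonneg hA0
    linarith
  have hL1 : 1 ≤ L := by
    have := Real.log_nonneg hA0
    linarith
  -- each term
  have hterm : ∀ j ∈ pspJ A q, ‖g j.1 * c j.1 j.2‖ ^ 2 * ∑ j' ∈ pspJ A q,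
        (if H26.LDP.nn (pspl q j - pspl q j') = 0 then ((V : ℝ) - U)
          else 1 / (2 * H26.LDP.nn (pspl q j - pspl q j'))) ≤
      G ^ 2 * (((V : ℝ) - U) * ((1 / (j.1 : ℝ)) ^ 2 * ‖FH H (pspl q j)‖ ^ 2 *
        ((A : ℝ) * q / ((j.1 * q / Nat.gcd j.2 (j.1 * q) : ℕ) : ℝ))) +
        5 * ((A * q : ℕ) : ℝ) ^ 2 * L * ((1 / (j.1 : ℝ)) ^ 2 * ‖FH H (pspl q j)‖ ^ 2)) := by
    intro j hj
    have hjm := (pspJ_mem A q j).1 hj
    have hg : 0 < Nat.gcd j.2 (j.1 * q) := Nat.gcd_pos_of_pos_left _ (by omega)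
    have hg' : (0 : ℝ) < (Nat.gcd j.2 (j.1 * q) : ℕ) := by exact_mod_cast hg
    have h1 : pspl q j = ((j.2 / Nat.gcd j.2 (j.1 * q) : ℕ) : ℝ) /
        ((j.1 * q / Nat.gcd j.2 (j.1 * q) : ℕ) : ℝ) := by
      rw [Nat.cast_div (Nat.gcd_dvd_left _ _) hg'.ne',
        Nat.cast_div (Nat.gcd_dvd_right _ _) hg'.ne', div_div_div_cancel_right₀ hg'.ne']
      rfl
    have h2 := psp_inner A q (j.2 / Nat.gcd j.2 (j.1 * q)) (j.1 * q / Nat.gcd j.2 (j.1 * q))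
      ((V : ℝ) - U) hT hq (Nat.div_pos (Nat.gcd_le_left _ (by omega)) hg)
      (Nat.div_lt_div_of_lt_of_dvd (Nat.gcd_dvd_right _ _) hjm.2.2)
      (Nat.coprime_div_gcd_div_gcd hg)
      ((Nat.div_le_self _ _).trans (Nat.mul_le_mul_right _ hjm.1.1.2))
    rw [← h1, ← hL] at h2
    have h3 : ‖g j.1 * c j.1 j.2‖ ^ 2 ≤ G ^ 2 * ((1 / (j.1 : ℝ)) ^ 2 *
        ‖FH H (pspl q j)‖ ^ 2) := by
      have h4 := (hc j.1 hjm.1.1.1).1 j.2
      have h5 : ‖g j.1 * c j.1 j.2‖ ≤ G * ((1 / (j.1 : ℝ)) * ‖FH H (pspl q j)‖) := by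
        rw [norm_mul]
        exact mul_le_mul (hG _) h4 (norm_nonneg _) hG0
      calc ‖g j.1 * c j.1 j.2‖ ^ 2 ≤ (G * ((1 / (j.1 : ℝ)) * ‖FH H (pspl q j)‖)) ^ 2 := by
            gcongr
        _ = _ := by ring
    calc ‖g j.1 * c j.1 j.2‖ ^ 2 * ∑ j' ∈ pspJ A q,
        (if H26.LDP.nn (pspl q j - pspl q j') = 0 then ((V : ℝ) - U)
          else 1 / (2 * H26.LDP.nn (pspl q j - pspl q j')))
        ≤ (G ^ 2 * ((1 / (j.1 : ℝ)) ^ 2 * ‖FH H (pspl q j)‖ ^ 2)) *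
          (((V : ℝ) - U) * ((A : ℝ) * q / ((j.1 * q / Nat.gcd j.2 (j.1 * q) : ℕ) : ℝ)) +
            5 * ((A * q : ℕ) : ℝ) ^ 2 * L) := by
          apply mul_le_mul h3 h2 _ (by positivity)
          apply Finset.sum_nonneg
          intro j' _
          split_ifs
          · exact hT
          · have := H26.LDP.nn_nonneg (pspl q j - pspl q j')
            positivity
      _ = _ := by ring
  refine (sum_le_sum hterm).trans ?_
  rw [← mul_sum, sum_add_distrib, ← mul_sum, ← mul_sum]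
  have e1 := psp_sum1 A q H hA
  have e2 := psp_sum2 A q H hA hq
  have e3 : ∑ j ∈ pspJ A q, (1 / (j.1 : ℝ)) ^ 2 * ‖FH H (pspl q j)‖ ^ 2 *
      ((A : ℝ) * q / ((j.1 * q / Nat.gcd j.2 (j.1 * q) : ℕ) : ℝ)) ≤
      1024 * q ^ 2 * H * L := by
    refine e2.trans ?_
    gcongr
  have e4 : ∑ j ∈ pspJ A q, (1 / (j.1 : ℝ)) ^ 2 * ‖FH H (pspl q j)‖ ^ 2 ≤ q * H * L := by
    refine e1.trans ?_
    gcongr
  calc G ^ 2 * (((V : ℝ) - U) * ∑ j ∈ pspJ A q, (1 / (j.1 : ℝ)) ^ 2 * ‖FH H (pspl q j)‖ ^ 2 *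
      ((A : ℝ) * q / ((j.1 * q / Nat.gcd j.2 (j.1 * q) : ℕ) : ℝ)) +
      5 * ((A * q : ℕ) : ℝ) ^ 2 * L * ∑ j ∈ pspJ A q, (1 / (j.1 : ℝ)) ^ 2 *
        ‖FH H (pspl q j)‖ ^ 2)
      ≤ G ^ 2 * (((V : ℝ) - U) * (1024 * q ^ 2 * H * L) +
      5 * ((A * q : ℕ) : ℝ) ^ 2 * L * (q * H * L)) := by
        gcongr
    _ ≤ G ^ 2 * (((V : ℝ) - U) * (1024 * q ^ 3 * H * L ^ 2) +
      5 * (A : ℝ) ^ 2 * q ^ 3 * L ^ 2 * H) := by
        have e5 : 1024 * (q : ℝ) ^ 2 * H * L ≤ 1024 * q ^ 3 * H * L ^ 2 := by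
          have e6 : (q : ℝ) ^ 2 ≤ q ^ 3 := pow_le_pow_right₀ hq0 (by norm_num)
          have e7 : L ≤ L ^ 2 := by nlinarith
          gcongr
        have e8 : 5 * ((A * q : ℕ) : ℝ) ^ 2 * L * (q * H * L) =
            5 * (A : ℝ) ^ 2 * q ^ 3 * L ^ 2 * H := by
          push_cast
          ring
        rw [e8]
        gcongr
    _ ≤ _ := by
        rw [← hL]
        have e9 : 0 ≤ G ^ 2 * (q : ℝ) ^ 3 * L ^ 2 * H := by positivity
        have e10 : 0 ≤ G ^ 2 * (q : ℝ) ^ 3 * L ^ 2 * H * ((V : ℝ) - U) := by positivity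
        have e11 : 0 ≤ G ^ 2 * (q : ℝ) ^ 3 * L ^ 2 * H * (A : ℝ) ^ 2 := by positivity
        nlinarith

end Pool.Agent.H43.HX
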