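import Pool.Agent.H43.UF.Psi
import Pool.Agent.H43.SI.Add
import Pool.Agent.H43.HX.Hbx

/-!
# [H43 HX WIN] Primes in almost all windows of length `X^(1/6+ε)`, residue classes

PROOF. `ℓ = log X`, `ε' = min (ε/3) (1/12)`. `hbx` with `(B, A+2, ε')` gives `K0`; `K = K0`, `A1 = K`, `H1 = ⌊Xℓ^(-K)⌋`. For `x ∈ (X, 2X]`:
`Σ_{n∈(x,x+H1]} Λ(n)χ(n) = ψ(x+H1,χ) - ψ(x,χ) = 1[χ=1] H1 + O(6X (ℓ/2)^(-A-K-3)..)` by `UF.psiu` with `(B+1.., A+K+3)` (arguments in `[X,3X]`), so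
`‖wn (Λχ) H1 x/H1 - 1[χ=1]‖ <= ℓ^(-A-2)` and `Σ_x ‖wn (Λχ) H x/H - 1[χ=1]‖^2 <= 2Xℓ^(-A-2) + 4X ℓ^(-2A-4) <= X ℓ^(-A)`, for every `χ mod q`.
For a unit `a`: `th q a x H = φ(q)^(-1) Σ_χ χ(a⁻¹) wn (Λχ) H x` (`DirichletCharacter.sum_char_inv_mul_char_eq`, see `SI/Ap.lean`), so
`th q a x H - H/φ(q) = φ(q)^(-1) Σ_χ χ(a⁻¹) (wn (Λχ) H x - 1[χ=1] H)`, Cauchy-Schwarz: the square is `<= φ(q)^(-1) Σ_χ ‖..‖^2`. Sum over `x`.
-/

namespace Pool.Agent.H43.HX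

open Finset

/-- the window of `Λ χ` minus its expected value -/
private noncomputable def wd (H x : ℕ) {q : ℕ} (χ : DirichletCharacter ℂ q) : ℂ :=
  wn (fun n => ((ArithmeticFunction.vonMangoldt n : ℝ) : ℂ) * χ n) H x -
    (open Classical in if χ = 1 then (H : ℂ) else 0)

private theorem wp_eq (q : ℕ) [NeZero q] (a : ZMod q) (ha : IsUnit a) (H x : ℕ) :
    (((SI.th q a x H - H / q.totient : ℝ)) : ℂ) =
      (q.totient : ℂ)⁻¹ * ∑ χ : DirichletCharacter ℂ q, χ a⁻¹ * wd H x χ := by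
  have hq : (q.totient : ℂ) ≠ 0 := by
    exact_mod_cast (Nat.totient_pos.2 (Nat.pos_of_ne_zero (NeZero.ne q))).ne'
  have h1 : ∑ χ : DirichletCharacter ℂ q, χ a⁻¹ *
      wn (fun n => ((ArithmeticFunction.vonMangoldt n : ℝ) : ℂ) * χ n) H x =
      (q.totient : ℂ) * (SI.th q a x H : ℝ) := by
    have e1 : ∀ χ : DirichletCharacter ℂ q, χ a⁻¹ *
        wn (fun n => ((ArithmeticFunction.vonMangoldt n : ℝ) : ℂ) * χ n) H x =
        ∑ n ∈ Ioc x (x + H),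
          ((ArithmeticFunction.vonMangoldt n : ℝ) : ℂ) * (χ a⁻¹ * χ (n : ZMod q)) := by
      intro χ
      unfold wn
      rw [Finset.mul_sum]
      refine Finset.sum_congr rfl fun n _ => ?_
      ring
    rw [Finset.sum_congr rfl fun χ _ => e1 χ, Finset.sum_comm]
    have e2 : ∀ n ∈ Ioc x (x + H),
        ∑ χ : DirichletCharacter ℂ q,
          ((ArithmeticFunction.vonMangoldt n : ℝ) : ℂ) * (χ a⁻¹ * χ (n : ZMod q)) =
        (q.totient : ℂ) *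
          (if (n : ZMod q) = a then ((ArithmeticFunction.vonMangoldt n : ℝ) : ℂ) else 0) := by
      intro n _
      rw [← Finset.mul_sum, DirichletCharacter.sum_char_inv_mul_char_eq ℂ ha]
      by_cases h : (n : ZMod q) = a
      · rw [if_pos h, if_pos h.symm]
        ring
      · rw [if_neg h, if_neg (fun h' => h h'.symm)]
        ring
    rw [Finset.sum_congr rfl e2, ← Finset.mul_sum]
    congr 1
    unfold SI.th
    rw [Complex.ofReal_sum, Finset.sum_filter]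
  have h2 : ∑ χ : DirichletCharacter ℂ q, χ a⁻¹ *
      (open Classical in if χ = 1 then (H : ℂ) else 0) = (H : ℂ) := by
    classical
    rw [Finset.sum_eq_single (1 : DirichletCharacter ℂ q)]
    · rw [if_pos rfl]
      have hu : IsUnit a⁻¹ := by
        obtain ⟨u, rfl⟩ := ha
        rw [ZMod.inv_coe_unit]
        exact Units.isUnit _
      rw [MulChar.one_apply hu, one_mul]
    · intro χ _ hχ
      rw [if_neg hχ, mul_zero]
    · intro h
      exact absurd (Finset.mem_univ _) h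
  have h3 : ∑ χ : DirichletCharacter ℂ q, χ a⁻¹ * wd H x χ =
      (q.totient : ℂ) * (SI.th q a x H : ℝ) - (H : ℂ) := by
    rw [← h1]
    conv_rhs => rw [← h2]
    rw [← Finset.sum_sub_distrib]
    refine Finset.sum_congr rfl fun χ _ => ?_
    unfold wd
    ring
  rw [h3, mul_sub, inv_mul_cancel_left₀ hq]
  push_cast
  field_simp

private theorem wp_card (q : ℕ) [NeZero q] :
    ((univ : Finset (DirichletCharacter ℂ q)).card : ℝ) = q.totient := by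
  have h := DirichletCharacter.card_eq_totient_of_hasEnoughRootsOfUnity ℂ q
  rw [Nat.card_eq_fintype_card] at h
  rw [Finset.card_univ]
  exact_mod_cast h

private theorem wp_pt (q : ℕ) [NeZero q] (a : ZMod q) (ha : IsUnit a) (H x : ℕ) :
    (SI.th q a x H - H / q.totient) ^ 2 ≤
      (q.totient : ℝ)⁻¹ * ∑ χ : DirichletCharacter ℂ q, ‖wd H x χ‖ ^ 2 := by
  have hq : (0 : ℝ) < q.totient := by
    exact_mod_cast (Nat.totient_pos.2 (Nat.pos_of_ne_zero (NeZero.ne q)))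
  have h1 : (SI.th q a x H - H / q.totient) ^ 2 =
      ‖(q.totient : ℂ)⁻¹ * ∑ χ : DirichletCharacter ℂ q, χ a⁻¹ * wd H x χ‖ ^ 2 := by
    rw [← wp_eq q a ha, Complex.norm_real, Real.norm_eq_abs, sq_abs]
  rw [h1, norm_mul, norm_inv, Complex.norm_natCast]
  have h2 : ‖∑ χ : DirichletCharacter ℂ q, χ a⁻¹ * wd H x χ‖ ≤
      ∑ χ : DirichletCharacter ℂ q, ‖wd H x χ‖ := by
    refine (norm_sum_le _ _).trans (Finset.sum_le_sum fun χ _ => ?_)
    rw [norm_mul]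
    exact mul_le_of_le_one_left (norm_nonneg _) (DirichletCharacter.norm_le_one χ _)
  have h3 : (∑ χ : DirichletCharacter ℂ q, ‖wd H x χ‖) ^ 2 ≤
      q.totient * ∑ χ : DirichletCharacter ℂ q, ‖wd H x χ‖ ^ 2 := by
    have := sq_sum_le_card_mul_sum_sq (s := (univ : Finset (DirichletCharacter ℂ q)))
      (f := fun χ => ‖wd H x χ‖)
    rwa [wp_card] at this
  have h4 : 0 ≤ ∑ χ : DirichletCharacter ℂ q, ‖wd H x χ‖ ^ 2 := Finset.sum_nonneg fun _ _ => sq_nonneg _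
  calc ((q.totient : ℝ)⁻¹ * ‖∑ χ : DirichletCharacter ℂ q, χ a⁻¹ * wd H x χ‖) ^ 2
      ≤ ((q.totient : ℝ)⁻¹ * ∑ χ : DirichletCharacter ℂ q, ‖wd H x χ‖) ^ 2 := by
        refine pow_le_pow_left₀ (by positivity) ?_ 2
        exact mul_le_mul_of_nonneg_left h2 (by positivity)
    _ = ((q.totient : ℝ)⁻¹) ^ 2 * (∑ χ : DirichletCharacter ℂ q, ‖wd H x χ‖) ^ 2 := by ring
    _ ≤ ((q.totient : ℝ)⁻¹) ^ 2 * (q.totient * ∑ χ : DirichletCharacter ℂ q, ‖wd H x χ‖ ^ 2) := by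
        gcongr
    _ = (q.totient : ℝ)⁻¹ * ∑ χ : DirichletCharacter ℂ q, ‖wd H x χ‖ ^ 2 := by
        field_simp

/-- the long window -/
private theorem wd_long (B A' : ℝ) (hB : 0 < B) (hA' : 0 < A') : ∃ X0 : ℝ, 10 ≤ X0 ∧ ∀ X : ℝ, X0 ≤ X →
    ∀ (q : ℕ) [NeZero q], (q : ℝ) ≤ (Real.log X) ^ B → ∀ (χ : DirichletCharacter ℂ q) (H1 x : ℕ),
    (H1 : ℝ) ≤ X → X ≤ x → (x : ℝ) ≤ 2 * X →
    ‖wd H1 x χ‖ ≤ 6 * X * (Real.log X) ^ (-A') := by
  obtain ⟨X0, hX0, h0⟩ := UF.psiu B A' hB hA'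
  refine ⟨X0, hX0, fun X hX q _ hq χ H1 x hH1 hx1 hx2 => ?_⟩
  have hX10 : 10 ≤ X := hX0.trans hX
  have hl0 : 0 < Real.log X := Real.log_pos (by linarith)
  have key : ∀ y : ℕ, X ≤ y → (y : ℝ) ≤ 3 * X →
      ‖∑ n ∈ Icc 1 y, ((ArithmeticFunction.vonMangoldt n : ℝ) : ℂ) * χ n -
        (open Classical in if χ = 1 then (y : ℂ) else 0)‖ ≤ 3 * X * (Real.log X) ^ (-A') := by
    intro y hy1 hy2
    have hly : Real.log X ≤ Real.log y := Real.log_le_log (by linarith) hy1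
    have h1 := h0 (y : ℝ) (hX.trans hy1) q (hq.trans (Real.rpow_le_rpow hl0.le hly hB.le)) χ
    rw [Nat.floor_natCast] at h1
    refine (le_of_eq ?_).trans (h1.trans ?_)
    · rw [Complex.ofReal_natCast]
    · have h2 : (Real.log y) ^ (-A') ≤ (Real.log X) ^ (-A') :=
        Real.rpow_le_rpow_of_nonpos hl0 hly (by linarith)
      have h3 : (0 : ℝ) ≤ (Real.log y) ^ (-A') := Real.rpow_nonneg (hl0.le.trans hly) _
      exact mul_le_mul hy2 h2 h3 (by linarith)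
  have hsplit : wd H1 x χ =
      (∑ n ∈ Icc 1 (x + H1), ((ArithmeticFunction.vonMangoldt n : ℝ) : ℂ) * χ n -
        (open Classical in if χ = 1 then (((x + H1 : ℕ)) : ℂ) else 0)) -
      (∑ n ∈ Icc 1 x, ((ArithmeticFunction.vonMangoldt n : ℝ) : ℂ) * χ n -
        (open Classical in if χ = 1 then (x : ℂ) else 0)) := by
    unfold wd wn
    have e1 : ∑ n ∈ Icc 1 (x + H1), ((ArithmeticFunction.vonMangoldt n : ℝ) : ℂ) * χ n =
        ∑ n ∈ Icc 1 x, ((ArithmeticFunction.vonMangoldt n : ℝ) : ℂ) * χ n +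
        ∑ n ∈ Ioc x (x + H1), ((ArithmeticFunction.vonMangoldt n : ℝ) : ℂ) * χ n := by
      rw [← Finset.sum_union]
      · refine Finset.sum_congr ?_ fun _ _ => rfl
        ext n
        simp only [mem_union, mem_Icc, mem_Ioc]
        omega
      · rw [Finset.disjoint_left]
        intro n hn hn'
        simp only [mem_Icc, mem_Ioc] at hn hn'
        omega
    rw [e1]
    split_ifs <;> push_cast <;> ring
  rw [hsplit]
  have h1 := key (x + H1) (by push_cast; linarith [Nat.cast_nonneg (α := ℝ) H1]) (by push_cast; linarith)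
  have h2 := key x hx1 (by linarith)
  refine (norm_sub_le _ _).trans ?_
  linarith

/-- comparison of the short and the long window -/
private theorem wd_short {q : ℕ} (χ : DirichletCharacter ℂ q) (H H1 x : ℕ) (hH : 0 < H) (hH1 : 0 < H1) :
    ‖wd H x χ‖ ^ 2 ≤ (H : ℝ) ^ 2 * (2 * ‖dw (fun n => ((ArithmeticFunction.vonMangoldt n : ℝ) : ℂ) * χ n)
      H H1 x‖ ^ 2 + 2 * (‖wd H1 x χ‖ / H1) ^ 2) := by
  have hHc : (H : ℂ) ≠ 0 := by exact_mod_cast hH.ne'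
  have hH1c : (H1 : ℂ) ≠ 0 := by exact_mod_cast hH1.ne'
  have e : wd H x χ = (H : ℂ) * (dw (fun n => ((ArithmeticFunction.vonMangoldt n : ℝ) : ℂ) * χ n)
      H H1 x + wd H1 x χ / H1) := by
    unfold wd dw
    split_ifs
    · field_simp
      ring
    · field_simp
      ring
  rw [e, norm_mul, Complex.norm_natCast, mul_pow]
  refine mul_le_mul_of_nonneg_left ?_ (by positivity)
  have h1 := norm_add_le (dw (fun n => ((ArithmeticFunction.vonMangoldt n : ℝ) : ℂ) * χ n)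
      H H1 x) (wd H1 x χ / H1)
  rw [norm_div, Complex.norm_natCast] at h1
  have h2 := pow_le_pow_left₀ (norm_nonneg _) h1 2
  nlinarith [sq_nonneg (‖dw (fun n => ((ArithmeticFunction.vonMangoldt n : ℝ) : ℂ) * χ n)
      H H1 x‖ - ‖wd H1 x χ‖ / H1)]

theorem win (B A ε : ℝ) (hB : 0 < B) (hA : 0 < A) (hε : 0 < ε) :
    ∃ A1 X0 : ℝ, 0 < A1 ∧ 10 ≤ X0 ∧ ∀ X : ℝ, X0 ≤ X →
    ∀ (q : ℕ) [NeZero q], (q : ℝ) ≤ (Real.log X) ^ B → ∀ a : ZMod q, IsUnit a → ∀ H : ℕ,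
    X ^ ((1 : ℝ) / 6 + ε) ≤ H → (H : ℝ) ≤ X * (Real.log X) ^ (-A1) →
    ∑ n ∈ Ioc ⌊X⌋₊ ⌊2 * X⌋₊, (SI.th q a n H - H / q.totient) ^ 2 ≤
      X * (H : ℝ) ^ 2 * (Real.log X) ^ (-A) := by
  set ε' : ℝ := min (ε / 3) (1 / 12) with hε'
  have hε'0 : 0 < ε' := lt_min (by linarith) (by norm_num)
  have hε'1 : ε' ≤ 1 / 12 := min_le_right _ _
  have hε'2 : 3 * ε' ≤ ε := by
    have := min_le_left (ε / 3) (1 / 12 : ℝ)
    linarith
  obtain ⟨K, hK, hK0⟩ := hbx B (A + 2) ε' hB (by linarith) hε'0 hε'1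
  obtain ⟨X1, hX1, h1⟩ := hK0 K le_rfl
  obtain ⟨X2, hX2, h2⟩ := wd_long B (A + K + 3) hB (by linarith)
  -- `X` large
  have hev : ∀ᶠ X : ℝ in Filter.atTop, 12 ≤ Real.log X ∧ 2 * (Real.log X) ^ K ≤ X := by
    have e1 : ∀ᶠ X : ℝ in Filter.atTop, 12 ≤ Real.log X :=
      Real.tendsto_log_atTop.eventually_ge_atTop 12
    have e2 : ∀ᶠ X : ℝ in Filter.atTop, ‖(Real.log X) ^ K‖ ≤ (1 / 2) * ‖X ^ (1 : ℝ)‖ :=
      (isLittleO_log_rpow_rpow_atTop K (by norm_num : (0 : ℝ) < 1)).bound (by norm_num)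
    filter_upwards [e1, e2, Filter.eventually_ge_atTop (1 : ℝ)] with X g1 g2 g3
    refine ⟨g1, ?_⟩
    rw [Real.rpow_one, Real.norm_of_nonneg (by linarith : (0 : ℝ) ≤ X),
      Real.norm_of_nonneg (Real.rpow_nonneg (by linarith) _)] at g2
    linarith
  obtain ⟨X3, h3⟩ := Filter.eventually_atTop.1 hev
  refine ⟨K, max (max X1 X2) X3, hK, hX1.trans ((le_max_left _ _).trans (le_max_left _ _)),
    fun X hX q _ hq a ha H hH1 hH2 => ?_⟩
  have hXa : X1 ≤ X := (le_max_left _ _).trans ((le_max_left _ _).trans hX)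
  have hXb : X2 ≤ X := (le_max_right _ _).trans ((le_max_left _ _).trans hX)
  obtain ⟨hl12, hXK⟩ := h3 X ((le_max_right _ _).trans hX)
  have hX10 : 10 ≤ X := hX1.trans hXa
  set l := Real.log X with hl
  have hl0 : 0 < l := by linarith
  have hHpos : 0 < H := by
    have : (0 : ℝ) < H := lt_of_lt_of_le (Real.rpow_pos_of_pos (by linarith) _) hH1
    exact_mod_cast this
  have hHr : (0 : ℝ) < H := by exact_mod_cast hHpos
  -- the long window
  set H1 := ⌊X * l ^ (-K)⌋₊ with hH1d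
  have hlK : l ^ (-K) = (l ^ K)⁻¹ := Real.rpow_neg hl0.le K
  have hlKpos : 0 < l ^ K := Real.rpow_pos_of_pos hl0 K
  have hXl : 2 ≤ X * l ^ (-K) := by
    rw [hlK, ← div_eq_mul_inv, le_div_iff₀ hlKpos]
    exact hXK
  have hH1lo : X * l ^ (-K) / 2 ≤ H1 := by
    have := Nat.lt_floor_add_one (X * l ^ (-K))
    rw [← hH1d] at this
    linarith
  have hH1hi : (H1 : ℝ) ≤ X * l ^ (-K) := Nat.floor_le (by linarith)
  have hH1pos : (0 : ℝ) < H1 := by linarith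
  have hH1n : 0 < H1 := by exact_mod_cast hH1pos
  have hH1X : (H1 : ℝ) ≤ X := by
    refine hH1hi.trans ?_
    have : l ^ (-K) ≤ 1 := Real.rpow_le_one_of_one_le_of_nonpos (by linarith) (by linarith)
    exact mul_le_of_le_one_right (by linarith) this
  have hlong : ∀ (χ : DirichletCharacter ℂ q) (x : ℕ), x ∈ Ioc ⌊X⌋₊ ⌊2 * X⌋₊ →
      ‖wd H1 x χ‖ / H1 ≤ l ^ (-(A + 2)) := by
    intro χ x hx
    rw [mem_Ioc] at hx
    have hx1 : X ≤ x := ((Nat.floor_lt (by linarith)).1 hx.1).le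
    have hx2 : (x : ℝ) ≤ 2 * X := (Nat.le_floor_iff (by linarith)).1 hx.2
    have g := h2 X hXb q hq χ H1 x hH1X hx1 hx2
    rw [div_le_iff₀ hH1pos]
    refine g.trans ?_
    have e1 : l ^ (-(A + K + 3)) = l ^ (-(A + 2)) * l ^ (-K) * l⁻¹ := by
      rw [← Real.rpow_neg_one, ← Real.rpow_add hl0, ← Real.rpow_add hl0]
      congr 1
      ring
    have hp : 0 < l ^ (-(A + 2)) * l ^ (-K) := by positivity
    have hinv : l⁻¹ ≤ 1 / 12 := by
      rw [inv_le_comm₀ hl0 (by norm_num)]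
      norm_num
      exact hl12
    calc 6 * X * l ^ (-(A + K + 3)) = 6 * X * (l ^ (-(A + 2)) * l ^ (-K)) * l⁻¹ := by rw [e1]; ring
      _ ≤ 6 * X * (l ^ (-(A + 2)) * l ^ (-K)) * (1 / 12) := by
          refine mul_le_mul_of_nonneg_left hinv (by positivity)
      _ = l ^ (-(A + 2)) * (X * l ^ (-K) / 2) := by ring
      _ ≤ l ^ (-(A + 2)) * H1 := mul_le_mul_of_nonneg_left hH1lo (by positivity)
  -- the number of `x`
  have hcard : ((Ioc ⌊X⌋₊ ⌊2 * X⌋₊).card : ℝ) ≤ 2 * X := by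
    rw [Nat.card_Ioc]
    have g1 : ((⌊2 * X⌋₊ - ⌊X⌋₊ : ℕ) : ℝ) ≤ ⌊2 * X⌋₊ := by exact_mod_cast Nat.sub_le _ _
    exact g1.trans (Nat.floor_le (by linarith))
  -- every character
  have hchi : ∀ χ : DirichletCharacter ℂ q, ∑ x ∈ Ioc ⌊X⌋₊ ⌊2 * X⌋₊, ‖wd H x χ‖ ^ 2 ≤
      X * (H : ℝ) ^ 2 * l ^ (-A) := by
    intro χ
    have g := h1 X hXa q hq χ H
      ((Real.rpow_le_rpow_of_exponent_le (by linarith) (by linarith)).trans hH1) hH2
    have e2 : l ^ (-(A + 2)) = l ^ (-A) * (l⁻¹) ^ 2 := by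
      rw [← Real.rpow_natCast, ← Real.rpow_neg_one, ← Real.rpow_mul hl0.le, ← Real.rpow_add hl0]
      congr 1
      push_cast
      ring
    have hinv : l⁻¹ ≤ 1 / 12 := by
      rw [inv_le_comm₀ hl0 (by norm_num)]
      norm_num
      exact hl12
    have hinv0 : 0 < l⁻¹ := inv_pos.2 hl0
    have hlA : 0 < l ^ (-A) := Real.rpow_pos_of_pos hl0 _
    have hlA1 : l ^ (-A) ≤ 1 := Real.rpow_le_one_of_one_le_of_nonpos (by linarith) (by linarith)
    have hi2 : (l⁻¹) ^ 2 ≤ 1 / 144 := by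
      have g3 := pow_le_pow_left₀ hinv0.le hinv 2
      norm_num at g3 ⊢
      exact g3
    have hi3 : l ^ (-(A + 2)) ≤ l ^ (-A) * (1 / 144) := by
      rw [e2]
      exact mul_le_mul_of_nonneg_left hi2 hlA.le
    have hi4 : (l ^ (-(A + 2))) ^ 2 ≤ l ^ (-A) * (1 / 144) := by
      have g0 : 0 ≤ l ^ (-(A + 2)) := (Real.rpow_pos_of_pos hl0 _).le
      have g1 : l ^ (-(A + 2)) ≤ 1 := by linarith
      have g2 : l ^ (-(A + 2)) * l ^ (-(A + 2)) ≤ l ^ (-(A + 2)) * 1 :=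
        mul_le_mul_of_nonneg_left g1 g0
      rw [sq]
      linarith
    calc ∑ x ∈ Ioc ⌊X⌋₊ ⌊2 * X⌋₊, ‖wd H x χ‖ ^ 2
        ≤ ∑ x ∈ Ioc ⌊X⌋₊ ⌊2 * X⌋₊, (H : ℝ) ^ 2 * (2 * ‖dw (fun n =>
          ((ArithmeticFunction.vonMangoldt n : ℝ) : ℂ) * χ n) H H1 x‖ ^ 2 +
          2 * (l ^ (-(A + 2))) ^ 2) := by
          refine Finset.sum_le_sum fun x hx => (wd_short χ H H1 x hHpos hH1n).trans ?_
          refine mul_le_mul_of_nonneg_left ?_ (by positivity)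
          have := pow_le_pow_left₀ (by positivity) (hlong χ x hx) 2
          linarith
      _ = (H : ℝ) ^ 2 * (2 * ∑ x ∈ Ioc ⌊X⌋₊ ⌊2 * X⌋₊, ‖dw (fun n =>
          ((ArithmeticFunction.vonMangoldt n : ℝ) : ℂ) * χ n) H H1 x‖ ^ 2 +
          (Ioc ⌊X⌋₊ ⌊2 * X⌋₊).card * (2 * (l ^ (-(A + 2))) ^ 2)) := by
          rw [← Finset.mul_sum, Finset.sum_add_distrib, ← Finset.mul_sum, Finset.sum_const,
            nsmul_eq_mul]
      _ ≤ (H : ℝ) ^ 2 * (2 * (X * l ^ (-(A + 2))) + 2 * X * (2 * (l ^ (-(A + 2))) ^ 2)) := by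
          refine mul_le_mul_of_nonneg_left ?_ (by positivity)
          refine add_le_add (mul_le_mul_of_nonneg_left g (by norm_num)) ?_
          exact mul_le_mul_of_nonneg_right hcard (by positivity)
      _ ≤ (H : ℝ) ^ 2 * (2 * (X * (l ^ (-A) * (1 / 144))) + 2 * X * (2 * (l ^ (-A) * (1 / 144)))) := by
          refine mul_le_mul_of_nonneg_left ?_ (by positivity)
          refine add_le_add ?_ ?_
          · refine mul_le_mul_of_nonneg_left (mul_le_mul_of_nonneg_left hi3 (by linarith)) (by norm_num)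
          · refine mul_le_mul_of_nonneg_left (mul_le_mul_of_nonneg_left hi4 (by norm_num)) (by linarith)
      _ = (6 / 144) * (X * (H : ℝ) ^ 2 * l ^ (-A)) := by ring
      _ ≤ 1 * (X * (H : ℝ) ^ 2 * l ^ (-A)) := by
          refine mul_le_mul_of_nonneg_right (by norm_num) (by positivity)
      _ = X * (H : ℝ) ^ 2 * l ^ (-A) := one_mul _
  have hphi : (0 : ℝ) < q.totient := by
    exact_mod_cast (Nat.totient_pos.2 (Nat.pos_of_ne_zero (NeZero.ne q)))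
  calc ∑ n ∈ Ioc ⌊X⌋₊ ⌊2 * X⌋₊, (SI.th q a n H - H / q.totient) ^ 2
      ≤ ∑ n ∈ Ioc ⌊X⌋₊ ⌊2 * X⌋₊, (q.totient : ℝ)⁻¹ * ∑ χ : DirichletCharacter ℂ q, ‖wd H n χ‖ ^ 2 :=
        Finset.sum_le_sum fun n _ => wp_pt q a ha H n
    _ = (q.totient : ℝ)⁻¹ * ∑ χ : DirichletCharacter ℂ q, ∑ n ∈ Ioc ⌊X⌋₊ ⌊2 * X⌋₊, ‖wd H n χ‖ ^ 2 := by
        rw [← Finset.mul_sum, Finset.sum_comm]
    _ ≤ (q.totient : ℝ)⁻¹ * ∑ χ : DirichletCharacter ℂ q, X * (H : ℝ) ^ 2 * l ^ (-A) := by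
        refine mul_le_mul_of_nonneg_left (Finset.sum_le_sum fun χ _ => hchi χ) (by positivity)
    _ = X * (H : ℝ) ^ 2 * l ^ (-A) := by
        rw [Finset.sum_const, nsmul_eq_mul, wp_card]
        field_simp

end Pool.Agent.H43.HX
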